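import Pool.Agent.Lib.H79T.Core

/-!
# Chunk L1 (S)
Positive semidefinite matrices. `Ps P` gives `Matrix.PosSemidef P` (real), so `P = Bᵀ * B` (Mathlib: `Matrix.posSemidef_iff_eq_conjTranspose_mul_self` or the current name;
`conjTranspose` of a real matrix is `transpose`). `tr_sq_le` for `Fin n`: `L = B * diagonal s * Bᵀ` is symmetric, `L.trace = ∑ a, s a * P a a`,
`(L * L).trace = ∑ a, ∑ b, s a * s b * P a b ^ 2 = ∑ i j, L i j ^ 2 ≥ ∑ i, L i i ^ 2 ≥ (∑ L i i)² / n` (`sq_sum_le_card_mul_sum_sq` / `inner_mul_le_norm_mul_norm`). `pr_nonneg`: `P = Bᵀ B`: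
`pr P W = ∑ k, q6 W (fun a => sg a * B k a) ≥ 0`. `T0_nonneg`: `tr_sq_le` with `n = 6`.
-/

set_option autoImplicit false

open Matrix Finset

namespace H79T

open Pool.Agent.H69Hopf (Arr IsAlgCurv ev area2 idA)
open H30K (gb KB Cyc)
open H21C (Ty)

open scoped MatrixOrder in
theorem l1_psd {n : ℕ} (P : Matrix (Fin n) (Fin n) ℝ) (hP : Pᵀ = P) (h0 : ∀ x : Fin n → ℝ, 0 ≤ x ⬝ᵥ (P *ᵥ x)) :
    ∃ B : Matrix (Fin n) (Fin n) ℝ, P = Bᵀ * B := by
  have h : P.PosSemidef := by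
    refine Matrix.PosSemidef.of_dotProduct_mulVec_nonneg ?_ ?_
    · rw [Matrix.IsHermitian, Matrix.conjTranspose_eq_transpose_of_trivial]; exact hP
    · intro x; simpa using h0 x
  obtain ⟨B, hB⟩ := CStarAlgebra.nonneg_iff_eq_star_mul_self.mp h.nonneg
  exact ⟨B, by rw [hB, Matrix.star_eq_conjTranspose, Matrix.conjTranspose_eq_transpose_of_trivial]⟩

theorem l1_ent {n : ℕ} {P B : Matrix (Fin n) (Fin n) ℝ} (h : P = Bᵀ * B) (a b : Fin n) :
    P a b = ∑ k, B k a * B k b := by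
  rw [h, Matrix.mul_apply]; rfl

theorem tr_sq_le {n : ℕ} (P : Matrix (Fin n) (Fin n) ℝ) (hP : Pᵀ = P) (h0 : ∀ x : Fin n → ℝ, 0 ≤ x ⬝ᵥ (P *ᵥ x)) (s : Fin n → ℝ) :
    (∑ a, s a * P a a) ^ 2 ≤ n * ∑ a, ∑ b, s a * s b * P a b ^ 2 := by
  obtain ⟨B, hB⟩ := l1_psd P hP h0
  have hE := l1_ent hB
  let L : Fin n → Fin n → ℝ := fun i j => ∑ a, s a * B i a * B j a
  have h1 : ∑ a, s a * P a a = ∑ i, L i i := by
    simp only [L, hE, Finset.mul_sum]
    rw [Finset.sum_comm]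
    exact Finset.sum_congr rfl fun i _ => Finset.sum_congr rfl fun a _ => by ring
  have h2 : ∑ a, ∑ b, s a * s b * P a b ^ 2 = ∑ i, ∑ j, L i j ^ 2 := by
    have h3 : ∀ a b, s a * s b * P a b ^ 2 = ∑ i, ∑ j, (s a * B i a * B j a) * (s b * B i b * B j b) := by
      intro a b
      rw [hE, sq, Finset.sum_mul_sum, Finset.mul_sum]
      refine Finset.sum_congr rfl fun i _ => ?_
      rw [Finset.mul_sum]
      exact Finset.sum_congr rfl fun j _ => by ring
    have h4 : ∀ i j, L i j ^ 2 = ∑ a, ∑ b, (s a * B i a * B j a) * (s b * B i b * B j b) := by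
      intro i j
      rw [sq, Finset.sum_mul_sum]
    simp only [h3, h4]
    calc ∑ a, ∑ b, ∑ i, ∑ j, (s a * B i a * B j a) * (s b * B i b * B j b)
        = ∑ a, ∑ i, ∑ b, ∑ j, (s a * B i a * B j a) * (s b * B i b * B j b) :=
          Finset.sum_congr rfl fun a _ => Finset.sum_comm
      _ = ∑ i, ∑ a, ∑ b, ∑ j, (s a * B i a * B j a) * (s b * B i b * B j b) := Finset.sum_comm
      _ = ∑ i, ∑ a, ∑ j, ∑ b, (s a * B i a * B j a) * (s b * B i b * B j b) :=
          Finset.sum_congr rfl fun i _ => Finset.sum_congr rfl fun a _ => Finset.sum_comm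
      _ = ∑ i, ∑ j, ∑ a, ∑ b, (s a * B i a * B j a) * (s b * B i b * B j b) :=
          Finset.sum_congr rfl fun i _ => Finset.sum_comm
  rw [h1, h2]
  have h5 : (∑ i, L i i) ^ 2 ≤ (Finset.univ : Finset (Fin n)).card * ∑ i, L i i ^ 2 := sq_sum_le_card_mul_sum_sq
  rw [Finset.card_univ, Fintype.card_fin] at h5
  refine h5.trans (mul_le_mul_of_nonneg_left ?_ (Nat.cast_nonneg n))
  exact Finset.sum_le_sum fun i _ =>
    Finset.single_le_sum (f := fun j => L i j ^ 2) (fun j _ => sq_nonneg _) (Finset.mem_univ i)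

theorem pr_nonneg {P W : M6} (hP : Ps P) (hW : ∀ x, 0 ≤ q6 W x) : 0 ≤ pr P W := by
  obtain ⟨B, hB⟩ := l1_psd P hP.1 hP.2
  have hE := l1_ent hB
  have h : pr P W = ∑ k, q6 W (fun a => sg a * B k a) := by
    have h1 : ∀ k, q6 W (fun a => sg a * B k a) = ∑ a, ∑ b, sg a * sg b * (B k a * B k b) * W a b := by
      intro k
      rw [q6, dotProduct]
      refine Finset.sum_congr rfl fun a _ => ?_
      rw [Matrix.mulVec, dotProduct, Finset.mul_sum]
      exact Finset.sum_congr rfl fun b _ => by ring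
    simp only [h1]
    rw [pr, Finset.sum_comm' (t' := Finset.univ) (s' := fun _ => Finset.univ) (by simp)]
    rw [Finset.sum_comm]
    have h2 : ∀ a b, sg a * sg b * P a b * W a b = ∑ k, sg a * sg b * (B k a * B k b) * W a b := by
      intro a b
      rw [hE, Finset.mul_sum, Finset.sum_mul]
    simp only [h2]
    calc ∑ a, ∑ b, ∑ k, sg a * sg b * (B k a * B k b) * W a b
        = ∑ a, ∑ k, ∑ b, sg a * sg b * (B k a * B k b) * W a b :=
          Finset.sum_congr rfl fun a _ => Finset.sum_comm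
      _ = ∑ k, ∑ a, ∑ b, sg a * sg b * (B k a * B k b) * W a b := Finset.sum_comm
  rw [h]
  exact Finset.sum_nonneg fun k _ => hW _

theorem T0_nonneg {P : M6} (hP : Ps P) : 0 ≤ T0 P := by
  have h := tr_sq_le P hP.1 hP.2 sg
  rw [T0]
  push_cast at h
  nlinarith [h]

end H79T
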