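import Pool.Agent.Lib.H79T.Core

/-!
# Chunk R1 (L)
The Gauss-Bonnet integrand of a tensor of type (4,2). Verified numerically against the six-dimensional formula. Suggested route: `HopfKC.gb_blocks` (`Lib/H87/HopfKC/Block2.lean`; `lo = 0,1,2`, `hi = 3,4,5`; see
`H21C/T33.lean` for its use) writes `gb R` in the blocks `bT, bA, bC, bL, bM, bG`; all entries of `R` with an odd number of indices in `{4, 5}`, and `R i j 4 5`, `R 4 5 i j` (`i, j < 4`), vanish (`Ty s42 R`), and the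
symmetries of `IsAlgCurv` (antisymmetry, pair symmetry, Bianchi) leave the 20 entries of the `4`-dimensional part (21 with one Bianchi relation `R 0 1 2 3 + R 0 2 3 1 + R 0 3 1 2 = 0`), `A, B, C` (10 each) and `k = R 4 5 4 5`.
Name them by real variables (`generalize`), write both sides explicitly, `ring` (or `linear_combination` with the Bianchi relation). Or expand both sides as polynomials in the entries group by group: the part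
`k * T0 (RP R)` is the four-dimensional integrand of the block, the part `pr (RP R) (Wm ..)` is linear in `RP` and quadratic in `A, B, C`.
`-R` versus `R`: the formula is for any `R` (both sides are odd cubic).
-/

set_option autoImplicit false

open Matrix Finset

namespace H79T

open Pool.Agent.H69Hopf (Arr IsAlgCurv ev area2 idA)
open H30K (gb KB Cyc)
open H21C (Ty)

set_option linter.unusedVariables false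

open HopfKC (lo hi bT bA bC bG bL bM bX bE3 nx pv)

theorem r1_sk2 {R : Arr 6} (hR : IsAlgCurv R) (i j k l : Fin 6) : R i j k l = -R i j l k := by
  rw [hR.pair, hR.skew, hR.pair l k]

theorem r1_z {R : Arr 6} (hs : Ty s42 R) (i j k l : Fin 6)
    (h : ¬((s42 i = s42 k ∧ s42 j = s42 l) ∨ (s42 i = s42 l ∧ s42 j = s42 k))) : R i j k l = 0 := by
  by_contra h0
  exact h (hs _ _ _ _ h0)

theorem r1_e1 {R : Arr 6} (hR : IsAlgCurv R) (i k l : Fin 6) : R i i k l = 0 := by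
  have := hR.skew i i k l
  linarith

theorem r1_e2 {R : Arr 6} (hR : IsAlgCurv R) (i j k : Fin 6) : R i j k k = 0 := by
  rw [hR.pair, r1_e1 hR]

theorem r1_bs {R : Arr 6} (hR : IsAlgCurv R) (hs : Ty s42 R) (i k : Fin 6) (h : s42 i = true ∧ s42 k = true) :
    R i 4 k 5 = R k 4 i 5 := by
  have h1 := hR.bianchi i 4 k 5
  have h2 : R k i 4 5 = 0 := r1_z hs _ _ _ _ (by
    rw [h.1, h.2]
    decide)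
  have h3 := hR.skew 4 k i 5
  linarith

theorem r1_T0000 {R : Arr 6} (hR : IsAlgCurv R) (hs : Ty s42 R) : bT R 0 0 0 0 = R 0 3 0 3 := rfl
theorem r1_T0001 {R : Arr 6} (hR : IsAlgCurv R) (hs : Ty s42 R) : bT R 0 0 0 1 = 0 := r1_z hs _ _ _ _ (by decide)
theorem r1_T0002 {R : Arr 6} (hR : IsAlgCurv R) (hs : Ty s42 R) : bT R 0 0 0 2 = 0 := r1_z hs _ _ _ _ (by decide)
theorem r1_T0010 {R : Arr 6} (hR : IsAlgCurv R) (hs : Ty s42 R) : bT R 0 0 1 0 = R 0 3 1 3 := rfl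
theorem r1_T0011 {R : Arr 6} (hR : IsAlgCurv R) (hs : Ty s42 R) : bT R 0 0 1 1 = 0 := r1_z hs _ _ _ _ (by decide)
theorem r1_T0012 {R : Arr 6} (hR : IsAlgCurv R) (hs : Ty s42 R) : bT R 0 0 1 2 = 0 := r1_z hs _ _ _ _ (by decide)
theorem r1_T0020 {R : Arr 6} (hR : IsAlgCurv R) (hs : Ty s42 R) : bT R 0 0 2 0 = R 0 3 2 3 := rfl
theorem r1_T0021 {R : Arr 6} (hR : IsAlgCurv R) (hs : Ty s42 R) : bT R 0 0 2 1 = 0 := r1_z hs _ _ _ _ (by decide)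
theorem r1_T0022 {R : Arr 6} (hR : IsAlgCurv R) (hs : Ty s42 R) : bT R 0 0 2 2 = 0 := r1_z hs _ _ _ _ (by decide)
theorem r1_T0100 {R : Arr 6} (hR : IsAlgCurv R) (hs : Ty s42 R) : bT R 0 1 0 0 = 0 := r1_z hs _ _ _ _ (by decide)
theorem r1_T0101 {R : Arr 6} (hR : IsAlgCurv R) (hs : Ty s42 R) : bT R 0 1 0 1 = R 0 4 0 4 := rfl
theorem r1_T0102 {R : Arr 6} (hR : IsAlgCurv R) (hs : Ty s42 R) : bT R 0 1 0 2 = R 0 4 0 5 := rfl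
theorem r1_T0110 {R : Arr 6} (hR : IsAlgCurv R) (hs : Ty s42 R) : bT R 0 1 1 0 = 0 := r1_z hs _ _ _ _ (by decide)
theorem r1_T0111 {R : Arr 6} (hR : IsAlgCurv R) (hs : Ty s42 R) : bT R 0 1 1 1 = R 0 4 1 4 := rfl
theorem r1_T0112 {R : Arr 6} (hR : IsAlgCurv R) (hs : Ty s42 R) : bT R 0 1 1 2 = R 0 4 1 5 := rfl
theorem r1_T0120 {R : Arr 6} (hR : IsAlgCurv R) (hs : Ty s42 R) : bT R 0 1 2 0 = 0 := r1_z hs _ _ _ _ (by decide)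
theorem r1_T0121 {R : Arr 6} (hR : IsAlgCurv R) (hs : Ty s42 R) : bT R 0 1 2 1 = R 0 4 2 4 := rfl
theorem r1_T0122 {R : Arr 6} (hR : IsAlgCurv R) (hs : Ty s42 R) : bT R 0 1 2 2 = R 0 4 2 5 := rfl
theorem r1_T0200 {R : Arr 6} (hR : IsAlgCurv R) (hs : Ty s42 R) : bT R 0 2 0 0 = 0 := r1_z hs _ _ _ _ (by decide)
theorem r1_T0201 {R : Arr 6} (hR : IsAlgCurv R) (hs : Ty s42 R) : bT R 0 2 0 1 = R 0 4 0 5 := by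
  show R 0 5 0 4 = _
  linarith [hR.pair 0 5 0 4]
theorem r1_T0202 {R : Arr 6} (hR : IsAlgCurv R) (hs : Ty s42 R) : bT R 0 2 0 2 = R 0 5 0 5 := rfl
theorem r1_T0210 {R : Arr 6} (hR : IsAlgCurv R) (hs : Ty s42 R) : bT R 0 2 1 0 = 0 := r1_z hs _ _ _ _ (by decide)
theorem r1_T0211 {R : Arr 6} (hR : IsAlgCurv R) (hs : Ty s42 R) : bT R 0 2 1 1 = R 0 4 1 5 := by
  show R 0 5 1 4 = _
  linarith [hR.pair 0 5 1 4, r1_bs hR hs 1 0 (by decide)]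
theorem r1_T0212 {R : Arr 6} (hR : IsAlgCurv R) (hs : Ty s42 R) : bT R 0 2 1 2 = R 0 5 1 5 := rfl
theorem r1_T0220 {R : Arr 6} (hR : IsAlgCurv R) (hs : Ty s42 R) : bT R 0 2 2 0 = 0 := r1_z hs _ _ _ _ (by decide)
theorem r1_T0221 {R : Arr 6} (hR : IsAlgCurv R) (hs : Ty s42 R) : bT R 0 2 2 1 = R 0 4 2 5 := by
  show R 0 5 2 4 = _
  linarith [hR.pair 0 5 2 4, r1_bs hR hs 2 0 (by decide)]
theorem r1_T0222 {R : Arr 6} (hR : IsAlgCurv R) (hs : Ty s42 R) : bT R 0 2 2 2 = R 0 5 2 5 := rfl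
theorem r1_T1000 {R : Arr 6} (hR : IsAlgCurv R) (hs : Ty s42 R) : bT R 1 0 0 0 = R 0 3 1 3 := by
  show R 1 3 0 3 = _
  linarith [hR.pair 1 3 0 3]
theorem r1_T1001 {R : Arr 6} (hR : IsAlgCurv R) (hs : Ty s42 R) : bT R 1 0 0 1 = 0 := r1_z hs _ _ _ _ (by decide)
theorem r1_T1002 {R : Arr 6} (hR : IsAlgCurv R) (hs : Ty s42 R) : bT R 1 0 0 2 = 0 := r1_z hs _ _ _ _ (by decide)
theorem r1_T1010 {R : Arr 6} (hR : IsAlgCurv R) (hs : Ty s42 R) : bT R 1 0 1 0 = R 1 3 1 3 := rfl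
theorem r1_T1011 {R : Arr 6} (hR : IsAlgCurv R) (hs : Ty s42 R) : bT R 1 0 1 1 = 0 := r1_z hs _ _ _ _ (by decide)
theorem r1_T1012 {R : Arr 6} (hR : IsAlgCurv R) (hs : Ty s42 R) : bT R 1 0 1 2 = 0 := r1_z hs _ _ _ _ (by decide)
theorem r1_T1020 {R : Arr 6} (hR : IsAlgCurv R) (hs : Ty s42 R) : bT R 1 0 2 0 = R 1 3 2 3 := rfl
theorem r1_T1021 {R : Arr 6} (hR : IsAlgCurv R) (hs : Ty s42 R) : bT R 1 0 2 1 = 0 := r1_z hs _ _ _ _ (by decide)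
theorem r1_T1022 {R : Arr 6} (hR : IsAlgCurv R) (hs : Ty s42 R) : bT R 1 0 2 2 = 0 := r1_z hs _ _ _ _ (by decide)
theorem r1_T1100 {R : Arr 6} (hR : IsAlgCurv R) (hs : Ty s42 R) : bT R 1 1 0 0 = 0 := r1_z hs _ _ _ _ (by decide)
theorem r1_T1101 {R : Arr 6} (hR : IsAlgCurv R) (hs : Ty s42 R) : bT R 1 1 0 1 = R 0 4 1 4 := by
  show R 1 4 0 4 = _
  linarith [hR.pair 1 4 0 4]
theorem r1_T1102 {R : Arr 6} (hR : IsAlgCurv R) (hs : Ty s42 R) : bT R 1 1 0 2 = R 0 4 1 5 := by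
  show R 1 4 0 5 = _
  linarith [r1_bs hR hs 1 0 (by decide)]
theorem r1_T1110 {R : Arr 6} (hR : IsAlgCurv R) (hs : Ty s42 R) : bT R 1 1 1 0 = 0 := r1_z hs _ _ _ _ (by decide)
theorem r1_T1111 {R : Arr 6} (hR : IsAlgCurv R) (hs : Ty s42 R) : bT R 1 1 1 1 = R 1 4 1 4 := rfl
theorem r1_T1112 {R : Arr 6} (hR : IsAlgCurv R) (hs : Ty s42 R) : bT R 1 1 1 2 = R 1 4 1 5 := rfl
theorem r1_T1120 {R : Arr 6} (hR : IsAlgCurv R) (hs : Ty s42 R) : bT R 1 1 2 0 = 0 := r1_z hs _ _ _ _ (by decide)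
theorem r1_T1121 {R : Arr 6} (hR : IsAlgCurv R) (hs : Ty s42 R) : bT R 1 1 2 1 = R 1 4 2 4 := rfl
theorem r1_T1122 {R : Arr 6} (hR : IsAlgCurv R) (hs : Ty s42 R) : bT R 1 1 2 2 = R 1 4 2 5 := rfl
theorem r1_T1200 {R : Arr 6} (hR : IsAlgCurv R) (hs : Ty s42 R) : bT R 1 2 0 0 = 0 := r1_z hs _ _ _ _ (by decide)
theorem r1_T1201 {R : Arr 6} (hR : IsAlgCurv R) (hs : Ty s42 R) : bT R 1 2 0 1 = R 0 4 1 5 := by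
  show R 1 5 0 4 = _
  linarith [hR.pair 1 5 0 4]
theorem r1_T1202 {R : Arr 6} (hR : IsAlgCurv R) (hs : Ty s42 R) : bT R 1 2 0 2 = R 0 5 1 5 := by
  show R 1 5 0 5 = _
  linarith [hR.pair 1 5 0 5]
theorem r1_T1210 {R : Arr 6} (hR : IsAlgCurv R) (hs : Ty s42 R) : bT R 1 2 1 0 = 0 := r1_z hs _ _ _ _ (by decide)
theorem r1_T1211 {R : Arr 6} (hR : IsAlgCurv R) (hs : Ty s42 R) : bT R 1 2 1 1 = R 1 4 1 5 := by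
  show R 1 5 1 4 = _
  linarith [hR.pair 1 5 1 4]
theorem r1_T1212 {R : Arr 6} (hR : IsAlgCurv R) (hs : Ty s42 R) : bT R 1 2 1 2 = R 1 5 1 5 := rfl
theorem r1_T1220 {R : Arr 6} (hR : IsAlgCurv R) (hs : Ty s42 R) : bT R 1 2 2 0 = 0 := r1_z hs _ _ _ _ (by decide)
theorem r1_T1221 {R : Arr 6} (hR : IsAlgCurv R) (hs : Ty s42 R) : bT R 1 2 2 1 = R 1 4 2 5 := by
  show R 1 5 2 4 = _
  linarith [hR.pair 1 5 2 4, r1_bs hR hs 2 1 (by decide)]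
theorem r1_T1222 {R : Arr 6} (hR : IsAlgCurv R) (hs : Ty s42 R) : bT R 1 2 2 2 = R 1 5 2 5 := rfl
theorem r1_T2000 {R : Arr 6} (hR : IsAlgCurv R) (hs : Ty s42 R) : bT R 2 0 0 0 = R 0 3 2 3 := by
  show R 2 3 0 3 = _
  linarith [hR.pair 2 3 0 3]
theorem r1_T2001 {R : Arr 6} (hR : IsAlgCurv R) (hs : Ty s42 R) : bT R 2 0 0 1 = 0 := r1_z hs _ _ _ _ (by decide)
theorem r1_T2002 {R : Arr 6} (hR : IsAlgCurv R) (hs : Ty s42 R) : bT R 2 0 0 2 = 0 := r1_z hs _ _ _ _ (by decide)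
theorem r1_T2010 {R : Arr 6} (hR : IsAlgCurv R) (hs : Ty s42 R) : bT R 2 0 1 0 = R 1 3 2 3 := by
  show R 2 3 1 3 = _
  linarith [hR.pair 2 3 1 3]
theorem r1_T2011 {R : Arr 6} (hR : IsAlgCurv R) (hs : Ty s42 R) : bT R 2 0 1 1 = 0 := r1_z hs _ _ _ _ (by decide)
theorem r1_T2012 {R : Arr 6} (hR : IsAlgCurv R) (hs : Ty s42 R) : bT R 2 0 1 2 = 0 := r1_z hs _ _ _ _ (by decide)
theorem r1_T2020 {R : Arr 6} (hR : IsAlgCurv R) (hs : Ty s42 R) : bT R 2 0 2 0 = R 2 3 2 3 := rfl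
theorem r1_T2021 {R : Arr 6} (hR : IsAlgCurv R) (hs : Ty s42 R) : bT R 2 0 2 1 = 0 := r1_z hs _ _ _ _ (by decide)
theorem r1_T2022 {R : Arr 6} (hR : IsAlgCurv R) (hs : Ty s42 R) : bT R 2 0 2 2 = 0 := r1_z hs _ _ _ _ (by decide)
theorem r1_T2100 {R : Arr 6} (hR : IsAlgCurv R) (hs : Ty s42 R) : bT R 2 1 0 0 = 0 := r1_z hs _ _ _ _ (by decide)
theorem r1_T2101 {R : Arr 6} (hR : IsAlgCurv R) (hs : Ty s42 R) : bT R 2 1 0 1 = R 0 4 2 4 := by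
  show R 2 4 0 4 = _
  linarith [hR.pair 2 4 0 4]
theorem r1_T2102 {R : Arr 6} (hR : IsAlgCurv R) (hs : Ty s42 R) : bT R 2 1 0 2 = R 0 4 2 5 := by
  show R 2 4 0 5 = _
  linarith [r1_bs hR hs 2 0 (by decide)]
theorem r1_T2110 {R : Arr 6} (hR : IsAlgCurv R) (hs : Ty s42 R) : bT R 2 1 1 0 = 0 := r1_z hs _ _ _ _ (by decide)
theorem r1_T2111 {R : Arr 6} (hR : IsAlgCurv R) (hs : Ty s42 R) : bT R 2 1 1 1 = R 1 4 2 4 := by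
  show R 2 4 1 4 = _
  linarith [hR.pair 2 4 1 4]
theorem r1_T2112 {R : Arr 6} (hR : IsAlgCurv R) (hs : Ty s42 R) : bT R 2 1 1 2 = R 1 4 2 5 := by
  show R 2 4 1 5 = _
  linarith [r1_bs hR hs 2 1 (by decide)]
theorem r1_T2120 {R : Arr 6} (hR : IsAlgCurv R) (hs : Ty s42 R) : bT R 2 1 2 0 = 0 := r1_z hs _ _ _ _ (by decide)
theorem r1_T2121 {R : Arr 6} (hR : IsAlgCurv R) (hs : Ty s42 R) : bT R 2 1 2 1 = R 2 4 2 4 := rfl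
theorem r1_T2122 {R : Arr 6} (hR : IsAlgCurv R) (hs : Ty s42 R) : bT R 2 1 2 2 = R 2 4 2 5 := rfl
theorem r1_T2200 {R : Arr 6} (hR : IsAlgCurv R) (hs : Ty s42 R) : bT R 2 2 0 0 = 0 := r1_z hs _ _ _ _ (by decide)
theorem r1_T2201 {R : Arr 6} (hR : IsAlgCurv R) (hs : Ty s42 R) : bT R 2 2 0 1 = R 0 4 2 5 := by
  show R 2 5 0 4 = _
  linarith [hR.pair 2 5 0 4]
theorem r1_T2202 {R : Arr 6} (hR : IsAlgCurv R) (hs : Ty s42 R) : bT R 2 2 0 2 = R 0 5 2 5 := by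
  show R 2 5 0 5 = _
  linarith [hR.pair 2 5 0 5]
theorem r1_T2210 {R : Arr 6} (hR : IsAlgCurv R) (hs : Ty s42 R) : bT R 2 2 1 0 = 0 := r1_z hs _ _ _ _ (by decide)
theorem r1_T2211 {R : Arr 6} (hR : IsAlgCurv R) (hs : Ty s42 R) : bT R 2 2 1 1 = R 1 4 2 5 := by
  show R 2 5 1 4 = _
  linarith [hR.pair 2 5 1 4]
theorem r1_T2212 {R : Arr 6} (hR : IsAlgCurv R) (hs : Ty s42 R) : bT R 2 2 1 2 = R 1 5 2 5 := by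
  show R 2 5 1 5 = _
  linarith [hR.pair 2 5 1 5]
theorem r1_T2220 {R : Arr 6} (hR : IsAlgCurv R) (hs : Ty s42 R) : bT R 2 2 2 0 = 0 := r1_z hs _ _ _ _ (by decide)
theorem r1_T2221 {R : Arr 6} (hR : IsAlgCurv R) (hs : Ty s42 R) : bT R 2 2 2 1 = R 2 4 2 5 := by
  show R 2 5 2 4 = _
  linarith [hR.pair 2 5 2 4]
theorem r1_T2222 {R : Arr 6} (hR : IsAlgCurv R) (hs : Ty s42 R) : bT R 2 2 2 2 = R 2 5 2 5 := rfl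
theorem r1_A00 {R : Arr 6} (hR : IsAlgCurv R) (hs : Ty s42 R) : bA R 0 0 = R 1 2 1 2 := rfl
theorem r1_A01 {R : Arr 6} (hR : IsAlgCurv R) (hs : Ty s42 R) : bA R 0 1 = -R 0 2 1 2 := by
  show R 1 2 2 0 = _
  linarith [r1_sk2 hR 1 2 2 0, hR.pair 1 2 0 2]
theorem r1_A02 {R : Arr 6} (hR : IsAlgCurv R) (hs : Ty s42 R) : bA R 0 2 = R 0 1 1 2 := by
  show R 1 2 0 1 = _
  linarith [hR.pair 1 2 0 1]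
theorem r1_A10 {R : Arr 6} (hR : IsAlgCurv R) (hs : Ty s42 R) : bA R 1 0 = -R 0 2 1 2 := by
  show R 2 0 1 2 = _
  linarith [hR.skew 2 0 1 2]
theorem r1_A11 {R : Arr 6} (hR : IsAlgCurv R) (hs : Ty s42 R) : bA R 1 1 = R 0 2 0 2 := by
  show R 2 0 2 0 = _
  linarith [hR.skew 2 0 2 0, r1_sk2 hR 0 2 2 0]
theorem r1_A12 {R : Arr 6} (hR : IsAlgCurv R) (hs : Ty s42 R) : bA R 1 2 = -R 0 1 0 2 := by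
  show R 2 0 0 1 = _
  linarith [hR.skew 2 0 0 1, hR.pair 0 2 0 1]
theorem r1_A20 {R : Arr 6} (hR : IsAlgCurv R) (hs : Ty s42 R) : bA R 2 0 = R 0 1 1 2 := rfl
theorem r1_A21 {R : Arr 6} (hR : IsAlgCurv R) (hs : Ty s42 R) : bA R 2 1 = -R 0 1 0 2 := by
  show R 0 1 2 0 = _
  linarith [r1_sk2 hR 0 1 2 0]
theorem r1_A22 {R : Arr 6} (hR : IsAlgCurv R) (hs : Ty s42 R) : bA R 2 2 = R 0 1 0 1 := rfl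
theorem r1_C00 {R : Arr 6} (hR : IsAlgCurv R) (hs : Ty s42 R) : bC R 0 0 = R 4 5 4 5 := rfl
theorem r1_C01 {R : Arr 6} (hR : IsAlgCurv R) (hs : Ty s42 R) : bC R 0 1 = 0 := r1_z hs _ _ _ _ (by decide)
theorem r1_C02 {R : Arr 6} (hR : IsAlgCurv R) (hs : Ty s42 R) : bC R 0 2 = 0 := r1_z hs _ _ _ _ (by decide)
theorem r1_C10 {R : Arr 6} (hR : IsAlgCurv R) (hs : Ty s42 R) : bC R 1 0 = 0 := r1_z hs _ _ _ _ (by decide)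
theorem r1_C11 {R : Arr 6} (hR : IsAlgCurv R) (hs : Ty s42 R) : bC R 1 1 = R 3 5 3 5 := by
  show R 5 3 5 3 = _
  linarith [hR.skew 5 3 5 3, r1_sk2 hR 3 5 5 3]
theorem r1_C12 {R : Arr 6} (hR : IsAlgCurv R) (hs : Ty s42 R) : bC R 1 2 = -R 3 4 3 5 := by
  show R 5 3 3 4 = _
  linarith [hR.skew 5 3 3 4, hR.pair 3 5 3 4]
theorem r1_C20 {R : Arr 6} (hR : IsAlgCurv R) (hs : Ty s42 R) : bC R 2 0 = 0 := r1_z hs _ _ _ _ (by decide)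
theorem r1_C21 {R : Arr 6} (hR : IsAlgCurv R) (hs : Ty s42 R) : bC R 2 1 = -R 3 4 3 5 := by
  show R 3 4 5 3 = _
  linarith [r1_sk2 hR 3 4 5 3]
theorem r1_C22 {R : Arr 6} (hR : IsAlgCurv R) (hs : Ty s42 R) : bC R 2 2 = R 3 4 3 4 := rfl
theorem r1_G00 {R : Arr 6} (hR : IsAlgCurv R) (hs : Ty s42 R) : bG R 0 0 = 0 := r1_z hs _ _ _ _ (by decide)
theorem r1_G01 {R : Arr 6} (hR : IsAlgCurv R) (hs : Ty s42 R) : bG R 0 1 = 0 := r1_z hs _ _ _ _ (by decide)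
theorem r1_G02 {R : Arr 6} (hR : IsAlgCurv R) (hs : Ty s42 R) : bG R 0 2 = 0 := r1_z hs _ _ _ _ (by decide)
theorem r1_G10 {R : Arr 6} (hR : IsAlgCurv R) (hs : Ty s42 R) : bG R 1 0 = 0 := r1_z hs _ _ _ _ (by decide)
theorem r1_G11 {R : Arr 6} (hR : IsAlgCurv R) (hs : Ty s42 R) : bG R 1 1 = 0 := r1_z hs _ _ _ _ (by decide)
theorem r1_G12 {R : Arr 6} (hR : IsAlgCurv R) (hs : Ty s42 R) : bG R 1 2 = 0 := r1_z hs _ _ _ _ (by decide)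
theorem r1_G20 {R : Arr 6} (hR : IsAlgCurv R) (hs : Ty s42 R) : bG R 2 0 = 0 := r1_z hs _ _ _ _ (by decide)
theorem r1_G21 {R : Arr 6} (hR : IsAlgCurv R) (hs : Ty s42 R) : bG R 2 1 = 0 := r1_z hs _ _ _ _ (by decide)
theorem r1_G22 {R : Arr 6} (hR : IsAlgCurv R) (hs : Ty s42 R) : bG R 2 2 = 0 := r1_z hs _ _ _ _ (by decide)
theorem r1_L000 {R : Arr 6} (hR : IsAlgCurv R) (hs : Ty s42 R) : bL R 0 0 0 = R 0 2 1 3 - R 0 1 2 3 := by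
  show R 1 2 0 3 = _
  linarith [hR.pair 1 2 0 3, hR.bianchi 0 1 2 3, hR.skew 2 0 1 3, hR.pair 1 2 0 3]
theorem r1_L001 {R : Arr 6} (hR : IsAlgCurv R) (hs : Ty s42 R) : bL R 0 0 1 = 0 := r1_z hs _ _ _ _ (by decide)
theorem r1_L002 {R : Arr 6} (hR : IsAlgCurv R) (hs : Ty s42 R) : bL R 0 0 2 = 0 := r1_z hs _ _ _ _ (by decide)
theorem r1_L010 {R : Arr 6} (hR : IsAlgCurv R) (hs : Ty s42 R) : bL R 0 1 0 = R 1 2 1 3 := rfl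
theorem r1_L011 {R : Arr 6} (hR : IsAlgCurv R) (hs : Ty s42 R) : bL R 0 1 1 = 0 := r1_z hs _ _ _ _ (by decide)
theorem r1_L012 {R : Arr 6} (hR : IsAlgCurv R) (hs : Ty s42 R) : bL R 0 1 2 = 0 := r1_z hs _ _ _ _ (by decide)
theorem r1_L020 {R : Arr 6} (hR : IsAlgCurv R) (hs : Ty s42 R) : bL R 0 2 0 = R 1 2 2 3 := rfl
theorem r1_L021 {R : Arr 6} (hR : IsAlgCurv R) (hs : Ty s42 R) : bL R 0 2 1 = 0 := r1_z hs _ _ _ _ (by decide)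
theorem r1_L022 {R : Arr 6} (hR : IsAlgCurv R) (hs : Ty s42 R) : bL R 0 2 2 = 0 := r1_z hs _ _ _ _ (by decide)
theorem r1_L100 {R : Arr 6} (hR : IsAlgCurv R) (hs : Ty s42 R) : bL R 1 0 0 = -R 0 2 0 3 := by
  show R 2 0 0 3 = _
  linarith [hR.skew 2 0 0 3]
theorem r1_L101 {R : Arr 6} (hR : IsAlgCurv R) (hs : Ty s42 R) : bL R 1 0 1 = 0 := r1_z hs _ _ _ _ (by decide)
theorem r1_L102 {R : Arr 6} (hR : IsAlgCurv R) (hs : Ty s42 R) : bL R 1 0 2 = 0 := r1_z hs _ _ _ _ (by decide)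
theorem r1_L110 {R : Arr 6} (hR : IsAlgCurv R) (hs : Ty s42 R) : bL R 1 1 0 = -R 0 2 1 3 := by
  show R 2 0 1 3 = _
  linarith [hR.skew 2 0 1 3]
theorem r1_L111 {R : Arr 6} (hR : IsAlgCurv R) (hs : Ty s42 R) : bL R 1 1 1 = 0 := r1_z hs _ _ _ _ (by decide)
theorem r1_L112 {R : Arr 6} (hR : IsAlgCurv R) (hs : Ty s42 R) : bL R 1 1 2 = 0 := r1_z hs _ _ _ _ (by decide)
theorem r1_L120 {R : Arr 6} (hR : IsAlgCurv R) (hs : Ty s42 R) : bL R 1 2 0 = -R 0 2 2 3 := by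
  show R 2 0 2 3 = _
  linarith [hR.skew 2 0 2 3]
theorem r1_L121 {R : Arr 6} (hR : IsAlgCurv R) (hs : Ty s42 R) : bL R 1 2 1 = 0 := r1_z hs _ _ _ _ (by decide)
theorem r1_L122 {R : Arr 6} (hR : IsAlgCurv R) (hs : Ty s42 R) : bL R 1 2 2 = 0 := r1_z hs _ _ _ _ (by decide)
theorem r1_L200 {R : Arr 6} (hR : IsAlgCurv R) (hs : Ty s42 R) : bL R 2 0 0 = R 0 1 0 3 := rfl
theorem r1_L201 {R : Arr 6} (hR : IsAlgCurv R) (hs : Ty s42 R) : bL R 2 0 1 = 0 := r1_z hs _ _ _ _ (by decide)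
theorem r1_L202 {R : Arr 6} (hR : IsAlgCurv R) (hs : Ty s42 R) : bL R 2 0 2 = 0 := r1_z hs _ _ _ _ (by decide)
theorem r1_L210 {R : Arr 6} (hR : IsAlgCurv R) (hs : Ty s42 R) : bL R 2 1 0 = R 0 1 1 3 := rfl
theorem r1_L211 {R : Arr 6} (hR : IsAlgCurv R) (hs : Ty s42 R) : bL R 2 1 1 = 0 := r1_z hs _ _ _ _ (by decide)
theorem r1_L212 {R : Arr 6} (hR : IsAlgCurv R) (hs : Ty s42 R) : bL R 2 1 2 = 0 := r1_z hs _ _ _ _ (by decide)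
theorem r1_L220 {R : Arr 6} (hR : IsAlgCurv R) (hs : Ty s42 R) : bL R 2 2 0 = R 0 1 2 3 := rfl
theorem r1_L221 {R : Arr 6} (hR : IsAlgCurv R) (hs : Ty s42 R) : bL R 2 2 1 = 0 := r1_z hs _ _ _ _ (by decide)
theorem r1_L222 {R : Arr 6} (hR : IsAlgCurv R) (hs : Ty s42 R) : bL R 2 2 2 = 0 := r1_z hs _ _ _ _ (by decide)
theorem r1_M000 {R : Arr 6} (hR : IsAlgCurv R) (hs : Ty s42 R) : bM R 0 0 0 = 0 := r1_z hs _ _ _ _ (by decide)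
theorem r1_M001 {R : Arr 6} (hR : IsAlgCurv R) (hs : Ty s42 R) : bM R 0 0 1 = 0 := r1_z hs _ _ _ _ (by decide)
theorem r1_M002 {R : Arr 6} (hR : IsAlgCurv R) (hs : Ty s42 R) : bM R 0 0 2 = 0 := r1_z hs _ _ _ _ (by decide)
theorem r1_M010 {R : Arr 6} (hR : IsAlgCurv R) (hs : Ty s42 R) : bM R 0 1 0 = 0 := r1_z hs _ _ _ _ (by decide)
theorem r1_M011 {R : Arr 6} (hR : IsAlgCurv R) (hs : Ty s42 R) : bM R 0 1 1 = 0 := r1_z hs _ _ _ _ (by decide)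
theorem r1_M012 {R : Arr 6} (hR : IsAlgCurv R) (hs : Ty s42 R) : bM R 0 1 2 = 0 := r1_z hs _ _ _ _ (by decide)
theorem r1_M020 {R : Arr 6} (hR : IsAlgCurv R) (hs : Ty s42 R) : bM R 0 2 0 = 0 := r1_z hs _ _ _ _ (by decide)
theorem r1_M021 {R : Arr 6} (hR : IsAlgCurv R) (hs : Ty s42 R) : bM R 0 2 1 = 0 := r1_z hs _ _ _ _ (by decide)
theorem r1_M022 {R : Arr 6} (hR : IsAlgCurv R) (hs : Ty s42 R) : bM R 0 2 2 = 0 := r1_z hs _ _ _ _ (by decide)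
theorem r1_M100 {R : Arr 6} (hR : IsAlgCurv R) (hs : Ty s42 R) : bM R 1 0 0 = 0 := r1_z hs _ _ _ _ (by decide)
theorem r1_M101 {R : Arr 6} (hR : IsAlgCurv R) (hs : Ty s42 R) : bM R 1 0 1 = -R 0 4 3 5 := by
  show R 5 3 0 4 = _
  linarith [hR.skew 5 3 0 4, hR.pair 3 5 0 4]
theorem r1_M102 {R : Arr 6} (hR : IsAlgCurv R) (hs : Ty s42 R) : bM R 1 0 2 = -R 0 5 3 5 := by
  show R 5 3 0 5 = _
  linarith [hR.skew 5 3 0 5, hR.pair 3 5 0 5]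
theorem r1_M110 {R : Arr 6} (hR : IsAlgCurv R) (hs : Ty s42 R) : bM R 1 1 0 = 0 := r1_z hs _ _ _ _ (by decide)
theorem r1_M111 {R : Arr 6} (hR : IsAlgCurv R) (hs : Ty s42 R) : bM R 1 1 1 = -R 1 4 3 5 := by
  show R 5 3 1 4 = _
  linarith [hR.skew 5 3 1 4, hR.pair 3 5 1 4]
theorem r1_M112 {R : Arr 6} (hR : IsAlgCurv R) (hs : Ty s42 R) : bM R 1 1 2 = -R 1 5 3 5 := by
  show R 5 3 1 5 = _
  linarith [hR.skew 5 3 1 5, hR.pair 3 5 1 5]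
theorem r1_M120 {R : Arr 6} (hR : IsAlgCurv R) (hs : Ty s42 R) : bM R 1 2 0 = 0 := r1_z hs _ _ _ _ (by decide)
theorem r1_M121 {R : Arr 6} (hR : IsAlgCurv R) (hs : Ty s42 R) : bM R 1 2 1 = -R 2 4 3 5 := by
  show R 5 3 2 4 = _
  linarith [hR.skew 5 3 2 4, hR.pair 3 5 2 4]
theorem r1_M122 {R : Arr 6} (hR : IsAlgCurv R) (hs : Ty s42 R) : bM R 1 2 2 = -R 2 5 3 5 := by
  show R 5 3 2 5 = _
  linarith [hR.skew 5 3 2 5, hR.pair 3 5 2 5]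
theorem r1_M200 {R : Arr 6} (hR : IsAlgCurv R) (hs : Ty s42 R) : bM R 2 0 0 = 0 := r1_z hs _ _ _ _ (by decide)
theorem r1_M201 {R : Arr 6} (hR : IsAlgCurv R) (hs : Ty s42 R) : bM R 2 0 1 = R 0 4 3 4 := by
  show R 3 4 0 4 = _
  linarith [hR.pair 3 4 0 4]
theorem r1_M202 {R : Arr 6} (hR : IsAlgCurv R) (hs : Ty s42 R) : bM R 2 0 2 = R 0 4 3 5 := by
  show R 3 4 0 5 = _
  linarith [r1_bs hR hs 3 0 (by decide)]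
theorem r1_M210 {R : Arr 6} (hR : IsAlgCurv R) (hs : Ty s42 R) : bM R 2 1 0 = 0 := r1_z hs _ _ _ _ (by decide)
theorem r1_M211 {R : Arr 6} (hR : IsAlgCurv R) (hs : Ty s42 R) : bM R 2 1 1 = R 1 4 3 4 := by
  show R 3 4 1 4 = _
  linarith [hR.pair 3 4 1 4]
theorem r1_M212 {R : Arr 6} (hR : IsAlgCurv R) (hs : Ty s42 R) : bM R 2 1 2 = R 1 4 3 5 := by
  show R 3 4 1 5 = _
  linarith [r1_bs hR hs 3 1 (by decide)]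
theorem r1_M220 {R : Arr 6} (hR : IsAlgCurv R) (hs : Ty s42 R) : bM R 2 2 0 = 0 := r1_z hs _ _ _ _ (by decide)
theorem r1_M221 {R : Arr 6} (hR : IsAlgCurv R) (hs : Ty s42 R) : bM R 2 2 1 = R 2 4 3 4 := by
  show R 3 4 2 4 = _
  linarith [hR.pair 3 4 2 4]
theorem r1_M222 {R : Arr 6} (hR : IsAlgCurv R) (hs : Ty s42 R) : bM R 2 2 2 = R 2 4 3 5 := by
  show R 3 4 2 5 = _
  linarith [r1_bs hR hs 3 2 (by decide)]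

/-- the four-dimensional part, explicitly -/
def r1_p1 (R : Arr 6) : ℝ := R 0 1 0 1 * R 2 3 2 3 - 2 * R 0 1 0 2 * R 1 3 2 3 + 2 * R 0 1 0 3 * R 1 2 2 3 + 2 * R 0 1 1 2 * R 0 3 2 3 - 2 * R 0 1 1 3 * R 0 2 2 3 + 2 * R 0 1 2 3 * R 0 1 2 3 - 2 * R 0 1 2 3 * R 0 2 1 3 + R 0 2 0 2 * R 1 3 1 3 - 2 * R 0 2 0 3 * R 1 2 1 3 - 2 * R 0 2 1 2 * R 0 3 1 3 + 2 * R 0 2 1 3 * R 0 2 1 3 + R 0 3 0 3 * R 1 2 1 2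

/-- the mixed part, explicitly -/
def r1_p2 (R : Arr 6) : ℝ := R 0 1 0 1 * R 2 4 2 4 * R 3 5 3 5 - 2 * R 0 1 0 1 * R 2 4 2 5 * R 3 4 3 5 - 2 * R 0 1 0 1 * R 2 4 3 4 * R 2 5 3 5 + 2 * R 0 1 0 1 * R 2 4 3 5 * R 2 4 3 5 + R 0 1 0 1 * R 2 5 2 5 * R 3 4 3 4 - 2 * R 0 1 0 2 * R 1 4 2 4 * R 3 5 3 5 + 4 * R 0 1 0 2 * R 1 4 2 5 * R 3 4 3 5 + 2 * R 0 1 0 2 * R 1 4 3 4 * R 2 5 3 5 - 4 * R 0 1 0 2 * R 1 4 3 5 * R 2 4 3 5 - 2 * R 0 1 0 2 * R 1 5 2 5 * R 3 4 3 4 + 2 * R 0 1 0 2 * R 1 5 3 5 * R 2 4 3 4 + 2 * R 0 1 0 3 * R 1 4 2 4 * R 2 5 3 5 - 4 * R 0 1 0 3 * R 1 4 2 5 * R 2 4 3 5 - 2 * R 0 1 0 3 * R 1 4 3 4 * R 2 5 2 5 + 4 * R 0 1 0 3 * R 1 4 3 5 * R 2 4 2 5 + 2 * R 0 1 0 3 * R 1 5 2 5 * R 2 4 3 4 - 2 * R 0 1 0 3 * R 1 5 3 5 * R 2 4 2 4 + 2 * R 0 1 1 2 * R 0 4 2 4 * R 3 5 3 5 - 4 *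 R 0 1 1 2 * R 0 4 2 5 * R 3 4 3 5 - 2 * R 0 1 1 2 * R 0 4 3 4 * R 2 5 3 5 + 4 * R 0 1 1 2 * R 0 4 3 5 * R 2 4 3 5 + 2 * R 0 1 1 2 * R 0 5 2 5 * R 3 4 3 4 - 2 * R 0 1 1 2 * R 0 5 3 5 * R 2 4 3 4 - 2 * R 0 1 1 3 * R 0 4 2 4 * R 2 5 3 5 + 4 * R 0 1 1 3 * R 0 4 2 5 * R 2 4 3 5 + 2 * R 0 1 1 3 * R 0 4 3 4 * R 2 5 2 5 - 4 * R 0 1 1 3 * R 0 4 3 5 * R 2 4 2 5 - 2 * R 0 1 1 3 * R 0 5 2 5 * R 2 4 3 4 + 2 * R 0 1 1 3 * R 0 5 3 5 * R 2 4 2 4 - 2 * R 0 1 2 3 * R 0 4 1 4 * R 2 5 3 5 + 4 * R 0 1 2 3 * R 0 4 1 5 * R 2 4 3 5 + 4 * R 0 1 2 3 * R 0 4 2 4 * R 1 5 3 5 - 8 * R 0 1 2 3 * R 0 4 2 5 * R 1 4 3 5 - 2 * R 0 1 2 3 * R 0 4 3 4 * R 1 5 2 5 + 4 * R 0 1 2 3 * R 0 4 3 5 * R 1 4 2 5 - 2 * R 0 1 2 3 * R 0 5 1 5 * R 2 4 3 4 + 4 * R 0 1 2 3 * R 0 5 2 5 * R 1 4 3 4 - 2 * R 0 1 2 3 * R 0 5 3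 5 * R 1 4 2 4 + R 0 2 0 2 * R 1 4 1 4 * R 3 5 3 5 - 2 * R 0 2 0 2 * R 1 4 1 5 * R 3 4 3 5 - 2 * R 0 2 0 2 * R 1 4 3 4 * R 1 5 3 5 + 2 * R 0 2 0 2 * R 1 4 3 5 * R 1 4 3 5 + R 0 2 0 2 * R 1 5 1 5 * R 3 4 3 4 - 2 * R 0 2 0 3 * R 1 4 1 4 * R 2 5 3 5 + 4 * R 0 2 0 3 * R 1 4 1 5 * R 2 4 3 5 + 2 * R 0 2 0 3 * R 1 4 2 4 * R 1 5 3 5 - 4 * R 0 2 0 3 * R 1 4 2 5 * R 1 4 3 5 + 2 * R 0 2 0 3 * R 1 4 3 4 * R 1 5 2 5 - 2 * R 0 2 0 3 * R 1 5 1 5 * R 2 4 3 4 - 2 * R 0 2 1 2 * R 0 4 1 4 * R 3 5 3 5 + 4 * R 0 2 1 2 * R 0 4 1 5 * R 3 4 3 5 + 2 * R 0 2 1 2 * R 0 4 3 4 * R 1 5 3 5 - 4 * R 0 2 1 2 * R 0 4 3 5 * R 1 4 3 5 - 2 * R 0 2 1 2 * R 0 5 1 5 * R 3 4 3 4 + 2 * R 0 2 1 2 * R 0 5 3 5 * R 1 4 3 4 + 4 * R 0 2 1 3 * R 0 4 1 4 * R 2 5 3 5 - 8 * R 0 2 1 3 * R 0 4 1 5 * R 2 4 3 5 - 2 * R 0 2 1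 3 * R 0 4 2 4 * R 1 5 3 5 + 4 * R 0 2 1 3 * R 0 4 2 5 * R 1 4 3 5 - 2 * R 0 2 1 3 * R 0 4 3 4 * R 1 5 2 5 + 4 * R 0 2 1 3 * R 0 4 3 5 * R 1 4 2 5 + 4 * R 0 2 1 3 * R 0 5 1 5 * R 2 4 3 4 - 2 * R 0 2 1 3 * R 0 5 2 5 * R 1 4 3 4 - 2 * R 0 2 1 3 * R 0 5 3 5 * R 1 4 2 4 - 2 * R 0 2 2 3 * R 0 4 1 4 * R 1 5 3 5 + 4 * R 0 2 2 3 * R 0 4 1 5 * R 1 4 3 5 + 2 * R 0 2 2 3 * R 0 4 3 4 * R 1 5 1 5 - 4 * R 0 2 2 3 * R 0 4 3 5 * R 1 4 1 5 - 2 * R 0 2 2 3 * R 0 5 1 5 * R 1 4 3 4 + 2 * R 0 2 2 3 * R 0 5 3 5 * R 1 4 1 4 + R 0 3 0 3 * R 1 4 1 4 * R 2 5 2 5 - 2 * R 0 3 0 3 * R 1 4 1 5 * R 2 4 2 5 - 2 * R 0 3 0 3 * R 1 4 2 4 * R 1 5 2 5 + 2 * R 0 3 0 3 * R 1 4 2 5 * R 1 4 2 5 + R 0 3 0 3 * R 1 5 1 5 * R 2 4 2 4 - 2 * R 0 3 1 3 * R 0 4 1 4 * R 2 5 2 5 + 4 * R 0 3 1 3 * R 0 4 1 5 * R 2 4 2 5 +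 2 * R 0 3 1 3 * R 0 4 2 4 * R 1 5 2 5 - 4 * R 0 3 1 3 * R 0 4 2 5 * R 1 4 2 5 - 2 * R 0 3 1 3 * R 0 5 1 5 * R 2 4 2 4 + 2 * R 0 3 1 3 * R 0 5 2 5 * R 1 4 2 4 + 2 * R 0 3 2 3 * R 0 4 1 4 * R 1 5 2 5 - 4 * R 0 3 2 3 * R 0 4 1 5 * R 1 4 2 5 - 2 * R 0 3 2 3 * R 0 4 2 4 * R 1 5 1 5 + 4 * R 0 3 2 3 * R 0 4 2 5 * R 1 4 1 5 + 2 * R 0 3 2 3 * R 0 5 1 5 * R 1 4 2 4 - 2 * R 0 3 2 3 * R 0 5 2 5 * R 1 4 1 4 + R 0 4 0 4 * R 1 2 1 2 * R 3 5 3 5 - 2 * R 0 4 0 4 * R 1 2 1 3 * R 2 5 3 5 + 2 * R 0 4 0 4 * R 1 2 2 3 * R 1 5 3 5 + R 0 4 0 4 * R 1 3 1 3 * R 2 5 2 5 - 2 * R 0 4 0 4 * R 1 3 2 3 * R 1 5 2 5 + R 0 4 0 4 * R 1 5 1 5 * R 2 3 2 3 - 2 * R 0 4 0 5 * R 1 2 1 2 * R 3 4 3 5 + 4 * R 0 4 0 5 * R 1 2 1 3 * R 2 4 3 5 - 4 * R 0 4 0 5 * R 1 2 2 3 * R 1 4 3 5 - 2 * R 0 4 0 5 * R 1 3 1 3 * R 2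 4 2 5 + 4 * R 0 4 0 5 * R 1 3 2 3 * R 1 4 2 5 - 2 * R 0 4 0 5 * R 1 4 1 5 * R 2 3 2 3 - 2 * R 0 4 1 4 * R 0 5 1 5 * R 2 3 2 3 + 2 * R 0 4 1 4 * R 0 5 2 5 * R 1 3 2 3 - 2 * R 0 4 1 4 * R 0 5 3 5 * R 1 2 2 3 + 2 * R 0 4 1 5 * R 0 4 1 5 * R 2 3 2 3 - 4 * R 0 4 1 5 * R 0 4 2 5 * R 1 3 2 3 + 4 * R 0 4 1 5 * R 0 4 3 5 * R 1 2 2 3 + 2 * R 0 4 2 4 * R 0 5 1 5 * R 1 3 2 3 - 2 * R 0 4 2 4 * R 0 5 2 5 * R 1 3 1 3 + 2 * R 0 4 2 4 * R 0 5 3 5 * R 1 2 1 3 + 2 * R 0 4 2 5 * R 0 4 2 5 * R 1 3 1 3 - 4 * R 0 4 2 5 * R 0 4 3 5 * R 1 2 1 3 - 2 * R 0 4 3 4 * R 0 5 1 5 * R 1 2 2 3 + 2 * R 0 4 3 4 * R 0 5 2 5 * R 1 2 1 3 - 2 * R 0 4 3 4 * R 0 5 3 5 * R 1 2 1 2 + 2 * R 0 4 3 5 * R 0 4 3 5 * R 1 2 1 2 + R 0 5 0 5 * R 1 2 1 2 * R 3 4 3 4 - 2 * R 0 5 0 5 * R 1 2 1 3 * R 2 4 3 4 + 2 * R 0 5 0 5 *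 R 1 2 2 3 * R 1 4 3 4 + R 0 5 0 5 * R 1 3 1 3 * R 2 4 2 4 - 2 * R 0 5 0 5 * R 1 3 2 3 * R 1 4 2 4 + R 0 5 0 5 * R 1 4 1 4 * R 2 3 2 3

theorem r1_gb {R : Arr 6} (hR : IsAlgCurv R) (hs : Ty s42 R) :
    H91.Mat3.QP (fun i k j l => bT R i k j l) - 2 * bX R + bE3 R = R 4 5 4 5 * r1_p1 R + r1_p2 R := by
  unfold H91.Mat3.QP bX bE3 r1_p1 r1_p2
  simp only [HopfKC.sum_perm3, Fin.prod_univ_three, Fin.sum_univ_three]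
  simp only [Equiv.Perm.sign_one, Equiv.Perm.sign_mul, Equiv.Perm.sign_swap (show (0 : Fin 3) ≠ 1 by decide),
    Equiv.Perm.sign_swap (show (0 : Fin 3) ≠ 2 by decide), Equiv.Perm.sign_swap (show (1 : Fin 3) ≠ 2 by decide)]
  simp (decide := true) only [Equiv.Perm.coe_one, id, Equiv.Perm.coe_mul, Function.comp, Equiv.swap_apply_def, if_true, if_false]
  simp only [r1_T0000 hR hs, r1_T0001 hR hs, r1_T0002 hR hs, r1_T0010 hR hs, r1_T0011 hR hs, r1_T0012 hR hs, r1_T0020 hR hs, r1_T0021 hR hs, r1_T0022 hR hs, r1_T0100 hR hs, r1_T0101 hR hs, r1_T0102 hR hs, r1_T0110 hR hs, r1_T0111 hR hs, r1_T0112 hR hs, r1_T0120 hR hs, r1_T0121 hR hs, r1_T0122 hR hs, r1_T0200 hR hs, r1_T0201 hR hs, r1_T0202 hR hs, r1_T0210 hR hs, r1_T0211 hR hs, r1_T0212 hR hs, r1_T0220 hR hs, r1_T0221 hR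 hs, r1_T0222 hR hs, r1_T1000 hR hs, r1_T1001 hR hs, r1_T1002 hR hs, r1_T1010 hR hs, r1_T1011 hR hs, r1_T1012 hR hs, r1_T1020 hR hs, r1_T1021 hR hs, r1_T1022 hR hs, r1_T1100 hR hs, r1_T1101 hR hs, r1_T1102 hR hs, r1_T1110 hR hs, r1_T1111 hR hs, r1_T1112 hR hs, r1_T1120 hR hs, r1_T1121 hR hs, r1_T1122 hR hs, r1_T1200 hR hs, r1_T1201 hR hs, r1_T1202 hR hs, r1_T1210 hR hs, r1_T1211 hR hs, r1_T1212 hR hs, r1_T1220 hR hs, r1_T1221 hR hs, r1_T1222 hR hs, r1_T2000 hR hs, r1_T2001 hR hs, r1_T2002 hR hs, r1_T2010 hR hs, r1_T2011 hR hs, r1_T2012 hR hs, r1_T2020 hR hs, r1_T2021 hR hs, r1_T2022 hR hs, r1_T2100 hR hs, r1_T2101 hR hs, r1_T2102 hR hs, r1_T2110 hR hs, r1_T2111 hR hs, r1_T2112 hR hs, r1_T2120 hR hs, r1_T2121 hR hs, r1_T2122 hR hs, r1_T2200 hR hs, r1_T2201 hR hs, r1_T2202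 hR hs, r1_T2210 hR hs, r1_T2211 hR hs, r1_T2212 hR hs, r1_T2220 hR hs, r1_T2221 hR hs, r1_T2222 hR hs, r1_A00 hR hs, r1_A01 hR hs, r1_A02 hR hs, r1_A10 hR hs, r1_A11 hR hs, r1_A12 hR hs, r1_A20 hR hs, r1_A21 hR hs, r1_A22 hR hs, r1_C00 hR hs, r1_C01 hR hs, r1_C02 hR hs, r1_C10 hR hs, r1_C11 hR hs, r1_C12 hR hs, r1_C20 hR hs, r1_C21 hR hs, r1_C22 hR hs, r1_G00 hR hs, r1_G01 hR hs, r1_G02 hR hs, r1_G10 hR hs, r1_G11 hR hs, r1_G12 hR hs, r1_G20 hR hs, r1_G21 hR hs, r1_G22 hR hs, r1_L000 hR hs, r1_L001 hR hs, r1_L002 hR hs, r1_L010 hR hs, r1_L011 hR hs, r1_L012 hR hs, r1_L020 hR hs, r1_L021 hR hs, r1_L022 hR hs, r1_L100 hR hs, r1_L101 hR hs, r1_L102 hR hs, r1_L110 hR hs, r1_L111 hR hs, r1_L112 hR hs, r1_L120 hR hs, r1_L121 hR hs, r1_L122 hR hs, r1_L200 hR hs, r1_L201 hR hs,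 r1_L202 hR hs, r1_L210 hR hs, r1_L211 hR hs, r1_L212 hR hs, r1_L220 hR hs, r1_L221 hR hs, r1_L222 hR hs, r1_M000 hR hs, r1_M001 hR hs, r1_M002 hR hs, r1_M010 hR hs, r1_M011 hR hs, r1_M012 hR hs, r1_M020 hR hs, r1_M021 hR hs, r1_M022 hR hs, r1_M100 hR hs, r1_M101 hR hs, r1_M102 hR hs, r1_M110 hR hs, r1_M111 hR hs, r1_M112 hR hs, r1_M120 hR hs, r1_M121 hR hs, r1_M122 hR hs, r1_M200 hR hs, r1_M201 hR hs, r1_M202 hR hs, r1_M210 hR hs, r1_M211 hR hs, r1_M212 hR hs, r1_M220 hR hs, r1_M221 hR hs, r1_M222 hR hs, mul_zero, zero_mul, add_zero, zero_add]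
  simp only [Units.val_one, Units.val_neg, Int.cast_one, Int.cast_neg, mul_one, one_mul, mul_neg, neg_mul, neg_neg]
  obtain ⟨v0101, hv0101⟩ : ∃ v, R 0 1 0 1 = v := ⟨_, rfl⟩
  obtain ⟨v0102, hv0102⟩ : ∃ v, R 0 1 0 2 = v := ⟨_, rfl⟩
  obtain ⟨v0103, hv0103⟩ : ∃ v, R 0 1 0 3 = v := ⟨_, rfl⟩
  obtain ⟨v0112, hv0112⟩ : ∃ v, R 0 1 1 2 = v := ⟨_, rfl⟩
  obtain ⟨v0113, hv0113⟩ : ∃ v, R 0 1 1 3 = v := ⟨_, rfl⟩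
  obtain ⟨v0123, hv0123⟩ : ∃ v, R 0 1 2 3 = v := ⟨_, rfl⟩
  obtain ⟨v0202, hv0202⟩ : ∃ v, R 0 2 0 2 = v := ⟨_, rfl⟩
  obtain ⟨v0203, hv0203⟩ : ∃ v, R 0 2 0 3 = v := ⟨_, rfl⟩
  obtain ⟨v0212, hv0212⟩ : ∃ v, R 0 2 1 2 = v := ⟨_, rfl⟩
  obtain ⟨v0213, hv0213⟩ : ∃ v, R 0 2 1 3 = v := ⟨_, rfl⟩
  obtain ⟨v0223, hv0223⟩ : ∃ v, R 0 2 2 3 = v := ⟨_, rfl⟩
  obtain ⟨v0303, hv0303⟩ : ∃ v, R 0 3 0 3 = v := ⟨_, rfl⟩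
  obtain ⟨v0313, hv0313⟩ : ∃ v, R 0 3 1 3 = v := ⟨_, rfl⟩
  obtain ⟨v0323, hv0323⟩ : ∃ v, R 0 3 2 3 = v := ⟨_, rfl⟩
  obtain ⟨v0404, hv0404⟩ : ∃ v, R 0 4 0 4 = v := ⟨_, rfl⟩
  obtain ⟨v0405, hv0405⟩ : ∃ v, R 0 4 0 5 = v := ⟨_, rfl⟩
  obtain ⟨v0414, hv0414⟩ : ∃ v, R 0 4 1 4 = v := ⟨_, rfl⟩
  obtain ⟨v0415, hv0415⟩ : ∃ v, R 0 4 1 5 = v := ⟨_, rfl⟩
  obtain ⟨v0424, hv0424⟩ : ∃ v, R 0 4 2 4 = v := ⟨_, rfl⟩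
  obtain ⟨v0425, hv0425⟩ : ∃ v, R 0 4 2 5 = v := ⟨_, rfl⟩
  obtain ⟨v0434, hv0434⟩ : ∃ v, R 0 4 3 4 = v := ⟨_, rfl⟩
  obtain ⟨v0435, hv0435⟩ : ∃ v, R 0 4 3 5 = v := ⟨_, rfl⟩
  obtain ⟨v0505, hv0505⟩ : ∃ v, R 0 5 0 5 = v := ⟨_, rfl⟩
  obtain ⟨v0515, hv0515⟩ : ∃ v, R 0 5 1 5 = v := ⟨_, rfl⟩
  obtain ⟨v0525, hv0525⟩ : ∃ v, R 0 5 2 5 = v := ⟨_, rfl⟩
  obtain ⟨v0535, hv0535⟩ : ∃ v, R 0 5 3 5 = v := ⟨_, rfl⟩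
  obtain ⟨v1212, hv1212⟩ : ∃ v, R 1 2 1 2 = v := ⟨_, rfl⟩
  obtain ⟨v1213, hv1213⟩ : ∃ v, R 1 2 1 3 = v := ⟨_, rfl⟩
  obtain ⟨v1223, hv1223⟩ : ∃ v, R 1 2 2 3 = v := ⟨_, rfl⟩
  obtain ⟨v1313, hv1313⟩ : ∃ v, R 1 3 1 3 = v := ⟨_, rfl⟩
  obtain ⟨v1323, hv1323⟩ : ∃ v, R 1 3 2 3 = v := ⟨_, rfl⟩
  obtain ⟨v1414, hv1414⟩ : ∃ v, R 1 4 1 4 = v := ⟨_, rfl⟩
  obtain ⟨v1415, hv1415⟩ : ∃ v, R 1 4 1 5 = v := ⟨_, rfl⟩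
  obtain ⟨v1424, hv1424⟩ : ∃ v, R 1 4 2 4 = v := ⟨_, rfl⟩
  obtain ⟨v1425, hv1425⟩ : ∃ v, R 1 4 2 5 = v := ⟨_, rfl⟩
  obtain ⟨v1434, hv1434⟩ : ∃ v, R 1 4 3 4 = v := ⟨_, rfl⟩
  obtain ⟨v1435, hv1435⟩ : ∃ v, R 1 4 3 5 = v := ⟨_, rfl⟩
  obtain ⟨v1515, hv1515⟩ : ∃ v, R 1 5 1 5 = v := ⟨_, rfl⟩
  obtain ⟨v1525, hv1525⟩ : ∃ v, R 1 5 2 5 = v := ⟨_, rfl⟩
  obtain ⟨v1535, hv1535⟩ : ∃ v, R 1 5 3 5 = v := ⟨_, rfl⟩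
  obtain ⟨v2323, hv2323⟩ : ∃ v, R 2 3 2 3 = v := ⟨_, rfl⟩
  obtain ⟨v2424, hv2424⟩ : ∃ v, R 2 4 2 4 = v := ⟨_, rfl⟩
  obtain ⟨v2425, hv2425⟩ : ∃ v, R 2 4 2 5 = v := ⟨_, rfl⟩
  obtain ⟨v2434, hv2434⟩ : ∃ v, R 2 4 3 4 = v := ⟨_, rfl⟩
  obtain ⟨v2435, hv2435⟩ : ∃ v, R 2 4 3 5 = v := ⟨_, rfl⟩
  obtain ⟨v2525, hv2525⟩ : ∃ v, R 2 5 2 5 = v := ⟨_, rfl⟩
  obtain ⟨v2535, hv2535⟩ : ∃ v, R 2 5 3 5 = v := ⟨_, rfl⟩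
  obtain ⟨v3434, hv3434⟩ : ∃ v, R 3 4 3 4 = v := ⟨_, rfl⟩
  obtain ⟨v3435, hv3435⟩ : ∃ v, R 3 4 3 5 = v := ⟨_, rfl⟩
  obtain ⟨v3535, hv3535⟩ : ∃ v, R 3 5 3 5 = v := ⟨_, rfl⟩
  obtain ⟨v4545, hv4545⟩ : ∃ v, R 4 5 4 5 = v := ⟨_, rfl⟩
  simp only [hv0101, hv0102, hv0103, hv0112, hv0113, hv0123, hv0202, hv0203, hv0212, hv0213, hv0223, hv0303, hv0313, hv0323, hv0404, hv0405, hv0414, hv0415, hv0424, hv0425, hv0434, hv0435, hv0505, hv0515, hv0525, hv0535, hv1212, hv1213, hv1223, hv1313, hv1323, hv1414, hv1415, hv1424, hv1425, hv1434, hv1435, hv1515, hv1525, hv1535, hv2323, hv2424, hv2425, hv2434, hv2435, hv2525, hv2535, hv3434, hv3435, hv3535, hv4545]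
  ring

/-- the pairing of a skew matrix with the basis -/
def r1_cf : Fin 6 → (Fin 4 → Fin 4 → ℝ) → ℝ :=
  ![fun T => -2 * (T 0 1 + T 2 3), fun T => -2 * (T 0 2 - T 1 3), fun T => -2 * (T 0 3 + T 1 2),
    fun T => -2 * (T 0 1 - T 2 3), fun T => -2 * (T 0 2 + T 1 3), fun T => -2 * (T 0 3 - T 1 2)]

theorem r1_pair (T : Fin 4 → Fin 4 → ℝ) (hT : ∀ i j, T i j = -T j i) (a : Fin 6) :
    ∑ i, ∑ j, T i j * JJ a i j = r1_cf a T := by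
  have h10 := hT 1 0
  have h20 := hT 2 0
  have h30 := hT 3 0
  have h21 := hT 2 1
  have h31 := hT 3 1
  have h32 := hT 3 2
  fin_cases a <;> simp [Fin.sum_univ_four, JJ, JL, JR, r1_cf] <;> linarith

theorem r1_RP {R : Arr 6} (hR : IsAlgCurv R) (a b : Fin 6) :
    RP R a b = 1 / 8 * r1_cf a (fun i j => r1_cf b (fun l m => R (i4 i) (i4 j) (i4 l) (i4 m))) := by
  have h1 : ∀ i j, r1_cf b (fun l m => R (i4 i) (i4 j) (i4 l) (i4 m)) =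
      ∑ l, ∑ m, R (i4 i) (i4 j) (i4 l) (i4 m) * JJ b l m := by
    intro i j
    exact (r1_pair _ (fun l m => r1_sk2 hR _ _ _ _) b).symm
  have h2 : r1_cf a (fun i j => r1_cf b (fun l m => R (i4 i) (i4 j) (i4 l) (i4 m))) =
      ∑ i, ∑ j, r1_cf b (fun l m => R (i4 i) (i4 j) (i4 l) (i4 m)) * JJ a i j := by
    refine (r1_pair _ (fun i j => ?_) a).symm
    rw [h1, h1, ← Finset.sum_neg_distrib]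
    refine Finset.sum_congr rfl fun l _ => ?_
    rw [← Finset.sum_neg_distrib]
    refine Finset.sum_congr rfl fun m _ => ?_
    rw [hR.skew (i4 i) (i4 j)]
    ring
  rw [h2]
  show (1 / 8) * ∑ i, ∑ j, ∑ l, ∑ m, R (i4 i) (i4 j) (i4 l) (i4 m) * JJ a i j * JJ b l m = _
  congr 1
  refine Finset.sum_congr rfl fun i _ => Finset.sum_congr rfl fun j _ => ?_
  rw [h1, Finset.sum_mul]
  refine Finset.sum_congr rfl fun l _ => ?_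
  rw [Finset.sum_mul]
  refine Finset.sum_congr rfl fun m _ => ?_
  ring

/-- the product with a basis matrix -/
def r1_cm : Fin 6 → M4 → Fin 4 → Fin 4 → ℝ :=
  ![fun M i => ![M i 1, -M i 0, M i 3, -M i 2], fun M i => ![M i 2, -M i 3, -M i 0, M i 1],
    fun M i => ![M i 3, M i 2, -M i 1, -M i 0], fun M i => ![M i 1, -M i 0, -M i 3, M i 2],
    fun M i => ![M i 2, M i 3, -M i 0, -M i 1], fun M i => ![M i 3, -M i 2, M i 1, -M i 0]]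

theorem r1_mul (M : M4) (a : Fin 6) (i j : Fin 4) : (M * JJ a) i j = r1_cm a M i j := by
  rw [Matrix.mul_apply, Fin.sum_univ_four]
  fin_cases a <;> fin_cases j <;> simp [JJ, JL, JR, r1_cm]

theorem r1_tr (M N : M4) (a b : Fin 6) :
    (M * JJ a * N * JJ b).trace = ∑ i, ∑ j, r1_cm a M i j * r1_cm b N j i := by
  rw [Matrix.mul_assoc, Matrix.trace]
  refine Finset.sum_congr rfl fun i _ => ?_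
  rw [Matrix.diag_apply, Matrix.mul_apply]
  refine Finset.sum_congr rfl fun j _ => ?_
  rw [r1_mul, r1_mul]

theorem r1_W (A B C : M4) (a b : Fin 6) : Wm A B C a b =
    1 / 2 * ((∑ i, ∑ j, r1_cm a B i j * r1_cm b B j i) - 1 / 2 * ((∑ i, ∑ j, r1_cm a A i j * r1_cm b C j i) +
      ∑ i, ∑ j, r1_cm a C i j * r1_cm b A j i)) := by
  show 1 / 2 * ((B * JJ a * B * JJ b).trace - 1 / 2 * ((A * JJ a * C * JJ b).trace + (C * JJ a * A * JJ b).trace)) = _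
  rw [r1_tr, r1_tr, r1_tr]

theorem r1_P00 {R : Arr 6} (hR : IsAlgCurv R) : RP R 0 0 = 1 / 8 * (-2 * ((-2 * (R 0 1 0 1 + R 0 1 2 3)) + (-2 * (R 2 3 0 1 + R 2 3 2 3)))) := r1_RP hR 0 0
theorem r1_P01 {R : Arr 6} (hR : IsAlgCurv R) : RP R 0 1 = 1 / 8 * (-2 * ((-2 * (R 0 1 0 2 - R 0 1 1 3)) + (-2 * (R 2 3 0 2 - R 2 3 1 3)))) := r1_RP hR 0 1
theorem r1_P02 {R : Arr 6} (hR : IsAlgCurv R) : RP R 0 2 = 1 / 8 * (-2 * ((-2 * (R 0 1 0 3 + R 0 1 1 2)) + (-2 * (R 2 3 0 3 + R 2 3 1 2)))) := r1_RP hR 0 2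
theorem r1_P03 {R : Arr 6} (hR : IsAlgCurv R) : RP R 0 3 = 1 / 8 * (-2 * ((-2 * (R 0 1 0 1 - R 0 1 2 3)) + (-2 * (R 2 3 0 1 - R 2 3 2 3)))) := r1_RP hR 0 3
theorem r1_P04 {R : Arr 6} (hR : IsAlgCurv R) : RP R 0 4 = 1 / 8 * (-2 * ((-2 * (R 0 1 0 2 + R 0 1 1 3)) + (-2 * (R 2 3 0 2 + R 2 3 1 3)))) := r1_RP hR 0 4
theorem r1_P05 {R : Arr 6} (hR : IsAlgCurv R) : RP R 0 5 = 1 / 8 * (-2 * ((-2 * (R 0 1 0 3 - R 0 1 1 2)) + (-2 * (R 2 3 0 3 - R 2 3 1 2)))) := r1_RP hR 0 5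
theorem r1_P10 {R : Arr 6} (hR : IsAlgCurv R) : RP R 1 0 = 1 / 8 * (-2 * ((-2 * (R 0 2 0 1 + R 0 2 2 3)) - (-2 * (R 1 3 0 1 + R 1 3 2 3)))) := r1_RP hR 1 0
theorem r1_P11 {R : Arr 6} (hR : IsAlgCurv R) : RP R 1 1 = 1 / 8 * (-2 * ((-2 * (R 0 2 0 2 - R 0 2 1 3)) - (-2 * (R 1 3 0 2 - R 1 3 1 3)))) := r1_RP hR 1 1
theorem r1_P12 {R : Arr 6} (hR : IsAlgCurv R) : RP R 1 2 = 1 / 8 * (-2 * ((-2 * (R 0 2 0 3 + R 0 2 1 2)) - (-2 * (R 1 3 0 3 + R 1 3 1 2)))) := r1_RP hR 1 2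
theorem r1_P13 {R : Arr 6} (hR : IsAlgCurv R) : RP R 1 3 = 1 / 8 * (-2 * ((-2 * (R 0 2 0 1 - R 0 2 2 3)) - (-2 * (R 1 3 0 1 - R 1 3 2 3)))) := r1_RP hR 1 3
theorem r1_P14 {R : Arr 6} (hR : IsAlgCurv R) : RP R 1 4 = 1 / 8 * (-2 * ((-2 * (R 0 2 0 2 + R 0 2 1 3)) - (-2 * (R 1 3 0 2 + R 1 3 1 3)))) := r1_RP hR 1 4
theorem r1_P15 {R : Arr 6} (hR : IsAlgCurv R) : RP R 1 5 = 1 / 8 * (-2 * ((-2 * (R 0 2 0 3 - R 0 2 1 2)) - (-2 * (R 1 3 0 3 - R 1 3 1 2)))) := r1_RP hR 1 5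
theorem r1_P20 {R : Arr 6} (hR : IsAlgCurv R) : RP R 2 0 = 1 / 8 * (-2 * ((-2 * (R 0 3 0 1 + R 0 3 2 3)) + (-2 * (R 1 2 0 1 + R 1 2 2 3)))) := r1_RP hR 2 0
theorem r1_P21 {R : Arr 6} (hR : IsAlgCurv R) : RP R 2 1 = 1 / 8 * (-2 * ((-2 * (R 0 3 0 2 - R 0 3 1 3)) + (-2 * (R 1 2 0 2 - R 1 2 1 3)))) := r1_RP hR 2 1
theorem r1_P22 {R : Arr 6} (hR : IsAlgCurv R) : RP R 2 2 = 1 / 8 * (-2 * ((-2 * (R 0 3 0 3 + R 0 3 1 2)) + (-2 * (R 1 2 0 3 + R 1 2 1 2)))) := r1_RP hR 2 2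
theorem r1_P23 {R : Arr 6} (hR : IsAlgCurv R) : RP R 2 3 = 1 / 8 * (-2 * ((-2 * (R 0 3 0 1 - R 0 3 2 3)) + (-2 * (R 1 2 0 1 - R 1 2 2 3)))) := r1_RP hR 2 3
theorem r1_P24 {R : Arr 6} (hR : IsAlgCurv R) : RP R 2 4 = 1 / 8 * (-2 * ((-2 * (R 0 3 0 2 + R 0 3 1 3)) + (-2 * (R 1 2 0 2 + R 1 2 1 3)))) := r1_RP hR 2 4
theorem r1_P25 {R : Arr 6} (hR : IsAlgCurv R) : RP R 2 5 = 1 / 8 * (-2 * ((-2 * (R 0 3 0 3 - R 0 3 1 2)) + (-2 * (R 1 2 0 3 - R 1 2 1 2)))) := r1_RP hR 2 5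
theorem r1_P30 {R : Arr 6} (hR : IsAlgCurv R) : RP R 3 0 = 1 / 8 * (-2 * ((-2 * (R 0 1 0 1 + R 0 1 2 3)) - (-2 * (R 2 3 0 1 + R 2 3 2 3)))) := r1_RP hR 3 0
theorem r1_P31 {R : Arr 6} (hR : IsAlgCurv R) : RP R 3 1 = 1 / 8 * (-2 * ((-2 * (R 0 1 0 2 - R 0 1 1 3)) - (-2 * (R 2 3 0 2 - R 2 3 1 3)))) := r1_RP hR 3 1
theorem r1_P32 {R : Arr 6} (hR : IsAlgCurv R) : RP R 3 2 = 1 / 8 * (-2 * ((-2 * (R 0 1 0 3 + R 0 1 1 2)) - (-2 * (R 2 3 0 3 + R 2 3 1 2)))) := r1_RP hR 3 2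
theorem r1_P33 {R : Arr 6} (hR : IsAlgCurv R) : RP R 3 3 = 1 / 8 * (-2 * ((-2 * (R 0 1 0 1 - R 0 1 2 3)) - (-2 * (R 2 3 0 1 - R 2 3 2 3)))) := r1_RP hR 3 3
theorem r1_P34 {R : Arr 6} (hR : IsAlgCurv R) : RP R 3 4 = 1 / 8 * (-2 * ((-2 * (R 0 1 0 2 + R 0 1 1 3)) - (-2 * (R 2 3 0 2 + R 2 3 1 3)))) := r1_RP hR 3 4
theorem r1_P35 {R : Arr 6} (hR : IsAlgCurv R) : RP R 3 5 = 1 / 8 * (-2 * ((-2 * (R 0 1 0 3 - R 0 1 1 2)) - (-2 * (R 2 3 0 3 - R 2 3 1 2)))) := r1_RP hR 3 5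
theorem r1_P40 {R : Arr 6} (hR : IsAlgCurv R) : RP R 4 0 = 1 / 8 * (-2 * ((-2 * (R 0 2 0 1 + R 0 2 2 3)) + (-2 * (R 1 3 0 1 + R 1 3 2 3)))) := r1_RP hR 4 0
theorem r1_P41 {R : Arr 6} (hR : IsAlgCurv R) : RP R 4 1 = 1 / 8 * (-2 * ((-2 * (R 0 2 0 2 - R 0 2 1 3)) + (-2 * (R 1 3 0 2 - R 1 3 1 3)))) := r1_RP hR 4 1
theorem r1_P42 {R : Arr 6} (hR : IsAlgCurv R) : RP R 4 2 = 1 / 8 * (-2 * ((-2 * (R 0 2 0 3 + R 0 2 1 2)) + (-2 * (R 1 3 0 3 + R 1 3 1 2)))) := r1_RP hR 4 2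
theorem r1_P43 {R : Arr 6} (hR : IsAlgCurv R) : RP R 4 3 = 1 / 8 * (-2 * ((-2 * (R 0 2 0 1 - R 0 2 2 3)) + (-2 * (R 1 3 0 1 - R 1 3 2 3)))) := r1_RP hR 4 3
theorem r1_P44 {R : Arr 6} (hR : IsAlgCurv R) : RP R 4 4 = 1 / 8 * (-2 * ((-2 * (R 0 2 0 2 + R 0 2 1 3)) + (-2 * (R 1 3 0 2 + R 1 3 1 3)))) := r1_RP hR 4 4
theorem r1_P45 {R : Arr 6} (hR : IsAlgCurv R) : RP R 4 5 = 1 / 8 * (-2 * ((-2 * (R 0 2 0 3 - R 0 2 1 2)) + (-2 * (R 1 3 0 3 - R 1 3 1 2)))) := r1_RP hR 4 5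
theorem r1_P50 {R : Arr 6} (hR : IsAlgCurv R) : RP R 5 0 = 1 / 8 * (-2 * ((-2 * (R 0 3 0 1 + R 0 3 2 3)) - (-2 * (R 1 2 0 1 + R 1 2 2 3)))) := r1_RP hR 5 0
theorem r1_P51 {R : Arr 6} (hR : IsAlgCurv R) : RP R 5 1 = 1 / 8 * (-2 * ((-2 * (R 0 3 0 2 - R 0 3 1 3)) - (-2 * (R 1 2 0 2 - R 1 2 1 3)))) := r1_RP hR 5 1
theorem r1_P52 {R : Arr 6} (hR : IsAlgCurv R) : RP R 5 2 = 1 / 8 * (-2 * ((-2 * (R 0 3 0 3 + R 0 3 1 2)) - (-2 * (R 1 2 0 3 + R 1 2 1 2)))) := r1_RP hR 5 2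
theorem r1_P53 {R : Arr 6} (hR : IsAlgCurv R) : RP R 5 3 = 1 / 8 * (-2 * ((-2 * (R 0 3 0 1 - R 0 3 2 3)) - (-2 * (R 1 2 0 1 - R 1 2 2 3)))) := r1_RP hR 5 3
theorem r1_P54 {R : Arr 6} (hR : IsAlgCurv R) : RP R 5 4 = 1 / 8 * (-2 * ((-2 * (R 0 3 0 2 + R 0 3 1 3)) - (-2 * (R 1 2 0 2 + R 1 2 1 3)))) := r1_RP hR 5 4
theorem r1_P55 {R : Arr 6} (hR : IsAlgCurv R) : RP R 5 5 = 1 / 8 * (-2 * ((-2 * (R 0 3 0 3 - R 0 3 1 2)) - (-2 * (R 1 2 0 3 - R 1 2 1 2)))) := r1_RP hR 5 5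

theorem r1_c00 (M : M4) (i : Fin 4) : r1_cm 0 M i 0 = M i 1 := rfl
theorem r1_c01 (M : M4) (i : Fin 4) : r1_cm 0 M i 1 = -M i 0 := rfl
theorem r1_c02 (M : M4) (i : Fin 4) : r1_cm 0 M i 2 = M i 3 := rfl
theorem r1_c03 (M : M4) (i : Fin 4) : r1_cm 0 M i 3 = -M i 2 := rfl
theorem r1_c10 (M : M4) (i : Fin 4) : r1_cm 1 M i 0 = M i 2 := rfl
theorem r1_c11 (M : M4) (i : Fin 4) : r1_cm 1 M i 1 = -M i 3 := rfl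
theorem r1_c12 (M : M4) (i : Fin 4) : r1_cm 1 M i 2 = -M i 0 := rfl
theorem r1_c13 (M : M4) (i : Fin 4) : r1_cm 1 M i 3 = M i 1 := rfl
theorem r1_c20 (M : M4) (i : Fin 4) : r1_cm 2 M i 0 = M i 3 := rfl
theorem r1_c21 (M : M4) (i : Fin 4) : r1_cm 2 M i 1 = M i 2 := rfl
theorem r1_c22 (M : M4) (i : Fin 4) : r1_cm 2 M i 2 = -M i 1 := rfl
theorem r1_c23 (M : M4) (i : Fin 4) : r1_cm 2 M i 3 = -M i 0 := rfl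
theorem r1_c30 (M : M4) (i : Fin 4) : r1_cm 3 M i 0 = M i 1 := rfl
theorem r1_c31 (M : M4) (i : Fin 4) : r1_cm 3 M i 1 = -M i 0 := rfl
theorem r1_c32 (M : M4) (i : Fin 4) : r1_cm 3 M i 2 = -M i 3 := rfl
theorem r1_c33 (M : M4) (i : Fin 4) : r1_cm 3 M i 3 = M i 2 := rfl
theorem r1_c40 (M : M4) (i : Fin 4) : r1_cm 4 M i 0 = M i 2 := rfl
theorem r1_c41 (M : M4) (i : Fin 4) : r1_cm 4 M i 1 = M i 3 := rfl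
theorem r1_c42 (M : M4) (i : Fin 4) : r1_cm 4 M i 2 = -M i 0 := rfl
theorem r1_c43 (M : M4) (i : Fin 4) : r1_cm 4 M i 3 = -M i 1 := rfl
theorem r1_c50 (M : M4) (i : Fin 4) : r1_cm 5 M i 0 = M i 3 := rfl
theorem r1_c51 (M : M4) (i : Fin 4) : r1_cm 5 M i 1 = -M i 2 := rfl
theorem r1_c52 (M : M4) (i : Fin 4) : r1_cm 5 M i 2 = M i 1 := rfl
theorem r1_c53 (M : M4) (i : Fin 4) : r1_cm 5 M i 3 = -M i 0 := rfl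

theorem r1_RA00 {R : Arr 6} (hR : IsAlgCurv R) (hs : Ty s42 R) : RA R 0 0 = R 0 4 0 4 := rfl
theorem r1_RA01 {R : Arr 6} (hR : IsAlgCurv R) (hs : Ty s42 R) : RA R 0 1 = R 0 4 1 4 := rfl
theorem r1_RA02 {R : Arr 6} (hR : IsAlgCurv R) (hs : Ty s42 R) : RA R 0 2 = R 0 4 2 4 := rfl
theorem r1_RA03 {R : Arr 6} (hR : IsAlgCurv R) (hs : Ty s42 R) : RA R 0 3 = R 0 4 3 4 := rfl
theorem r1_RA10 {R : Arr 6} (hR : IsAlgCurv R) (hs : Ty s42 R) : RA R 1 0 = R 0 4 1 4 := hR.pair 1 4 0 4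
theorem r1_RA11 {R : Arr 6} (hR : IsAlgCurv R) (hs : Ty s42 R) : RA R 1 1 = R 1 4 1 4 := rfl
theorem r1_RA12 {R : Arr 6} (hR : IsAlgCurv R) (hs : Ty s42 R) : RA R 1 2 = R 1 4 2 4 := rfl
theorem r1_RA13 {R : Arr 6} (hR : IsAlgCurv R) (hs : Ty s42 R) : RA R 1 3 = R 1 4 3 4 := rfl
theorem r1_RA20 {R : Arr 6} (hR : IsAlgCurv R) (hs : Ty s42 R) : RA R 2 0 = R 0 4 2 4 := hR.pair 2 4 0 4
theorem r1_RA21 {R : Arr 6} (hR : IsAlgCurv R) (hs : Ty s42 R) : RA R 2 1 = R 1 4 2 4 := hR.pair 2 4 1 4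
theorem r1_RA22 {R : Arr 6} (hR : IsAlgCurv R) (hs : Ty s42 R) : RA R 2 2 = R 2 4 2 4 := rfl
theorem r1_RA23 {R : Arr 6} (hR : IsAlgCurv R) (hs : Ty s42 R) : RA R 2 3 = R 2 4 3 4 := rfl
theorem r1_RA30 {R : Arr 6} (hR : IsAlgCurv R) (hs : Ty s42 R) : RA R 3 0 = R 0 4 3 4 := hR.pair 3 4 0 4
theorem r1_RA31 {R : Arr 6} (hR : IsAlgCurv R) (hs : Ty s42 R) : RA R 3 1 = R 1 4 3 4 := hR.pair 3 4 1 4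
theorem r1_RA32 {R : Arr 6} (hR : IsAlgCurv R) (hs : Ty s42 R) : RA R 3 2 = R 2 4 3 4 := hR.pair 3 4 2 4
theorem r1_RA33 {R : Arr 6} (hR : IsAlgCurv R) (hs : Ty s42 R) : RA R 3 3 = R 3 4 3 4 := rfl
theorem r1_RB00 {R : Arr 6} (hR : IsAlgCurv R) (hs : Ty s42 R) : RB R 0 0 = R 0 4 0 5 := rfl
theorem r1_RB01 {R : Arr 6} (hR : IsAlgCurv R) (hs : Ty s42 R) : RB R 0 1 = R 0 4 1 5 := rfl
theorem r1_RB02 {R : Arr 6} (hR : IsAlgCurv R) (hs : Ty s42 R) : RB R 0 2 = R 0 4 2 5 := rfl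
theorem r1_RB03 {R : Arr 6} (hR : IsAlgCurv R) (hs : Ty s42 R) : RB R 0 3 = R 0 4 3 5 := rfl
theorem r1_RB10 {R : Arr 6} (hR : IsAlgCurv R) (hs : Ty s42 R) : RB R 1 0 = R 0 4 1 5 := r1_bs hR hs 1 0 (by decide)
theorem r1_RB11 {R : Arr 6} (hR : IsAlgCurv R) (hs : Ty s42 R) : RB R 1 1 = R 1 4 1 5 := rfl
theorem r1_RB12 {R : Arr 6} (hR : IsAlgCurv R) (hs : Ty s42 R) : RB R 1 2 = R 1 4 2 5 := rfl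
theorem r1_RB13 {R : Arr 6} (hR : IsAlgCurv R) (hs : Ty s42 R) : RB R 1 3 = R 1 4 3 5 := rfl
theorem r1_RB20 {R : Arr 6} (hR : IsAlgCurv R) (hs : Ty s42 R) : RB R 2 0 = R 0 4 2 5 := r1_bs hR hs 2 0 (by decide)
theorem r1_RB21 {R : Arr 6} (hR : IsAlgCurv R) (hs : Ty s42 R) : RB R 2 1 = R 1 4 2 5 := r1_bs hR hs 2 1 (by decide)
theorem r1_RB22 {R : Arr 6} (hR : IsAlgCurv R) (hs : Ty s42 R) : RB R 2 2 = R 2 4 2 5 := rfl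
theorem r1_RB23 {R : Arr 6} (hR : IsAlgCurv R) (hs : Ty s42 R) : RB R 2 3 = R 2 4 3 5 := rfl
theorem r1_RB30 {R : Arr 6} (hR : IsAlgCurv R) (hs : Ty s42 R) : RB R 3 0 = R 0 4 3 5 := r1_bs hR hs 3 0 (by decide)
theorem r1_RB31 {R : Arr 6} (hR : IsAlgCurv R) (hs : Ty s42 R) : RB R 3 1 = R 1 4 3 5 := r1_bs hR hs 3 1 (by decide)
theorem r1_RB32 {R : Arr 6} (hR : IsAlgCurv R) (hs : Ty s42 R) : RB R 3 2 = R 2 4 3 5 := r1_bs hR hs 3 2 (by decide)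
theorem r1_RB33 {R : Arr 6} (hR : IsAlgCurv R) (hs : Ty s42 R) : RB R 3 3 = R 3 4 3 5 := rfl
theorem r1_RC00 {R : Arr 6} (hR : IsAlgCurv R) (hs : Ty s42 R) : RC R 0 0 = R 0 5 0 5 := rfl
theorem r1_RC01 {R : Arr 6} (hR : IsAlgCurv R) (hs : Ty s42 R) : RC R 0 1 = R 0 5 1 5 := rfl
theorem r1_RC02 {R : Arr 6} (hR : IsAlgCurv R) (hs : Ty s42 R) : RC R 0 2 = R 0 5 2 5 := rfl
theorem r1_RC03 {R : Arr 6} (hR : IsAlgCurv R) (hs : Ty s42 R) : RC R 0 3 = R 0 5 3 5 := rfl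
theorem r1_RC10 {R : Arr 6} (hR : IsAlgCurv R) (hs : Ty s42 R) : RC R 1 0 = R 0 5 1 5 := hR.pair 1 5 0 5
theorem r1_RC11 {R : Arr 6} (hR : IsAlgCurv R) (hs : Ty s42 R) : RC R 1 1 = R 1 5 1 5 := rfl
theorem r1_RC12 {R : Arr 6} (hR : IsAlgCurv R) (hs : Ty s42 R) : RC R 1 2 = R 1 5 2 5 := rfl
theorem r1_RC13 {R : Arr 6} (hR : IsAlgCurv R) (hs : Ty s42 R) : RC R 1 3 = R 1 5 3 5 := rfl
theorem r1_RC20 {R : Arr 6} (hR : IsAlgCurv R) (hs : Ty s42 R) : RC R 2 0 = R 0 5 2 5 := hR.pair 2 5 0 5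
theorem r1_RC21 {R : Arr 6} (hR : IsAlgCurv R) (hs : Ty s42 R) : RC R 2 1 = R 1 5 2 5 := hR.pair 2 5 1 5
theorem r1_RC22 {R : Arr 6} (hR : IsAlgCurv R) (hs : Ty s42 R) : RC R 2 2 = R 2 5 2 5 := rfl
theorem r1_RC23 {R : Arr 6} (hR : IsAlgCurv R) (hs : Ty s42 R) : RC R 2 3 = R 2 5 3 5 := rfl
theorem r1_RC30 {R : Arr 6} (hR : IsAlgCurv R) (hs : Ty s42 R) : RC R 3 0 = R 0 5 3 5 := hR.pair 3 5 0 5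
theorem r1_RC31 {R : Arr 6} (hR : IsAlgCurv R) (hs : Ty s42 R) : RC R 3 1 = R 1 5 3 5 := hR.pair 3 5 1 5
theorem r1_RC32 {R : Arr 6} (hR : IsAlgCurv R) (hs : Ty s42 R) : RC R 3 2 = R 2 5 3 5 := hR.pair 3 5 2 5
theorem r1_RC33 {R : Arr 6} (hR : IsAlgCurv R) (hs : Ty s42 R) : RC R 3 3 = R 3 5 3 5 := rfl

theorem r1_q10 {R : Arr 6} (hR : IsAlgCurv R) : R 0 2 0 1 = R 0 1 0 2 := hR.pair _ _ _ _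
theorem r1_q20 {R : Arr 6} (hR : IsAlgCurv R) : R 0 3 0 1 = R 0 1 0 3 := hR.pair _ _ _ _
theorem r1_q21 {R : Arr 6} (hR : IsAlgCurv R) : R 0 3 0 2 = R 0 2 0 3 := hR.pair _ _ _ _
theorem r1_q30 {R : Arr 6} (hR : IsAlgCurv R) : R 1 2 0 1 = R 0 1 1 2 := hR.pair _ _ _ _
theorem r1_q31 {R : Arr 6} (hR : IsAlgCurv R) : R 1 2 0 2 = R 0 2 1 2 := hR.pair _ _ _ _
theorem r1_q32 {R : Arr 6} (hR : IsAlgCurv R) : R 1 2 0 3 = R 0 2 1 3 - R 0 1 2 3 := by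
  linarith [hR.bianchi 0 1 2 3, hR.skew 2 0 1 3, hR.pair 1 2 0 3]
theorem r1_q40 {R : Arr 6} (hR : IsAlgCurv R) : R 1 3 0 1 = R 0 1 1 3 := hR.pair _ _ _ _
theorem r1_q41 {R : Arr 6} (hR : IsAlgCurv R) : R 1 3 0 2 = R 0 2 1 3 := hR.pair _ _ _ _
theorem r1_q42 {R : Arr 6} (hR : IsAlgCurv R) : R 1 3 0 3 = R 0 3 1 3 := hR.pair _ _ _ _
theorem r1_q43 {R : Arr 6} (hR : IsAlgCurv R) : R 1 3 1 2 = R 1 2 1 3 := hR.pair _ _ _ _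
theorem r1_q50 {R : Arr 6} (hR : IsAlgCurv R) : R 2 3 0 1 = R 0 1 2 3 := hR.pair _ _ _ _
theorem r1_q51 {R : Arr 6} (hR : IsAlgCurv R) : R 2 3 0 2 = R 0 2 2 3 := hR.pair _ _ _ _
theorem r1_q52 {R : Arr 6} (hR : IsAlgCurv R) : R 2 3 0 3 = R 0 3 2 3 := hR.pair _ _ _ _
theorem r1_q53 {R : Arr 6} (hR : IsAlgCurv R) : R 2 3 1 2 = R 1 2 2 3 := hR.pair _ _ _ _
theorem r1_q54 {R : Arr 6} (hR : IsAlgCurv R) : R 2 3 1 3 = R 1 3 2 3 := hR.pair _ _ _ _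
theorem r1_qb {R : Arr 6} (hR : IsAlgCurv R) : R 0 3 1 2 = R 0 2 1 3 - R 0 1 2 3 := by
  linarith [hR.bianchi 0 1 2 3, hR.skew 2 0 1 3, hR.pair 1 2 0 3]

theorem r1_sg0 : sg 0 = 1 := rfl
theorem r1_sg1 : sg 1 = 1 := rfl
theorem r1_sg2 : sg 2 = 1 := rfl
theorem r1_sg3 : sg 3 = -1 := rfl
theorem r1_sg4 : sg 4 = -1 := rfl
theorem r1_sg5 : sg 5 = -1 := rfl

theorem r1_T0 {R : Arr 6} (hR : IsAlgCurv R) : T0 (RP R) = r1_p1 R := by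
  unfold T0 r1_p1
  simp only [Fin.sum_univ_six, r1_sg0, r1_sg1, r1_sg2, r1_sg3, r1_sg4, r1_sg5, r1_P00 hR, r1_P01 hR, r1_P02 hR, r1_P03 hR, r1_P04 hR, r1_P05 hR, r1_P10 hR, r1_P11 hR, r1_P12 hR, r1_P13 hR, r1_P14 hR, r1_P15 hR, r1_P20 hR, r1_P21 hR, r1_P22 hR, r1_P23 hR, r1_P24 hR, r1_P25 hR, r1_P30 hR, r1_P31 hR, r1_P32 hR, r1_P33 hR, r1_P34 hR, r1_P35 hR, r1_P40 hR, r1_P41 hR, r1_P42 hR, r1_P43 hR, r1_P44 hR, r1_P45 hR, r1_P50 hR, r1_P51 hR, r1_P52 hR, r1_P53 hR, r1_P54 hR, r1_P55 hR]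
  simp only [r1_q10 hR, r1_q20 hR, r1_q21 hR, r1_q30 hR, r1_q31 hR, r1_q32 hR, r1_q40 hR, r1_q41 hR, r1_q42 hR, r1_q43 hR, r1_q50 hR, r1_q51 hR, r1_q52 hR, r1_q53 hR, r1_q54 hR, r1_qb hR]
  obtain ⟨v0101, hv0101⟩ : ∃ v, R 0 1 0 1 = v := ⟨_, rfl⟩
  obtain ⟨v0102, hv0102⟩ : ∃ v, R 0 1 0 2 = v := ⟨_, rfl⟩
  obtain ⟨v0103, hv0103⟩ : ∃ v, R 0 1 0 3 = v := ⟨_, rfl⟩
  obtain ⟨v0112, hv0112⟩ : ∃ v, R 0 1 1 2 = v := ⟨_, rfl⟩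
  obtain ⟨v0113, hv0113⟩ : ∃ v, R 0 1 1 3 = v := ⟨_, rfl⟩
  obtain ⟨v0123, hv0123⟩ : ∃ v, R 0 1 2 3 = v := ⟨_, rfl⟩
  obtain ⟨v0202, hv0202⟩ : ∃ v, R 0 2 0 2 = v := ⟨_, rfl⟩
  obtain ⟨v0203, hv0203⟩ : ∃ v, R 0 2 0 3 = v := ⟨_, rfl⟩
  obtain ⟨v0212, hv0212⟩ : ∃ v, R 0 2 1 2 = v := ⟨_, rfl⟩
  obtain ⟨v0213, hv0213⟩ : ∃ v, R 0 2 1 3 = v := ⟨_, rfl⟩
  obtain ⟨v0223, hv0223⟩ : ∃ v, R 0 2 2 3 = v := ⟨_, rfl⟩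
  obtain ⟨v0303, hv0303⟩ : ∃ v, R 0 3 0 3 = v := ⟨_, rfl⟩
  obtain ⟨v0313, hv0313⟩ : ∃ v, R 0 3 1 3 = v := ⟨_, rfl⟩
  obtain ⟨v0323, hv0323⟩ : ∃ v, R 0 3 2 3 = v := ⟨_, rfl⟩
  obtain ⟨v1212, hv1212⟩ : ∃ v, R 1 2 1 2 = v := ⟨_, rfl⟩
  obtain ⟨v1213, hv1213⟩ : ∃ v, R 1 2 1 3 = v := ⟨_, rfl⟩
  obtain ⟨v1223, hv1223⟩ : ∃ v, R 1 2 2 3 = v := ⟨_, rfl⟩
  obtain ⟨v1313, hv1313⟩ : ∃ v, R 1 3 1 3 = v := ⟨_, rfl⟩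
  obtain ⟨v1323, hv1323⟩ : ∃ v, R 1 3 2 3 = v := ⟨_, rfl⟩
  obtain ⟨v2323, hv2323⟩ : ∃ v, R 2 3 2 3 = v := ⟨_, rfl⟩
  simp only [hv0101, hv0102, hv0103, hv0112, hv0113, hv0123, hv0202, hv0203, hv0212, hv0213, hv0223, hv0303, hv0313, hv0323, hv1212, hv1213, hv1223, hv1313, hv1323, hv2323]
  ring

theorem r1_pr {R : Arr 6} (hR : IsAlgCurv R) (hs : Ty s42 R) :
    pr (RP R) (Wm (RA R) (RB R) (RC R)) = r1_p2 R := by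
  unfold pr r1_p2
  simp only [Fin.sum_univ_six, r1_sg0, r1_sg1, r1_sg2, r1_sg3, r1_sg4, r1_sg5, r1_P00 hR, r1_P01 hR, r1_P02 hR, r1_P03 hR, r1_P04 hR, r1_P05 hR, r1_P10 hR, r1_P11 hR, r1_P12 hR, r1_P13 hR, r1_P14 hR, r1_P15 hR, r1_P20 hR, r1_P21 hR, r1_P22 hR, r1_P23 hR, r1_P24 hR, r1_P25 hR, r1_P30 hR, r1_P31 hR, r1_P32 hR, r1_P33 hR, r1_P34 hR, r1_P35 hR, r1_P40 hR, r1_P41 hR, r1_P42 hR, r1_P43 hR, r1_P44 hR, r1_P45 hR, r1_P50 hR, r1_P51 hR, r1_P52 hR, r1_P53 hR, r1_P54 hR, r1_P55 hR, r1_W]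
  simp only [Fin.sum_univ_four, r1_c00, r1_c01, r1_c02, r1_c03, r1_c10, r1_c11, r1_c12, r1_c13, r1_c20, r1_c21, r1_c22, r1_c23, r1_c30, r1_c31, r1_c32, r1_c33, r1_c40, r1_c41, r1_c42, r1_c43, r1_c50, r1_c51, r1_c52, r1_c53]
  simp only [r1_RA00 hR hs, r1_RA01 hR hs, r1_RA02 hR hs, r1_RA03 hR hs, r1_RA10 hR hs, r1_RA11 hR hs, r1_RA12 hR hs, r1_RA13 hR hs, r1_RA20 hR hs, r1_RA21 hR hs, r1_RA22 hR hs, r1_RA23 hR hs, r1_RA30 hR hs, r1_RA31 hR hs, r1_RA32 hR hs, r1_RA33 hR hs, r1_RB00 hR hs, r1_RB01 hR hs, r1_RB02 hR hs, r1_RB03 hR hs, r1_RB10 hR hs, r1_RB11 hR hs, r1_RB12 hR hs, r1_RB13 hR hs, r1_RB20 hR hs, r1_RB21 hR hs, r1_RB22 hR hs, r1_RB23 hR hs, r1_RB30 hR hs, r1_RB31 hR hs, r1_RB32 hR hs, r1_RB33 hR hs, r1_RC00 hR hs, r1_RC01 hR hs, r1_RC02 hR hs, r1_RC03 hR hs, r1_RC10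 hR hs, r1_RC11 hR hs, r1_RC12 hR hs, r1_RC13 hR hs, r1_RC20 hR hs, r1_RC21 hR hs, r1_RC22 hR hs, r1_RC23 hR hs, r1_RC30 hR hs, r1_RC31 hR hs, r1_RC32 hR hs, r1_RC33 hR hs]
  simp only [r1_q10 hR, r1_q20 hR, r1_q21 hR, r1_q30 hR, r1_q31 hR, r1_q32 hR, r1_q40 hR, r1_q41 hR, r1_q42 hR, r1_q43 hR, r1_q50 hR, r1_q51 hR, r1_q52 hR, r1_q53 hR, r1_q54 hR, r1_qb hR]
  obtain ⟨v0101, hv0101⟩ : ∃ v, R 0 1 0 1 = v := ⟨_, rfl⟩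
  obtain ⟨v0102, hv0102⟩ : ∃ v, R 0 1 0 2 = v := ⟨_, rfl⟩
  obtain ⟨v0103, hv0103⟩ : ∃ v, R 0 1 0 3 = v := ⟨_, rfl⟩
  obtain ⟨v0112, hv0112⟩ : ∃ v, R 0 1 1 2 = v := ⟨_, rfl⟩
  obtain ⟨v0113, hv0113⟩ : ∃ v, R 0 1 1 3 = v := ⟨_, rfl⟩
  obtain ⟨v0123, hv0123⟩ : ∃ v, R 0 1 2 3 = v := ⟨_, rfl⟩
  obtain ⟨v0202, hv0202⟩ : ∃ v, R 0 2 0 2 = v := ⟨_, rfl⟩
  obtain ⟨v0203, hv0203⟩ : ∃ v, R 0 2 0 3 = v := ⟨_, rfl⟩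
  obtain ⟨v0212, hv0212⟩ : ∃ v, R 0 2 1 2 = v := ⟨_, rfl⟩
  obtain ⟨v0213, hv0213⟩ : ∃ v, R 0 2 1 3 = v := ⟨_, rfl⟩
  obtain ⟨v0223, hv0223⟩ : ∃ v, R 0 2 2 3 = v := ⟨_, rfl⟩
  obtain ⟨v0303, hv0303⟩ : ∃ v, R 0 3 0 3 = v := ⟨_, rfl⟩
  obtain ⟨v0313, hv0313⟩ : ∃ v, R 0 3 1 3 = v := ⟨_, rfl⟩
  obtain ⟨v0323, hv0323⟩ : ∃ v, R 0 3 2 3 = v := ⟨_, rfl⟩
  obtain ⟨v0404, hv0404⟩ : ∃ v, R 0 4 0 4 = v := ⟨_, rfl⟩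
  obtain ⟨v0405, hv0405⟩ : ∃ v, R 0 4 0 5 = v := ⟨_, rfl⟩
  obtain ⟨v0414, hv0414⟩ : ∃ v, R 0 4 1 4 = v := ⟨_, rfl⟩
  obtain ⟨v0415, hv0415⟩ : ∃ v, R 0 4 1 5 = v := ⟨_, rfl⟩
  obtain ⟨v0424, hv0424⟩ : ∃ v, R 0 4 2 4 = v := ⟨_, rfl⟩
  obtain ⟨v0425, hv0425⟩ : ∃ v, R 0 4 2 5 = v := ⟨_, rfl⟩
  obtain ⟨v0434, hv0434⟩ : ∃ v, R 0 4 3 4 = v := ⟨_, rfl⟩
  obtain ⟨v0435, hv0435⟩ : ∃ v, R 0 4 3 5 = v := ⟨_, rfl⟩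
  obtain ⟨v0505, hv0505⟩ : ∃ v, R 0 5 0 5 = v := ⟨_, rfl⟩
  obtain ⟨v0515, hv0515⟩ : ∃ v, R 0 5 1 5 = v := ⟨_, rfl⟩
  obtain ⟨v0525, hv0525⟩ : ∃ v, R 0 5 2 5 = v := ⟨_, rfl⟩
  obtain ⟨v0535, hv0535⟩ : ∃ v, R 0 5 3 5 = v := ⟨_, rfl⟩
  obtain ⟨v1212, hv1212⟩ : ∃ v, R 1 2 1 2 = v := ⟨_, rfl⟩
  obtain ⟨v1213, hv1213⟩ : ∃ v, R 1 2 1 3 = v := ⟨_, rfl⟩
  obtain ⟨v1223, hv1223⟩ : ∃ v, R 1 2 2 3 = v := ⟨_, rfl⟩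
  obtain ⟨v1313, hv1313⟩ : ∃ v, R 1 3 1 3 = v := ⟨_, rfl⟩
  obtain ⟨v1323, hv1323⟩ : ∃ v, R 1 3 2 3 = v := ⟨_, rfl⟩
  obtain ⟨v1414, hv1414⟩ : ∃ v, R 1 4 1 4 = v := ⟨_, rfl⟩
  obtain ⟨v1415, hv1415⟩ : ∃ v, R 1 4 1 5 = v := ⟨_, rfl⟩
  obtain ⟨v1424, hv1424⟩ : ∃ v, R 1 4 2 4 = v := ⟨_, rfl⟩
  obtain ⟨v1425, hv1425⟩ : ∃ v, R 1 4 2 5 = v := ⟨_, rfl⟩
  obtain ⟨v1434, hv1434⟩ : ∃ v, R 1 4 3 4 = v := ⟨_, rfl⟩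
  obtain ⟨v1435, hv1435⟩ : ∃ v, R 1 4 3 5 = v := ⟨_, rfl⟩
  obtain ⟨v1515, hv1515⟩ : ∃ v, R 1 5 1 5 = v := ⟨_, rfl⟩
  obtain ⟨v1525, hv1525⟩ : ∃ v, R 1 5 2 5 = v := ⟨_, rfl⟩
  obtain ⟨v1535, hv1535⟩ : ∃ v, R 1 5 3 5 = v := ⟨_, rfl⟩
  obtain ⟨v2323, hv2323⟩ : ∃ v, R 2 3 2 3 = v := ⟨_, rfl⟩
  obtain ⟨v2424, hv2424⟩ : ∃ v, R 2 4 2 4 = v := ⟨_, rfl⟩
  obtain ⟨v2425, hv2425⟩ : ∃ v, R 2 4 2 5 = v := ⟨_, rfl⟩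
  obtain ⟨v2434, hv2434⟩ : ∃ v, R 2 4 3 4 = v := ⟨_, rfl⟩
  obtain ⟨v2435, hv2435⟩ : ∃ v, R 2 4 3 5 = v := ⟨_, rfl⟩
  obtain ⟨v2525, hv2525⟩ : ∃ v, R 2 5 2 5 = v := ⟨_, rfl⟩
  obtain ⟨v2535, hv2535⟩ : ∃ v, R 2 5 3 5 = v := ⟨_, rfl⟩
  obtain ⟨v3434, hv3434⟩ : ∃ v, R 3 4 3 4 = v := ⟨_, rfl⟩
  obtain ⟨v3435, hv3435⟩ : ∃ v, R 3 4 3 5 = v := ⟨_, rfl⟩
  obtain ⟨v3535, hv3535⟩ : ∃ v, R 3 5 3 5 = v := ⟨_, rfl⟩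
  simp only [hv0101, hv0102, hv0103, hv0112, hv0113, hv0123, hv0202, hv0203, hv0212, hv0213, hv0223, hv0303, hv0313, hv0323, hv0404, hv0405, hv0414, hv0415, hv0424, hv0425, hv0434, hv0435, hv0505, hv0515, hv0525, hv0535, hv1212, hv1213, hv1223, hv1313, hv1323, hv1414, hv1415, hv1424, hv1425, hv1434, hv1435, hv1515, hv1525, hv1535, hv2323, hv2424, hv2425, hv2434, hv2435, hv2525, hv2535, hv3434, hv3435, hv3535]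
  ring

theorem gb_eq {R : Arr 6} (hR : IsAlgCurv R) (hs : Ty s42 R) : gb R = 384 * TT (R 4 5 4 5) (RP R) (RA R) (RB R) (RC R) := by
  have hR' : HopfSix.IsAlgCurv R := ⟨hR.skew, hR.pair, hR.bianchi⟩
  rw [gb, HopfKC.gb_blocks hR', r1_gb hR hs]
  unfold TT
  rw [r1_T0 hR, r1_pr hR hs]

end H79T
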