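import Pool.Agent.Lib.H79T.Defs

/-!
# Chunk A1 (S)
`sk_g6`: entrywise identity (`ext i j; fin_cases i <;> fin_cases j`), unfold `sk, g6, JJ, JL, JR, dotProduct, mulVec`,
`Fin.sum_univ_four`, `Fin.sum_univ_succ`, `ring`. `pf_sk`: unfold, `ring`. `skew_sk`: `x a = (1/4) ∑ i j, X i j * JJ a i j`
(explicitly: `x 0 = -(X 0 1 + X 2 3)/2`, `x 3 = -(X 0 1 - X 2 3)/2`, `x 1 = -(X 0 2 - X 1 3)/2`, `x 4 = -(X 0 2 + X 1 3)/2`,
`x 2 = -(X 0 3 + X 1 2)/2`, `x 5 = -(X 0 3 - X 1 2)/2`), check the 16 entries with `X j i = - X i j`, `X i i = 0`.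
-/

set_option autoImplicit false

open Matrix Finset

namespace H79T

open Pool.Agent.H69Hopf (Arr IsAlgCurv ev area2 idA)
open H30K (gb KB Cyc)
open H21C (Ty)

theorem A1_sk_eq (x : Fin 6 → ℝ) : sk x =
    !![0, -(x 0 + x 3), -(x 1 + x 4), -(x 2 + x 5);
       x 0 + x 3, 0, -x 2 + x 5, x 1 - x 4;
       x 1 + x 4, x 2 - x 5, 0, -x 0 + x 3;
       x 2 + x 5, -x 1 + x 4, x 0 - x 3, 0] := by
  have h : sk x = x 0 • JL 0 + x 1 • JL 1 + x 2 • JL 2 + x 3 • JR 0 + x 4 • JR 1 + x 5 • JR 2 := by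
    simp only [sk, Fin.sum_univ_succ, Fin.sum_univ_zero, add_zero]
    simp only [← add_assoc]
    rfl
  rw [h]
  ext i j
  fin_cases i <;> fin_cases j <;> simp [JL, JR] <;> ring

theorem A1_g0 (u v : Fin 4 → ℝ) : g6 u v 0 = -(u 0 * v 1) + u 1 * v 0 - u 2 * v 3 + u 3 * v 2 := by
  simp only [g6, JJ, dotProduct, mulVec, Fin.sum_univ_four, JL, Matrix.of_apply, Matrix.cons_val]
  ring

theorem A1_g1 (u v : Fin 4 → ℝ) : g6 u v 1 = -(u 0 * v 2) + u 1 * v 3 + u 2 * v 0 - u 3 * v 1 := by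
  simp only [g6, JJ, dotProduct, mulVec, Fin.sum_univ_four, JL, Matrix.of_apply, Matrix.cons_val]
  ring

theorem A1_g2 (u v : Fin 4 → ℝ) : g6 u v 2 = -(u 0 * v 3) - u 1 * v 2 + u 2 * v 1 + u 3 * v 0 := by
  simp only [g6, JJ, dotProduct, mulVec, Fin.sum_univ_four, JL, Matrix.of_apply, Matrix.cons_val]
  ring

theorem A1_g3 (u v : Fin 4 → ℝ) : g6 u v 3 = -(u 0 * v 1) + u 1 * v 0 + u 2 * v 3 - u 3 * v 2 := by
  simp only [g6, JJ, dotProduct, mulVec, Fin.sum_univ_four, JR, Matrix.of_apply, Matrix.cons_val]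
  ring

theorem A1_g4 (u v : Fin 4 → ℝ) : g6 u v 4 = -(u 0 * v 2) - u 1 * v 3 + u 2 * v 0 + u 3 * v 1 := by
  simp only [g6, JJ, dotProduct, mulVec, Fin.sum_univ_four, JR, Matrix.of_apply, Matrix.cons_val]
  ring

theorem A1_g5 (u v : Fin 4 → ℝ) : g6 u v 5 = -(u 0 * v 3) + u 1 * v 2 - u 2 * v 1 + u 3 * v 0 := by
  simp only [g6, JJ, dotProduct, mulVec, Fin.sum_univ_four, JR, Matrix.of_apply, Matrix.cons_val]
  ring

theorem sk_g6 (u v : Fin 4 → ℝ) : sk (fun a => g6 u v a / 2) = vecMulVec u v - vecMulVec v u := by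
  rw [A1_sk_eq]
  ext i j
  fin_cases i <;> fin_cases j <;>
    simp [vecMulVec_apply, A1_g0, A1_g1, A1_g2, A1_g3, A1_g4, A1_g5] <;> ring

theorem pf_sk (x : Fin 6 → ℝ) : pf (sk x) = stf x := by
  rw [A1_sk_eq]
  simp [pf, stf, sg, Fin.sum_univ_succ]
  ring

theorem sk_skew (x : Fin 6 → ℝ) : (sk x)ᵀ = - sk x := by
  rw [A1_sk_eq]
  ext i j
  fin_cases i <;> fin_cases j <;> simp <;> ring

theorem skew_sk (X : M4) (hX : Xᵀ = -X) : ∃ x : Fin 6 → ℝ, sk x = X := by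
  refine ⟨![-(X 0 1 + X 2 3) / 2, -(X 0 2 - X 1 3) / 2, -(X 0 3 + X 1 2) / 2,
    -(X 0 1 - X 2 3) / 2, -(X 0 2 + X 1 3) / 2, -(X 0 3 - X 1 2) / 2], ?_⟩
  have h : ∀ i j, X j i = - X i j := fun i j => by
    have := congrFun (congrFun hX i) j
    simpa [Matrix.transpose_apply] using this
  have h00 := h 0 0
  have h11 := h 1 1
  have h22 := h 2 2
  have h33 := h 3 3
  have h01 := h 0 1
  have h02 := h 0 2
  have h03 := h 0 3
  have h12 := h 1 2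
  have h13 := h 1 3
  have h23 := h 2 3
  rw [A1_sk_eq]
  ext i j
  fin_cases i <;> fin_cases j <;> simp <;> linarith

end H79T
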