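import Pool.Agent.Lib.H79T.Core
import Pool.Agent.Lib.H79T.A1

/-!
# Chunk R2 (M)
The data of a curvature tensor. `R' = -R` (in this statement `S` is a tensor with sectional curvature `≥ h`: `hK` is the hypothesis for `S = -R`, `ev S v w v w ≥ h area2 v w`). Symmetry of `RP, RA, RC`: pair symmetry; of `RB`:
`S i 4 j 5 = S j 4 i 5` by Bianchi and `S i j 4 5 = 0`. For `x y : Fin 4 → ℝ`, `c`: `u = (x, -c f5)`, `v = (y, c f4)`, i.e. `u = ![x 0, x 1, x 2, x 3, 0, -c]`, `v = ![y 0, y 1, y 2, y 3, c, 0]`: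
`ev S u v u v = ½ q6 (RP S) (g6 x y) + c² MM (RA S) (RB S) (RC S) x y + c⁴ S 4 5 4 5` and `area2 u v = area4 x y + c² (|x|² + |y|²) + c⁴ ≥ c⁴ + area4`, `area4 = |x|²|y|² - (x·y)² ≥ 0`. (`ev S u v u v`: expand the sums over `Fin 6` as
`Fin 4` and `4, 5`, the terms of wrong type vanish; `∑ S i j l m x i y j x l y m = ½ q6 (RP S) (g6 x y)`: `x i y j - x j y i = (1/2) ∑ a, g6 x y a * JJ a i j` (`sk_g6`).)
`dat_of`: the conclusion for `k = S 4 5 4 5 - h`; `dat4`: for the four-dimensional part `P'' = RP S - h • 1`: `½ q6 P'' (g6 x y) ≥ 0` because `½ q6 1 (g6 x y) = ½ |g6|² = area4` (`2 area4 · ..`: check: `|g6 x y|² = 2 (|x|²|y|² - (x·y)²)`... verify and adapt: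
for `S = idA`, `RP = 1` and `ev idA x y x y = area4`).
-/

set_option autoImplicit false

open Matrix Finset

namespace H79T

open Pool.Agent.H69Hopf (Arr IsAlgCurv ev area2 idA)
open H30K (gb KB Cyc)
open H21C (Ty)

private theorem r2_sum (f : Fin 6 → ℝ) : ∑ i, f i = (∑ i : Fin 4, f (i4 i)) + f 4 + f 5 := by
  rw [Fin.sum_univ_six, Fin.sum_univ_four]
  rfl

private theorem r2_s (i : Fin 4) : s42 (i4 i) = true := by
  revert i
  decide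

private theorem r2_s4 : s42 4 = false := rfl

private theorem r2_s5 : s42 5 = false := rfl

private theorem r2_z {S : Arr 6} (hs : Ty s42 S) {i j k l : Fin 6}
    (h : ¬ ((s42 i = s42 k ∧ s42 j = s42 l) ∨ (s42 i = s42 l ∧ s42 j = s42 k))) : S i j k l = 0 := by
  by_contra h0
  exact h (hs _ _ _ _ h0)

private theorem r2_sk2 {S : Arr 6} (hS : IsAlgCurv S) (i j k l : Fin 6) : S i j k l = - S i j l k := by
  rw [hS.pair i j k l, hS.skew k l i j, hS.pair l k i j]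

private theorem r2_ev {S : Arr 6} (hS : IsAlgCurv S) (hs : Ty s42 S) (x y : Fin 4 → ℝ) (c : ℝ)
    (u v : Fin 6 → ℝ) (hu : ∀ i, u (i4 i) = x i) (hu4 : u 4 = 0) (hu5 : u 5 = -c)
    (hv : ∀ i, v (i4 i) = y i) (hv4 : v 4 = c) (hv5 : v 5 = 0) :
    ev S u v u v = (∑ i, ∑ j, ∑ k, ∑ l, S (i4 i) (i4 j) (i4 k) (i4 l) * x i * y j * x k * y l)
      + c ^ 2 * MM (RA S) (RB S) (RC S) x y + c ^ 4 * S 4 5 4 5 := by
  have z1 : ∀ i j k : Fin 4, S (i4 i) (i4 j) (i4 k) 4 = 0 := fun i j k =>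
    r2_z hs (by simp only [r2_s, r2_s4]; decide)
  have z2 : ∀ i j l : Fin 4, S (i4 i) (i4 j) 5 (i4 l) = 0 := fun i j l =>
    r2_z hs (by simp only [r2_s, r2_s5]; decide)
  have z3 : ∀ i j : Fin 4, S (i4 i) (i4 j) 5 4 = 0 := fun i j =>
    r2_z hs (by simp only [r2_s, r2_s4, r2_s5]; decide)
  have z4 : ∀ i k l : Fin 4, S (i4 i) 4 (i4 k) (i4 l) = 0 := fun i k l =>
    r2_z hs (by simp only [r2_s, r2_s4]; decide)
  have z5 : ∀ i : Fin 4, S (i4 i) 4 5 4 = 0 := fun i =>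
    r2_z hs (by simp only [r2_s, r2_s4, r2_s5]; decide)
  have z6 : ∀ j k l : Fin 4, S 5 (i4 j) (i4 k) (i4 l) = 0 := fun j k l =>
    r2_z hs (by simp only [r2_s, r2_s5]; decide)
  have z7 : ∀ j : Fin 4, S 5 (i4 j) 5 4 = 0 := fun j =>
    r2_z hs (by simp only [r2_s, r2_s4, r2_s5]; decide)
  have z8 : ∀ k l : Fin 4, S 5 4 (i4 k) (i4 l) = 0 := fun k l =>
    r2_z hs (by simp only [r2_s, r2_s4, r2_s5]; decide)
  have z9 : ∀ k : Fin 4, S 5 4 (i4 k) 4 = 0 := fun k =>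
    r2_z hs (by simp only [r2_s, r2_s4, r2_s5]; decide)
  have z10 : ∀ l : Fin 4, S 5 4 5 (i4 l) = 0 := fun l =>
    r2_z hs (by simp only [r2_s, r2_s4, r2_s5]; decide)
  have q1 : ∀ i l : Fin 4, S (i4 i) 4 5 (i4 l) = - RB S i l := fun i l => by
    rw [r2_sk2 hS]
    rfl
  have q2 : ∀ j k : Fin 4, S 5 (i4 j) (i4 k) 4 = - RB S k j := fun j k => by
    rw [hS.pair, r2_sk2 hS]
    rfl
  have q3 : ∀ j l : Fin 4, S 5 (i4 j) 5 (i4 l) = RC S j l := fun j l => by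
    rw [r2_sk2 hS, hS.skew, neg_neg]
    rfl
  have q4 : ∀ i k : Fin 4, S (i4 i) 4 (i4 k) 4 = RA S i k := fun i k => rfl
  have q5 : S 5 4 5 4 = S 4 5 4 5 := by
    rw [r2_sk2 hS, hS.skew, neg_neg]
  have hA : ∑ i : Fin 4, ∑ k : Fin 4, RA S i k * x i * c * x k * c = c ^ 2 * (x ⬝ᵥ (RA S *ᵥ x)) := by
    simp only [dotProduct, mulVec, Fin.sum_univ_four]
    ring
  have hB1 : ∑ i : Fin 4, ∑ l : Fin 4, -RB S i l * x i * c * -c * y l = c ^ 2 * (x ⬝ᵥ (RB S *ᵥ y)) := by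
    simp only [dotProduct, mulVec, Fin.sum_univ_four]
    ring
  have hB2 : ∑ j : Fin 4, ∑ k : Fin 4, -RB S k j * -c * y j * x k * c = c ^ 2 * (x ⬝ᵥ (RB S *ᵥ y)) := by
    simp only [dotProduct, mulVec, Fin.sum_univ_four]
    ring
  have hC : ∑ j : Fin 4, ∑ l : Fin 4, RC S j l * -c * y j * -c * y l = c ^ 2 * (y ⬝ᵥ (RC S *ᵥ y)) := by
    simp only [dotProduct, mulVec, Fin.sum_univ_four]
    ring
  unfold ev
  simp only [r2_sum, hu, hu4, hu5, hv, hv4, hv5, mul_zero, zero_mul, Finset.sum_const_zero, add_zero, zero_add,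
    z1, z2, z3, z4, z5, z6, z7, z8, z9, z10]
  simp only [q1, q2, q3, q4, q5, Finset.sum_add_distrib]
  rw [hA, hB1, hB2, hC]
  unfold MM
  ring

private theorem r2_swap2 (f : Fin 6 → Fin 6 → Fin 4 → ℝ) :
    ∑ a, ∑ b, ∑ i, f a b i = ∑ i, ∑ a, ∑ b, f a b i := by
  have h1 : ∀ a, ∑ b, ∑ i, f a b i = ∑ i, ∑ b, f a b i := fun a => Finset.sum_comm
  simp only [h1]
  exact Finset.sum_comm

private theorem r2_swap4 (f : Fin 4 → Fin 4 → Fin 4 → Fin 4 → ℝ) :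
    ∑ i, ∑ j, ∑ l, ∑ m, f i j l m = ∑ l, ∑ m, ∑ i, ∑ j, f i j l m := by
  have h1 : ∀ i, ∑ j, ∑ l, ∑ m, f i j l m = ∑ l, ∑ j, ∑ m, f i j l m := fun i => Finset.sum_comm
  have h2 : ∀ i l, ∑ j, ∑ m, f i j l m = ∑ m, ∑ j, f i j l m := fun i l => Finset.sum_comm
  have h3 : ∀ l, ∑ i, ∑ m, ∑ j, f i j l m = ∑ m, ∑ i, ∑ j, f i j l m := fun l => Finset.sum_comm
  simp only [h1]
  rw [Finset.sum_comm]
  simp only [h2]
  simp only [h3]

private theorem r2_G (x y : Fin 4 → ℝ) (i j : Fin 4) :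
    ∑ a, g6 x y a * JJ a i j = 2 * (x i * y j - y i * x j) := by
  have h := congrFun (congrFun (sk_g6 x y) i) j
  unfold sk at h
  rw [Matrix.sum_apply] at h
  simp only [Matrix.smul_apply, smul_eq_mul, Matrix.sub_apply, vecMulVec_apply] at h
  rw [← h, Finset.mul_sum]
  refine Finset.sum_congr rfl fun a _ => ?_
  ring

private theorem r2_q0 (S : Arr 6) (g : Fin 6 → ℝ) :
    q6 (RP S) g = (1 / 8) * ∑ i, ∑ j, ∑ l, ∑ m, S (i4 i) (i4 j) (i4 l) (i4 m)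
      * (∑ a, g a * JJ a i j) * (∑ b, g b * JJ b l m) := by
  have h0 : q6 (RP S) g = ∑ a, ∑ b, ∑ i, ∑ j, ∑ l, ∑ m,
      g a * ((1 / 8) * (S (i4 i) (i4 j) (i4 l) (i4 m) * JJ a i j * JJ b l m) * g b) := by
    unfold q6 RP
    simp only [dotProduct, mulVec, Matrix.of_apply, Finset.mul_sum, Finset.sum_mul]
  rw [h0, r2_swap2, Finset.mul_sum]
  refine Finset.sum_congr rfl fun i _ => ?_
  rw [r2_swap2, Finset.mul_sum]
  refine Finset.sum_congr rfl fun j _ => ?_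
  rw [r2_swap2, Finset.mul_sum]
  refine Finset.sum_congr rfl fun l _ => ?_
  rw [r2_swap2, Finset.mul_sum]
  refine Finset.sum_congr rfl fun m _ => ?_
  rw [mul_assoc (S (i4 i) (i4 j) (i4 l) (i4 m)), Finset.sum_mul_sum, Finset.mul_sum, Finset.mul_sum]
  refine Finset.sum_congr rfl fun a _ => ?_
  rw [Finset.mul_sum, Finset.mul_sum]
  refine Finset.sum_congr rfl fun b _ => ?_
  ring

private theorem r2_as (T : Fin 4 → Fin 4 → ℝ) (hT : ∀ i j, T i j = - T j i) (x y : Fin 4 → ℝ) :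
    ∑ i, ∑ j, T i j * (x i * y j - y i * x j) = 2 * ∑ i, ∑ j, T i j * (x i * y j) := by
  have h1 : ∑ i, ∑ j, T i j * (y i * x j) = - ∑ i, ∑ j, T i j * (x i * y j) := by
    rw [Finset.sum_comm, ← Finset.sum_neg_distrib]
    refine Finset.sum_congr rfl fun i _ => ?_
    rw [← Finset.sum_neg_distrib]
    refine Finset.sum_congr rfl fun j _ => ?_
    rw [hT j i]
    ring
  simp only [mul_sub, Finset.sum_sub_distrib]
  rw [h1]
  ring

private theorem r2_q {S : Arr 6} (hS : IsAlgCurv S) (x y : Fin 4 → ℝ) :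
    q6 (RP S) (g6 x y)
      = 2 * ∑ i, ∑ j, ∑ k, ∑ l, S (i4 i) (i4 j) (i4 k) (i4 l) * x i * y j * x k * y l := by
  rw [r2_q0]
  simp only [r2_G]
  have h1 : ∀ i j : Fin 4, ∑ l, ∑ m, S (i4 i) (i4 j) (i4 l) (i4 m) * (x l * y m - y l * x m)
      = 2 * ∑ l, ∑ m, S (i4 i) (i4 j) (i4 l) (i4 m) * (x l * y m) := fun i j =>
    r2_as (fun l m => S (i4 i) (i4 j) (i4 l) (i4 m)) (fun l m => r2_sk2 hS _ _ _ _) x y
  have h2 := r2_as (fun i j => ∑ l, ∑ m, S (i4 i) (i4 j) (i4 l) (i4 m) * (x l * y m)) (fun i j => by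
    simp only [← Finset.sum_neg_distrib]
    refine Finset.sum_congr rfl fun l _ => Finset.sum_congr rfl fun m _ => ?_
    rw [hS.skew]
    ring) x y
  have h3 : ∀ i j : Fin 4, ∑ l, ∑ m, S (i4 i) (i4 j) (i4 l) (i4 m) * (2 * (x i * y j - y i * x j))
      * (2 * (x l * y m - y l * x m))
      = 8 * ((∑ l, ∑ m, S (i4 i) (i4 j) (i4 l) (i4 m) * (x l * y m)) * (x i * y j - y i * x j)) := by
    intro i j
    have e : ∑ l, ∑ m, S (i4 i) (i4 j) (i4 l) (i4 m) * (2 * (x i * y j - y i * x j))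
      * (2 * (x l * y m - y l * x m))
      = 4 * (x i * y j - y i * x j)
        * ∑ l, ∑ m, S (i4 i) (i4 j) (i4 l) (i4 m) * (x l * y m - y l * x m) := by
      rw [Finset.mul_sum]
      refine Finset.sum_congr rfl fun l _ => ?_
      rw [Finset.mul_sum]
      refine Finset.sum_congr rfl fun m _ => ?_
      ring
    rw [e, h1]
    ring
  simp only [h3]
  have h4 : ∑ i, ∑ j, 8 * ((∑ l, ∑ m, S (i4 i) (i4 j) (i4 l) (i4 m) * (x l * y m)) * (x i * y j - y i * x j))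
      = 8 * ∑ i, ∑ j, (∑ l, ∑ m, S (i4 i) (i4 j) (i4 l) (i4 m) * (x l * y m)) * (x i * y j - y i * x j) := by
    rw [Finset.mul_sum]
    refine Finset.sum_congr rfl fun i _ => ?_
    rw [Finset.mul_sum]
  have h5 : ∑ i, ∑ j, (∑ l, ∑ m, S (i4 i) (i4 j) (i4 l) (i4 m) * (x l * y m)) * (x i * y j)
      = ∑ i, ∑ j, ∑ k, ∑ l, S (i4 i) (i4 j) (i4 k) (i4 l) * x i * y j * x k * y l := by
    refine Finset.sum_congr rfl fun i _ => Finset.sum_congr rfl fun j _ => ?_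
    rw [Finset.sum_mul]
    refine Finset.sum_congr rfl fun l _ => ?_
    rw [Finset.sum_mul]
    refine Finset.sum_congr rfl fun m _ => ?_
    ring
  rw [h4, h2, h5]
  ring

private theorem r2_gg (x y : Fin 4 → ℝ) :
    g6 x y ⬝ᵥ g6 x y = 2 * ((∑ i, x i ^ 2) * (∑ i, y i ^ 2) - (∑ i, x i * y i) ^ 2) := by
  simp only [dotProduct, mulVec, g6, JJ, JL, JR, Fin.sum_univ_succ, Fin.sum_univ_zero, Fin.succ_zero_eq_one,
    Matrix.cons_val_zero, Matrix.cons_val_succ, Matrix.cons_val, Matrix.of_apply, Finset.univ_eq_empty, Finset.sum_empty]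
  simp
  ring

private theorem r2_area (x y : Fin 4 → ℝ) (c : ℝ)
    (u v : Fin 6 → ℝ) (hu : ∀ i, u (i4 i) = x i) (hu4 : u 4 = 0) (hu5 : u 5 = -c)
    (hv : ∀ i, v (i4 i) = y i) (hv4 : v 4 = c) (hv5 : v 5 = 0) :
    area2 u v = ((∑ i, x i ^ 2) * (∑ i, y i ^ 2) - (∑ i, x i * y i) ^ 2)
      + c ^ 2 * ((∑ i, x i ^ 2) + ∑ i, y i ^ 2) + c ^ 4 := by
  unfold area2
  simp only [r2_sum, hu, hu4, hu5, hv, hv4, hv5]
  ring

private theorem r2_K {S : Arr 6} (hS : IsAlgCurv S) (hs : Ty s42 S) {h : ℝ}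
    (hK : ∀ v w, h * area2 v w ≤ ev S v w v w) (x y : Fin 4 → ℝ) (c : ℝ) :
    h * (((∑ i, x i ^ 2) * (∑ i, y i ^ 2) - (∑ i, x i * y i) ^ 2)
      + c ^ 2 * ((∑ i, x i ^ 2) + ∑ i, y i ^ 2) + c ^ 4)
      ≤ (1 / 2) * q6 (RP S) (g6 x y) + c ^ 2 * MM (RA S) (RB S) (RC S) x y + c ^ 4 * S 4 5 4 5 := by
  have e := hK ![x 0, x 1, x 2, x 3, 0, -c] ![y 0, y 1, y 2, y 3, c, 0]
  have hu : ∀ i : Fin 4, (![x 0, x 1, x 2, x 3, 0, -c] : Fin 6 → ℝ) (i4 i) = x i := by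
    intro i
    fin_cases i <;> rfl
  have hv : ∀ i : Fin 4, (![y 0, y 1, y 2, y 3, c, 0] : Fin 6 → ℝ) (i4 i) = y i := by
    intro i
    fin_cases i <;> rfl
  rw [r2_area x y c _ _ hu rfl rfl hv rfl rfl, r2_ev hS hs x y c _ _ hu rfl rfl hv rfl rfl] at e
  rw [r2_q hS]
  linarith

private theorem r2_cs (x y : Fin 4 → ℝ) :
    0 ≤ (∑ i, x i ^ 2) * (∑ i, y i ^ 2) - (∑ i, x i * y i) ^ 2 := by
  have h := r2_gg x y
  have h2 : 0 ≤ g6 x y ⬝ᵥ g6 x y := Finset.sum_nonneg fun a _ => mul_self_nonneg _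
  linarith

theorem dat_of {S : Arr 6} (hS : IsAlgCurv S) (hs : Ty s42 S) {h : ℝ} (hh : 0 ≤ h) (hK : ∀ v w, h * area2 v w ≤ ev S v w v w) :
    Dat (S 4 5 4 5 - h) (RP S) (RA S) (RB S) (RC S) := by
  refine ⟨?_, ?_, ?_, ?_, ?_⟩
  · ext a b
    have e1 : (RP S)ᵀ a b = (1 / 8) * ∑ i, ∑ j, ∑ l, ∑ m, S (i4 i) (i4 j) (i4 l) (i4 m) * JJ b i j * JJ a l m := rfl
    have e2 : RP S a b = (1 / 8) * ∑ i, ∑ j, ∑ l, ∑ m, S (i4 i) (i4 j) (i4 l) (i4 m) * JJ a i j * JJ b l m := rfl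
    rw [e1, e2, r2_swap4]
    refine congrArg _ ?_
    refine Finset.sum_congr rfl fun i _ => Finset.sum_congr rfl fun j _ => Finset.sum_congr rfl fun l _ =>
      Finset.sum_congr rfl fun m _ => ?_
    rw [hS.pair]
    ring
  · ext i j
    exact hS.pair _ _ _ _
  · ext i j
    have e1 := hS.bianchi (i4 i) 4 (i4 j) 5
    have e2 : S (i4 j) (i4 i) 4 5 = 0 := r2_z hs (by simp only [r2_s, r2_s4, r2_s5]; decide)
    have e3 := hS.skew 4 (i4 j) (i4 i) 5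
    have e4 : (RB S)ᵀ i j = S (i4 j) 4 (i4 i) 5 := rfl
    have e5 : RB S i j = S (i4 i) 4 (i4 j) 5 := rfl
    rw [e4, e5]
    linarith
  · ext i j
    exact hS.pair _ _ _ _
  · intro x y c
    have e := r2_K hS hs hK x y c
    have e1 := mul_nonneg hh (r2_cs x y)
    have e2 : 0 ≤ h * (c ^ 2 * ((∑ i, x i ^ 2) + ∑ i, y i ^ 2)) := by
      have e3 : 0 ≤ ∑ i, x i ^ 2 := Finset.sum_nonneg fun i _ => sq_nonneg _
      have e4 : 0 ≤ ∑ i, y i ^ 2 := Finset.sum_nonneg fun i _ => sq_nonneg _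
      positivity
    have e5 : h * (((∑ i, x i ^ 2) * (∑ i, y i ^ 2) - (∑ i, x i * y i) ^ 2)
      + c ^ 2 * ((∑ i, x i ^ 2) + ∑ i, y i ^ 2) + c ^ 4)
      = h * ((∑ i, x i ^ 2) * (∑ i, y i ^ 2) - (∑ i, x i * y i) ^ 2)
      + h * (c ^ 2 * ((∑ i, x i ^ 2) + ∑ i, y i ^ 2)) + h * c ^ 4 := by ring
    have e6 : c ^ 4 * (S 4 5 4 5 - h) = c ^ 4 * S 4 5 4 5 - h * c ^ 4 := by ring
    rw [e6]
    linarith

theorem dat4 {S : Arr 6} (hS : IsAlgCurv S) (hs : Ty s42 S) {h : ℝ} (hh : 0 ≤ h) (hK : ∀ v w, h * area2 v w ≤ ev S v w v w)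
    (x y : Fin 4 → ℝ) : 0 ≤ q6 (RP S - h • 1) (g6 x y) := by
  have e := r2_K hS hs hK x y 0
  have e1 : q6 (RP S - h • 1) (g6 x y) = q6 (RP S) (g6 x y) - h * (g6 x y ⬝ᵥ g6 x y) := by
    unfold q6
    rw [Matrix.sub_mulVec, dotProduct_sub, Matrix.smul_mulVec, dotProduct_smul, Matrix.one_mulVec, smul_eq_mul]
  rw [e1, r2_gg]
  have e2 : h * (((∑ i, x i ^ 2) * (∑ i, y i ^ 2) - (∑ i, x i * y i) ^ 2)
      + (0 : ℝ) ^ 2 * ((∑ i, x i ^ 2) + ∑ i, y i ^ 2) + (0 : ℝ) ^ 4)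
      = h * ((∑ i, x i ^ 2) * (∑ i, y i ^ 2) - (∑ i, x i * y i) ^ 2) := by ring
  have e3 : (1 / 2) * q6 (RP S) (g6 x y) + (0 : ℝ) ^ 2 * MM (RA S) (RB S) (RC S) x y + (0 : ℝ) ^ 4 * S 4 5 4 5
      = (1 / 2) * q6 (RP S) (g6 x y) := by ring
  rw [e2, e3] at e
  linarith

end H79T
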