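import Pool.Agent.Lib.H79T.M1
import Pool.Agent.Lib.H79T.R1
import Pool.Agent.Lib.H79T.R2
import Pool.Agent.Lib.H79T.L1

/-!
# Chunk M2 (M)
Final assembly. `T0_ge`: `P'' = P - h`, null positive (`null_dec`), `slemma`: `P'' + t S` positive semidefinite, `T0 P'' = T0 (P'' + t S) ≥ 0` (`T0_shift`, `T0_nonneg`), `trace P'' = trace (P'' + t S) ≥ 0`; and
`T0 (P'' + h) = T0 P'' + h trace P'' + 3 h²` (`sg a ^ 2 = 1`, `∑ sg a = 0`). `case_42`: `S = -R` (`gb (-R) = - gb R`, `IsAlgCurv (-R)`, `Ty s42 (-R)`), `gb S = 384 TT k P A B C = 384 (TT (k - h) P A B C + h T0 P) ≥ 384 · 3 h³ ≥ 384 h³`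
(`gb_eq`, `dat_of`, `dat_nonneg`, `T0_ge`). `case_42'` and `case_cl4`: copy of `H21C.case_33'`, `case_cl3` (`Lib/H21C/T33B.lean`) with `3` replaced by `4` (`s42 i = decide (i.1 < 4)`).
-/

set_option autoImplicit false

open Matrix Finset

namespace H79T

open Pool.Agent.H69Hopf (Arr IsAlgCurv ev area2 idA)
open H30K (gb KB Cyc)
open H21C (Ty)

theorem T0_ge {P : M6} (hP : Pᵀ = P) {h : ℝ} (hh : 0 ≤ h) (h4 : ∀ x y, 0 ≤ q6 (P - h • 1) (g6 x y)) : 3 * h ^ 2 ≤ T0 P := by
  classical
  obtain ⟨Q, hQ⟩ : ∃ Q : M6, Q = P - h • 1 := ⟨_, rfl⟩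
  rw [← hQ] at h4
  have hQs : Qᵀ = Q := by
    rw [hQ, Matrix.transpose_sub, hP, Matrix.transpose_smul, Matrix.transpose_one]
  obtain ⟨t, ht⟩ := slemma Q hQs (fun x hx => by
    obtain ⟨u, v, rfl⟩ := null_dec x hx
    exact h4 u v)
  have hPs : Ps (Q + t • Matrix.diagonal sg) := by
    refine ⟨?_, ht⟩
    rw [Matrix.transpose_add, hQs, Matrix.transpose_smul, Matrix.diagonal_transpose]
  have h1 : 0 ≤ T0 Q := by
    have := T0_nonneg hPs
    rwa [T0_shift] at this
  have h2 : ∀ a, 0 ≤ Q a a + t * sg a := by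
    intro a
    have h3 := ht (Pi.single a 1)
    rw [q6_shift] at h3
    have e1 : q6 Q (Pi.single a 1) = Q a a := by
      unfold q6
      rw [Matrix.mulVec_single_one, single_one_dotProduct, Matrix.col_apply]
    have e2 : stf (Pi.single a (1 : ℝ)) = sg a := by
      unfold stf
      rw [Finset.sum_eq_single a]
      · simp
      · intro b _ hb
        simp [Pi.single_eq_of_ne hb]
      · intro ha
        exact absurd (Finset.mem_univ a) ha
    rw [e1, e2] at h3
    exact h3
  have h3 : 0 ≤ ∑ a, Q a a := by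
    have h5 : 0 ≤ ∑ a, (Q a a + t * sg a) := Finset.sum_nonneg fun a _ => h2 a
    have h6 : ∑ a, (Q a a + t * sg a) = ∑ a, Q a a := by
      rw [Finset.sum_add_distrib, ← Finset.mul_sum]
      have : ∑ a, sg a = 0 := by
        rw [Fin.sum_univ_six]
        simp [sg]
      rw [this, mul_zero, add_zero]
    rwa [h6] at h5
  have hPQ : ∀ a b, P a b = Q a b + h * (if a = b then 1 else 0) := by
    intro a b
    rw [hQ, Matrix.sub_apply, Matrix.smul_apply, Matrix.one_apply, smul_eq_mul]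
    ring
  have key : T0 P = T0 Q + h * (∑ a, Q a a) + 3 * h ^ 2 := by
    unfold T0
    simp only [hPQ, Fin.sum_univ_six]
    simp [sg, Fin.ext_iff]
    ring
  rw [key]
  have h7 : 0 ≤ h * ∑ a, Q a a := mul_nonneg hh h3
  linarith

theorem case_42 {R : Arr 6} (hR : IsAlgCurv R) {h : ℝ} (hh : 0 ≤ h) (hK : KB h R) (hs : Ty s42 R) : gb R ≤ -(384 * h ^ 3) := by
  obtain ⟨S, hSdef⟩ : ∃ S : Arr 6, S = fun i j k l => - R i j k l := ⟨_, rfl⟩
  have hS : IsAlgCurv S := by
    rw [hSdef]
    exact ⟨fun i j k l => by rw [hR.skew i j k l], fun i j k l => by rw [hR.pair i j k l],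
      fun i j k l => by have := hR.bianchi i j k l; linarith⟩
  have hSs : Ty s42 S := by
    intro i j k l hne
    refine hs i j k l fun h0 => hne ?_
    rw [hSdef]
    show - R i j k l = 0
    rw [h0, neg_zero]
  have hSK : ∀ v w, h * area2 v w ≤ ev S v w v w := by
    intro v w
    have h1 := hK v w
    have h2 : ev S v w v w = - ev R v w v w := by
      rw [hSdef]
      unfold ev
      simp only [neg_mul, Finset.sum_neg_distrib]
    rw [h2]
    linarith
  have hgb : gb S = - gb R := by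
    rw [hSdef]
    exact HopfSix.gaussBonnet_neg R
  have hD := dat_of hS hSs hh hSK
  have h1 := dat_nonneg hD
  have h2 := T0_ge hD.sP hh (fun x y => dat4 hS hSs hh hSK x y)
  have h3 := gb_eq hS hSs
  have h4 : TT (S 4 5 4 5) (RP S) (RA S) (RB S) (RC S) =
      TT (S 4 5 4 5 - h) (RP S) (RA S) (RB S) (RC S) + h * T0 (RP S) := by
    unfold TT
    ring
  rw [h4, hgb] at h3
  have h5 : h * (3 * h ^ 2) ≤ h * T0 (RP S) := mul_le_mul_of_nonneg_left h2 hh
  have h6 : 0 ≤ h ^ 3 := by positivity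
  nlinarith

theorem case_42' {R : Arr 6} (hR : IsAlgCurv R) {h : ℝ} (hh : 0 ≤ h) (hK : KB h R) {s : Fin 6 → Bool} (hs : Ty s R)
    (hc : (Finset.univ.filter fun i => s i = true).card = 4) : gb R ≤ -(384 * h ^ 3) := by
  have c1 : Fintype.card {i : Fin 6 // i.1 < 4} = 4 := by decide
  have c2 : Fintype.card {i : Fin 6 // s i = true} = 4 := by
    rw [Fintype.card_subtype, hc]
  let e0 : {i : Fin 6 // i.1 < 4} ≃ {i : Fin 6 // s i = true} :=
    Fintype.equivOfCardEq (c1.trans c2.symm)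
  obtain ⟨e, he⟩ : ∃ e : Equiv.Perm (Fin 6), e = e0.extendSubtype := ⟨_, rfl⟩
  have hse : ∀ i : Fin 6, s (e i) = s42 i := by
    intro i
    show s (e i) = decide (i.1 < 4)
    by_cases hi : i.1 < 4
    · rw [he, e0.extendSubtype_mem i hi]
      simp [hi]
    · have := e0.extendSubtype_not_mem i hi
      rw [he]
      have h3 : s (e0.extendSubtype i) = false := by simpa using this
      rw [h3]
      simp [hi]
  have g3 : Ty s42 (fun i j k l => R (e i) (e j) (e k) (e l)) := by
    intro i j k l hne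
    have := hs _ _ _ _ hne
    simpa only [hse] using this
  have g4 := case_42 (H30K.algCurv_perm hR e) hh (H30K.kb_perm hK e) g3
  rwa [H30K.gb_perm] at g4

theorem case_cl4 {R : Arr 6} (hR : IsAlgCurv R) {h : ℝ} (hh : 0 ≤ h) (hK : KB h R) {β : Fin 6 → ℝ} (hc : Cyc β R)
    {p : Fin 6} (h4 : H56C.cl β p = 4) : gb R ≤ -(384 * h ^ 3) := by
  classical
  refine case_42' hR hh hK (s := fun i => decide (β i = β p)) ?_ ?_
  · intro i j k l hne
    rcases H30K.P1_zero hR hc hne with ⟨h1, h2⟩ | ⟨h1, h2⟩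
    · left
      refine ⟨?_, ?_⟩
      · show decide (β i = β p) = decide (β k = β p)
        rw [h1]
      · show decide (β j = β p) = decide (β l = β p)
        rw [h2]
    · right
      refine ⟨?_, ?_⟩
      · show decide (β i = β p) = decide (β l = β p)
        rw [h1]
      · show decide (β j = β p) = decide (β k = β p)
        rw [h2]
  · unfold H56C.cl at h4
    rw [← h4]
    congr 1
    ext i
    simp

end H79T
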