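import Pool.Agent.Lib.H79T.Defs

/-!
# Chunk A3 (M)
The Pfaffian of `g X gᵀ`. Write `X` skew with entries `X 0 1 = a`, .. (six variables; `X j i = -X i j`, `X i i = 0`); the entry
`(g X gᵀ) i j = ∑ k l, g i k * X k l * g j l`; `det` of a `4 x 4` matrix: `Matrix.det_succ_row_zero` and `Fin.sum_univ_succ`
(or `Matrix.det_fin_four` if it exists); then `ring`. (Polynomial identity of degree 4 in `g` and 2 in `X`.)
-/

set_option autoImplicit false

open Matrix Finset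

namespace H79T

open Pool.Agent.H69Hopf (Arr IsAlgCurv ev area2 idA)
open H30K (gb KB Cyc)
open H21C (Ty)

theorem a3_det (g : M4) : g.det =
    g 0 0 * (g 1 1 * (g 2 2 * g 3 3 - g 2 3 * g 3 2) - g 1 2 * (g 2 1 * g 3 3 - g 2 3 * g 3 1) +
      g 1 3 * (g 2 1 * g 3 2 - g 2 2 * g 3 1)) -
    g 0 1 * (g 1 0 * (g 2 2 * g 3 3 - g 2 3 * g 3 2) - g 1 2 * (g 2 0 * g 3 3 - g 2 3 * g 3 0) +
      g 1 3 * (g 2 0 * g 3 2 - g 2 2 * g 3 0)) +
    g 0 2 * (g 1 0 * (g 2 1 * g 3 3 - g 2 3 * g 3 1) - g 1 1 * (g 2 0 * g 3 3 - g 2 3 * g 3 0) +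
      g 1 3 * (g 2 0 * g 3 1 - g 2 1 * g 3 0)) -
    g 0 3 * (g 1 0 * (g 2 1 * g 3 2 - g 2 2 * g 3 1) - g 1 1 * (g 2 0 * g 3 2 - g 2 2 * g 3 0) +
      g 1 2 * (g 2 0 * g 3 1 - g 2 1 * g 3 0)) := by
  rw [Matrix.det_succ_row_zero]
  simp only [Fin.sum_univ_four, Matrix.det_fin_three, Matrix.submatrix_apply]
  simp [Fin.succAbove, Fin.succ, Fin.lt_def, Fin.castSucc]
  ring

theorem pf_conj (g X : M4) (hX : Xᵀ = -X) : pf (g * X * gᵀ) = g.det * pf X := by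
  have h : ∀ i j, X j i = - X i j := fun i j => congrFun (congrFun hX i) j
  have h00 : X 0 0 = 0 := by have := h 0 0; linarith
  have h11 : X 1 1 = 0 := by have := h 1 1; linarith
  have h22 : X 2 2 = 0 := by have := h 2 2; linarith
  have h33 : X 3 3 = 0 := by have := h 3 3; linarith
  rw [a3_det]
  unfold pf
  simp only [Matrix.mul_apply, Matrix.transpose_apply, Fin.sum_univ_four, h00, h11, h22, h33,
    h 0 1, h 0 2, h 0 3, h 1 2, h 1 3, h 2 3]
  ring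

end H79T
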