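import Pool.Agent.Lib.H79T.Defs

/-!
# Chunk A5 (M)
Decomposition of symmetric matrices: the ten matrices `1`, `JL a * JR b` are symmetric, pairwise orthogonal for the trace and
have square `1`. `sym_dec`: entrywise (`ext i j; fin_cases i <;> fin_cases j`), unfold `JB, trace, JL, JR, mul_apply`, use
`S j i = S i j`, `ring`. `tr_JB`: `(JB B * (JL a * JR b)).trace = 4 * B a b`, `(JB B).trace = 0`, `(JL a * JR b).trace = 0`
(for `a b` by `fin_cases`). `JB_symm`.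
-/

set_option autoImplicit false

open Matrix Finset

namespace H79T

open Pool.Agent.H69Hopf (Arr IsAlgCurv ev area2 idA)
open H30K (gb KB Cyc)
open H21C (Ty)

private theorem a5_L0 : JL 0 = !![0, -1, 0, 0; 1, 0, 0, 0; 0, 0, 0, -1; 0, 0, 1, 0] := rfl

private theorem a5_R0 : JR 0 = !![0, -1, 0, 0; 1, 0, 0, 0; 0, 0, 0, 1; 0, 0, -1, 0] := rfl

private theorem a5_L1 : JL 1 = !![0, 0, -1, 0; 0, 0, 0, 1; 1, 0, 0, 0; 0, -1, 0, 0] := rfl

private theorem a5_R1 : JR 1 = !![0, 0, -1, 0; 0, 0, 0, -1; 1, 0, 0, 0; 0, 1, 0, 0] := rfl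

private theorem a5_L2 : JL 2 = !![0, 0, 0, -1; 0, 0, -1, 0; 0, 1, 0, 0; 1, 0, 0, 0] := rfl

private theorem a5_R2 : JR 2 = !![0, 0, 0, -1; 0, 0, 1, 0; 0, -1, 0, 0; 1, 0, 0, 0] := rfl

private theorem a5_p00 : JL 0 * JR 0 = !![-1, 0, 0, 0; 0, -1, 0, 0; 0, 0, 1, 0; 0, 0, 0, 1] := by
  rw [a5_L0, a5_R0]
  ext i j
  fin_cases i <;> fin_cases j <;> simp [Matrix.mul_apply, Fin.sum_univ_four]

private theorem a5_p01 : JL 0 * JR 1 = !![0, 0, 0, 1; 0, 0, -1, 0; 0, -1, 0, 0; 1, 0, 0, 0] := by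
  rw [a5_L0, a5_R1]
  ext i j
  fin_cases i <;> fin_cases j <;> simp [Matrix.mul_apply, Fin.sum_univ_four]

private theorem a5_p02 : JL 0 * JR 2 = !![0, 0, -1, 0; 0, 0, 0, -1; -1, 0, 0, 0; 0, -1, 0, 0] := by
  rw [a5_L0, a5_R2]
  ext i j
  fin_cases i <;> fin_cases j <;> simp [Matrix.mul_apply, Fin.sum_univ_four]

private theorem a5_p10 : JL 1 * JR 0 = !![0, 0, 0, -1; 0, 0, -1, 0; 0, -1, 0, 0; -1, 0, 0, 0] := by
  rw [a5_L1, a5_R0]
  ext i j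
  fin_cases i <;> fin_cases j <;> simp [Matrix.mul_apply, Fin.sum_univ_four]

private theorem a5_p11 : JL 1 * JR 1 = !![-1, 0, 0, 0; 0, 1, 0, 0; 0, 0, -1, 0; 0, 0, 0, 1] := by
  rw [a5_L1, a5_R1]
  ext i j
  fin_cases i <;> fin_cases j <;> simp [Matrix.mul_apply, Fin.sum_univ_four]

private theorem a5_p12 : JL 1 * JR 2 = !![0, 1, 0, 0; 1, 0, 0, 0; 0, 0, 0, -1; 0, 0, -1, 0] := by
  rw [a5_L1, a5_R2]
  ext i j
  fin_cases i <;> fin_cases j <;> simp [Matrix.mul_apply, Fin.sum_univ_four]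

private theorem a5_p20 : JL 2 * JR 0 = !![0, 0, 1, 0; 0, 0, 0, -1; 1, 0, 0, 0; 0, -1, 0, 0] := by
  rw [a5_L2, a5_R0]
  ext i j
  fin_cases i <;> fin_cases j <;> simp [Matrix.mul_apply, Fin.sum_univ_four]

private theorem a5_p21 : JL 2 * JR 1 = !![0, -1, 0, 0; -1, 0, 0, 0; 0, 0, 0, -1; 0, 0, -1, 0] := by
  rw [a5_L2, a5_R1]
  ext i j
  fin_cases i <;> fin_cases j <;> simp [Matrix.mul_apply, Fin.sum_univ_four]

private theorem a5_p22 : JL 2 * JR 2 = !![-1, 0, 0, 0; 0, 1, 0, 0; 0, 0, 1, 0; 0, 0, 0, -1] := by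
  rw [a5_L2, a5_R2]
  ext i j
  fin_cases i <;> fin_cases j <;> simp [Matrix.mul_apply, Fin.sum_univ_four]

private theorem a5_JB (B : M3) : JB B = !![-B 0 0 - B 1 1 - B 2 2, B 1 2 - B 2 1, -B 0 2 + B 2 0, B 0 1 - B 1 0;
    B 1 2 - B 2 1, -B 0 0 + B 1 1 + B 2 2, -B 0 1 - B 1 0, -B 0 2 - B 2 0;
    -B 0 2 + B 2 0, -B 0 1 - B 1 0, B 0 0 - B 1 1 + B 2 2, -B 1 2 - B 2 1;
    B 0 1 - B 1 0, -B 0 2 - B 2 0, -B 1 2 - B 2 1, B 0 0 + B 1 1 - B 2 2] := by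
  unfold JB
  simp only [Fin.sum_univ_three, a5_p00, a5_p01, a5_p02, a5_p10, a5_p11, a5_p12, a5_p20, a5_p21, a5_p22]
  ext i j
  fin_cases i <;> fin_cases j <;> simp <;> ring

theorem JB_symm (B : M3) : (JB B)ᵀ = JB B := by
  rw [a5_JB]
  ext i j
  fin_cases i <;> fin_cases j <;> simp

theorem tr_JB (B : M3) (a b : Fin 3) : (JB B * (JL a * JR b)).trace = 4 * B a b := by
  rw [a5_JB]
  fin_cases a <;> fin_cases b <;>
    simp only [Fin.zero_eta, Fin.mk_one, Fin.reduceFinMk, a5_p00, a5_p01, a5_p02, a5_p10, a5_p11, a5_p12, a5_p20, a5_p21, a5_p22] <;>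
    simp [Matrix.trace, Matrix.mul_apply, Fin.sum_univ_succ] <;> ring

theorem tr_JB0 (B : M3) : (JB B).trace = 0 := by
  rw [a5_JB]
  simp [Matrix.trace, Fin.sum_univ_succ]
  ring

theorem tr_JLR (a b : Fin 3) : (JL a * JR b).trace = 0 := by
  fin_cases a <;> fin_cases b <;>
    simp only [Fin.zero_eta, Fin.mk_one, Fin.reduceFinMk, a5_p00, a5_p01, a5_p02, a5_p10, a5_p11, a5_p12, a5_p20, a5_p21, a5_p22] <;>
    simp [Matrix.trace, Fin.sum_univ_succ]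

theorem sym_dec (S : M4) (hS : Sᵀ = S) :
    S = (S.trace / 4) • (1 : M4) + JB (Matrix.of fun a b => (S * (JL a * JR b)).trace / 4) := by
  have h (i j : Fin 4) : S j i = S i j := by
    have := congrFun (congrFun hS i) j
    simpa [Matrix.transpose_apply] using this
  rw [a5_JB]
  simp only [Matrix.of_apply, a5_p00, a5_p01, a5_p02, a5_p10, a5_p11, a5_p12, a5_p20, a5_p21, a5_p22]
  have h10 := h 0 1
  have h20 := h 0 2
  have h30 := h 0 3
  have h21 := h 1 2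
  have h31 := h 1 3
  have h32 := h 2 3
  ext i j
  fin_cases i <;> fin_cases j <;>
    simp [Matrix.trace, Matrix.mul_apply, Fin.sum_univ_succ] <;> linarith

end H79T
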