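import Pool.Agent.Lib.H79T.Defs

/-!
# Chunk A6 (M)
Algebra of `WW` (all with `Matrix.trace`, linearity and cyclicity `Matrix.trace_mul_comm`, `Matrix.mul_assoc`).
`WW_symm`: symmetric `A, B, C`, skew `X, Y` (transpose: `(B X B Y)ᵀ = Yᵀ Bᵀ Xᵀ Bᵀ = Y B X B`, the trace is `(B Y B X).trace` after
cycling; `(A X C Y)ᵀ = Y C X A`: `(A X C Y).trace = (Y C X A).trace = (C X A Y).trace`; so the two last terms are exchanged) or
directly by cyclicity: `(B X B Y).trace = (B Y B X).trace` and `(A X C Y).trace = (C Y A X).trace`: no symmetry is needed.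
`WW_sum`: bilinearity. `WW_congr`: `(Sᵀ B S) X (Sᵀ B S) Y`: trace is `B (S X Sᵀ) B (S Y Sᵀ)`.
`WW_m`: coefficient comparison with `A' = a² A + 2ac B + c² C`, `B' = ab A + (ad+bc) B + cd C`, `C' = b² A + 2bd B + d² C`
(`a = m 0 0`, `b = m 0 1`, `c = m 1 0`, `d = m 1 1`): the coefficients of `A X A Y`, `C X C Y`, `A X B Y`, .. vanish, `B X B Y` gets
`(ad-bc)²`, `A X C Y` and `C X A Y` get `-(1/2)(ad-bc)²`. (`simp only [mul_add, add_mul, smul_mul_assoc, mul_smul_comm, smul_smul, trace_add, trace_smul]`, `ring`.)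
-/

set_option autoImplicit false

open Matrix Finset

namespace H79T

open Pool.Agent.H69Hopf (Arr IsAlgCurv ev area2 idA)
open H30K (gb KB Cyc)
open H21C (Ty)

private theorem a6_cyc (A X C Y : M4) : (A * X * C * Y).trace = (C * Y * A * X).trace := by
  have h := Matrix.trace_mul_comm (A * X) (C * Y)
  simpa only [Matrix.mul_assoc] using h

private theorem a6_exp (A C : M4) (x y : Fin 6 → ℝ) :
    A * sk x * C * sk y = ∑ a, ∑ b, (x a * y b) • (A * JJ a * C * JJ b) := by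
  unfold sk
  simp only [Finset.mul_sum, Finset.sum_mul, Matrix.mul_smul, Matrix.smul_mul, smul_smul]
  rw [Finset.sum_comm]
  refine Finset.sum_congr rfl fun a _ => Finset.sum_congr rfl fun b _ => ?_
  rw [mul_comm (y b)]

private theorem a6_tr (A C : M4) (x y : Fin 6 → ℝ) :
    (A * sk x * C * sk y).trace = ∑ a, ∑ b, (x a * y b) * (A * JJ a * C * JJ b).trace := by
  rw [a6_exp]
  simp only [Matrix.trace_sum, Matrix.trace_smul, smul_eq_mul]

private theorem a6_congr (S A C X Y : M4) :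
    ((Sᵀ * A * S) * X * (Sᵀ * C * S) * Y).trace = (A * (S * X * Sᵀ) * C * (S * Y * Sᵀ)).trace := by
  have h := Matrix.trace_mul_comm Sᵀ (A * S * X * Sᵀ * C * S * Y)
  simpa only [Matrix.mul_assoc] using h

theorem WW_symm (A B C X Y : M4) : WW A B C X Y = WW A B C Y X := by
  unfold WW
  rw [a6_cyc B X B Y, a6_cyc A X C Y, a6_cyc C X A Y]
  ring

theorem WW_sum (A B C : M4) (x y : Fin 6 → ℝ) :
    WW A B C (sk x) (sk y) = ∑ a, ∑ b, x a * y b * Wm A B C a b := by
  unfold WW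
  rw [a6_tr, a6_tr, a6_tr]
  simp only [← Finset.sum_add_distrib, ← Finset.sum_sub_distrib, Finset.mul_sum]
  refine Finset.sum_congr rfl fun a _ => Finset.sum_congr rfl fun b _ => ?_
  simp only [Wm, Matrix.of_apply, WW]
  ring

theorem WW_congr (S A B C X Y : M4) :
    WW (Sᵀ * A * S) (Sᵀ * B * S) (Sᵀ * C * S) X Y = WW A B C (S * X * Sᵀ) (S * Y * Sᵀ) := by
  unfold WW
  rw [a6_congr, a6_congr, a6_congr]

theorem WW_m (m : M2) (A B C X Y : M4) :
    WW (m 0 0 ^ 2 • A + (2 * m 0 0 * m 1 0) • B + m 1 0 ^ 2 • C)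
      ((m 0 0 * m 0 1) • A + (m 0 0 * m 1 1 + m 0 1 * m 1 0) • B + (m 1 0 * m 1 1) • C)
      (m 0 1 ^ 2 • A + (2 * m 0 1 * m 1 1) • B + m 1 1 ^ 2 • C) X Y =
      (m 0 0 * m 1 1 - m 0 1 * m 1 0) ^ 2 * WW A B C X Y := by
  unfold WW
  simp only [mul_add, add_mul, Matrix.smul_mul, Matrix.mul_smul, smul_smul, Matrix.trace_add, Matrix.trace_smul,
    smul_eq_mul]
  ring

theorem WW_act (S : M4) (m : M2) (A B C X Y : M4) (hm : m.det = 1) :
    WW (aA S m A B C) (aB S m A B C) (aC S m A B C) X Y = WW A B C (S * X * Sᵀ) (S * Y * Sᵀ) := by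
  have hd : m 0 0 * m 1 1 - m 0 1 * m 1 0 = 1 := by
    rw [← hm, Matrix.det_fin_two]
  unfold aA aB aC
  rw [WW_congr, WW_m, hd]
  ring

end H79T
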