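import Pool.Agent.Lib.H79T.Defs

/-!
# Chunk A7 (M)
`Wm_tr`: for symmetric `A, B, C`: `∑ a, sg a * WW A B C (JJ a) (JJ a) = 0`, because `∑ a, sg a • JJ a * X * JJ a = 0` for
symmetric `X` (check the entries; for `X` the ten elementary symmetric matrices) applied inside the trace
(`(B J B J).trace = (B (J B J)).trace`, `(A J C J).trace = (A (J C J)).trace`). `TT_shift`: with `D = diagonal sg`:
`T0 (P + t • D) = T0 P` (`∑ sg a sg b (P a b + t D a b)^2 = .. + 2 t ∑ sg a P a a + 6 t²`, `(∑ sg a (P a a + t sg a))² = (τ + 6t)²`; `sg a ^ 2 = 1`)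
and `pr (P + t • D) W = pr P W + t ∑ a, sg a * W a a`.
-/

set_option autoImplicit false

open Matrix Finset

namespace H79T

open Pool.Agent.H69Hopf (Arr IsAlgCurv ev area2 idA)
open H30K (gb KB Cyc)
open H21C (Ty)

theorem a7_conj (X : M4) (hX : Xᵀ = X) : ∑ a, sg a • (JJ a * X * JJ a) = 0 := by
  have h : ∀ i j, X j i = X i j := fun i j => by
    have := congrFun (congrFun hX i) j
    simpa [Matrix.transpose_apply] using this
  have hE : X = !![X 0 0, X 0 1, X 0 2, X 0 3; X 0 1, X 1 1, X 1 2, X 1 3; X 0 2, X 1 2, X 2 2, X 2 3;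
      X 0 3, X 1 3, X 2 3, X 3 3] := by
    ext i j
    fin_cases i <;> fin_cases j <;> simp [h 0 1, h 0 2, h 0 3, h 1 2, h 1 3, h 2 3]
  rw [hE]
  generalize X 0 0 = x00
  generalize X 0 1 = x01
  generalize X 0 2 = x02
  generalize X 0 3 = x03
  generalize X 1 1 = x11
  generalize X 1 2 = x12
  generalize X 1 3 = x13
  generalize X 2 2 = x22
  generalize X 2 3 = x23
  generalize X 3 3 = x33
  ext i j
  fin_cases i <;> fin_cases j <;>
    simp [Fin.sum_univ_succ, JJ, JL, JR, sg, Matrix.vecHead, Matrix.vecTail] <;> ring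

theorem sum_conj (X : M4) (hX : Xᵀ = X) : ∑ a, sg a • (JJ a * X * JJ a) = 0 := a7_conj X hX

theorem a7_tr (B X : M4) (hX : Xᵀ = X) : ∑ a, sg a * (B * JJ a * X * JJ a).trace = 0 := by
  have e : ∑ a, sg a * (B * JJ a * X * JJ a).trace = (B * ∑ a, sg a • (JJ a * X * JJ a)).trace := by
    rw [Matrix.mul_sum, Matrix.trace_sum]
    refine Finset.sum_congr rfl fun a _ => ?_
    rw [Matrix.mul_smul, Matrix.trace_smul, smul_eq_mul]
    simp only [Matrix.mul_assoc]
  rw [e, a7_conj X hX, Matrix.mul_zero, Matrix.trace_zero]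

theorem Wm_tr (A B C : M4) (hA : Aᵀ = A) (hB : Bᵀ = B) (hC : Cᵀ = C) : ∑ a, sg a * Wm A B C a a = 0 := by
  have h1 := a7_tr B B hB
  have h2 := a7_tr A C hC
  have h3 := a7_tr C A hA
  have e : ∑ a, sg a * Wm A B C a a = (1 / 2) * (∑ a, sg a * (B * JJ a * B * JJ a).trace -
      (1 / 2) * (∑ a, sg a * (A * JJ a * C * JJ a).trace + ∑ a, sg a * (C * JJ a * A * JJ a).trace)) := by
    rw [← Finset.sum_add_distrib, Finset.mul_sum, ← Finset.sum_sub_distrib, Finset.mul_sum]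
    refine Finset.sum_congr rfl fun a _ => ?_
    simp only [Wm, WW, Matrix.of_apply]
    ring
  rw [e, h1, h2, h3]
  norm_num

theorem T0_shift (P : M6) (t : ℝ) : T0 (P + t • Matrix.diagonal sg) = T0 P := by
  simp [T0, Fin.sum_univ_succ, sg, Matrix.diagonal]
  ring

theorem a7_pr (P W : M6) (t : ℝ) :
    pr (P + t • Matrix.diagonal sg) W = pr P W + t * ∑ a, sg a * W a a := by
  simp [pr, Fin.sum_univ_succ, sg, Matrix.diagonal]
  ring

theorem TT_shift (k : ℝ) (P : M6) (t : ℝ) (A B C : M4) (hA : Aᵀ = A) (hB : Bᵀ = B) (hC : Cᵀ = C) :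
    TT k (P + t • Matrix.diagonal sg) A B C = TT k P A B C := by
  rw [TT, TT, T0_shift, a7_pr, Wm_tr A B C hA hB hC, mul_zero, add_zero]

end H79T
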