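import Pool.Agent.Lib.H79T.Core
import Pool.Agent.Lib.H79T.A5

/-!
# Chunk B1 (M)
`dec`: normal form to the decomposition. `sym_dec` for `A + C` and `A - C` and `B`: with `B0 a b = ((A + C) * (JL a * JR b)).trace / 8`,
`B1 a b = ((A - C) * (JL a * JR b)).trace / 8`, `B2 a b = (B * (JL a * JR b)).trace / 4`, `m = (A + C).trace / 8 = A.trace / 4`:
`A = m + JB B0 + JB B1`, `C = m + JB B0 - JB B1`, `B = JB B2` (add and subtract; `JB` is linear). `B0 a b = 0` for `a ≠ 0` (`off`);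
`B1 0 1 = B1 0 2 = 0`, `B2 0 0 = B2 0 2 = 0` (`h1`..`h4`, `r1 A C b = B1 0 b`, `r2 B b = B2 0 b`). `mu_pos`: `Pos1` at `(s, t) = (1, 0)`, `(0, 1)`: `A`, `C`
have nonnegative quadratic forms, so `tr A ≥ 0`; if `tr A = 0 = tr C` then all diagonal entries vanish, hence (nonnegative form) `A = 0`, `C = 0`;
then `2 s t xBx ≥ 0` for both signs of `s t`, so `xBx = 0` for all `x`, `B = 0` (symmetric), `WW 0 0 0 = 0`, contradiction to `ng`.
Then divide by `m > 0`: `be = B0 0 / m` etc. (`m • nA = m • 1 + JB (m • N0 be) + ..`, `m • N0 be = N0 (m • be)`.)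
-/

set_option autoImplicit false

open Matrix Finset

namespace H79T

open Pool.Agent.H69Hopf (Arr IsAlgCurv ev area2 idA)
open H30K (gb KB Cyc)
open H21C (Ty)

theorem b1_single (S : M4) (i j : Fin 4) (s : ℝ) :
    (Pi.single i 1 + Pi.single j s : Fin 4 → ℝ) ⬝ᵥ (S *ᵥ (Pi.single i 1 + Pi.single j s)) =
      S i i + s * S i j + s * S j i + s ^ 2 * S j j := by
  simp only [Matrix.mulVec_add, add_dotProduct, dotProduct_add, Matrix.mulVec_single,
    single_dotProduct]
  simp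
  ring

theorem b1_single1 (S : M4) (i : Fin 4) :
    (Pi.single i 1 : Fin 4 → ℝ) ⬝ᵥ (S *ᵥ Pi.single i 1) = S i i := by
  simp

theorem b1_zero {S : M4} (hS : Sᵀ = S) (hd : ∀ i, S i i = 0)
    (hp : ∀ x : Fin 4 → ℝ, 0 ≤ x ⬝ᵥ (S *ᵥ x)) : S = 0 := by
  ext i j
  have hs : S j i = S i j := congrFun (congrFun hS i) j
  have h1 := hp (Pi.single i 1 + Pi.single j 1)
  have h2 := hp (Pi.single i 1 + Pi.single j (-1))
  rw [b1_single, hd i, hd j, hs] at h1 h2
  rw [Matrix.zero_apply]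
  linarith

theorem b1_MM (A B C : M4) (x : Fin 4 → ℝ) (s t : ℝ) :
    MM A B C (s • x) (t • x) =
      s ^ 2 * (x ⬝ᵥ (A *ᵥ x)) + 2 * s * t * (x ⬝ᵥ (B *ᵥ x)) + t ^ 2 * (x ⬝ᵥ (C *ᵥ x)) := by
  unfold MM
  simp only [Matrix.mulVec_smul, smul_dotProduct, dotProduct_smul, smul_eq_mul]
  ring

theorem mu_pos {A B C : M4} (hN : NF A B C) (hp : Pos1 A B C) : 0 < A.trace := by
  have hA : ∀ x : Fin 4 → ℝ, 0 ≤ x ⬝ᵥ (A *ᵥ x) := by
    intro x
    have h := hp x 1 0
    rw [b1_MM] at h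
    linarith
  have hC : ∀ x : Fin 4 → ℝ, 0 ≤ x ⬝ᵥ (C *ᵥ x) := by
    intro x
    have h := hp x 0 1
    rw [b1_MM] at h
    linarith
  have hAd : ∀ i, 0 ≤ A i i := by
    intro i
    have h := hA (Pi.single i 1)
    rwa [b1_single1] at h
  have hCd : ∀ i, 0 ≤ C i i := by
    intro i
    have h := hC (Pi.single i 1)
    rwa [b1_single1] at h
  have hA0 : 0 ≤ A.trace := Finset.sum_nonneg fun i _ => hAd i
  rcases hA0.lt_or_eq with h | h
  · exact h
  exfalso
  have hC0 : C.trace = 0 := by rw [← hN.tr, ← h]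
  have hA1 : ∀ i, A i i = 0 := by
    intro i
    have := (Finset.sum_eq_zero_iff_of_nonneg fun i _ => hAd i).1 h.symm i (Finset.mem_univ i)
    exact this
  have hC1 : ∀ i, C i i = 0 := by
    intro i
    have := (Finset.sum_eq_zero_iff_of_nonneg fun i _ => hCd i).1 hC0 i (Finset.mem_univ i)
    exact this
  have hAz : A = 0 := b1_zero hN.sA hA1 hA
  have hCz : C = 0 := b1_zero hN.sC hC1 hC
  have hB : ∀ x : Fin 4 → ℝ, x ⬝ᵥ (B *ᵥ x) = 0 := by
    intro x
    have h1 := hp x 1 1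
    have h2 := hp x 1 (-1)
    rw [b1_MM, hAz, hCz] at h1 h2
    simp only [Matrix.zero_mulVec, dotProduct_zero] at h1 h2
    linarith
  have hBz : B = 0 := b1_zero hN.sB (fun i => by
    have h1 := hB (Pi.single i 1)
    rwa [b1_single1] at h1) fun x => (hB x).ge
  have hng := hN.ng
  rw [hAz, hBz, hCz] at hng
  unfold WW at hng
  simp at hng

theorem b1_JB_smul (c : ℝ) (B : M3) : JB (c • B) = c • JB B := by
  unfold JB
  rw [Finset.smul_sum]
  refine Finset.sum_congr rfl fun a _ => ?_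
  rw [Finset.smul_sum]
  refine Finset.sum_congr rfl fun b _ => ?_
  rw [Matrix.smul_apply, smul_eq_mul, mul_smul]

theorem b1_N0 (m : ℝ) (be : Fin 3 → ℝ) (P : M3) (h0 : ∀ b, m * be b = P 0 b)
    (h1 : ∀ a b : Fin 3, a ≠ 0 → P a b = 0) : m • N0 be = P := by
  ext a b
  rw [Matrix.smul_apply, smul_eq_mul]
  fin_cases a
  · fin_cases b
    · exact h0 0
    · exact h0 1
    · exact h0 2
  · fin_cases b
    · exact (mul_zero m).trans (h1 1 0 (by decide)).symm
    · exact (mul_zero m).trans (h1 1 1 (by decide)).symm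
    · exact (mul_zero m).trans (h1 1 2 (by decide)).symm
  · fin_cases b
    · exact (mul_zero m).trans (h1 2 0 (by decide)).symm
    · exact (mul_zero m).trans (h1 2 1 (by decide)).symm
    · exact (mul_zero m).trans (h1 2 2 (by decide)).symm

theorem b1_N1 (m p : ℝ) (a2 a3 : Fin 3 → ℝ) (P : M3) (h0 : m * p = P 0 0) (h1 : P 0 1 = 0)
    (h2 : P 0 2 = 0) (h3 : ∀ b, m * a2 b = P 1 b) (h4 : ∀ b, m * a3 b = P 2 b) :
    m • N1 p a2 a3 = P := by
  ext a b
  rw [Matrix.smul_apply, smul_eq_mul]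
  fin_cases a
  · fin_cases b
    · exact h0
    · exact (mul_zero m).trans h1.symm
    · exact (mul_zero m).trans h2.symm
  · fin_cases b
    · exact h3 0
    · exact h3 1
    · exact h3 2
  · fin_cases b
    · exact h4 0
    · exact h4 1
    · exact h4 2

theorem b1_N2 (m q : ℝ) (c2 c3 : Fin 3 → ℝ) (P : M3) (h0 : P 0 0 = 0) (h1 : m * q = P 0 1)
    (h2 : P 0 2 = 0) (h3 : ∀ b, m * c2 b = P 1 b) (h4 : ∀ b, m * c3 b = P 2 b) :
    m • N2 q c2 c3 = P := by
  ext a b
  rw [Matrix.smul_apply, smul_eq_mul]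
  fin_cases a
  · fin_cases b
    · exact (mul_zero m).trans h0.symm
    · exact h1
    · exact (mul_zero m).trans h2.symm
  · fin_cases b
    · exact h3 0
    · exact h3 1
    · exact h3 2
  · fin_cases b
    · exact h4 0
    · exact h4 1
    · exact h4 2

theorem dec {A B C : M4} (hN : NF A B C) (hp : Pos1 A B C) :
    ∃ (m p q : ℝ) (be a2 a3 c2 c3 : Fin 3 → ℝ), 0 < m ∧ 0 ≤ q ∧ q ≤ p ∧
      A = m • nA p be a2 a3 ∧ B = m • nB q c2 c3 ∧ C = m • nC p be a2 a3 := by
  have hpos := mu_pos hN hp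
  have hsP : (A + C)ᵀ = A + C := by rw [Matrix.transpose_add, hN.sA, hN.sC]
  have hsM : (A - C)ᵀ = A - C := by rw [Matrix.transpose_sub, hN.sA, hN.sC]
  have hP := sym_dec (A + C) hsP
  have hM := sym_dec (A - C) hsM
  have hB := sym_dec B hN.sB
  have htP : (A + C).trace = 2 * A.trace := by rw [Matrix.trace_add, ← hN.tr]; ring
  have htM : (A - C).trace = 0 := by rw [Matrix.trace_sub, ← hN.tr, sub_self]
  rw [htP] at hP
  rw [htM, zero_div, zero_smul, zero_add] at hM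
  rw [hN.tB, zero_div, zero_smul, zero_add] at hB
  set P0 : M3 := Matrix.of fun a b => ((A + C) * (JL a * JR b)).trace / 4 with hP0
  set M0 : M3 := Matrix.of fun a b => ((A - C) * (JL a * JR b)).trace / 4 with hM0
  set B0 : M3 := Matrix.of fun a b => (B * (JL a * JR b)).trace / 4 with hB0
  have hm : 0 < A.trace / 4 := by linarith
  set m : ℝ := A.trace / 4 with hmd
  have hm0 : m ≠ 0 := hm.ne'
  have hN0 : m • N0 (fun b => P0 0 b / 2 / m) = (1 / 2 : ℝ) • P0 := by
    refine b1_N0 _ _ _ (fun b => ?_) fun a b hab => ?_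
    · rw [Matrix.smul_apply, smul_eq_mul]
      field_simp
    · rw [Matrix.smul_apply, smul_eq_mul, hP0, Matrix.of_apply, hN.off a b hab]
      ring
  have hN1 : m • N1 (r1 A C 0 / m) (fun b => M0 1 b / 2 / m) (fun b => M0 2 b / 2 / m) =
      (1 / 2 : ℝ) • M0 := by
    have e : ∀ b, (1 / 2 : ℝ) * M0 0 b = r1 A C b := by
      intro b
      rw [hM0, Matrix.of_apply]
      unfold r1
      ring
    refine b1_N1 _ _ _ _ _ ?_ ?_ ?_ (fun b => ?_) fun b => ?_
    · rw [Matrix.smul_apply, smul_eq_mul, e]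
      field_simp
    · rw [Matrix.smul_apply, smul_eq_mul, e, hN.h1]
    · rw [Matrix.smul_apply, smul_eq_mul, e, hN.h2]
    · rw [Matrix.smul_apply, smul_eq_mul]
      field_simp
    · rw [Matrix.smul_apply, smul_eq_mul]
      field_simp
  have hN2 : m • N2 (r2 B 1 / m) (fun b => B0 1 b / m) (fun b => B0 2 b / m) = B0 := by
    refine b1_N2 _ _ _ _ _ ?_ ?_ ?_ (fun b => ?_) fun b => ?_
    · exact hN.h3
    · rw [mul_div_cancel₀ _ hm0]
      rfl
    · exact hN.h4
    · rw [mul_div_cancel₀ _ hm0]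
    · rw [mul_div_cancel₀ _ hm0]
  refine ⟨m, r1 A C 0 / m, r2 B 1 / m, fun b => P0 0 b / 2 / m, fun b => M0 1 b / 2 / m,
    fun b => M0 2 b / 2 / m, fun b => B0 1 b / m, fun b => B0 2 b / m, hm,
    div_nonneg hN.h5 hm.le, div_le_div_of_nonneg_right hN.h6 hm.le, ?_, ?_, ?_⟩
  · unfold nA
    rw [smul_add, smul_add, ← b1_JB_smul, ← b1_JB_smul, hN0, hN1, b1_JB_smul, b1_JB_smul, one_smul]
    ext i j
    have h1 := congrFun (congrFun hP i) j
    have h2 := congrFun (congrFun hM i) j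
    simp only [Matrix.add_apply, Matrix.sub_apply, Matrix.smul_apply, smul_eq_mul] at h1 h2 ⊢
    linear_combination (h1 + h2) / 2 - (1 : M4) i j * hmd
  · unfold nB
    rw [← b1_JB_smul, hN2]
    exact hB
  · unfold nC
    rw [smul_sub, smul_add, ← b1_JB_smul, ← b1_JB_smul, hN0, hN1, b1_JB_smul, b1_JB_smul, one_smul]
    ext i j
    have h1 := congrFun (congrFun hP i) j
    have h2 := congrFun (congrFun hM i) j
    simp only [Matrix.add_apply, Matrix.sub_apply, Matrix.smul_apply, smul_eq_mul] at h1 h2 ⊢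
    linear_combination (h1 - h2) / 2 - (1 : M4) i j * hmd

end H79T
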