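import Pool.Agent.Lib.H79T.Defs

/-!
# Chunk C1 (M)
The explicit formula for `W`: `A = μ + J(B0) + J(B1)`, `C = μ + J(B0) - J(B1)`, `B = J(B2)`. Numerically verified. Every entry is a polynomial identity of degree 2 in
the 28 variables `μ, B0, B1, B2`: `fin_cases i <;> fin_cases j` (9 entries per theorem), unfold `WW, JB, JL, JR, Wpp, nn, cof, trace, mul_apply`,
`Fin.sum_univ_three`, `Fin.sum_univ_four`, `ring`. If this is slow: expand `WW` in `μ`, `J(B0)`, .. first (bilinearity) and use the table of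
`(JL a JR b X JL c JR d Y).trace`, or prove one entry per lemma. `simp [JL, JR, ...]` computes `JB B` as an explicit matrix first
(lemma `JB_eq : JB B = !![..]` recommended: entries e.g. `JB B 0 0 = -(B 0 0 + B 1 1 + B 2 2)`).
-/

set_option autoImplicit false

open Matrix Finset

namespace H79T

open Pool.Agent.H69Hopf (Arr IsAlgCurv ev area2 idA)
open H30K (gb KB Cyc)
open H21C (Ty)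

theorem h79tc1_JB (B : M3) : JB B = !![-B 0 0 - B 1 1 - B 2 2, B 1 2 - B 2 1, -B 0 2 + B 2 0, B 0 1 - B 1 0;
    B 1 2 - B 2 1, -B 0 0 + B 1 1 + B 2 2, -B 0 1 - B 1 0, -B 0 2 - B 2 0;
    -B 0 2 + B 2 0, -B 0 1 - B 1 0, B 0 0 - B 1 1 + B 2 2, -B 1 2 - B 2 1;
    B 0 1 - B 1 0, -B 0 2 - B 2 0, -B 1 2 - B 2 1, B 0 0 + B 1 1 - B 2 2] := by
  ext i j
  fin_cases i <;> fin_cases j <;>
    simp [JB, JL, JR, Matrix.mul_apply, Fin.sum_univ_four, Fin.sum_univ_three, Matrix.add_apply, Matrix.smul_apply] <;> ring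

theorem h79tc1_L0 (M : M4) : M * JL 0 = !![M 0 1, -M 0 0, M 0 3, -M 0 2; M 1 1, -M 1 0, M 1 3, -M 1 2;
    M 2 1, -M 2 0, M 2 3, -M 2 2; M 3 1, -M 3 0, M 3 3, -M 3 2] := by
  ext i j
  fin_cases i <;> fin_cases j <;> simp [JL, Matrix.mul_apply, Fin.sum_univ_four]

theorem h79tc1_L1 (M : M4) : M * JL 1 = !![M 0 2, -M 0 3, -M 0 0, M 0 1; M 1 2, -M 1 3, -M 1 0, M 1 1;
    M 2 2, -M 2 3, -M 2 0, M 2 1; M 3 2, -M 3 3, -M 3 0, M 3 1] := by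
  ext i j
  fin_cases i <;> fin_cases j <;> simp [JL, Matrix.mul_apply, Fin.sum_univ_four]

theorem h79tc1_L2 (M : M4) : M * JL 2 = !![M 0 3, M 0 2, -M 0 1, -M 0 0; M 1 3, M 1 2, -M 1 1, -M 1 0;
    M 2 3, M 2 2, -M 2 1, -M 2 0; M 3 3, M 3 2, -M 3 1, -M 3 0] := by
  ext i j
  fin_cases i <;> fin_cases j <;> simp [JL, Matrix.mul_apply, Fin.sum_univ_four]

theorem h79tc1_R0 (M : M4) : M * JR 0 = !![M 0 1, -M 0 0, -M 0 3, M 0 2; M 1 1, -M 1 0, -M 1 3, M 1 2;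
    M 2 1, -M 2 0, -M 2 3, M 2 2; M 3 1, -M 3 0, -M 3 3, M 3 2] := by
  ext i j
  fin_cases i <;> fin_cases j <;> simp [JR, Matrix.mul_apply, Fin.sum_univ_four]

theorem h79tc1_R1 (M : M4) : M * JR 1 = !![M 0 2, M 0 3, -M 0 0, -M 0 1; M 1 2, M 1 3, -M 1 0, -M 1 1;
    M 2 2, M 2 3, -M 2 0, -M 2 1; M 3 2, M 3 3, -M 3 0, -M 3 1] := by
  ext i j
  fin_cases i <;> fin_cases j <;> simp [JR, Matrix.mul_apply, Fin.sum_univ_four]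

theorem h79tc1_R2 (M : M4) : M * JR 2 = !![M 0 3, -M 0 2, M 0 1, -M 0 0; M 1 3, -M 1 2, M 1 1, -M 1 0;
    M 2 3, -M 2 2, M 2 1, -M 2 0; M 3 3, -M 3 2, M 3 1, -M 3 0] := by
  ext i j
  fin_cases i <;> fin_cases j <;> simp [JR, Matrix.mul_apply, Fin.sum_univ_four]

theorem h79tc1_one : (1 : M4) = !![1, 0, 0, 0; 0, 1, 0, 0; 0, 0, 1, 0; 0, 0, 0, 1] := by
  ext i j
  fin_cases i <;> fin_cases j <;> simp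

/-- the trace of a product -/
def h79tc1_tp (M N : M4) : ℝ := M 0 0 * N 0 0 + M 0 1 * N 1 0 + M 0 2 * N 2 0 + M 0 3 * N 3 0
  + (M 1 0 * N 0 1 + M 1 1 * N 1 1 + M 1 2 * N 2 1 + M 1 3 * N 3 1)
  + (M 2 0 * N 0 2 + M 2 1 * N 1 2 + M 2 2 * N 2 2 + M 2 3 * N 3 2)
  + (M 3 0 * N 0 3 + M 3 1 * N 1 3 + M 3 2 * N 2 3 + M 3 3 * N 3 3)

theorem h79tc1_WW (A B C X Y : M4) : WW A B C X Y = (1 / 2) * (h79tc1_tp (B * X) (B * Y)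
    - (1 / 2) * (h79tc1_tp (A * X) (C * Y) + h79tc1_tp (C * X) (A * Y))) := by
  have h : ∀ M N : M4, (M * N).trace = h79tc1_tp M N := by
    intro M N
    simp only [Matrix.trace, Matrix.diag_apply, Matrix.mul_apply, Fin.sum_univ_four, h79tc1_tp]
  unfold WW
  rw [← h, ← h, ← h]
  simp only [Matrix.mul_assoc]

theorem h79tc1_addA (μ : ℝ) (B0 B1 : M3) : (μ • (1 : M4) + JB B0 + JB B1) = !![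
    μ + (-B0 0 0 - B0 1 1 - B0 2 2) + (-B1 0 0 - B1 1 1 - B1 2 2), (B0 1 2 - B0 2 1) + (B1 1 2 - B1 2 1), (-B0 0 2 + B0 2 0) + (-B1 0 2 + B1 2 0), (B0 0 1 - B0 1 0) + (B1 0 1 - B1 1 0);
    (B0 1 2 - B0 2 1) + (B1 1 2 - B1 2 1), μ + (-B0 0 0 + B0 1 1 + B0 2 2) + (-B1 0 0 + B1 1 1 + B1 2 2), (-B0 0 1 - B0 1 0) + (-B1 0 1 - B1 1 0), (-B0 0 2 - B0 2 0) + (-B1 0 2 - B1 2 0);
    (-B0 0 2 + B0 2 0) + (-B1 0 2 + B1 2 0), (-B0 0 1 - B0 1 0) + (-B1 0 1 - B1 1 0), μ + (B0 0 0 - B0 1 1 + B0 2 2) + (B1 0 0 - B1 1 1 + B1 2 2), (-B0 1 2 - B0 2 1) + (-B1 1 2 - B1 2 1);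
    (B0 0 1 - B0 1 0) + (B1 0 1 - B1 1 0), (-B0 0 2 - B0 2 0) + (-B1 0 2 - B1 2 0), (-B0 1 2 - B0 2 1) + (-B1 1 2 - B1 2 1), μ + (B0 0 0 + B0 1 1 - B0 2 2) + (B1 0 0 + B1 1 1 - B1 2 2)] := by
  rw [h79tc1_JB, h79tc1_JB, h79tc1_one]
  ext i j
  fin_cases i <;> fin_cases j <;> simp

theorem h79tc1_addC (μ : ℝ) (B0 B1 : M3) : (μ • (1 : M4) + JB B0 - JB B1) = !![
    μ + (-B0 0 0 - B0 1 1 - B0 2 2) - (-B1 0 0 - B1 1 1 - B1 2 2), (B0 1 2 - B0 2 1) - (B1 1 2 - B1 2 1), (-B0 0 2 + B0 2 0) - (-B1 0 2 + B1 2 0), (B0 0 1 - B0 1 0) - (B1 0 1 - B1 1 0);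
    (B0 1 2 - B0 2 1) - (B1 1 2 - B1 2 1), μ + (-B0 0 0 + B0 1 1 + B0 2 2) - (-B1 0 0 + B1 1 1 + B1 2 2), (-B0 0 1 - B0 1 0) - (-B1 0 1 - B1 1 0), (-B0 0 2 - B0 2 0) - (-B1 0 2 - B1 2 0);
    (-B0 0 2 + B0 2 0) - (-B1 0 2 + B1 2 0), (-B0 0 1 - B0 1 0) - (-B1 0 1 - B1 1 0), μ + (B0 0 0 - B0 1 1 + B0 2 2) - (B1 0 0 - B1 1 1 + B1 2 2), (-B0 1 2 - B0 2 1) - (-B1 1 2 - B1 2 1);
    (B0 0 1 - B0 1 0) - (B1 0 1 - B1 1 0), (-B0 0 2 - B0 2 0) - (-B1 0 2 - B1 2 0), (-B0 1 2 - B0 2 1) - (-B1 1 2 - B1 2 1), μ + (B0 0 0 + B0 1 1 - B0 2 2) - (B1 0 0 + B1 1 1 - B1 2 2)] := by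
  rw [h79tc1_JB, h79tc1_JB, h79tc1_one]
  ext i j
  fin_cases i <;> fin_cases j <;> simp

theorem h79tc1_tL0L0 (M N : M4) : h79tc1_tp (M * JL 0) (N * JL 0) =
    M 0 1 * N 0 1 - M 0 0 * N 1 1 + M 0 3 * N 2 1 - M 0 2 * N 3 1 - M 1 1 * N 0 0 + M 1 0 * N 1 0 - M 1 3 * N 2 0 + M 1 2 * N 3 0 + M 2 1 * N 0 3 - M 2 0 * N 1 3 + M 2 3 * N 2 3 - M 2 2 * N 3 3 - M 3 1 * N 0 2 + M 3 0 * N 1 2 - M 3 3 * N 2 2 + M 3 2 * N 3 2 := by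
  rw [h79tc1_L0, h79tc1_L0]
  simp [h79tc1_tp]
  ring

theorem h79tc1_tL0L1 (M N : M4) : h79tc1_tp (M * JL 0) (N * JL 1) =
    M 0 1 * N 0 2 - M 0 0 * N 1 2 + M 0 3 * N 2 2 - M 0 2 * N 3 2 - M 1 1 * N 0 3 + M 1 0 * N 1 3 - M 1 3 * N 2 3 + M 1 2 * N 3 3 - M 2 1 * N 0 0 + M 2 0 * N 1 0 - M 2 3 * N 2 0 + M 2 2 * N 3 0 + M 3 1 * N 0 1 - M 3 0 * N 1 1 + M 3 3 * N 2 1 - M 3 2 * N 3 1 := by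
  rw [h79tc1_L0, h79tc1_L1]
  simp [h79tc1_tp]
  ring

theorem h79tc1_tL0L2 (M N : M4) : h79tc1_tp (M * JL 0) (N * JL 2) =
    M 0 1 * N 0 3 - M 0 0 * N 1 3 + M 0 3 * N 2 3 - M 0 2 * N 3 3 + M 1 1 * N 0 2 - M 1 0 * N 1 2 + M 1 3 * N 2 2 - M 1 2 * N 3 2 - M 2 1 * N 0 1 + M 2 0 * N 1 1 - M 2 3 * N 2 1 + M 2 2 * N 3 1 - M 3 1 * N 0 0 + M 3 0 * N 1 0 - M 3 3 * N 2 0 + M 3 2 * N 3 0 := by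
  rw [h79tc1_L0, h79tc1_L2]
  simp [h79tc1_tp]
  ring

theorem h79tc1_tL1L0 (M N : M4) : h79tc1_tp (M * JL 1) (N * JL 0) =
    M 0 2 * N 0 1 - M 0 3 * N 1 1 - M 0 0 * N 2 1 + M 0 1 * N 3 1 - M 1 2 * N 0 0 + M 1 3 * N 1 0 + M 1 0 * N 2 0 - M 1 1 * N 3 0 + M 2 2 * N 0 3 - M 2 3 * N 1 3 - M 2 0 * N 2 3 + M 2 1 * N 3 3 - M 3 2 * N 0 2 + M 3 3 * N 1 2 + M 3 0 * N 2 2 - M 3 1 * N 3 2 := by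
  rw [h79tc1_L1, h79tc1_L0]
  simp [h79tc1_tp]
  ring

theorem h79tc1_tL1L1 (M N : M4) : h79tc1_tp (M * JL 1) (N * JL 1) =
    M 0 2 * N 0 2 - M 0 3 * N 1 2 - M 0 0 * N 2 2 + M 0 1 * N 3 2 - M 1 2 * N 0 3 + M 1 3 * N 1 3 + M 1 0 * N 2 3 - M 1 1 * N 3 3 - M 2 2 * N 0 0 + M 2 3 * N 1 0 + M 2 0 * N 2 0 - M 2 1 * N 3 0 + M 3 2 * N 0 1 - M 3 3 * N 1 1 - M 3 0 * N 2 1 + M 3 1 * N 3 1 := by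
  rw [h79tc1_L1, h79tc1_L1]
  simp [h79tc1_tp]
  ring

theorem h79tc1_tL1L2 (M N : M4) : h79tc1_tp (M * JL 1) (N * JL 2) =
    M 0 2 * N 0 3 - M 0 3 * N 1 3 - M 0 0 * N 2 3 + M 0 1 * N 3 3 + M 1 2 * N 0 2 - M 1 3 * N 1 2 - M 1 0 * N 2 2 + M 1 1 * N 3 2 - M 2 2 * N 0 1 + M 2 3 * N 1 1 + M 2 0 * N 2 1 - M 2 1 * N 3 1 - M 3 2 * N 0 0 + M 3 3 * N 1 0 + M 3 0 * N 2 0 - M 3 1 * N 3 0 := by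
  rw [h79tc1_L1, h79tc1_L2]
  simp [h79tc1_tp]
  ring

theorem h79tc1_tL2L0 (M N : M4) : h79tc1_tp (M * JL 2) (N * JL 0) =
    M 0 3 * N 0 1 + M 0 2 * N 1 1 - M 0 1 * N 2 1 - M 0 0 * N 3 1 - M 1 3 * N 0 0 - M 1 2 * N 1 0 + M 1 1 * N 2 0 + M 1 0 * N 3 0 + M 2 3 * N 0 3 + M 2 2 * N 1 3 - M 2 1 * N 2 3 - M 2 0 * N 3 3 - M 3 3 * N 0 2 - M 3 2 * N 1 2 + M 3 1 * N 2 2 + M 3 0 * N 3 2 := by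
  rw [h79tc1_L2, h79tc1_L0]
  simp [h79tc1_tp]
  ring

theorem h79tc1_tL2L1 (M N : M4) : h79tc1_tp (M * JL 2) (N * JL 1) =
    M 0 3 * N 0 2 + M 0 2 * N 1 2 - M 0 1 * N 2 2 - M 0 0 * N 3 2 - M 1 3 * N 0 3 - M 1 2 * N 1 3 + M 1 1 * N 2 3 + M 1 0 * N 3 3 - M 2 3 * N 0 0 - M 2 2 * N 1 0 + M 2 1 * N 2 0 + M 2 0 * N 3 0 + M 3 3 * N 0 1 + M 3 2 * N 1 1 - M 3 1 * N 2 1 - M 3 0 * N 3 1 := by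
  rw [h79tc1_L2, h79tc1_L1]
  simp [h79tc1_tp]
  ring

theorem h79tc1_tL2L2 (M N : M4) : h79tc1_tp (M * JL 2) (N * JL 2) =
    M 0 3 * N 0 3 + M 0 2 * N 1 3 - M 0 1 * N 2 3 - M 0 0 * N 3 3 + M 1 3 * N 0 2 + M 1 2 * N 1 2 - M 1 1 * N 2 2 - M 1 0 * N 3 2 - M 2 3 * N 0 1 - M 2 2 * N 1 1 + M 2 1 * N 2 1 + M 2 0 * N 3 1 - M 3 3 * N 0 0 - M 3 2 * N 1 0 + M 3 1 * N 2 0 + M 3 0 * N 3 0 := by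
  rw [h79tc1_L2, h79tc1_L2]
  simp [h79tc1_tp]
  ring

theorem h79tc1_tR0R0 (M N : M4) : h79tc1_tp (M * JR 0) (N * JR 0) =
    M 0 1 * N 0 1 - M 0 0 * N 1 1 - M 0 3 * N 2 1 + M 0 2 * N 3 1 - M 1 1 * N 0 0 + M 1 0 * N 1 0 + M 1 3 * N 2 0 - M 1 2 * N 3 0 - M 2 1 * N 0 3 + M 2 0 * N 1 3 + M 2 3 * N 2 3 - M 2 2 * N 3 3 + M 3 1 * N 0 2 - M 3 0 * N 1 2 - M 3 3 * N 2 2 + M 3 2 * N 3 2 := by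
  rw [h79tc1_R0, h79tc1_R0]
  simp [h79tc1_tp]
  ring

theorem h79tc1_tR0R1 (M N : M4) : h79tc1_tp (M * JR 0) (N * JR 1) =
    M 0 1 * N 0 2 - M 0 0 * N 1 2 - M 0 3 * N 2 2 + M 0 2 * N 3 2 + M 1 1 * N 0 3 - M 1 0 * N 1 3 - M 1 3 * N 2 3 + M 1 2 * N 3 3 - M 2 1 * N 0 0 + M 2 0 * N 1 0 + M 2 3 * N 2 0 - M 2 2 * N 3 0 - M 3 1 * N 0 1 + M 3 0 * N 1 1 + M 3 3 * N 2 1 - M 3 2 * N 3 1 := by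
  rw [h79tc1_R0, h79tc1_R1]
  simp [h79tc1_tp]
  ring

theorem h79tc1_tR0R2 (M N : M4) : h79tc1_tp (M * JR 0) (N * JR 2) =
    M 0 1 * N 0 3 - M 0 0 * N 1 3 - M 0 3 * N 2 3 + M 0 2 * N 3 3 - M 1 1 * N 0 2 + M 1 0 * N 1 2 + M 1 3 * N 2 2 - M 1 2 * N 3 2 + M 2 1 * N 0 1 - M 2 0 * N 1 1 - M 2 3 * N 2 1 + M 2 2 * N 3 1 - M 3 1 * N 0 0 + M 3 0 * N 1 0 + M 3 3 * N 2 0 - M 3 2 * N 3 0 := by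
  rw [h79tc1_R0, h79tc1_R2]
  simp [h79tc1_tp]
  ring

theorem h79tc1_tR1R0 (M N : M4) : h79tc1_tp (M * JR 1) (N * JR 0) =
    M 0 2 * N 0 1 + M 0 3 * N 1 1 - M 0 0 * N 2 1 - M 0 1 * N 3 1 - M 1 2 * N 0 0 - M 1 3 * N 1 0 + M 1 0 * N 2 0 + M 1 1 * N 3 0 - M 2 2 * N 0 3 - M 2 3 * N 1 3 + M 2 0 * N 2 3 + M 2 1 * N 3 3 + M 3 2 * N 0 2 + M 3 3 * N 1 2 - M 3 0 * N 2 2 - M 3 1 * N 3 2 := by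
  rw [h79tc1_R1, h79tc1_R0]
  simp [h79tc1_tp]
  ring

theorem h79tc1_tR1R1 (M N : M4) : h79tc1_tp (M * JR 1) (N * JR 1) =
    M 0 2 * N 0 2 + M 0 3 * N 1 2 - M 0 0 * N 2 2 - M 0 1 * N 3 2 + M 1 2 * N 0 3 + M 1 3 * N 1 3 - M 1 0 * N 2 3 - M 1 1 * N 3 3 - M 2 2 * N 0 0 - M 2 3 * N 1 0 + M 2 0 * N 2 0 + M 2 1 * N 3 0 - M 3 2 * N 0 1 - M 3 3 * N 1 1 + M 3 0 * N 2 1 + M 3 1 * N 3 1 := by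
  rw [h79tc1_R1, h79tc1_R1]
  simp [h79tc1_tp]
  ring

theorem h79tc1_tR1R2 (M N : M4) : h79tc1_tp (M * JR 1) (N * JR 2) =
    M 0 2 * N 0 3 + M 0 3 * N 1 3 - M 0 0 * N 2 3 - M 0 1 * N 3 3 - M 1 2 * N 0 2 - M 1 3 * N 1 2 + M 1 0 * N 2 2 + M 1 1 * N 3 2 + M 2 2 * N 0 1 + M 2 3 * N 1 1 - M 2 0 * N 2 1 - M 2 1 * N 3 1 - M 3 2 * N 0 0 - M 3 3 * N 1 0 + M 3 0 * N 2 0 + M 3 1 * N 3 0 := by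
  rw [h79tc1_R1, h79tc1_R2]
  simp [h79tc1_tp]
  ring

theorem h79tc1_tR2R0 (M N : M4) : h79tc1_tp (M * JR 2) (N * JR 0) =
    M 0 3 * N 0 1 - M 0 2 * N 1 1 + M 0 1 * N 2 1 - M 0 0 * N 3 1 - M 1 3 * N 0 0 + M 1 2 * N 1 0 - M 1 1 * N 2 0 + M 1 0 * N 3 0 - M 2 3 * N 0 3 + M 2 2 * N 1 3 - M 2 1 * N 2 3 + M 2 0 * N 3 3 + M 3 3 * N 0 2 - M 3 2 * N 1 2 + M 3 1 * N 2 2 - M 3 0 * N 3 2 := by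
  rw [h79tc1_R2, h79tc1_R0]
  simp [h79tc1_tp]
  ring

theorem h79tc1_tR2R1 (M N : M4) : h79tc1_tp (M * JR 2) (N * JR 1) =
    M 0 3 * N 0 2 - M 0 2 * N 1 2 + M 0 1 * N 2 2 - M 0 0 * N 3 2 + M 1 3 * N 0 3 - M 1 2 * N 1 3 + M 1 1 * N 2 3 - M 1 0 * N 3 3 - M 2 3 * N 0 0 + M 2 2 * N 1 0 - M 2 1 * N 2 0 + M 2 0 * N 3 0 - M 3 3 * N 0 1 + M 3 2 * N 1 1 - M 3 1 * N 2 1 + M 3 0 * N 3 1 := by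
  rw [h79tc1_R2, h79tc1_R1]
  simp [h79tc1_tp]
  ring

theorem h79tc1_tR2R2 (M N : M4) : h79tc1_tp (M * JR 2) (N * JR 2) =
    M 0 3 * N 0 3 - M 0 2 * N 1 3 + M 0 1 * N 2 3 - M 0 0 * N 3 3 - M 1 3 * N 0 2 + M 1 2 * N 1 2 - M 1 1 * N 2 2 + M 1 0 * N 3 2 + M 2 3 * N 0 1 - M 2 2 * N 1 1 + M 2 1 * N 2 1 - M 2 0 * N 3 1 - M 3 3 * N 0 0 + M 3 2 * N 1 0 - M 3 1 * N 2 0 + M 3 0 * N 3 0 := by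
  rw [h79tc1_R2, h79tc1_R2]
  simp [h79tc1_tp]
  ring

theorem h79tc1_tL0R0 (M N : M4) : h79tc1_tp (M * JL 0) (N * JR 0) =
    M 0 1 * N 0 1 - M 0 0 * N 1 1 + M 0 3 * N 2 1 - M 0 2 * N 3 1 - M 1 1 * N 0 0 + M 1 0 * N 1 0 - M 1 3 * N 2 0 + M 1 2 * N 3 0 - M 2 1 * N 0 3 + M 2 0 * N 1 3 - M 2 3 * N 2 3 + M 2 2 * N 3 3 + M 3 1 * N 0 2 - M 3 0 * N 1 2 + M 3 3 * N 2 2 - M 3 2 * N 3 2 := by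
  rw [h79tc1_L0, h79tc1_R0]
  simp [h79tc1_tp]
  ring

theorem h79tc1_tL0R1 (M N : M4) : h79tc1_tp (M * JL 0) (N * JR 1) =
    M 0 1 * N 0 2 - M 0 0 * N 1 2 + M 0 3 * N 2 2 - M 0 2 * N 3 2 + M 1 1 * N 0 3 - M 1 0 * N 1 3 + M 1 3 * N 2 3 - M 1 2 * N 3 3 - M 2 1 * N 0 0 + M 2 0 * N 1 0 - M 2 3 * N 2 0 + M 2 2 * N 3 0 - M 3 1 * N 0 1 + M 3 0 * N 1 1 - M 3 3 * N 2 1 + M 3 2 * N 3 1 := by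
  rw [h79tc1_L0, h79tc1_R1]
  simp [h79tc1_tp]
  ring

theorem h79tc1_tL0R2 (M N : M4) : h79tc1_tp (M * JL 0) (N * JR 2) =
    M 0 1 * N 0 3 - M 0 0 * N 1 3 + M 0 3 * N 2 3 - M 0 2 * N 3 3 - M 1 1 * N 0 2 + M 1 0 * N 1 2 - M 1 3 * N 2 2 + M 1 2 * N 3 2 + M 2 1 * N 0 1 - M 2 0 * N 1 1 + M 2 3 * N 2 1 - M 2 2 * N 3 1 - M 3 1 * N 0 0 + M 3 0 * N 1 0 - M 3 3 * N 2 0 + M 3 2 * N 3 0 := by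
  rw [h79tc1_L0, h79tc1_R2]
  simp [h79tc1_tp]
  ring

theorem h79tc1_tL1R0 (M N : M4) : h79tc1_tp (M * JL 1) (N * JR 0) =
    M 0 2 * N 0 1 - M 0 3 * N 1 1 - M 0 0 * N 2 1 + M 0 1 * N 3 1 - M 1 2 * N 0 0 + M 1 3 * N 1 0 + M 1 0 * N 2 0 - M 1 1 * N 3 0 - M 2 2 * N 0 3 + M 2 3 * N 1 3 + M 2 0 * N 2 3 - M 2 1 * N 3 3 + M 3 2 * N 0 2 - M 3 3 * N 1 2 - M 3 0 * N 2 2 + M 3 1 * N 3 2 := by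
  rw [h79tc1_L1, h79tc1_R0]
  simp [h79tc1_tp]
  ring

theorem h79tc1_tL1R1 (M N : M4) : h79tc1_tp (M * JL 1) (N * JR 1) =
    M 0 2 * N 0 2 - M 0 3 * N 1 2 - M 0 0 * N 2 2 + M 0 1 * N 3 2 + M 1 2 * N 0 3 - M 1 3 * N 1 3 - M 1 0 * N 2 3 + M 1 1 * N 3 3 - M 2 2 * N 0 0 + M 2 3 * N 1 0 + M 2 0 * N 2 0 - M 2 1 * N 3 0 - M 3 2 * N 0 1 + M 3 3 * N 1 1 + M 3 0 * N 2 1 - M 3 1 * N 3 1 := by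
  rw [h79tc1_L1, h79tc1_R1]
  simp [h79tc1_tp]
  ring

theorem h79tc1_tL1R2 (M N : M4) : h79tc1_tp (M * JL 1) (N * JR 2) =
    M 0 2 * N 0 3 - M 0 3 * N 1 3 - M 0 0 * N 2 3 + M 0 1 * N 3 3 - M 1 2 * N 0 2 + M 1 3 * N 1 2 + M 1 0 * N 2 2 - M 1 1 * N 3 2 + M 2 2 * N 0 1 - M 2 3 * N 1 1 - M 2 0 * N 2 1 + M 2 1 * N 3 1 - M 3 2 * N 0 0 + M 3 3 * N 1 0 + M 3 0 * N 2 0 - M 3 1 * N 3 0 := by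
  rw [h79tc1_L1, h79tc1_R2]
  simp [h79tc1_tp]
  ring

theorem h79tc1_tL2R0 (M N : M4) : h79tc1_tp (M * JL 2) (N * JR 0) =
    M 0 3 * N 0 1 + M 0 2 * N 1 1 - M 0 1 * N 2 1 - M 0 0 * N 3 1 - M 1 3 * N 0 0 - M 1 2 * N 1 0 + M 1 1 * N 2 0 + M 1 0 * N 3 0 - M 2 3 * N 0 3 - M 2 2 * N 1 3 + M 2 1 * N 2 3 + M 2 0 * N 3 3 + M 3 3 * N 0 2 + M 3 2 * N 1 2 - M 3 1 * N 2 2 - M 3 0 * N 3 2 := by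
  rw [h79tc1_L2, h79tc1_R0]
  simp [h79tc1_tp]
  ring

theorem h79tc1_tL2R1 (M N : M4) : h79tc1_tp (M * JL 2) (N * JR 1) =
    M 0 3 * N 0 2 + M 0 2 * N 1 2 - M 0 1 * N 2 2 - M 0 0 * N 3 2 + M 1 3 * N 0 3 + M 1 2 * N 1 3 - M 1 1 * N 2 3 - M 1 0 * N 3 3 - M 2 3 * N 0 0 - M 2 2 * N 1 0 + M 2 1 * N 2 0 + M 2 0 * N 3 0 - M 3 3 * N 0 1 - M 3 2 * N 1 1 + M 3 1 * N 2 1 + M 3 0 * N 3 1 := by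
  rw [h79tc1_L2, h79tc1_R1]
  simp [h79tc1_tp]
  ring

theorem h79tc1_tL2R2 (M N : M4) : h79tc1_tp (M * JL 2) (N * JR 2) =
    M 0 3 * N 0 3 + M 0 2 * N 1 3 - M 0 1 * N 2 3 - M 0 0 * N 3 3 - M 1 3 * N 0 2 - M 1 2 * N 1 2 + M 1 1 * N 2 2 + M 1 0 * N 3 2 + M 2 3 * N 0 1 + M 2 2 * N 1 1 - M 2 1 * N 2 1 - M 2 0 * N 3 1 - M 3 3 * N 0 0 - M 3 2 * N 1 0 + M 3 1 * N 2 0 + M 3 0 * N 3 0 := by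
  rw [h79tc1_L2, h79tc1_R2]
  simp [h79tc1_tp]
  ring

theorem h79tc1_eL0L0 (μ : ℝ) (B0 B1 B2 : M3) :
    WW (μ • (1 : M4) + JB B0 + JB B1) (JB B2) (μ • (1 : M4) + JB B0 - JB B1) (JL 0) (JL 0) = Wpp μ B0 B1 B2 0 0 := by
  rw [h79tc1_WW, h79tc1_tL0L0, h79tc1_tL0L0, h79tc1_tL0L0, h79tc1_addA, h79tc1_addC, h79tc1_JB]
  simp [Wpp, nn, Fin.sum_univ_three, cof, Matrix.mul_apply]
  ring

theorem h79tc1_eL0L1 (μ : ℝ) (B0 B1 B2 : M3) :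
    WW (μ • (1 : M4) + JB B0 + JB B1) (JB B2) (μ • (1 : M4) + JB B0 - JB B1) (JL 0) (JL 1) = Wpp μ B0 B1 B2 0 1 := by
  rw [h79tc1_WW, h79tc1_tL0L1, h79tc1_tL0L1, h79tc1_tL0L1, h79tc1_addA, h79tc1_addC, h79tc1_JB]
  simp [Wpp, nn, Fin.sum_univ_three, cof, Matrix.mul_apply]
  ring

theorem h79tc1_eL0L2 (μ : ℝ) (B0 B1 B2 : M3) :
    WW (μ • (1 : M4) + JB B0 + JB B1) (JB B2) (μ • (1 : M4) + JB B0 - JB B1) (JL 0) (JL 2) = Wpp μ B0 B1 B2 0 2 := by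
  rw [h79tc1_WW, h79tc1_tL0L2, h79tc1_tL0L2, h79tc1_tL0L2, h79tc1_addA, h79tc1_addC, h79tc1_JB]
  simp [Wpp, nn, Fin.sum_univ_three, cof, Matrix.mul_apply]
  ring

theorem h79tc1_eL1L0 (μ : ℝ) (B0 B1 B2 : M3) :
    WW (μ • (1 : M4) + JB B0 + JB B1) (JB B2) (μ • (1 : M4) + JB B0 - JB B1) (JL 1) (JL 0) = Wpp μ B0 B1 B2 1 0 := by
  rw [h79tc1_WW, h79tc1_tL1L0, h79tc1_tL1L0, h79tc1_tL1L0, h79tc1_addA, h79tc1_addC, h79tc1_JB]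
  simp [Wpp, nn, Fin.sum_univ_three, cof, Matrix.mul_apply]
  ring

theorem h79tc1_eL1L1 (μ : ℝ) (B0 B1 B2 : M3) :
    WW (μ • (1 : M4) + JB B0 + JB B1) (JB B2) (μ • (1 : M4) + JB B0 - JB B1) (JL 1) (JL 1) = Wpp μ B0 B1 B2 1 1 := by
  rw [h79tc1_WW, h79tc1_tL1L1, h79tc1_tL1L1, h79tc1_tL1L1, h79tc1_addA, h79tc1_addC, h79tc1_JB]
  simp [Wpp, nn, Fin.sum_univ_three, cof, Matrix.mul_apply]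
  ring

theorem h79tc1_eL1L2 (μ : ℝ) (B0 B1 B2 : M3) :
    WW (μ • (1 : M4) + JB B0 + JB B1) (JB B2) (μ • (1 : M4) + JB B0 - JB B1) (JL 1) (JL 2) = Wpp μ B0 B1 B2 1 2 := by
  rw [h79tc1_WW, h79tc1_tL1L2, h79tc1_tL1L2, h79tc1_tL1L2, h79tc1_addA, h79tc1_addC, h79tc1_JB]
  simp [Wpp, nn, Fin.sum_univ_three, cof, Matrix.mul_apply]
  ring

theorem h79tc1_eL2L0 (μ : ℝ) (B0 B1 B2 : M3) :
    WW (μ • (1 : M4) + JB B0 + JB B1) (JB B2) (μ • (1 : M4) + JB B0 - JB B1) (JL 2) (JL 0) = Wpp μ B0 B1 B2 2 0 := by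
  rw [h79tc1_WW, h79tc1_tL2L0, h79tc1_tL2L0, h79tc1_tL2L0, h79tc1_addA, h79tc1_addC, h79tc1_JB]
  simp [Wpp, nn, Fin.sum_univ_three, cof, Matrix.mul_apply]
  ring

theorem h79tc1_eL2L1 (μ : ℝ) (B0 B1 B2 : M3) :
    WW (μ • (1 : M4) + JB B0 + JB B1) (JB B2) (μ • (1 : M4) + JB B0 - JB B1) (JL 2) (JL 1) = Wpp μ B0 B1 B2 2 1 := by
  rw [h79tc1_WW, h79tc1_tL2L1, h79tc1_tL2L1, h79tc1_tL2L1, h79tc1_addA, h79tc1_addC, h79tc1_JB]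
  simp [Wpp, nn, Fin.sum_univ_three, cof, Matrix.mul_apply]
  ring

theorem h79tc1_eL2L2 (μ : ℝ) (B0 B1 B2 : M3) :
    WW (μ • (1 : M4) + JB B0 + JB B1) (JB B2) (μ • (1 : M4) + JB B0 - JB B1) (JL 2) (JL 2) = Wpp μ B0 B1 B2 2 2 := by
  rw [h79tc1_WW, h79tc1_tL2L2, h79tc1_tL2L2, h79tc1_tL2L2, h79tc1_addA, h79tc1_addC, h79tc1_JB]
  simp [Wpp, nn, Fin.sum_univ_three, cof, Matrix.mul_apply]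
  ring

theorem h79tc1_eR0R0 (μ : ℝ) (B0 B1 B2 : M3) :
    WW (μ • (1 : M4) + JB B0 + JB B1) (JB B2) (μ • (1 : M4) + JB B0 - JB B1) (JR 0) (JR 0) = Wmm μ B0 B1 B2 0 0 := by
  rw [h79tc1_WW, h79tc1_tR0R0, h79tc1_tR0R0, h79tc1_tR0R0, h79tc1_addA, h79tc1_addC, h79tc1_JB]
  simp [Wmm, nn, Fin.sum_univ_three, cof, Matrix.mul_apply]
  ring

theorem h79tc1_eR0R1 (μ : ℝ) (B0 B1 B2 : M3) :
    WW (μ • (1 : M4) + JB B0 + JB B1) (JB B2) (μ • (1 : M4) + JB B0 - JB B1) (JR 0) (JR 1) = Wmm μ B0 B1 B2 0 1 := by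
  rw [h79tc1_WW, h79tc1_tR0R1, h79tc1_tR0R1, h79tc1_tR0R1, h79tc1_addA, h79tc1_addC, h79tc1_JB]
  simp [Wmm, nn, Fin.sum_univ_three, cof, Matrix.mul_apply]
  ring

theorem h79tc1_eR0R2 (μ : ℝ) (B0 B1 B2 : M3) :
    WW (μ • (1 : M4) + JB B0 + JB B1) (JB B2) (μ • (1 : M4) + JB B0 - JB B1) (JR 0) (JR 2) = Wmm μ B0 B1 B2 0 2 := by
  rw [h79tc1_WW, h79tc1_tR0R2, h79tc1_tR0R2, h79tc1_tR0R2, h79tc1_addA, h79tc1_addC, h79tc1_JB]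
  simp [Wmm, nn, Fin.sum_univ_three, cof, Matrix.mul_apply]
  ring

theorem h79tc1_eR1R0 (μ : ℝ) (B0 B1 B2 : M3) :
    WW (μ • (1 : M4) + JB B0 + JB B1) (JB B2) (μ • (1 : M4) + JB B0 - JB B1) (JR 1) (JR 0) = Wmm μ B0 B1 B2 1 0 := by
  rw [h79tc1_WW, h79tc1_tR1R0, h79tc1_tR1R0, h79tc1_tR1R0, h79tc1_addA, h79tc1_addC, h79tc1_JB]
  simp [Wmm, nn, Fin.sum_univ_three, cof, Matrix.mul_apply]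
  ring

theorem h79tc1_eR1R1 (μ : ℝ) (B0 B1 B2 : M3) :
    WW (μ • (1 : M4) + JB B0 + JB B1) (JB B2) (μ • (1 : M4) + JB B0 - JB B1) (JR 1) (JR 1) = Wmm μ B0 B1 B2 1 1 := by
  rw [h79tc1_WW, h79tc1_tR1R1, h79tc1_tR1R1, h79tc1_tR1R1, h79tc1_addA, h79tc1_addC, h79tc1_JB]
  simp [Wmm, nn, Fin.sum_univ_three, cof, Matrix.mul_apply]
  ring

theorem h79tc1_eR1R2 (μ : ℝ) (B0 B1 B2 : M3) :
    WW (μ • (1 : M4) + JB B0 + JB B1) (JB B2) (μ • (1 : M4) + JB B0 - JB B1) (JR 1) (JR 2) = Wmm μ B0 B1 B2 1 2 := by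
  rw [h79tc1_WW, h79tc1_tR1R2, h79tc1_tR1R2, h79tc1_tR1R2, h79tc1_addA, h79tc1_addC, h79tc1_JB]
  simp [Wmm, nn, Fin.sum_univ_three, cof, Matrix.mul_apply]
  ring

theorem h79tc1_eR2R0 (μ : ℝ) (B0 B1 B2 : M3) :
    WW (μ • (1 : M4) + JB B0 + JB B1) (JB B2) (μ • (1 : M4) + JB B0 - JB B1) (JR 2) (JR 0) = Wmm μ B0 B1 B2 2 0 := by
  rw [h79tc1_WW, h79tc1_tR2R0, h79tc1_tR2R0, h79tc1_tR2R0, h79tc1_addA, h79tc1_addC, h79tc1_JB]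
  simp [Wmm, nn, Fin.sum_univ_three, cof, Matrix.mul_apply]
  ring

theorem h79tc1_eR2R1 (μ : ℝ) (B0 B1 B2 : M3) :
    WW (μ • (1 : M4) + JB B0 + JB B1) (JB B2) (μ • (1 : M4) + JB B0 - JB B1) (JR 2) (JR 1) = Wmm μ B0 B1 B2 2 1 := by
  rw [h79tc1_WW, h79tc1_tR2R1, h79tc1_tR2R1, h79tc1_tR2R1, h79tc1_addA, h79tc1_addC, h79tc1_JB]
  simp [Wmm, nn, Fin.sum_univ_three, cof, Matrix.mul_apply]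
  ring

theorem h79tc1_eR2R2 (μ : ℝ) (B0 B1 B2 : M3) :
    WW (μ • (1 : M4) + JB B0 + JB B1) (JB B2) (μ • (1 : M4) + JB B0 - JB B1) (JR 2) (JR 2) = Wmm μ B0 B1 B2 2 2 := by
  rw [h79tc1_WW, h79tc1_tR2R2, h79tc1_tR2R2, h79tc1_tR2R2, h79tc1_addA, h79tc1_addC, h79tc1_JB]
  simp [Wmm, nn, Fin.sum_univ_three, cof, Matrix.mul_apply]
  ring

theorem h79tc1_eL0R0 (μ : ℝ) (B0 B1 B2 : M3) :
    WW (μ • (1 : M4) + JB B0 + JB B1) (JB B2) (μ • (1 : M4) + JB B0 - JB B1) (JL 0) (JR 0) = Wpm μ B0 B1 B2 0 0 := by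
  rw [h79tc1_WW, h79tc1_tL0R0, h79tc1_tL0R0, h79tc1_tL0R0, h79tc1_addA, h79tc1_addC, h79tc1_JB]
  simp [Wpm, nn, Fin.sum_univ_three, cof, Matrix.mul_apply]
  ring

theorem h79tc1_eL0R1 (μ : ℝ) (B0 B1 B2 : M3) :
    WW (μ • (1 : M4) + JB B0 + JB B1) (JB B2) (μ • (1 : M4) + JB B0 - JB B1) (JL 0) (JR 1) = Wpm μ B0 B1 B2 0 1 := by
  rw [h79tc1_WW, h79tc1_tL0R1, h79tc1_tL0R1, h79tc1_tL0R1, h79tc1_addA, h79tc1_addC, h79tc1_JB]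
  simp [Wpm, nn, Fin.sum_univ_three, cof, Matrix.mul_apply]
  ring

theorem h79tc1_eL0R2 (μ : ℝ) (B0 B1 B2 : M3) :
    WW (μ • (1 : M4) + JB B0 + JB B1) (JB B2) (μ • (1 : M4) + JB B0 - JB B1) (JL 0) (JR 2) = Wpm μ B0 B1 B2 0 2 := by
  rw [h79tc1_WW, h79tc1_tL0R2, h79tc1_tL0R2, h79tc1_tL0R2, h79tc1_addA, h79tc1_addC, h79tc1_JB]
  simp [Wpm, nn, Fin.sum_univ_three, cof, Matrix.mul_apply]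
  ring

theorem h79tc1_eL1R0 (μ : ℝ) (B0 B1 B2 : M3) :
    WW (μ • (1 : M4) + JB B0 + JB B1) (JB B2) (μ • (1 : M4) + JB B0 - JB B1) (JL 1) (JR 0) = Wpm μ B0 B1 B2 1 0 := by
  rw [h79tc1_WW, h79tc1_tL1R0, h79tc1_tL1R0, h79tc1_tL1R0, h79tc1_addA, h79tc1_addC, h79tc1_JB]
  simp [Wpm, nn, Fin.sum_univ_three, cof, Matrix.mul_apply]
  ring

theorem h79tc1_eL1R1 (μ : ℝ) (B0 B1 B2 : M3) :
    WW (μ • (1 : M4) + JB B0 + JB B1) (JB B2) (μ • (1 : M4) + JB B0 - JB B1) (JL 1) (JR 1) = Wpm μ B0 B1 B2 1 1 := by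
  rw [h79tc1_WW, h79tc1_tL1R1, h79tc1_tL1R1, h79tc1_tL1R1, h79tc1_addA, h79tc1_addC, h79tc1_JB]
  simp [Wpm, nn, Fin.sum_univ_three, cof, Matrix.mul_apply]
  ring

theorem h79tc1_eL1R2 (μ : ℝ) (B0 B1 B2 : M3) :
    WW (μ • (1 : M4) + JB B0 + JB B1) (JB B2) (μ • (1 : M4) + JB B0 - JB B1) (JL 1) (JR 2) = Wpm μ B0 B1 B2 1 2 := by
  rw [h79tc1_WW, h79tc1_tL1R2, h79tc1_tL1R2, h79tc1_tL1R2, h79tc1_addA, h79tc1_addC, h79tc1_JB]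
  simp [Wpm, nn, Fin.sum_univ_three, cof, Matrix.mul_apply]
  ring

theorem h79tc1_eL2R0 (μ : ℝ) (B0 B1 B2 : M3) :
    WW (μ • (1 : M4) + JB B0 + JB B1) (JB B2) (μ • (1 : M4) + JB B0 - JB B1) (JL 2) (JR 0) = Wpm μ B0 B1 B2 2 0 := by
  rw [h79tc1_WW, h79tc1_tL2R0, h79tc1_tL2R0, h79tc1_tL2R0, h79tc1_addA, h79tc1_addC, h79tc1_JB]
  simp [Wpm, nn, Fin.sum_univ_three, cof, Matrix.mul_apply]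
  ring

theorem h79tc1_eL2R1 (μ : ℝ) (B0 B1 B2 : M3) :
    WW (μ • (1 : M4) + JB B0 + JB B1) (JB B2) (μ • (1 : M4) + JB B0 - JB B1) (JL 2) (JR 1) = Wpm μ B0 B1 B2 2 1 := by
  rw [h79tc1_WW, h79tc1_tL2R1, h79tc1_tL2R1, h79tc1_tL2R1, h79tc1_addA, h79tc1_addC, h79tc1_JB]
  simp [Wpm, nn, Fin.sum_univ_three, cof, Matrix.mul_apply]
  ring

theorem h79tc1_eL2R2 (μ : ℝ) (B0 B1 B2 : M3) :
    WW (μ • (1 : M4) + JB B0 + JB B1) (JB B2) (μ • (1 : M4) + JB B0 - JB B1) (JL 2) (JR 2) = Wpm μ B0 B1 B2 2 2 := by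
  rw [h79tc1_WW, h79tc1_tL2R2, h79tc1_tL2R2, h79tc1_tL2R2, h79tc1_addA, h79tc1_addC, h79tc1_JB]
  simp [Wpm, nn, Fin.sum_univ_three, cof, Matrix.mul_apply]
  ring

theorem Wf_pp (μ : ℝ) (B0 B1 B2 : M3) (i j : Fin 3) :
    WW (μ • (1 : M4) + JB B0 + JB B1) (JB B2) (μ • (1 : M4) + JB B0 - JB B1) (JL i) (JL j) = Wpp μ B0 B1 B2 i j := by
  fin_cases i <;> fin_cases j
  · exact h79tc1_eL0L0 μ B0 B1 B2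
  · exact h79tc1_eL0L1 μ B0 B1 B2
  · exact h79tc1_eL0L2 μ B0 B1 B2
  · exact h79tc1_eL1L0 μ B0 B1 B2
  · exact h79tc1_eL1L1 μ B0 B1 B2
  · exact h79tc1_eL1L2 μ B0 B1 B2
  · exact h79tc1_eL2L0 μ B0 B1 B2
  · exact h79tc1_eL2L1 μ B0 B1 B2
  · exact h79tc1_eL2L2 μ B0 B1 B2

theorem Wf_mm (μ : ℝ) (B0 B1 B2 : M3) (i j : Fin 3) :
    WW (μ • (1 : M4) + JB B0 + JB B1) (JB B2) (μ • (1 : M4) + JB B0 - JB B1) (JR i) (JR j) = Wmm μ B0 B1 B2 i j := by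
  fin_cases i <;> fin_cases j
  · exact h79tc1_eR0R0 μ B0 B1 B2
  · exact h79tc1_eR0R1 μ B0 B1 B2
  · exact h79tc1_eR0R2 μ B0 B1 B2
  · exact h79tc1_eR1R0 μ B0 B1 B2
  · exact h79tc1_eR1R1 μ B0 B1 B2
  · exact h79tc1_eR1R2 μ B0 B1 B2
  · exact h79tc1_eR2R0 μ B0 B1 B2
  · exact h79tc1_eR2R1 μ B0 B1 B2
  · exact h79tc1_eR2R2 μ B0 B1 B2

theorem Wf_pm (μ : ℝ) (B0 B1 B2 : M3) (i j : Fin 3) :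
    WW (μ • (1 : M4) + JB B0 + JB B1) (JB B2) (μ • (1 : M4) + JB B0 - JB B1) (JL i) (JR j) = Wpm μ B0 B1 B2 i j := by
  fin_cases i <;> fin_cases j
  · exact h79tc1_eL0R0 μ B0 B1 B2
  · exact h79tc1_eL0R1 μ B0 B1 B2
  · exact h79tc1_eL0R2 μ B0 B1 B2
  · exact h79tc1_eL1R0 μ B0 B1 B2
  · exact h79tc1_eL1R1 μ B0 B1 B2
  · exact h79tc1_eL1R2 μ B0 B1 B2
  · exact h79tc1_eL2R0 μ B0 B1 B2
  · exact h79tc1_eL2R1 μ B0 B1 B2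
  · exact h79tc1_eL2R2 μ B0 B1 B2

end H79T
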