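import Pool.Agent.Lib.H79T.Core
import Pool.Agent.Lib.H79T.C1

/-!
# Chunk B2 (M)
`core_eqs`: the conditions `WW (JL 0) (JJ b) = 0` (`b ≠ 0`) in coordinates, by `Wf_pp`, `Wf_pm` with `μ = 1` (unfold `nA nB nC`; `JJ 1 = JL 1`, `JJ 3 = JR 0` etc. by `rfl`).
`Wpp 1 N0 N1 N2 0 1 = -4 (p a2_0 + q c2_1)`, `Wpp .. 0 2 = -4 (p a3_0 + q c3_1)`, `Wpm .. 0 j = -4 be_j + 4 (a2 × a3 + c2 × c3)_j`
(`cof (N0 be)` has row 0 equal to zero), `Wpp .. 0 0 = 2 (1 + |be|² + p² + q² + r) - 4 (p² + q²)` with `r = |a2|² + |a3|² + |c2|² + |c3|²`;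
with `w := -WW (JL 0) (JL 0) / 2`: `p² + q² = 1 + w + |be|² + r`. Unfold `Wpp, Wpm, cof, nn, N0, N1, N2, Matrix.mul_apply, Fin.sum_univ_three`.
-/

set_option autoImplicit false

open Matrix Finset

namespace H79T

open Pool.Agent.H69Hopf (Arr IsAlgCurv ev area2 idA)
open H30K (gb KB Cyc)
open H21C (Ty)

theorem b2_wpp (μ : ℝ) (B0 B1 B2 : M3) (i j : Fin 3) :
    Wpp μ B0 B1 B2 i j = 2 * (μ ^ 2 - nn B0 + nn B1 + nn B2) * (1 : M3) i j +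
      4 * (B0 i 0 * B0 j 0 + B0 i 1 * B0 j 1 + B0 i 2 * B0 j 2) -
      4 * ((B1 i 0 * B1 j 0 + B1 i 1 * B1 j 1 + B1 i 2 * B1 j 2) +
        (B2 i 0 * B2 j 0 + B2 i 1 * B2 j 1 + B2 i 2 * B2 j 2)) := by
  simp only [Wpp, Matrix.add_apply, Matrix.sub_apply, Matrix.smul_apply, Matrix.mul_apply,
    Matrix.transpose_apply, Fin.sum_univ_three, smul_eq_mul]

theorem b2_pp01 (p q : ℝ) (be a2 a3 c2 c3 : Fin 3 → ℝ) :
    Wpp 1 (N0 be) (N1 p a2 a3) (N2 q c2 c3) 0 1 = -4 * (p * a2 0 + q * c2 1) := by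
  rw [b2_wpp]
  simp [N0, N1, N2]

theorem b2_pp02 (p q : ℝ) (be a2 a3 c2 c3 : Fin 3 → ℝ) :
    Wpp 1 (N0 be) (N1 p a2 a3) (N2 q c2 c3) 0 2 = -4 * (p * a3 0 + q * c3 1) := by
  rw [b2_wpp]
  simp [N0, N1, N2]

theorem b2_pp00 (p q : ℝ) (be a2 a3 c2 c3 : Fin 3 → ℝ) :
    Wpp 1 (N0 be) (N1 p a2 a3) (N2 q c2 c3) 0 0 =
      2 * (1 + dot3 be be + (dot3 a2 a2 + dot3 a3 a3 + dot3 c2 c2 + dot3 c3 c3)) -
        2 * (p ^ 2 + q ^ 2) := by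
  rw [b2_wpp]
  simp [N0, N1, N2, nn, dot3, Fin.sum_univ_three]
  ring

theorem b2_pm (p q : ℝ) (be a2 a3 c2 c3 : Fin 3 → ℝ) (j : Fin 3) :
    Wpm 1 (N0 be) (N1 p a2 a3) (N2 q c2 c3) 0 j =
      -4 * be j + 4 * (crs a2 a3 j + crs c2 c3 j) := by
  fin_cases j <;> simp [Wpm, N0, N1, N2, cof, crs]

theorem core_eqs {p q : ℝ} {be a2 a3 c2 c3 : Fin 3 → ℝ}
    (h0 : ∀ b : Fin 6, b ≠ 0 → WW (nA p be a2 a3) (nB q c2 c3) (nC p be a2 a3) (JL 0) (JJ b) = 0) :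
    be = crs a2 a3 + crs c2 c3 ∧ p * a2 0 + q * c2 1 = 0 ∧ p * a3 0 + q * c3 1 = 0 ∧
      p ^ 2 + q ^ 2 = 1 + (- WW (nA p be a2 a3) (nB q c2 c3) (nC p be a2 a3) (JL 0) (JL 0) / 2) + dot3 be be +
        (dot3 a2 a2 + dot3 a3 a3 + dot3 c2 c2 + dot3 c3 c3) := by
  have hpp : ∀ i j, WW (nA p be a2 a3) (nB q c2 c3) (nC p be a2 a3) (JL i) (JL j) =
      Wpp 1 (N0 be) (N1 p a2 a3) (N2 q c2 c3) i j := fun i j => Wf_pp 1 _ _ _ i j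
  have hpm : ∀ i j, WW (nA p be a2 a3) (nB q c2 c3) (nC p be a2 a3) (JL i) (JR j) =
      Wpm 1 (N0 be) (N1 p a2 a3) (N2 q c2 c3) i j := fun i j => Wf_pm 1 _ _ _ i j
  have e1 : WW (nA p be a2 a3) (nB q c2 c3) (nC p be a2 a3) (JL 0) (JL 1) = 0 :=
    h0 1 (by decide)
  have e2 : WW (nA p be a2 a3) (nB q c2 c3) (nC p be a2 a3) (JL 0) (JL 2) = 0 :=
    h0 2 (by decide)
  have f0 : WW (nA p be a2 a3) (nB q c2 c3) (nC p be a2 a3) (JL 0) (JR 0) = 0 :=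
    h0 3 (by decide)
  have f1 : WW (nA p be a2 a3) (nB q c2 c3) (nC p be a2 a3) (JL 0) (JR 1) = 0 :=
    h0 4 (by decide)
  have f2 : WW (nA p be a2 a3) (nB q c2 c3) (nC p be a2 a3) (JL 0) (JR 2) = 0 :=
    h0 5 (by decide)
  rw [hpp, b2_pp01] at e1
  rw [hpp, b2_pp02] at e2
  rw [hpm, b2_pm] at f0 f1 f2
  refine ⟨?_, by linarith, by linarith, ?_⟩
  · funext j
    have hj : be j = crs a2 a3 j + crs c2 c3 j := by
      fin_cases j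
      · show be 0 = crs a2 a3 0 + crs c2 c3 0
        linarith
      · show be 1 = crs a2 a3 1 + crs c2 c3 1
        linarith
      · show be 2 = crs a2 a3 2 + crs c2 c3 2
        linarith
    rw [hj, Pi.add_apply]
  · rw [hpp, b2_pp00]
    ring

end H79T
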