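import Pool.Agent.Lib.H79T.Core

/-!
# Chunk B3 (M)
Rank one positivity of the normalised triple. `s = 1, t = 0`, `x = (x0, x1, 0, 0)`: `x A x = A00 x0² + 2 A01 x0 x1 + A11 x1² ≥ 0` with
`A00 = 1 - be0 - p - (a2_1 + a3_2)`, `A11 = 1 - be0 - p + (a2_1 + a3_2)`, `A01 = A10 = a2_2 - a3_1` (numerically verified; `JB (N1 ..)` entries by
unfolding `JB, JL, JR, Matrix.mul_apply`). `s = 0, t = 1`, `x = (0, 0, x2, x3)`: `C22 = 1 + be0 - p + (a2_1 - a3_2)`, `C33 = 1 + be0 - p - (a2_1 - a3_2)`,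
`C23 = - (a2_2 + a3_1)`. A nonnegative binary form `a x² + 2 b x y + c y²` has `a, c ≥ 0`, `b² ≤ a c`: `A00 + A11 ≥ 0` is `b1`,
`A01² ≤ A00 A11` is `h1`; the same for `C`.
-/

set_option autoImplicit false

open Matrix Finset

namespace H79T

open Pool.Agent.H69Hopf (Arr IsAlgCurv ev area2 idA)
open H30K (gb KB Cyc)
open H21C (Ty)

theorem B3_bform {a b c : ℝ} (h : ∀ x y : ℝ, 0 ≤ a * x ^ 2 + 2 * b * x * y + c * y ^ 2) :
    0 ≤ a + c ∧ b ^ 2 ≤ a * c := by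
  have ha : 0 ≤ a := by simpa using h 1 0
  have hc : 0 ≤ c := by simpa using h 0 1
  refine ⟨add_nonneg ha hc, ?_⟩
  by_contra hn
  push Not at hn
  have h1 := h c (-b)
  have h2 := h (-b) a
  have h3 : 0 ≤ c * (a * c - b ^ 2) := by nlinarith
  have h4 : 0 ≤ a * (a * c - b ^ 2) := by nlinarith
  have hc0 : c = 0 := by
    rcases hc.lt_or_eq with h5 | h5
    · exfalso
      have := mul_neg_of_pos_of_neg h5 (by linarith : a * c - b ^ 2 < 0)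
      linarith
    · exact h5.symm
  have ha0 : a = 0 := by
    rcases ha.lt_or_eq with h5 | h5
    · exfalso
      have := mul_neg_of_pos_of_neg h5 (by linarith : a * c - b ^ 2 < 0)
      linarith
    · exact h5.symm
  have h5 := h 1 (-b)
  rw [hc0, ha0] at h5 hn
  nlinarith

theorem B3_A {p q : ℝ} {be a2 a3 c2 c3 : Fin 3 → ℝ} (x y : ℝ) :
    MM (nA p be a2 a3) (nB q c2 c3) (nC p be a2 a3) ((1 : ℝ) • ![x, y, 0, 0]) ((0 : ℝ) • ![x, y, 0, 0]) =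
      (1 - p - be 0 - (a2 1 + a3 2)) * x ^ 2 + 2 * (a2 2 - a3 1) * x * y +
        (1 - p - be 0 + (a2 1 + a3 2)) * y ^ 2 := by
  simp [MM, nA, JB, N0, N1, JL, JR, Matrix.mulVec, dotProduct, Fin.sum_univ_succ, Matrix.mul_apply]
  ring

theorem B3_C {p q : ℝ} {be a2 a3 c2 c3 : Fin 3 → ℝ} (x y : ℝ) :
    MM (nA p be a2 a3) (nB q c2 c3) (nC p be a2 a3) ((0 : ℝ) • ![0, 0, x, y]) ((1 : ℝ) • ![0, 0, x, y]) =
      (1 - p + be 0 + (a2 1 - a3 2)) * x ^ 2 + 2 * (a2 2 + a3 1) * x * y +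
        (1 - p + be 0 - (a2 1 - a3 2)) * y ^ 2 := by
  simp [MM, nC, JB, N0, N1, JL, JR, Matrix.mulVec, dotProduct, Fin.sum_univ_succ, Matrix.mul_apply]
  ring

theorem r1_facts {p q : ℝ} {be a2 a3 c2 c3 : Fin 3 → ℝ} (hp : Pos1 (nA p be a2 a3) (nB q c2 c3) (nC p be a2 a3)) :
    0 ≤ 1 - p - be 0 ∧ 0 ≤ 1 - p + be 0 ∧
    (a2 1 + a3 2) ^ 2 + (a2 2 - a3 1) ^ 2 ≤ (1 - p - be 0) ^ 2 ∧
    (a2 1 - a3 2) ^ 2 + (a2 2 + a3 1) ^ 2 ≤ (1 - p + be 0) ^ 2 := by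
  have hA := B3_bform (fun x y => by
    have h1 := hp ![x, y, 0, 0] 1 0
    rwa [B3_A x y] at h1)
  have hC := B3_bform (fun x y => by
    have h1 := hp ![0, 0, x, y] 0 1
    rwa [B3_C x y] at h1)
  refine ⟨by linarith [hA.1], by linarith [hC.1], by linarith [hA.2], by linarith [hC.2]⟩

end H79T
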