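import Pool.Agent.Lib.H79T.Core

/-!
# Chunk B4 (M)
The curvature inequality at four pairs. `x = (1,1,0,0)`, `y = (0,0,1,-1)`: `MM = 2 (2 - 2p - 2q - 2 a3_1 + 2 c3_0)`, `g6 x y = (0,-2,0,0,0,2)`;
`x = (1,-1,0,0)`, `y = (0,0,-1,-1)`: `MM = 2 (2 - 2p - 2q + 2 a3_1 - 2 c3_0)`, `g6 = (0,2,0,0,0,2)`;
`x = (1,0,0,0)`, `y = (0,0,0,-1)`: `MM = 2 - 2p - 2q - 2 a2_1 + 2 c2_0`, `g6 = (0,0,1,0,0,1)`;
`x = (0,1,0,0)`, `y = (0,0,1,0)`: `MM = 2 - 2p - 2q + 2 a2_1 - 2 c2_0`, `g6 = (0,0,-1,0,0,1)` (numerically verified).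
`q6 P` at these vectors: `P 1 1 ± 2 P 1 5 + P 5 5` etc. Let `κ = p + q - 1 ≥ 0`. The two values are `M1 = -2κ - δ`, `M2 = -2κ + δ`. If both are `< 0`:
`M1² + M2² = 8κ² + 2δ² ≤ 2 (Q1 + Q2) = 4 (P 1 1 + P 5 5)`. If `M1 ≥ 0` then `M2 ≤ -4κ`, and (for `κ > 0`; for `κ = 0` the claim is `P 1 1 + P 5 5 ≥ 0`)
`16κ² ≤ M2² ≤ 2 Q2 ≤ 2 (Q1 + Q2) = 4 (P 1 1 + P 5 5)` (`Q1 ≥ 0`). The same if `M2 ≥ 0`.
-/

set_option autoImplicit false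

open Matrix Finset

namespace H79T

open Pool.Agent.H69Hopf (Arr IsAlgCurv ev area2 idA)
open H30K (gb KB Cyc)
open H21C (Ty)

theorem b4_JB (M : M3) : JB M =
    !![-M 0 0 - M 1 1 - M 2 2, M 1 2 - M 2 1, -M 0 2 + M 2 0, M 0 1 - M 1 0;
       M 1 2 - M 2 1, -M 0 0 + M 1 1 + M 2 2, -M 0 1 - M 1 0, -M 0 2 - M 2 0;
       -M 0 2 + M 2 0, -M 0 1 - M 1 0, M 0 0 - M 1 1 + M 2 2, -M 1 2 - M 2 1;
       M 0 1 - M 1 0, -M 0 2 - M 2 0, -M 1 2 - M 2 1, M 0 0 + M 1 1 - M 2 2] := by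
  ext i j
  fin_cases i <;> fin_cases j <;>
    simp [JB, JL, JR, Fin.sum_univ_succ, Matrix.mul_apply, Matrix.sum_apply] <;> ring

theorem b4_num {k d Q1 Q2 S : ℝ} (hk : 0 ≤ k) (h1 : 0 ≤ Q1) (h2 : 0 ≤ Q2) (hS : Q1 + Q2 = 2 * S)
    (hM1 : -2 * k - 2 * d < 0 → (-2 * k - 2 * d) ^ 2 ≤ 2 * Q1)
    (hM2 : -2 * k + 2 * d < 0 → (-2 * k + 2 * d) ^ 2 ≤ 2 * Q2) : 2 * k ^ 2 ≤ S := by
  rcases hk.eq_or_lt with h0 | h0
  · subst h0; nlinarith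
  by_cases a1 : -2 * k - 2 * d < 0
  · by_cases a2 : -2 * k + 2 * d < 0
    · have := hM1 a1
      have := hM2 a2
      nlinarith [sq_nonneg d]
    · have := hM1 a1
      push_neg at a2
      nlinarith
  · push_neg at a1
    have := hM2 (by linarith)
    nlinarith

theorem b4_mm1 (p q : ℝ) (be a2 a3 c2 c3 : Fin 3 → ℝ) :
    MM (nA p be a2 a3) (nB q c2 c3) (nC p be a2 a3) ![1, 1, 0, 0] ![0, 0, 1, -1] =
      2 * (-2 * (p + q - 1) - 2 * (a3 1 - c3 0)) := by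
  simp [MM, nA, nB, nC, b4_JB, N0, N1, N2, dotProduct, Matrix.mulVec, Fin.sum_univ_succ]
  ring

theorem b4_mm2 (p q : ℝ) (be a2 a3 c2 c3 : Fin 3 → ℝ) :
    MM (nA p be a2 a3) (nB q c2 c3) (nC p be a2 a3) ![1, -1, 0, 0] ![0, 0, -1, -1] =
      2 * (-2 * (p + q - 1) + 2 * (a3 1 - c3 0)) := by
  simp [MM, nA, nB, nC, b4_JB, N0, N1, N2, dotProduct, Matrix.mulVec, Fin.sum_univ_succ]
  ring

theorem b4_mm3 (p q : ℝ) (be a2 a3 c2 c3 : Fin 3 → ℝ) :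
    MM (nA p be a2 a3) (nB q c2 c3) (nC p be a2 a3) ![1, 0, 0, 0] ![0, 0, 0, -1] =
      -2 * (p + q - 1) - 2 * (a2 1 - c2 0) := by
  simp [MM, nA, nB, nC, b4_JB, N0, N1, N2, dotProduct, Matrix.mulVec, Fin.sum_univ_succ]
  ring

theorem b4_mm4 (p q : ℝ) (be a2 a3 c2 c3 : Fin 3 → ℝ) :
    MM (nA p be a2 a3) (nB q c2 c3) (nC p be a2 a3) ![0, 1, 0, 0] ![0, 0, 1, 0] =
      -2 * (p + q - 1) + 2 * (a2 1 - c2 0) := by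
  simp [MM, nA, nB, nC, b4_JB, N0, N1, N2, dotProduct, Matrix.mulVec, Fin.sum_univ_succ]
  ring

theorem b4_g1 (P : M6) : q6 P (g6 ![1, 1, 0, 0] ![0, 0, 1, -1]) = 4 * (P 1 1 - P 1 5 - P 5 1 + P 5 5) := by
  simp [q6, g6, JJ, JL, JR, dotProduct, Matrix.mulVec, Fin.sum_univ_succ]
  ring

theorem b4_g2 (P : M6) : q6 P (g6 ![1, -1, 0, 0] ![0, 0, -1, -1]) = 4 * (P 1 1 + P 1 5 + P 5 1 + P 5 5) := by
  simp [q6, g6, JJ, JL, JR, dotProduct, Matrix.mulVec, Fin.sum_univ_succ]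
  ring

theorem b4_g3 (P : M6) : q6 P (g6 ![1, 0, 0, 0] ![0, 0, 0, -1]) = P 2 2 + P 2 5 + P 5 2 + P 5 5 := by
  simp [q6, g6, JJ, JL, JR, dotProduct, Matrix.mulVec, Fin.sum_univ_succ]
  ring

theorem b4_g4 (P : M6) : q6 P (g6 ![0, 1, 0, 0] ![0, 0, 1, 0]) = P 2 2 - P 2 5 - P 5 2 + P 5 5 := by
  simp [q6, g6, JJ, JL, JR, dotProduct, Matrix.mulVec, Fin.sum_univ_succ]
  ring

theorem K_facts {p q : ℝ} {be a2 a3 c2 c3 : Fin 3 → ℝ} {P : M6} (hP : Ps P)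
    (hK : KN P (nA p be a2 a3) (nB q c2 c3) (nC p be a2 a3)) (hk : 0 ≤ p + q - 1) :
    2 * (p + q - 1) ^ 2 ≤ P 1 1 + P 5 5 ∧ 2 * (p + q - 1) ^ 2 ≤ P 2 2 + P 5 5 := by
  constructor
  · have e1 := hK ![1, 1, 0, 0] ![0, 0, 1, -1]
    have e2 := hK ![1, -1, 0, 0] ![0, 0, -1, -1]
    have p1 := hP.2 (g6 ![1, 1, 0, 0] ![0, 0, 1, -1])
    have p2 := hP.2 (g6 ![1, -1, 0, 0] ![0, 0, -1, -1])
    rw [b4_mm1, b4_g1] at e1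
    rw [b4_mm2, b4_g2] at e2
    rw [b4_g1] at p1
    rw [b4_g2] at p2
    refine b4_num (d := a3 1 - c3 0) (Q1 := P 1 1 - P 1 5 - P 5 1 + P 5 5)
      (Q2 := P 1 1 + P 1 5 + P 5 1 + P 5 5) hk (by linarith) (by linarith) (by ring) ?_ ?_
    · intro h
      have := e1 (by linarith)
      nlinarith
    · intro h
      have := e2 (by linarith)
      nlinarith
  · have e1 := hK ![1, 0, 0, 0] ![0, 0, 0, -1]
    have e2 := hK ![0, 1, 0, 0] ![0, 0, 1, 0]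
    have p1 := hP.2 (g6 ![1, 0, 0, 0] ![0, 0, 0, -1])
    have p2 := hP.2 (g6 ![0, 1, 0, 0] ![0, 0, 1, 0])
    rw [b4_mm3, b4_g3] at e1
    rw [b4_mm4, b4_g4] at e2
    rw [b4_g3] at p1
    rw [b4_g4] at p2
    refine b4_num (d := a2 1 - c2 0) (Q1 := P 2 2 + P 2 5 + P 5 2 + P 5 5)
      (Q2 := P 2 2 - P 2 5 - P 5 2 + P 5 5) hk (by linarith) (by linarith) (by ring) ?_ ?_
    · intro h
      exact e1 h
    · intro h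
      exact e2 h

end H79T
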