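import Pool.Agent.Lib.H79T.Core
import Pool.Agent.Lib.H79T.C1

/-!
# Chunk B5 (M)
The quadratic form of `W` in coordinates. `q6 (Wm ..) x = ∑ a, ∑ b, x a * x b * WW (JJ a) (JJ b)`; split the sums `Fin 6 = Fin 3 + Fin 3` (`Fin.sum_univ_succ` / explicit), use
`Wf_pp, Wf_mm, Wf_pm` (`μ = 1`) and the symmetry `WW X Y = WW Y X` (trace; prove it here: `Matrix.trace_mul_comm`/cyclicity), then substitute the core equations.
With `x1 = x 1, x2 = x 2, y = (x 3, x 4, x 5)`, `t1 = x1 • a3 - x2 • a2`, `t2 = x1 • c3 - x2 • c2`: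
`q6 (Wm ..) x + 2 w stf x = 4 * Dq` where
`Dq = (1 + w)(x1² + x2²) + |t1|² + |t2|² - 2 p (crs t1 y)_0 - 2 q (crs t2 y)_1 + |y|² - p² y0² - q² y1²`
`+ |crs a2 y|² + |crs a3 y|² + |crs c2 y|² + |crs c3 y|² + (be · y)²`. (`x 0` drops out by the core equations; this is a polynomial identity modulo
`e1, e2, sz, hbe`: use `sz` to eliminate `w` resp. `1 = p² + q² - w - ..`, e.g. `linear_combination (c0) * sz + (c1) * e1 + (c2) * e2 + ..`; the terms with `x 0 * y_j`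
vanish by `hbe` (component `j`), the terms `x 0 * x1`, `x 0 * x2` by `e1`, `e2`, the term `x 0 ²` by `sz`.)
-/

set_option autoImplicit false

open Matrix Finset

namespace H79T

open Pool.Agent.H69Hopf (Arr IsAlgCurv ev area2 idA)
open H30K (gb KB Cyc)
open H21C (Ty)

noncomputable def Dq (p q w : ℝ) (be a2 a3 c2 c3 : Fin 3 → ℝ) (x1 x2 : ℝ) (y : Fin 3 → ℝ) : ℝ :=
  (1 + w) * (x1 ^ 2 + x2 ^ 2) + dot3 (x1 • a3 - x2 • a2) (x1 • a3 - x2 • a2) + dot3 (x1 • c3 - x2 • c2) (x1 • c3 - x2 • c2)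
    - 2 * p * crs (x1 • a3 - x2 • a2) y 0 - 2 * q * crs (x1 • c3 - x2 • c2) y 1 + dot3 y y - p ^ 2 * y 0 ^ 2 - q ^ 2 * y 1 ^ 2
    + dot3 (crs a2 y) (crs a2 y) + dot3 (crs a3 y) (crs a3 y) + dot3 (crs c2 y) (crs c2 y) + dot3 (crs c3 y) (crs c3 y)
    + dot3 be y ^ 2

theorem B5_symm (A B C X Y : M4) : WW A B C X Y = WW A B C Y X := by
  unfold WW
  have h1 : (B * X * B * Y).trace = (B * Y * B * X).trace := by
    rw [Matrix.mul_assoc (B * X) B Y, Matrix.trace_mul_comm, ← Matrix.mul_assoc]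
  have h2 : (A * X * C * Y).trace = (C * Y * A * X).trace := by
    rw [Matrix.mul_assoc (A * X) C Y, Matrix.trace_mul_comm, ← Matrix.mul_assoc]
  have h3 : (C * X * A * Y).trace = (A * Y * C * X).trace := by
    rw [Matrix.mul_assoc (C * X) A Y, Matrix.trace_mul_comm, ← Matrix.mul_assoc]
  rw [h1, h2, h3]
  ring

theorem B5_split (A B C : M4) (x : Fin 6 → ℝ) :
    q6 (Wm A B C) x = (∑ a : Fin 3, ∑ b : Fin 3, ![x 0, x 1, x 2] a * ![x 0, x 1, x 2] b * WW A B C (JL a) (JL b)) +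
      (∑ a : Fin 3, ∑ b : Fin 3, ![x 3, x 4, x 5] a * ![x 3, x 4, x 5] b * WW A B C (JR a) (JR b)) +
      2 * ∑ a : Fin 3, ∑ b : Fin 3, ![x 0, x 1, x 2] a * ![x 3, x 4, x 5] b * WW A B C (JL a) (JR b) := by
  have h : ∀ a b : Fin 3, WW A B C (JR b) (JL a) = WW A B C (JL a) (JR b) := fun a b => B5_symm _ _ _ _ _
  have e : ∀ a b : Fin 6, Wm A B C a b = WW A B C (JJ a) (JJ b) := fun a b => rfl
  have j0 : JJ 0 = JL 0 := rfl
  have j1 : JJ 1 = JL 1 := rfl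
  have j2 : JJ 2 = JL 2 := rfl
  have j3 : JJ 3 = JR 0 := rfl
  have j4 : JJ 4 = JR 1 := rfl
  have j5 : JJ 5 = JR 2 := rfl
  unfold q6
  simp only [dotProduct, Matrix.mulVec, Fin.sum_univ_six, Fin.sum_univ_three, e, j0, j1, j2, j3, j4, j5, h,
    Matrix.cons_val_zero, Matrix.cons_val_one, Matrix.cons_val]
  ring

theorem W_coord {p q w : ℝ} {be a2 a3 c2 c3 : Fin 3 → ℝ} (h : Cr p q w be a2 a3 c2 c3) (x : Fin 6 → ℝ) :
    q6 (Wm (nA p be a2 a3) (nB q c2 c3) (nC p be a2 a3)) x + 2 * w * stf x =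
      4 * Dq p q w be a2 a3 c2 c3 (x 1) (x 2) ![x 3, x 4, x 5] := by
  have e1 := h.e1
  have e2 := h.e2
  have sz := h.sz
  have hb0 := congrFun h.hbe 0
  have hb1 := congrFun h.hbe 1
  have hb2 := congrFun h.hbe 2
  rw [B5_split]
  unfold nA nB nC
  simp only [Wf_pp, Wf_mm, Wf_pm]
  simp only [Wpp, Wmm, Wpm, nn, cof, N0, N1, N2, stf, sg, Dq, dot3, crs, Fin.sum_univ_six, Fin.sum_univ_three,
    Matrix.add_apply, Matrix.sub_apply, Matrix.smul_apply, Matrix.mul_apply, Matrix.transpose_apply, Matrix.one_apply,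
    Matrix.of_apply, Matrix.cons_val_zero, Matrix.cons_val_one, Matrix.cons_val, smul_eq_mul, Pi.sub_apply,
    Pi.smul_apply, Pi.add_apply] at hb0 hb1 hb2 sz ⊢
  simp at hb0 hb1 hb2 sz ⊢
  linear_combination (2 * (x 1 ^ 2 + x 2 ^ 2 + x 3 ^ 2 + x 4 ^ 2 + x 5 ^ 2) - 2 * x 0 ^ 2) * sz
    - 8 * x 0 * x 1 * e1 - 8 * x 0 * x 2 * e2 - 8 * x 0 * x 3 * hb0 - 8 * x 0 * x 4 * hb1 - 8 * x 0 * x 5 * hb2

end H79T
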