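import Pool.Agent.Lib.H79T.B5

/-!
# Chunk B6 (M)
The inequality `Dq ≥ w (x1² + x2²) + y2² / 2`. Write `ξ² = x1² + x2²`, `Y² = y1² + y2²` (components `1, 2` of `y`), `t1 = x1 a3 - x2 a2`, `t2 = x1 c3 - x2 c2`.
`crs t y = x1 crs a3 y - x2 crs a2 y`, so by Cauchy `|crs t2 y|² ≤ ξ² (|crs c2 y|² + |crs c3 y|²)`; in particular the component `C' = crs t2 y 1` satisfies
`C'² ≤ ξ² S2`, `S2 = |crs c2 y|² + |crs c3 y|²`, hence `S2 - 2 q C' ≥ - q² ξ²` (if `ξ = 0` then `C' = 0`; else `S2 - 2qC' + q²ξ² ≥ C'²/ξ² - 2qC' + q²ξ² ≥ 0`).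
`A' = crs t1 y 0 = x1 (a3_1 y2 - a3_2 y1) - x2 (a2_1 y2 - a2_2 y1)`: the bilinear form in `(x1, x2)`, `(y1, y2)` with the matrix of the `a`'s has operator norm
`≤ ½ (sqrt((a2_1 + a3_2)² + (a2_2 - a3_1)²) + sqrt((a2_1 - a3_2)² + (a2_2 + a3_1)²)) ≤ ½ ((1 - p - be0) + (1 - p + be0)) = 1 - p`, so `A'² ≤ (1-p)² ξ² Y²`
(write `2 A' = U + V`, `U = (a2_1 + a3_2) f1 + (a2_2 - a3_1) f2`, `V = (a2_1 - a3_2) f3 + (a2_2 + a3_1) f4` with `f_i` bilinear in `x, y` and `f1² + f2² = f3² + f4² = ξ² Y²`, so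
`U² ≤ (1-p-be0)² ξ²Y²`, `V² ≤ (1-p+be0)² ξ²Y²`). Then it remains: `(1 - q²) ξ² + (1 - p²) y0² + (1 - q²) y1² + ½ y2² ≥ 2 p |A'|`, because
`(1 - q²) y1² + ½ y2² ≥ m Y²`, `m = min (½, 1 - q²)`, and `(1 - q²) ξ² + m Y² ≥ 2 sqrt((1-q²) m) ξ Y ≥ 2 p (1-p) ξ Y`:
`(1 - q²) m ≥ p² (1-p)²` since `1 - q² ≥ 1 - p² = (1-p)(1+p)`: `(1-q²)² ≥ (1-p)²(1+p)² ≥ p²(1-p)²`, and `½ (1-q²) ≥ ½ (1-p)(1+p) ≥ p² (1-p)²` (`2p²(1-p) ≤ 1`).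
`p ≤ 1` from `b1 + b2`. (Drop `|t1|², |t2|², |crs a2 y|², |crs a3 y|², (be·y)²`.)
-/

set_option autoImplicit false

open Matrix Finset

namespace H79T

open Pool.Agent.H69Hopf (Arr IsAlgCurv ev area2 idA)
open H30K (gb KB Cyc)
open H21C (Ty)

theorem h83b6_cs {s v f1 f2 α N : ℝ} (hN : f1 ^ 2 + f2 ^ 2 = N) (h : s ^ 2 + v ^ 2 ≤ α ^ 2) :
    (s * f1 + v * f2) ^ 2 ≤ α ^ 2 * N := by
  have h0 : 0 ≤ N := by rw [← hN]; positivity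
  have h1 : (s * f1 + v * f2) ^ 2 ≤ (s ^ 2 + v ^ 2) * (f1 ^ 2 + f2 ^ 2) := by
    nlinarith [sq_nonneg (s * f2 - v * f1)]
  rw [hN] at h1
  exact h1.trans (mul_le_mul_of_nonneg_right h h0)

theorem h83b6_add {U V α β N : ℝ} (hα : 0 ≤ α) (hβ : 0 ≤ β) (hN : 0 ≤ N) (hU : U ^ 2 ≤ α ^ 2 * N)
    (hV : V ^ 2 ≤ β ^ 2 * N) : (U + V) ^ 2 ≤ (α + β) ^ 2 * N := by
  have h1 : (U * V) ^ 2 ≤ (α * β * N) ^ 2 := by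
    have := mul_le_mul hU hV (sq_nonneg V) (by positivity)
    calc (U * V) ^ 2 = U ^ 2 * V ^ 2 := by ring
      _ ≤ (α ^ 2 * N) * (β ^ 2 * N) := this
      _ = (α * β * N) ^ 2 := by ring
  have h2 : U * V ≤ α * β * N := le_of_abs_le (abs_le_of_sq_le_sq h1 (by positivity))
  nlinarith

theorem op_norm {p : ℝ} {be0 a b c d : ℝ} (b1 : 0 ≤ 1 - p - be0) (b2 : 0 ≤ 1 - p + be0)
    (h1 : (a + d) ^ 2 + (b - c) ^ 2 ≤ (1 - p - be0) ^ 2) (h2 : (a - d) ^ 2 + (b + c) ^ 2 ≤ (1 - p + be0) ^ 2)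
    (x1 x2 y1 y2 : ℝ) : (x1 * (c * y2 - d * y1) - x2 * (a * y2 - b * y1)) ^ 2 ≤ (1 - p) ^ 2 * ((x1 ^ 2 + x2 ^ 2) * (y1 ^ 2 + y2 ^ 2)) := by
  have hU := h83b6_cs (f1 := -(x1 * y1 + x2 * y2)) (f2 := x2 * y1 - x1 * y2)
    (N := (x1 ^ 2 + x2 ^ 2) * (y1 ^ 2 + y2 ^ 2)) (by ring) h1
  have hV := h83b6_cs (f1 := x1 * y1 - x2 * y2) (f2 := x1 * y2 + x2 * y1)
    (N := (x1 ^ 2 + x2 ^ 2) * (y1 ^ 2 + y2 ^ 2)) (by ring) h2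
  have h := h83b6_add b1 b2 (by positivity) hU hV
  have e : (a + d) * -(x1 * y1 + x2 * y2) + (b - c) * (x2 * y1 - x1 * y2) +
      ((a - d) * (x1 * y1 - x2 * y2) + (b + c) * (x1 * y2 + x2 * y1)) =
      2 * (x1 * (c * y2 - d * y1) - x2 * (a * y2 - b * y1)) := by ring
  rw [e] at h
  nlinarith

theorem h83b6_key {p q : ℝ} (q0 : 0 ≤ q) (qp : q ≤ p) (p1 : p ≤ 1) {X y1 y2 A : ℝ} (hX : 0 ≤ X)
    (hA : A ^ 2 ≤ (1 - p) ^ 2 * (X * (y1 ^ 2 + y2 ^ 2))) :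
    2 * p * A ≤ (1 - q ^ 2) * X + (1 - q ^ 2) * y1 ^ 2 + y2 ^ 2 / 2 := by
  have p0 : 0 ≤ p := q0.trans qp
  have hq2 : q ^ 2 ≤ p ^ 2 := by nlinarith
  have hq1 : 0 ≤ 1 - q ^ 2 := by nlinarith
  obtain ⟨m, hm0, hm1, hm2, hm3⟩ : ∃ m : ℝ, 0 ≤ m ∧ m ≤ 1 - q ^ 2 ∧ m ≤ 1 / 2 ∧ p ^ 2 * (1 - p) ^ 2 ≤ (1 - q ^ 2) * m := by
    rcases le_total (1 / 2) (1 - q ^ 2) with hc | hc
    · refine ⟨1 / 2, by norm_num, hc, le_refl _, ?_⟩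
      have h1 : (1 - p) * (1 + p) ≤ 1 - q ^ 2 := by nlinarith
      have h2 : 2 * p ^ 2 * (1 - p) ≤ 1 + p := by
        have : p * (1 - p) ≤ 1 / 4 := by nlinarith [sq_nonneg (2 * p - 1)]
        nlinarith
      have h3 : 2 * (p ^ 2 * (1 - p) ^ 2) ≤ (1 - p) * (1 + p) := by
        have := mul_le_mul_of_nonneg_left h2 (sub_nonneg.2 p1)
        nlinarith
      linarith
    · refine ⟨1 - q ^ 2, hq1, le_refl _, hc, ?_⟩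
      have h1 : p * (1 - p) ≤ 1 - q ^ 2 := by nlinarith
      have h0 : 0 ≤ p * (1 - p) := mul_nonneg p0 (sub_nonneg.2 p1)
      nlinarith
  have hZ : 0 ≤ y1 ^ 2 + y2 ^ 2 := by positivity
  have h1 : (2 * p * A) ^ 2 ≤ ((1 - q ^ 2) * X + m * (y1 ^ 2 + y2 ^ 2)) ^ 2 := by
    calc (2 * p * A) ^ 2 = 4 * p ^ 2 * A ^ 2 := by ring
      _ ≤ 4 * p ^ 2 * ((1 - p) ^ 2 * (X * (y1 ^ 2 + y2 ^ 2))) := mul_le_mul_of_nonneg_left hA (by positivity)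
      _ = 4 * (p ^ 2 * (1 - p) ^ 2) * (X * (y1 ^ 2 + y2 ^ 2)) := by ring
      _ ≤ 4 * ((1 - q ^ 2) * m) * (X * (y1 ^ 2 + y2 ^ 2)) := by
          apply mul_le_mul_of_nonneg_right _ (mul_nonneg hX hZ)
          linarith
      _ ≤ ((1 - q ^ 2) * X + m * (y1 ^ 2 + y2 ^ 2)) ^ 2 := by
          nlinarith [sq_nonneg ((1 - q ^ 2) * X - m * (y1 ^ 2 + y2 ^ 2))]
  have h2 : 2 * p * A ≤ (1 - q ^ 2) * X + m * (y1 ^ 2 + y2 ^ 2) :=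
    le_of_abs_le (abs_le_of_sq_le_sq h1 (by positivity))
  nlinarith [mul_le_mul_of_nonneg_right hm1 (sq_nonneg y1), mul_le_mul_of_nonneg_right hm2 (sq_nonneg y2)]

theorem Dq_ge {p q w : ℝ} {be a2 a3 c2 c3 : Fin 3 → ℝ} (h : Cr p q w be a2 a3 c2 c3) (x1 x2 : ℝ) (y : Fin 3 → ℝ) :
    w * (x1 ^ 2 + x2 ^ 2) + y 2 ^ 2 / 2 ≤ Dq p q w be a2 a3 c2 c3 x1 x2 y := by
  have p1 : p ≤ 1 := by linarith [h.b1, h.b2]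
  have p0 : 0 ≤ p := h.q0.trans h.qp
  have hop := op_norm h.b1 h.b2 h.h1 h.h2 x1 x2 (y 1) (y 2)
  have hk := h83b6_key h.q0 h.qp p1 (add_nonneg (sq_nonneg x1) (sq_nonneg x2)) hop
  have d0 : ∀ u : Fin 3 → ℝ, 0 ≤ dot3 u u := by
    intro u
    exact Finset.sum_nonneg (fun i _ => mul_self_nonneg (u i))
  have d1 : ∀ u : Fin 3 → ℝ, u 1 ^ 2 ≤ dot3 u u := by
    intro u
    unfold dot3
    rw [Fin.sum_univ_three]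
    nlinarith [mul_self_nonneg (u 0), mul_self_nonneg (u 2)]
  have e1 : crs (x1 • a3 - x2 • a2) y 0 = x1 * (a3 1 * y 2 - a3 2 * y 1) - x2 * (a2 1 * y 2 - a2 2 * y 1) := by
    simp [crs]
    ring
  have e2 : crs (x1 • c3 - x2 • c2) y 1 = x1 * crs c3 y 1 - x2 * crs c2 y 1 := by
    simp [crs]
    ring
  have e3 : dot3 y y = y 0 ^ 2 + y 1 ^ 2 + y 2 ^ 2 := by
    unfold dot3
    rw [Fin.sum_univ_three]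
    ring
  have hp2 : 0 ≤ (1 - p ^ 2) * y 0 ^ 2 := mul_nonneg (by nlinarith) (sq_nonneg _)
  unfold Dq
  rw [e1, e2, e3]
  nlinarith [d0 (x1 • a3 - x2 • a2), d0 (x1 • c3 - x2 • c2), d0 (crs a2 y), d0 (crs a3 y), d1 (crs c2 y), d1 (crs c3 y),
    sq_nonneg (dot3 be y), sq_nonneg (crs c3 y 1 - q * x1), sq_nonneg (crs c2 y 1 + q * x2), hk, hp2]

end H79T
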