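import Pool.Agent.Lib.H79T.L1

/-!
# Chunk L2 (S)
The numeric inequality: with `X = a - 6/5 l`: `5/12 (X - c/5)² = 5a²/12 + c²/60 - ac/6 - l a + l c / 5 + 3/5 l²`. If `c ≥ 0` use `π ≥ c`: left side `≥ 5/12 (X - c/5)² + ½ m`; if
`c < 0` use `π ≥ 0`: `≥ 5/12 (X - c/5)² - 6/5 l c`. Here `½ (q - (a+c)²/6) - l (a+c) + 6/5 l π + 3/5 l²` with `q ≥ a² + c²/5`.
-/

set_option autoImplicit false

open Matrix Finset

namespace H79T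

open Pool.Agent.H69Hopf (Arr IsAlgCurv ev area2 idA)
open H30K (gb KB Cyc)
open H21C (Ty)

theorem lemA_num {a c l q pi : ℝ} (hl : 0 ≤ l) (hq : a ^ 2 + c ^ 2 / 5 ≤ q) (h1 : c ≤ pi) (h2 : 0 ≤ pi) :
    0 ≤ (1 / 2) * (q - (1 / 6) * (a + c) ^ 2) - l * (a + c) + (6 / 5) * l * pi + (3 / 5) * l ^ 2 := by
  have h3 := mul_nonneg hl (sub_nonneg.2 h1)
  have h4 := sq_nonneg (a - c / 5 - 6 * l / 5)
  nlinarith [h3, h4, hq]

end H79T
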