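import Pool.Agent.Lib.H79T.L1
import Pool.Agent.Lib.H79T.L2

/-!
# Chunk L3 (M)
Lemma A. `P` positive semidefinite. If `P 0 0 = 0` then `P 0 a = 0` for all `a`: take `a' = 0` and `P' = P` below. Otherwise the Schur complement
`P' a b = P a b - P 0 a * P 0 b / P 0 0` is positive semidefinite (`q6 P' x = q6 P (x - (P x)_0 / P00 e0)`) with vanishing row `0`; let `v a = P 0 a / sqrt (P 0 0)`, `P = v vᵀ + P'`,
`a' = ∑ sg a * v a ^ 2 = ∑ sg a * P 0 a ^ 2 / P 0 0`, `c = ∑ a, sg a * P' a a`. Then `∑ sg a * P a a = a' + c`;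
`∑ a b, sg a sg b P a b ^ 2 = a'^2 + 2 q6 P' (sg v) + ∑ a b, sg a sg b P' a b ^ 2` and the last sum (over `a, b ≥ 1` only) is `≥ c²/5` by `tr_sq_le` with `n = 5` for
`P'.submatrix Fin.succ Fin.succ`; `P' a a ≥ 0`, so `P 1 1 + P 2 2 ≥ P' 1 1 + P' 2 2 ≥ c` (`sg = 1, 1` at `1, 2` and `-1` at `3, 4, 5`). Apply `lemA_num` with `π = P 1 1 + P 2 2`,
`q = ∑ sg sg P²`.
-/

set_option autoImplicit false

open Matrix Finset

namespace H79T

open Pool.Agent.H69Hopf (Arr IsAlgCurv ev area2 idA)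
open H30K (gb KB Cyc)
open H21C (Ty)

theorem l3_q6 (P : M6) (x : Fin 6 → ℝ) : q6 P x = ∑ a, ∑ b, x a * x b * P a b := by
  rw [q6, dotProduct]
  refine Finset.sum_congr rfl fun a _ => ?_
  rw [Matrix.mulVec, dotProduct, Finset.mul_sum]
  exact Finset.sum_congr rfl fun b _ => by ring

theorem l3_sym {P : M6} (hP : Ps P) (a b : Fin 6) : P a b = P b a := by
  have h := congrFun (congrFun hP.1 b) a
  rw [Matrix.transpose_apply] at h
  exact h

theorem l3_diag {P : M6} (hP : Ps P) (a : Fin 6) : 0 ≤ P a a := by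
  obtain ⟨B, hB⟩ := l1_psd P hP.1 hP.2
  rw [l1_ent hB]
  exact Finset.sum_nonneg fun k _ => mul_self_nonneg _

theorem l3_sub (P : M6) (h0 : ∀ b, P 0 b = 0) (h0' : ∀ b, P b 0 = 0) (f : Fin 6 → Fin 6 → ℝ) :
    ∑ a, ∑ b, f a b * P a b ^ 2 = ∑ a : Fin 5, ∑ b : Fin 5, f a.succ b.succ * P a.succ b.succ ^ 2 := by
  rw [Fin.sum_univ_succ]
  have h1 : ∑ b, f 0 b * P 0 b ^ 2 = 0 := Finset.sum_eq_zero fun b _ => by rw [h0 b]; ring
  rw [h1, zero_add]
  refine Finset.sum_congr rfl fun a _ => ?_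
  rw [Fin.sum_univ_succ, h0' a.succ]
  ring

theorem l3_main {P P' : M6} (v : Fin 6 → ℝ) (hP' : Ps P') (h : ∀ a b, P a b = v a * v b + P' a b)
    (h0 : ∀ b, P' 0 b = 0) {l : ℝ} (hl : 0 ≤ l) :
    0 ≤ T0 P - l * (∑ a, sg a * P a a) + (6 / 5) * l * (P 1 1 + P 2 2) + (3 / 5) * l ^ 2 := by
  have h0' : ∀ b, P' b 0 = 0 := fun b => by rw [l3_sym hP' b 0]; exact h0 b
  set a' : ℝ := ∑ a, sg a * v a ^ 2 with ha'
  set c : ℝ := ∑ a, sg a * P' a a with hc
  have htr : ∑ a, sg a * P a a = a' + c := by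
    rw [ha', hc, ← Finset.sum_add_distrib]
    exact Finset.sum_congr rfl fun a _ => by rw [h a a]; ring
  have hq1 : ∑ a, ∑ b, sg a * sg b * P a b ^ 2 =
      a' ^ 2 + 2 * q6 P' (fun a => sg a * v a) + ∑ a, ∑ b, sg a * sg b * P' a b ^ 2 := by
    have e1 : a' ^ 2 = ∑ a, ∑ b, (sg a * v a ^ 2) * (sg b * v b ^ 2) := by
      rw [ha', sq, Finset.sum_mul_sum]
    rw [e1, l3_q6, Finset.mul_sum, ← Finset.sum_add_distrib, ← Finset.sum_add_distrib]
    refine Finset.sum_congr rfl fun a _ => ?_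
    rw [Finset.mul_sum, ← Finset.sum_add_distrib, ← Finset.sum_add_distrib]
    refine Finset.sum_congr rfl fun b _ => ?_
    rw [h a b]
    ring
  have hq2 : 0 ≤ q6 P' (fun a => sg a * v a) := hP'.2 _
  have hs1 : ((P'.submatrix Fin.succ Fin.succ : Matrix (Fin 5) (Fin 5) ℝ))ᵀ = P'.submatrix Fin.succ Fin.succ := by
    ext i j
    rw [Matrix.transpose_apply, Matrix.submatrix_apply, Matrix.submatrix_apply]
    exact l3_sym hP' _ _
  have hs2 : ∀ x : Fin 5 → ℝ, 0 ≤ x ⬝ᵥ ((P'.submatrix Fin.succ Fin.succ : Matrix (Fin 5) (Fin 5) ℝ) *ᵥ x) := by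
    intro x
    have e := hP'.2 (Fin.cons 0 x)
    have e2 : q6 P' (Fin.cons 0 x) = x ⬝ᵥ ((P'.submatrix Fin.succ Fin.succ : Matrix (Fin 5) (Fin 5) ℝ) *ᵥ x) := by
      rw [l3_q6, Fin.sum_univ_succ]
      have e3 : ∑ b, (Fin.cons 0 x : Fin 6 → ℝ) 0 * (Fin.cons 0 x : Fin 6 → ℝ) b * P' 0 b = 0 :=
        Finset.sum_eq_zero fun b _ => by rw [h0 b]; ring
      rw [e3, zero_add, dotProduct]
      refine Finset.sum_congr rfl fun a _ => ?_
      rw [Fin.sum_univ_succ, h0' a.succ, Matrix.mulVec, dotProduct, Finset.mul_sum, mul_zero, zero_add]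
      refine Finset.sum_congr rfl fun b _ => ?_
      rw [Fin.cons_succ, Fin.cons_succ, Matrix.submatrix_apply]
      ring
    rw [e2] at e
    exact e
  have ht := tr_sq_le (P'.submatrix Fin.succ Fin.succ : Matrix (Fin 5) (Fin 5) ℝ) hs1 hs2 (fun a => sg a.succ)
  have hc2 : c = ∑ a : Fin 5, sg a.succ * (P'.submatrix Fin.succ Fin.succ : Matrix (Fin 5) (Fin 5) ℝ) a a := by
    rw [hc, Fin.sum_univ_succ, h0 0, mul_zero, zero_add]
    rfl
  have hq3 : ∑ a, ∑ b, sg a * sg b * P' a b ^ 2 =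
      ∑ a : Fin 5, ∑ b : Fin 5, sg a.succ * sg b.succ * (P'.submatrix Fin.succ Fin.succ : Matrix (Fin 5) (Fin 5) ℝ) a b ^ 2 :=
    l3_sub P' h0 h0' (fun a b => sg a * sg b)
  rw [← hc2, ← hq3] at ht
  push_cast at ht
  have hd1 := l3_diag hP' 1
  have hd2 := l3_diag hP' 2
  have hd3 := l3_diag hP' 3
  have hd4 := l3_diag hP' 4
  have hd5 := l3_diag hP' 5
  have hc3 : c = P' 1 1 + P' 2 2 - P' 3 3 - P' 4 4 - P' 5 5 := by
    have s1 : sg 1 = 1 := rfl
    have s2 : sg 2 = 1 := rfl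
    have s3 : sg 3 = -1 := rfl
    have s4 : sg 4 = -1 := rfl
    have s5 : sg 5 = -1 := rfl
    rw [hc, Fin.sum_univ_six, h0 0, s1, s2, s3, s4, s5]
    ring
  have hp1 : P 1 1 = v 1 ^ 2 + P' 1 1 := by rw [h 1 1]; ring
  have hp2 : P 2 2 = v 2 ^ 2 + P' 2 2 := by rw [h 2 2]; ring
  have hpi1 : c ≤ P 1 1 + P 2 2 := by
    rw [hc3, hp1, hp2]
    nlinarith [sq_nonneg (v 1), sq_nonneg (v 2)]
  have hpi2 : 0 ≤ P 1 1 + P 2 2 := by
    rw [hp1, hp2]
    nlinarith [sq_nonneg (v 1), sq_nonneg (v 2)]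
  have hq : a' ^ 2 + c ^ 2 / 5 ≤ ∑ a, ∑ b, sg a * sg b * P a b ^ 2 := by
    rw [hq1]
    linarith
  have hfin := lemA_num (a := a') (c := c) (l := l) hl hq hpi1 hpi2
  rw [T0, htr]
  linarith

theorem lemA {P : M6} (hP : Ps P) {l : ℝ} (hl : 0 ≤ l) :
    0 ≤ T0 P - l * (∑ a, sg a * P a a) + (6 / 5) * l * (P 1 1 + P 2 2) + (3 / 5) * l ^ 2 := by
  obtain ⟨B, hB⟩ := l1_psd P hP.1 hP.2
  have hE := l1_ent hB
  have hd : P 0 0 = ∑ k, B k 0 ^ 2 := by
    rw [hE 0 0]
    exact Finset.sum_congr rfl fun k _ => by ring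
  by_cases h00 : P 0 0 = 0
  · have hk : ∀ k, B k 0 = 0 := by
      intro k
      rw [h00] at hd
      have := (Finset.sum_eq_zero_iff_of_nonneg (fun k _ => sq_nonneg (B k 0))).1 hd.symm k (Finset.mem_univ k)
      exact pow_eq_zero_iff (two_ne_zero) |>.1 this
    refine l3_main (P' := P) (fun _ => 0) hP (fun a b => by ring) (fun b => ?_) hl
    rw [hE 0 b]
    exact Finset.sum_eq_zero fun k _ => by rw [hk k]; ring
  · have hpos : 0 < P 0 0 := lt_of_le_of_ne (l3_diag hP 0) (Ne.symm h00)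
    set r : ℝ := Real.sqrt (P 0 0) with hr
    have hr2 : r * r = P 0 0 := Real.mul_self_sqrt hpos.le
    have hr0 : r ≠ 0 := fun h => h00 (by rw [← hr2, h]; ring)
    have hP' : Ps (Matrix.of fun a b => P a b - (P 0 a / r) * (P 0 b / r)) := by
      refine ⟨?_, fun x => ?_⟩
      · ext i j
        rw [Matrix.transpose_apply, Matrix.of_apply, Matrix.of_apply, l3_sym hP j i]
        ring
      · have e1 : q6 (Matrix.of fun a b => P a b - (P 0 a / r) * (P 0 b / r)) x =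
            q6 P x - (∑ a, x a * P 0 a) ^ 2 / P 0 0 := by
          have e2 : (∑ a, x a * P 0 a) ^ 2 / P 0 0 = ∑ a, ∑ b, (x a * P 0 a) * (x b * P 0 b) / P 0 0 := by
            rw [sq, Finset.sum_mul_sum, Finset.sum_div]
            exact Finset.sum_congr rfl fun a _ => by rw [Finset.sum_div]
          rw [l3_q6, l3_q6, e2, ← Finset.sum_sub_distrib]
          refine Finset.sum_congr rfl fun a _ => ?_
          rw [← Finset.sum_sub_distrib]
          refine Finset.sum_congr rfl fun b _ => ?_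
          rw [Matrix.of_apply, ← hr2]
          field_simp
        have e3 : q6 P x = ∑ k, (∑ a, x a * B k a) ^ 2 := by
          have e4 : ∀ k, (∑ a, x a * B k a) ^ 2 = ∑ a, ∑ b, (x a * B k a) * (x b * B k b) := fun k => by
            rw [sq, Finset.sum_mul_sum]
          simp only [e4]
          rw [l3_q6, Finset.sum_comm]
          have e5 : ∀ a b, x b * x a * P b a = ∑ k, (x b * B k b) * (x a * B k a) := by
            intro a b
            rw [hE b a, Finset.mul_sum]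
            exact Finset.sum_congr rfl fun k _ => by ring
          simp only [e5]
          calc ∑ a, ∑ b, ∑ k, (x b * B k b) * (x a * B k a)
              = ∑ a, ∑ k, ∑ b, (x b * B k b) * (x a * B k a) :=
                Finset.sum_congr rfl fun a _ => Finset.sum_comm
            _ = ∑ k, ∑ a, ∑ b, (x b * B k b) * (x a * B k a) := Finset.sum_comm
            _ = ∑ k, ∑ b, ∑ a, (x b * B k b) * (x a * B k a) :=
                Finset.sum_congr rfl fun k _ => Finset.sum_comm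
        have e6 : ∑ a, x a * P 0 a = ∑ k, B k 0 * ∑ a, x a * B k a := by
          have e7 : ∀ a, x a * P 0 a = ∑ k, B k 0 * (x a * B k a) := by
            intro a
            rw [hE 0 a, Finset.mul_sum]
            exact Finset.sum_congr rfl fun k _ => by ring
          simp only [e7]
          rw [Finset.sum_comm]
          exact Finset.sum_congr rfl fun k _ => by rw [Finset.mul_sum]
        have e8 : (∑ a, x a * P 0 a) ^ 2 ≤ P 0 0 * q6 P x := by
          rw [e6, e3, hd]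
          exact Finset.sum_mul_sq_le_sq_mul_sq _ _ _
        rw [e1, sub_nonneg, div_le_iff₀ hpos, mul_comm]
        exact e8
    refine l3_main (fun a => P 0 a / r) hP' (fun a b => ?_) (fun b => ?_) hl
    · rw [Matrix.of_apply]
      ring
    · rw [Matrix.of_apply, ← hr2]
      field_simp
      ring

end H79T
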