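import Pool.Agent.Lib.H79T.B4
import Pool.Agent.Lib.H79T.B6
import Pool.Agent.Lib.H79T.L3

/-!
# Chunk B7 (M)
The core theorem (normalised). `D = Wm + 2 w diagonal sg`, `G = 4 w (E11 + E22) + 2 E55` (diagonal). `q6 (D - G) x ≥ 0` by `W_coord`, `Dq_ge` (`q6 (Wm) x + 2 w stf x - 4 w (x1² + x2²) - 2 x5² ≥ 0`).
`pr_nonneg` for `W := D - G`: `pr P Wm + 2 w τ - 4 w (P 1 1 + P 2 2) - 2 P 5 5 ≥ 0` with `τ = ∑ sg a P a a` (`pr P (diagonal sg) = τ`, since `sg a ^ 3 = sg a`). `lemA` with `l = 2 w`: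
`T0 P - 2 w τ + 12/5 w (P 1 1 + P 2 2) + 12/5 w² ≥ 0`. Sum: `TT 1 P .. ≥ 8/5 w (P 1 1 + P 2 2) + 2 P 5 5 - 12/5 w²`. `κ = p + q - 1`: `p, q ≤ 1` (`b1 + b2`), `κ ≥ 0`
(`p + q ≥ p² + q² ≥ 1`), `κ² ≥ p² + q² - 1 ≥ w` (`κ² - (p² + q² - 1) = 2 (1-p)(1-q)`), `w ≤ 1` (`p² + q² ≤ 2`). `K_facts`: `P 1 1, P 2 2 ≥ 2κ² - z`, `z = P 5 5 ≥ 0`; and `P 1 1, P 2 2 ≥ 0`.
If `z ≥ 2κ²`: `2 z ≥ 4 κ² ≥ 4 w ≥ 12/5 w²`. Else `16/5 w (2κ² - z) + 2 z - 12/5 w²`, linear in `z` on `[0, 2κ²]`, at `z = 0`: `32/5 w κ² - 12/5 w² ≥ 4 w²`, at `2κ²`: `≥ 0`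
(as `nlinarith`: multiply by hand).
-/

set_option autoImplicit false

open Matrix Finset

namespace H79T

open Pool.Agent.H69Hopf (Arr IsAlgCurv ev area2 idA)
open H30K (gb KB Cyc)
open H21C (Ty)

theorem b7_pr_add (P W V : M6) : pr P (W + V) = pr P W + pr P V := by
  simp only [pr, Matrix.add_apply, mul_add, Finset.sum_add_distrib]

theorem b7_pr_diag (P : M6) (g : Fin 6 → ℝ) : pr P (Matrix.diagonal g) = ∑ a, sg a * sg a * P a a * g a := by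
  unfold pr
  refine Finset.sum_congr rfl fun a _ => ?_
  rw [Finset.sum_eq_single a]
  · rw [Matrix.diagonal_apply_eq]
  · intro b _ hb
    rw [Matrix.diagonal_apply_ne _ (Ne.symm hb), mul_zero]
  · intro h
    exact absurd (Finset.mem_univ a) h

theorem b7_q6_add (W V : M6) (x : Fin 6 → ℝ) : q6 (W + V) x = q6 W x + q6 V x := by
  unfold q6
  rw [Matrix.add_mulVec, dotProduct_add]

theorem b7_q6_diag (g : Fin 6 → ℝ) (x : Fin 6 → ℝ) : q6 (Matrix.diagonal g) x = ∑ a, g a * x a ^ 2 := by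
  unfold q6
  simp only [dotProduct]
  refine Finset.sum_congr rfl fun a _ => ?_
  rw [Matrix.mulVec_diagonal]
  ring

theorem b7_diag_nonneg {P : M6} (hP : Ps P) (a : Fin 6) : 0 ≤ P a a := by
  have h := hP.2 (Pi.single a 1)
  unfold q6 at h
  rw [Matrix.mulVec_single_one, single_one_dotProduct] at h
  exact h

theorem b7_num {w s u v z : ℝ} (hw : 0 < w) (hw1 : w ≤ 1) (hs : w ≤ s) (hu : 0 ≤ u) (hv : 0 ≤ v)
    (h1 : 2 * s ≤ u + z) (h2 : 2 * s ≤ v + z) (hz : 0 ≤ z) :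
    0 ≤ 8 / 5 * w * (u + v) + 2 * z - 12 / 5 * w ^ 2 := by
  have hs0 : 0 < s := lt_of_lt_of_le hw hs
  have hww : w ^ 2 ≤ w := by nlinarith
  have huv : 0 ≤ w * (u + v) := mul_nonneg hw.le (add_nonneg hu hv)
  rcases le_or_gt (2 * s) z with hc | hc
  · nlinarith
  · have h3 : 2 * (w * (2 * s - z)) ≤ w * (u + v) := by nlinarith
    have h4 : 0 ≤ (2 * s) * (16 / 5 * (w * (2 * s - z)) + 2 * z - 12 / 5 * w ^ 2) := by
      have e : (2 * s) * (16 / 5 * (w * (2 * s - z)) + 2 * z - 12 / 5 * w ^ 2)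
          = z * (4 * s - 12 / 5 * w ^ 2) + (2 * s - z) * (32 / 5 * (w * s) - 12 / 5 * w ^ 2) := by ring
      rw [e]
      have a1 : 0 ≤ 4 * s - 12 / 5 * w ^ 2 := by nlinarith
      have a2 : w * w ≤ w * s := mul_le_mul_of_nonneg_left hs hw.le
      have a3 : 0 ≤ 32 / 5 * (w * s) - 12 / 5 * w ^ 2 := by nlinarith [sq_nonneg w]
      exact add_nonneg (mul_nonneg hz a1) (mul_nonneg (by linarith) a3)
    have h5 : 0 ≤ 16 / 5 * (w * (2 * s - z)) + 2 * z - 12 / 5 * w ^ 2 := by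
      by_contra hneg
      push Not at hneg
      have := mul_neg_of_pos_of_neg (by linarith : (0 : ℝ) < 2 * s) hneg
      linarith
    nlinarith

theorem core_norm {p q w : ℝ} {be a2 a3 c2 c3 : Fin 3 → ℝ} (h : Cr p q w be a2 a3 c2 c3) {P : M6} (hP : Ps P)
    (hK : KN P (nA p be a2 a3) (nB q c2 c3) (nC p be a2 a3)) : 0 ≤ TT 1 P (nA p be a2 a3) (nB q c2 c3) (nC p be a2 a3) := by
  have hT0 := lemA hP (l := 2 * w) (by have := h.w0; linarith)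
  have hdd : ∀ v : Fin 3 → ℝ, 0 ≤ dot3 v v := by
    intro v
    unfold dot3
    exact Finset.sum_nonneg fun i _ => mul_self_nonneg _
  have hp1 : p ≤ 1 := by have := h.b1; have := h.b2; linarith
  have hq1 : q ≤ 1 := le_trans h.qp hp1
  have hp0 : 0 ≤ p := le_trans h.q0 h.qp
  have hsz : 1 + w ≤ p ^ 2 + q ^ 2 := by
    have := h.sz
    have h1 := hdd be
    have h2 := hdd a2
    have h3 := hdd a3
    have h4 := hdd c2
    have h5 := hdd c3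
    linarith
  have hw := h.w0
  have hpp : p ^ 2 ≤ p := by nlinarith
  have hqq : q ^ 2 ≤ q := by nlinarith [h.q0]
  have hw1 : w ≤ 1 := by linarith
  have hk : 0 ≤ p + q - 1 := by linarith
  have hkk : w ≤ (p + q - 1) ^ 2 := by
    have := mul_nonneg (by linarith : (0 : ℝ) ≤ 1 - p) (by linarith : (0 : ℝ) ≤ 1 - q)
    nlinarith
  obtain ⟨k1, k2⟩ := K_facts hP hK hk
  have hnum := b7_num hw hw1 hkk (b7_diag_nonneg hP 1) (b7_diag_nonneg hP 2) k1 k2 (b7_diag_nonneg hP 5)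
  set W' := Wm (nA p be a2 a3) (nB q c2 c3) (nC p be a2 a3) with hW'
  have hpos : 0 ≤ pr P (W' + Matrix.diagonal ![2 * w, 2 * w - 4 * w, 2 * w - 4 * w, -(2 * w), -(2 * w), -(2 * w) - 2]) := by
    refine pr_nonneg hP fun x => ?_
    rw [b7_q6_add, b7_q6_diag]
    have e1 := W_coord h x
    have e2 := Dq_ge h (x 1) (x 2) ![x 3, x 4, x 5]
    rw [← hW'] at e1
    have e3 : stf x = x 0 ^ 2 + x 1 ^ 2 + x 2 ^ 2 - x 3 ^ 2 - x 4 ^ 2 - x 5 ^ 2 := by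
      simp only [stf, sg, Fin.sum_univ_six]
      simp
      ring
    have e4 : ∑ a, ![2 * w, 2 * w - 4 * w, 2 * w - 4 * w, -(2 * w), -(2 * w), -(2 * w) - 2] a * x a ^ 2
        = 2 * w * stf x - 4 * (w * (x 1 ^ 2 + x 2 ^ 2)) - 2 * x 5 ^ 2 := by
      rw [e3]
      simp only [Fin.sum_univ_six]
      simp
      ring
    have e5 : (![x 3, x 4, x 5] : Fin 3 → ℝ) 2 = x 5 := rfl
    rw [e4]
    rw [e5] at e2
    linarith
  rw [b7_pr_add, b7_pr_diag] at hpos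
  have e6 : ∑ a, sg a * sg a * P a a * ![2 * w, 2 * w - 4 * w, 2 * w - 4 * w, -(2 * w), -(2 * w), -(2 * w) - 2] a
      = 2 * w * (∑ a, sg a * P a a) - 4 * w * (P 1 1 + P 2 2) - 2 * P 5 5 := by
    simp only [Fin.sum_univ_six, sg]
    simp
    ring
  rw [e6] at hpos
  have e7 : TT 1 P (nA p be a2 a3) (nB q c2 c3) (nC p be a2 a3) = T0 P + pr P W' := by
    rw [hW']
    unfold TT
    ring
  rw [e7]
  linarith

end H79T
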