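import Pool.Agent.Lib.H79T.A1

/-!
# Chunk N1 (M)
`null_dec`: `x` with `stf x = 0`. `X = sk x` is skew with `pf X = 0`. If `x = 0` take `u = v = 0`. Otherwise some entry `X i j ≠ 0` (`i < j`).
Case `X 0 1 = a ≠ 0`: `u = (1, 0, -X 1 2 / a, -X 1 3 / a)`, `v = (0, a, X 0 2, X 0 3)`: `u vᵀ - v uᵀ = X` (the entry `2 3` is
`(X 0 2 * X 1 3 - X 0 3 * X 1 2) / a = X 2 3` by `pf X = 0`). The other five cases are similar (permute the indices:
`X i j ≠ 0`, `u = e_i + ..`). Then `sk (g6 u v / 2) = u vᵀ - v uᵀ` (`sk_g6`), and `sk` is injective (`x a = (1/4) ∑ X i j JJ a i j`):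
`x = g6 u v / 2 = g6 (u/2) v`.
-/

set_option autoImplicit false

open Matrix Finset

namespace H79T

open Pool.Agent.H69Hopf (Arr IsAlgCurv ev area2 idA)
open H30K (gb KB Cyc)
open H21C (Ty)

theorem n1_ent (x : Fin 6 → ℝ) : sk x 0 1 = -x 0 - x 3 ∧ sk x 0 2 = -x 1 - x 4 ∧ sk x 0 3 = -x 2 - x 5 ∧
    sk x 1 2 = -x 2 + x 5 ∧ sk x 1 3 = x 1 - x 4 ∧ sk x 2 3 = -x 0 + x 3 := by
  simp only [sk, Fin.sum_univ_succ, Fin.sum_univ_zero, Matrix.add_apply, Matrix.smul_apply, Matrix.zero_apply, smul_eq_mul, JJ, JL, JR]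
  refine ⟨?_, ?_, ?_, ?_, ?_, ?_⟩ <;> simp [Fin.succ] <;> ring

theorem sk_inj {x y : Fin 6 → ℝ} (h : sk x = sk y) : x = y := by
  obtain ⟨h1, h2, h3, h4, h5, h6⟩ := n1_ent x
  obtain ⟨k1, k2, k3, k4, k5, k6⟩ := n1_ent y
  rw [h] at h1 h2 h3 h4 h5 h6
  funext a
  fin_cases a <;> simp <;> linarith

theorem n1_dec (A B C D E F : ℝ) (h : A * F - B * E + C * D = 0) :
    ∃ u0 u1 u2 u3 v0 v1 v2 v3 : ℝ, u0 * v1 - u1 * v0 = A ∧ u0 * v2 - u2 * v0 = B ∧ u0 * v3 - u3 * v0 = C ∧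
      u1 * v2 - u2 * v1 = D ∧ u1 * v3 - u3 * v1 = E ∧ u2 * v3 - u3 * v2 = F := by
  by_cases hA : A = 0
  · by_cases hB : B = 0
    · by_cases hC : C = 0
      · subst hA hB hC
        by_cases hD : D = 0
        · by_cases hE : E = 0
          · exact ⟨0, 0, 1, 0, 0, 0, 0, F, by simp, by simp, by simp, by simp [hD], by simp [hE], by simp⟩
          · refine ⟨0, 1, F / E, 0, 0, 0, D, E, by simp, by simp, by simp, by simp, by simp, ?_⟩
            field_simp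
            simp
        · refine ⟨0, 1, 0, -F / D, 0, 0, D, E, by simp, by simp, by simp, by simp, by simp, ?_⟩
          field_simp
          simp
      · refine ⟨1, E / C, F / C, 0, 0, A, B, C, by simp, by simp, by simp, ?_, ?_, ?_⟩
        · field_simp
          linarith
        · field_simp
          simp
        · field_simp
          simp
    · refine ⟨1, D / B, 0, -F / B, 0, A, B, C, by simp, by simp, by simp, ?_, ?_, ?_⟩
      · field_simp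
        simp
      · field_simp
        linarith
      · field_simp
        simp
  · refine ⟨1, 0, -D / A, -E / A, 0, A, B, C, by simp, by simp, by simp, ?_, ?_, ?_⟩
    · field_simp
      simp
    · field_simp
      simp
    · field_simp
      linarith

theorem n1_g6 (u v : Fin 4 → ℝ) :
    g6 u v 0 = -(u 0 * v 1 - u 1 * v 0) - (u 2 * v 3 - u 3 * v 2) ∧
    g6 u v 1 = -(u 0 * v 2 - u 2 * v 0) + (u 1 * v 3 - u 3 * v 1) ∧
    g6 u v 2 = -(u 0 * v 3 - u 3 * v 0) - (u 1 * v 2 - u 2 * v 1) ∧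
    g6 u v 3 = -(u 0 * v 1 - u 1 * v 0) + (u 2 * v 3 - u 3 * v 2) ∧
    g6 u v 4 = -(u 0 * v 2 - u 2 * v 0) - (u 1 * v 3 - u 3 * v 1) ∧
    g6 u v 5 = -(u 0 * v 3 - u 3 * v 0) + (u 1 * v 2 - u 2 * v 1) := by
  simp only [g6, JJ, JL, JR, dotProduct, mulVec, Fin.sum_univ_four]
  refine ⟨?_, ?_, ?_, ?_, ?_, ?_⟩ <;> simp <;> ring

theorem null_dec (x : Fin 6 → ℝ) (hx : stf x = 0) : ∃ u v : Fin 4 → ℝ, x = g6 u v := by
  have h : (-x 0 - x 3) * (-x 0 + x 3) - (-x 1 - x 4) * (x 1 - x 4) + (-x 2 - x 5) * (-x 2 + x 5) = 0 := by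
    have e : stf x = x 0 ^ 2 + x 1 ^ 2 + x 2 ^ 2 - x 3 ^ 2 - x 4 ^ 2 - x 5 ^ 2 := by
      simp only [stf, sg, Fin.sum_univ_succ, Fin.sum_univ_zero]
      simp [Fin.succ]
      ring
    rw [hx] at e
    linarith
  obtain ⟨u0, u1, u2, u3, v0, v1, v2, v3, h1, h2, h3, h4, h5, h6⟩ := n1_dec _ _ _ _ _ _ h
  refine ⟨![u0 / 2, u1 / 2, u2 / 2, u3 / 2], ![v0, v1, v2, v3], ?_⟩
  obtain ⟨g0, g1, g2, g3, g4, g5⟩ := n1_g6 ![u0 / 2, u1 / 2, u2 / 2, u3 / 2] ![v0, v1, v2, v3]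
  simp at g0 g1 g2 g3 g4 g5
  funext a
  fin_cases a
  · show x 0 = g6 ![u0 / 2, u1 / 2, u2 / 2, u3 / 2] ![v0, v1, v2, v3] 0
    rw [g0]
    linarith
  · show x 1 = g6 ![u0 / 2, u1 / 2, u2 / 2, u3 / 2] ![v0, v1, v2, v3] 1
    rw [g1]
    linarith
  · show x 2 = g6 ![u0 / 2, u1 / 2, u2 / 2, u3 / 2] ![v0, v1, v2, v3] 2
    rw [g2]
    linarith
  · show x 3 = g6 ![u0 / 2, u1 / 2, u2 / 2, u3 / 2] ![v0, v1, v2, v3] 3
    rw [g3]
    linarith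
  · show x 4 = g6 ![u0 / 2, u1 / 2, u2 / 2, u3 / 2] ![v0, v1, v2, v3] 4
    rw [g4]
    linarith
  · show x 5 = g6 ![u0 / 2, u1 / 2, u2 / 2, u3 / 2] ![v0, v1, v2, v3] 5
    rw [g5]
    linarith

end H79T
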