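import Pool.Agent.Lib.H79T.Core
import Pool.Agent.Lib.H79T.N1

/-!
# Chunk G1 (S)
First consequences of the data. `dat_k`: `x = y = 0`, `c = 1`. `dat_null`: `c = 0` and `null_dec`. `dat_pos1`: `g6 (s • x) (t • x) = 0` (`JJ a` is skew), so
`c² MM + c⁴ k ≥ 0` for all `c`, divide by `c²` and let `c → 0` (if `MM < 0` choose `c² = -MM / (2 (k + 1))`). `dat_K`: `0 < k`, `MM < 0`: `c² = - MM / (2 k)`
(`c = sqrt ..`): `½ q6 - MM² / (4 k) ≥ 0`.
-/

set_option autoImplicit false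

open Matrix Finset

namespace H79T

open Pool.Agent.H69Hopf (Arr IsAlgCurv ev area2 idA)
open H30K (gb KB Cyc)
open H21C (Ty)

theorem G1_r {k : ℝ} {P : M6} {A B C : M4} (h : Dat k P A B C) (x y : Fin 4 → ℝ) {r : ℝ} (hr : 0 ≤ r) :
    0 ≤ (1 / 2) * q6 P (g6 x y) + r * MM A B C x y + r ^ 2 * k := by
  have h1 := h.K x y (Real.sqrt r)
  have h2 : Real.sqrt r ^ 2 = r := Real.sq_sqrt hr
  have h3 : Real.sqrt r ^ 4 = r ^ 2 := by
    calc Real.sqrt r ^ 4 = (Real.sqrt r ^ 2) ^ 2 := by ring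
      _ = r ^ 2 := by rw [h2]
  rw [h2, h3] at h1
  exact h1

theorem G1_q0 (P : M6) : q6 P 0 = 0 := by
  unfold q6
  rw [zero_dotProduct]

theorem G1_g0 (y : Fin 4 → ℝ) : g6 0 y = 0 := by
  funext a
  unfold g6
  rw [zero_dotProduct]
  rfl

theorem G1_sk (a : Fin 6) (x : Fin 4 → ℝ) : x ⬝ᵥ (JJ a *ᵥ x) = 0 := by
  fin_cases a <;>
    simp [JJ, JL, JR, dotProduct, mulVec, Fin.sum_univ_four] <;> ring

theorem G1_gs (x : Fin 4 → ℝ) (s t : ℝ) : g6 (s • x) (t • x) = 0 := by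
  funext a
  unfold g6
  rw [mulVec_smul, smul_dotProduct, dotProduct_smul, G1_sk, smul_zero, smul_zero]
  rfl

theorem dat_k {k : ℝ} {P : M6} {A B C : M4} (h : Dat k P A B C) : 0 ≤ k := by
  have h1 := h.K 0 0 1
  rw [G1_g0, G1_q0] at h1
  have h2 : MM A B C 0 0 = 0 := by
    unfold MM
    rw [zero_dotProduct, zero_dotProduct, zero_dotProduct]
    ring
  rw [h2] at h1
  linarith

theorem dat_null {k : ℝ} {P : M6} {A B C : M4} (h : Dat k P A B C) (x : Fin 6 → ℝ) (hx : stf x = 0) : 0 ≤ q6 P x := by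
  obtain ⟨u, v, rfl⟩ := null_dec x hx
  have h1 := G1_r h u v le_rfl
  linarith

theorem dat_pos1 {k : ℝ} {P : M6} {A B C : M4} (h : Dat k P A B C) : Pos1 A B C := by
  intro x s t
  by_contra hneg
  rw [not_le] at hneg
  set M := MM A B C (s • x) (t • x) with hM
  have hk := dat_k h
  have hk1 : 0 < 2 * (k + 1) := by linarith
  have hr : 0 < -M / (2 * (k + 1)) := div_pos (by linarith) hk1
  have h1 := G1_r h (s • x) (t • x) hr.le
  rw [G1_gs, G1_q0, ← hM] at h1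
  have h2 : -M / (2 * (k + 1)) * (2 * (k + 1)) = -M := div_mul_cancel₀ _ hk1.ne'
  set r := -M / (2 * (k + 1)) with hrdef
  have h3 : r * M + r ^ 2 * k = r * (M + r * k) := by ring
  have h4 : M + r * k < 0 := by nlinarith
  have h5 : r * (M + r * k) < 0 := mul_neg_of_pos_of_neg hr h4
  linarith

theorem dat_K {k : ℝ} (hk : 0 < k) {P : M6} {A B C : M4} (h : Dat k P A B C) (x y : Fin 4 → ℝ) (hM : MM A B C x y < 0) :
    MM A B C x y ^ 2 ≤ 2 * k * q6 P (g6 x y) := by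
  set M := MM A B C x y with hMd
  have hr : 0 ≤ -M / (2 * k) := (div_pos (by linarith) (by linarith)).le
  have h1 := G1_r h x y hr
  rw [← hMd] at h1
  have h2 : (1 / 2) * q6 P (g6 x y) + -M / (2 * k) * M + (-M / (2 * k)) ^ 2 * k =
      (2 * k * q6 P (g6 x y) - M ^ 2) / (4 * k) := by
    field_simp
    ring
  rw [h2] at h1
  have h3 : 0 < 4 * k := by linarith
  have h4 := (le_div_iff₀ h3).1 h1
  linarith

end H79T
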