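import Pool.Agent.Lib.H79T.B1
import Pool.Agent.Lib.H79T.B2
import Pool.Agent.Lib.H79T.B3
import Pool.Agent.Lib.H79T.B7
import Pool.Agent.Lib.H79T.G1

/-!
# Chunk B8 (M)
The core theorem (scaled). `dec` gives `m > 0` and the decomposition (`dat_pos1`). Set `P' = (k / m²) • P`. `MM (m•A) (m•B) (m•C) = m MM A B C`, `WW (m•A) (m•B) (m•C) = m² WW A B C`
(`WW` is homogeneous of degree 2). `Pos1 (nA ..) ..` from `Pos1 A B C` (divide by `m`); `WW (nA ..) (JL 0) (JJ b) = 0` from `NF.W0`; `w = - WW (nA ..) (JL 0) (JL 0) / 2 > 0` from `NF.ng`; so `Cr` by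
`core_eqs`, `r1_facts`. `KN P' ..`: `MM' = MM / m`, `MM'² = MM² / m² ≤ 2 k q6 P (g6) / m² = 2 q6 P' (g6)` (`dat_K`). `TT k P A B C = (m⁴ / k) * TT 1 P' (nA ..) (nB ..) (nC ..)`:
`T0 ((k/m²) • P) = (k/m²)² T0 P`, `pr (c • P) W = c pr P W`, `Wm (m•..) = m² Wm ..`: `(m⁴/k) (k²/m⁴ T0 P + (k/m²) pr P Wm') = k T0 P + m² pr P Wm'`.
-/

set_option autoImplicit false

open Matrix Finset

namespace H79T

open Pool.Agent.H69Hopf (Arr IsAlgCurv ev area2 idA)
open H30K (gb KB Cyc)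
open H21C (Ty)

theorem B8_MM (m : ℝ) (A B C : M4) (x y : Fin 4 → ℝ) :
    MM (m • A) (m • B) (m • C) x y = m * MM A B C x y := by
  unfold MM
  simp only [Matrix.smul_mulVec, dotProduct_smul, smul_eq_mul]
  ring

theorem B8_WW (m : ℝ) (A B C X Y : M4) :
    WW (m • A) (m • B) (m • C) X Y = m ^ 2 * WW A B C X Y := by
  unfold WW
  simp only [Matrix.smul_mul, Matrix.mul_smul, Matrix.trace_smul, smul_eq_mul]
  ring

theorem B8_Wm (m : ℝ) (A B C : M4) :
    Wm (m • A) (m • B) (m • C) = m ^ 2 • Wm A B C := by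
  ext a b
  simp only [Wm, Matrix.of_apply, Matrix.smul_apply, smul_eq_mul]
  exact B8_WW m A B C _ _

theorem B8_T0 (c : ℝ) (P : M6) : T0 (c • P) = c ^ 2 * T0 P := by
  unfold T0
  simp only [Matrix.smul_apply, smul_eq_mul]
  have h1 : ∑ a, ∑ b, sg a * sg b * (c * P a b) ^ 2 = c ^ 2 * ∑ a, ∑ b, sg a * sg b * P a b ^ 2 := by
    simp only [Finset.mul_sum]
    refine Finset.sum_congr rfl fun a _ => Finset.sum_congr rfl fun b _ => ?_
    ring
  have h2 : ∑ a, sg a * (c * P a a) = c * ∑ a, sg a * P a a := by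
    simp only [Finset.mul_sum]
    refine Finset.sum_congr rfl fun a _ => ?_
    ring
  rw [h1, h2]
  ring

theorem B8_pr (c d : ℝ) (P W : M6) : pr (c • P) (d • W) = c * d * pr P W := by
  unfold pr
  simp only [Matrix.smul_apply, smul_eq_mul, Finset.mul_sum]
  refine Finset.sum_congr rfl fun a _ => Finset.sum_congr rfl fun b _ => ?_
  ring

theorem B8_q6 (c : ℝ) (P : M6) (x : Fin 6 → ℝ) : q6 (c • P) x = c * q6 P x := by
  unfold q6
  simp only [Matrix.smul_mulVec, dotProduct_smul, smul_eq_mul]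

theorem core_scaled {k : ℝ} (hk : 0 < k) {P : M6} {A B C : M4} (hN : NF A B C) (hD : Dat k P A B C) (hP : Ps P) : 0 ≤ TT k P A B C := by
  obtain ⟨m, p, q, be, a2, a3, c2, c3, hm, hq, hqp, rfl, rfl, rfl⟩ := dec hN (dat_pos1 hD)
  have hm2 : 0 < m ^ 2 := by positivity
  set A := nA p be a2 a3 with hA
  set B := nB q c2 c3 with hB
  set C := nC p be a2 a3 with hC
  have hpos : Pos1 A B C := by
    intro x s t
    have h := dat_pos1 hD x s t
    rw [B8_MM] at h
    exact nonneg_of_mul_nonneg_right h hm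
  have hW0 : ∀ b : Fin 6, b ≠ 0 → WW A B C (JL 0) (JJ b) = 0 := by
    intro b hb
    have h := hN.W0 b hb
    rw [B8_WW] at h
    rcases mul_eq_zero.mp h with h1 | h1
    · exact absurd h1 hm2.ne'
    · exact h1
  have hng : WW A B C (JL 0) (JL 0) < 0 := by
    have h := hN.ng
    rw [B8_WW] at h
    by_contra hcon
    have := mul_nonneg hm2.le (not_lt.mp hcon)
    linarith
  obtain ⟨e0, e1, e2, e3⟩ := core_eqs hW0
  obtain ⟨f1, f2, f3, f4⟩ := r1_facts hpos
  have hCr : Cr p q (- WW A B C (JL 0) (JL 0) / 2) be a2 a3 c2 c3 :=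
    { q0 := hq, qp := hqp, w0 := by linarith, hbe := e0, e1 := e1, e2 := e2, sz := e3,
      b1 := f1, b2 := f2, h1 := f3, h2 := f4 }
  have hc : 0 ≤ k / m ^ 2 := by positivity
  have hPs : Ps ((k / m ^ 2) • P) := by
    refine ⟨?_, fun x => ?_⟩
    · rw [Matrix.transpose_smul, hP.1]
    · rw [B8_q6]
      exact mul_nonneg hc (hP.2 x)
  have hKN : KN ((k / m ^ 2) • P) A B C := by
    intro x y hxy
    have h := dat_K hk hD x y (by rw [B8_MM]; exact mul_neg_of_pos_of_neg hm hxy)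
    rw [B8_MM] at h
    rw [B8_q6]
    have h3 : 2 * (k / m ^ 2 * q6 P (g6 x y)) = (2 * k * q6 P (g6 x y)) / m ^ 2 := by
      field_simp
    rw [h3, le_div_iff₀ hm2]
    calc MM A B C x y ^ 2 * m ^ 2 = (m * MM A B C x y) ^ 2 := by ring
      _ ≤ 2 * k * q6 P (g6 x y) := h
  have hmain := core_norm hCr hPs hKN
  have h1 : TT k P (m • A) (m • B) (m • C) = (m ^ 4 / k) * TT 1 ((k / m ^ 2) • P) A B C := by
    unfold TT
    rw [B8_Wm, B8_T0]
    have h2 : pr P (m ^ 2 • Wm A B C) = m ^ 2 * pr P (Wm A B C) := by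
      have h := B8_pr 1 (m ^ 2) P (Wm A B C)
      rw [one_smul, one_mul] at h
      exact h
    have h3 : pr ((k / m ^ 2) • P) (Wm A B C) = (k / m ^ 2) * pr P (Wm A B C) := by
      have h := B8_pr (k / m ^ 2) 1 P (Wm A B C)
      rw [one_smul, mul_one] at h
      exact h
    rw [h2, h3]
    field_simp
  rw [h1]
  have h4 : 0 ≤ m ^ 4 / k := by positivity
  exact mul_nonneg h4 hmain

end H79T
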