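import Pool.Agent.Lib.H79T.Defs

/-!
# Chunk Core (definitions, do not edit)
Definitions for the second half: the normalised normal form, the core data, the abstract data.
-/

set_option autoImplicit false

open Matrix Finset

namespace H79T

open Pool.Agent.H69Hopf (Arr IsAlgCurv ev area2 idA)
open H30K (gb KB Cyc)
open H21C (Ty)

def dot3 (u v : Fin 3 → ℝ) : ℝ := ∑ i, u i * v i
def crs (u v : Fin 3 → ℝ) : Fin 3 → ℝ := ![u 1 * v 2 - u 2 * v 1, u 2 * v 0 - u 0 * v 2, u 0 * v 1 - u 1 * v 0]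

/-- the normalised triple -/
def nA (p : ℝ) (be a2 a3 : Fin 3 → ℝ) : M4 := (1 : ℝ) • (1 : M4) + JB (N0 be) + JB (N1 p a2 a3)
def nB (q : ℝ) (c2 c3 : Fin 3 → ℝ) : M4 := JB (N2 q c2 c3)
def nC (p : ℝ) (be a2 a3 : Fin 3 → ℝ) : M4 := (1 : ℝ) • (1 : M4) + JB (N0 be) - JB (N1 p a2 a3)

/-- the core data -/
structure Cr (p q w : ℝ) (be a2 a3 c2 c3 : Fin 3 → ℝ) : Prop where
  q0 : 0 ≤ q
  qp : q ≤ p
  w0 : 0 < w
  hbe : be = crs a2 a3 + crs c2 c3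
  e1 : p * a2 0 + q * c2 1 = 0
  e2 : p * a3 0 + q * c3 1 = 0
  sz : p ^ 2 + q ^ 2 = 1 + w + dot3 be be + (dot3 a2 a2 + dot3 a3 a3 + dot3 c2 c2 + dot3 c3 c3)
  b1 : 0 ≤ 1 - p - be 0
  b2 : 0 ≤ 1 - p + be 0
  h1 : (a2 1 + a3 2) ^ 2 + (a2 2 - a3 1) ^ 2 ≤ (1 - p - be 0) ^ 2
  h2 : (a2 1 - a3 2) ^ 2 + (a2 2 + a3 1) ^ 2 ≤ (1 - p + be 0) ^ 2

/-- the curvature inequality, normalised -/
def KN (P : M6) (A B C : M4) : Prop := ∀ x y : Fin 4 → ℝ, MM A B C x y < 0 → MM A B C x y ^ 2 ≤ 2 * q6 P (g6 x y)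

/-- a positive semidefinite `6 x 6` matrix -/
def Ps (P : M6) : Prop := Pᵀ = P ∧ ∀ x, 0 ≤ q6 P x

/-- the abstract curvature data -/
structure Dat (k : ℝ) (P : M6) (A B C : M4) : Prop where
  sP : Pᵀ = P
  sA : Aᵀ = A
  sB : Bᵀ = B
  sC : Cᵀ = C
  K : ∀ (x y : Fin 4 → ℝ) (c : ℝ), 0 ≤ (1 / 2) * q6 P (g6 x y) + c ^ 2 * MM A B C x y + c ^ 4 * k

end H79T
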