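import Pool.Agent.Lib.H21C.T33B

/-!
# H79T: curvature tensors of type (4,2) in dimension six (MP_5a30bb_gt). Definitions

`R^6 = R^4 + R^2`; `JJ a` (`a < 3`: left, `a >= 3`: right quaternion multiplications) is a basis of the skew
`4 x 4` matrices, `sg` the signature of the wedge product. The mixed part of the curvature tensor is the
quadratic form `MM A B C (x, y) = x A x + 2 x B y + y C y` (`A, B, C` symmetric). See PROOF.md.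
-/

set_option autoImplicit false

open Matrix Finset

namespace H79T

open Pool.Agent.H69Hopf (Arr IsAlgCurv ev area2 idA)
open H30K (gb KB Cyc)
open H21C (Ty)

abbrev M2 := Matrix (Fin 2) (Fin 2) ℝ
abbrev M3 := Matrix (Fin 3) (Fin 3) ℝ
abbrev M4 := Matrix (Fin 4) (Fin 4) ℝ
abbrev M6 := Matrix (Fin 6) (Fin 6) ℝ

/-- left multiplications by `i, j, k` -/
def JL : Fin 3 → M4 :=
  ![!![0, -1, 0, 0; 1, 0, 0, 0; 0, 0, 0, -1; 0, 0, 1, 0],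
    !![0, 0, -1, 0; 0, 0, 0, 1; 1, 0, 0, 0; 0, -1, 0, 0],
    !![0, 0, 0, -1; 0, 0, -1, 0; 0, 1, 0, 0; 1, 0, 0, 0]]

/-- right multiplications by `i, j, k` -/
def JR : Fin 3 → M4 :=
  ![!![0, -1, 0, 0; 1, 0, 0, 0; 0, 0, 0, 1; 0, 0, -1, 0],
    !![0, 0, -1, 0; 0, 0, 0, -1; 1, 0, 0, 0; 0, 1, 0, 0],
    !![0, 0, 0, -1; 0, 0, 1, 0; 0, -1, 0, 0; 1, 0, 0, 0]]

/-- the basis of the skew matrices -/
def JJ : Fin 6 → M4 := ![JL 0, JL 1, JL 2, JR 0, JR 1, JR 2]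

/-- the signs -/
def sg : Fin 6 → ℝ := ![1, 1, 1, -1, -1, -1]

/-- the skew matrix with coordinates `x` -/
def sk (x : Fin 6 → ℝ) : M4 := ∑ a, x a • JJ a

/-- the wedge square in coordinates -/
def stf (x : Fin 6 → ℝ) : ℝ := ∑ a, sg a * x a ^ 2

/-- the Pfaffian -/
def pf (X : M4) : ℝ := X 0 1 * X 2 3 - X 0 2 * X 1 3 + X 0 3 * X 1 2

/-- the coordinates of `x ∧ y` (twice) -/
def g6 (x y : Fin 4 → ℝ) : Fin 6 → ℝ := fun a => x ⬝ᵥ (JJ a *ᵥ y)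

/-- the quadratic form of a `6 x 6` matrix -/
def q6 (P : M6) (x : Fin 6 → ℝ) : ℝ := x ⬝ᵥ (P *ᵥ x)

/-- the mixed part -/
def MM (A B C : M4) (x y : Fin 4 → ℝ) : ℝ := x ⬝ᵥ (A *ᵥ x) + 2 * (x ⬝ᵥ (B *ᵥ y)) + y ⬝ᵥ (C *ᵥ y)

/-- the form `W` on skew matrices -/
noncomputable def WW (A B C X Y : M4) : ℝ :=
  (1 / 2) * ((B * X * B * Y).trace - (1 / 2) * ((A * X * C * Y).trace + (C * X * A * Y).trace))

/-- the matrix of `W` in the basis `JJ` -/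
noncomputable def Wm (A B C : M4) : M6 := Matrix.of fun a b => WW A B C (JJ a) (JJ b)

/-- the four-dimensional part -/
noncomputable def T0 (P : M6) : ℝ :=
  (1 / 2) * (∑ a, ∑ b, sg a * sg b * P a b ^ 2 - (1 / 6) * (∑ a, sg a * P a a) ^ 2)

/-- the pairing of `P` with `* W *` -/
noncomputable def pr (P W : M6) : ℝ := ∑ a, ∑ b, sg a * sg b * P a b * W a b

/-- the Gauss-Bonnet integrand (divided by 384) -/
noncomputable def TT (k : ℝ) (P : M6) (A B C : M4) : ℝ := k * T0 P + pr P (Wm A B C)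

/-- index in the first block -/
def i4 (i : Fin 4) : Fin 6 := Fin.castLE (by decide) i

/-- the blocks of a curvature tensor -/
def RA (R : Arr 6) : M4 := Matrix.of fun i j => R (i4 i) 4 (i4 j) 4
def RB (R : Arr 6) : M4 := Matrix.of fun i j => R (i4 i) 4 (i4 j) 5
def RC (R : Arr 6) : M4 := Matrix.of fun i j => R (i4 i) 5 (i4 j) 5
noncomputable def RP (R : Arr 6) : M6 := Matrix.of fun a b =>
  (1 / 8) * ∑ i, ∑ j, ∑ l, ∑ m, R (i4 i) (i4 j) (i4 l) (i4 m) * JJ a i j * JJ b l m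

/-- the classes -/
def s42 : Fin 6 → Bool := fun i => decide (i.1 < 4)

/-- change of basis -/
def aA (S : M4) (m : M2) (A B C : M4) : M4 :=
  Sᵀ * (m 0 0 ^ 2 • A + (2 * m 0 0 * m 1 0) • B + m 1 0 ^ 2 • C) * S
def aB (S : M4) (m : M2) (A B C : M4) : M4 :=
  Sᵀ * ((m 0 0 * m 0 1) • A + (m 0 0 * m 1 1 + m 0 1 * m 1 0) • B + (m 1 0 * m 1 1) • C) * S
def aC (S : M4) (m : M2) (A B C : M4) : M4 :=
  Sᵀ * (m 0 1 ^ 2 • A + (2 * m 0 1 * m 1 1) • B + m 1 1 ^ 2 • C) * S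

/-- the functional which is minimised -/
def ff (A _B C : M4) : ℝ := (A + C).trace

/-- the first rows (times 8, 4) -/
noncomputable def r1 (A C : M4) (b : Fin 3) : ℝ := ((A - C) * (JL 0 * JR b)).trace / 8
noncomputable def r2 (B : M4) (b : Fin 3) : ℝ := (B * (JL 0 * JR b)).trace / 4

/-- the functional which is maximised on the set of minimisers -/
noncomputable def ph (A B C : M4) : ℝ := 2 * r1 A C 0 + r2 B 1

/-- optimality under the stabiliser of `JL 0` and `SL 2` -/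
structure Opt (A B C : M4) : Prop where
  mn : ∀ (S : M4) (m : M2), S * JL 0 * Sᵀ = JL 0 → m.det = 1 → ff A B C ≤ ff (aA S m A B C) (aB S m A B C) (aC S m A B C)
  mx : ∀ (S : M4) (m : M2), S * JL 0 * Sᵀ = JL 0 → m.det = 1 →
    ff (aA S m A B C) (aB S m A B C) (aC S m A B C) = ff A B C → ph (aA S m A B C) (aB S m A B C) (aC S m A B C) ≤ ph A B C

/-- `J(B) = ∑ B a b JL a JR b` -/
def JB (B : M3) : M4 := ∑ a, ∑ b, B a b • (JL a * JR b)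

/-- rank one positivity -/
def Pos1 (A B C : M4) : Prop := ∀ (x : Fin 4 → ℝ) (s t : ℝ), 0 ≤ MM A B C (s • x) (t • x)

/-- strict rank one positivity -/
def Pos1s (d : ℝ) (A B C : M4) : Prop := ∀ (x : Fin 4 → ℝ) (s t : ℝ), d * ((x ⬝ᵥ x) * (s ^ 2 + t ^ 2)) ≤ MM A B C (s • x) (t • x)

/-- normal form -/
structure NF (A B C : M4) : Prop where
  sA : Aᵀ = A
  sB : Bᵀ = B
  sC : Cᵀ = C
  tr : A.trace = C.trace
  tB : B.trace = 0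
  off : ∀ (a b : Fin 3), a ≠ 0 → ((A + C) * (JL a * JR b)).trace = 0
  W0 : ∀ b : Fin 6, b ≠ 0 → WW A B C (JL 0) (JJ b) = 0
  ng : WW A B C (JL 0) (JL 0) < 0
  h1 : r1 A C 1 = 0
  h2 : r1 A C 2 = 0
  h3 : r2 B 0 = 0
  h4 : r2 B 2 = 0
  h5 : 0 ≤ r2 B 1
  h6 : r2 B 1 ≤ r1 A C 0

/-- the cofactor rows -/
def cof (B : M3) : M3 := Matrix.of
  ![![B 1 1 * B 2 2 - B 1 2 * B 2 1, B 1 2 * B 2 0 - B 1 0 * B 2 2, B 1 0 * B 2 1 - B 1 1 * B 2 0],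
    ![B 2 1 * B 0 2 - B 2 2 * B 0 1, B 2 2 * B 0 0 - B 2 0 * B 0 2, B 2 0 * B 0 1 - B 2 1 * B 0 0],
    ![B 0 1 * B 1 2 - B 0 2 * B 1 1, B 0 2 * B 1 0 - B 0 0 * B 1 2, B 0 0 * B 1 1 - B 0 1 * B 1 0]]

/-- the squared norm of a `3 x 3` matrix -/
def nn (B : M3) : ℝ := ∑ a, ∑ b, B a b ^ 2

/-- the form `W` for `A = μ + J(B0) + J(B1)`, `C = μ + J(B0) - J(B1)`, `B = J(B2)` -/
def Wpp (μ : ℝ) (B0 B1 B2 : M3) : M3 :=
  (2 * (μ ^ 2 - nn B0 + nn B1 + nn B2)) • (1 : M3) + (4 : ℝ) • (B0 * B0ᵀ) - (4 : ℝ) • (B1 * B1ᵀ + B2 * B2ᵀ)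
def Wmm (μ : ℝ) (B0 B1 B2 : M3) : M3 :=
  (2 * (μ ^ 2 - nn B0 + nn B1 + nn B2)) • (1 : M3) + (4 : ℝ) • (B0ᵀ * B0) - (4 : ℝ) • (B1ᵀ * B1 + B2ᵀ * B2)
def Wpm (μ : ℝ) (B0 B1 B2 : M3) : M3 :=
  (-4 * μ) • B0 + (4 : ℝ) • (cof B1 + cof B2 - cof B0)

/-- the normal form data: `B0 = (be; 0; 0)`, `B1 = ((p,0,0); a)`, `B2 = ((0,q,0); c)` -/
def N0 (be : Fin 3 → ℝ) : M3 := !![be 0, be 1, be 2; 0, 0, 0; 0, 0, 0]
def N1 (p : ℝ) (a2 a3 : Fin 3 → ℝ) : M3 := !![p, 0, 0; a2 0, a2 1, a2 2; a3 0, a3 1, a3 2]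
def N2 (q : ℝ) (c2 c3 : Fin 3 → ℝ) : M3 := !![0, q, 0; c2 0, c2 1, c2 2; c3 0, c3 1, c3 2]

end H79T
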