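import Pool.Agent.Lib.H79T.Core
import Pool.Agent.Lib.H79T.G1

/-!
# Chunk G2 (S)
Perturbation. `q6 (P + e • 1) z = q6 P z + e * |z|²`, `MM (A + e) B (C + e) x y = MM A B C x y + e (|x|² + |y|²)`. `dat_eps` is then immediate (all added terms are nonnegative);
`eps_pos1s`: `dat_pos1` and `x = s • z, y = t • z`. `eps_lim`: `e ↦ TT (k + e) (P + e • 1) (A + e • 1) B (C + e • 1)` is continuous (unfold `TT, T0, pr, Wm, WW`; `fun_prop`/`continuity`, or
`Continuous` of finite sums of products; `Matrix.trace`, `Matrix.mul` are continuous: `Continuous.matrix_mul`, `Continuous.matrix_trace`), so nonnegativity for `e > 0` gives it at `e = 0`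
(`ge_of_tendsto` / `ContinuousWithinAt.closure_le`).
-/

set_option autoImplicit false

open Matrix Finset

namespace H79T

open Pool.Agent.H69Hopf (Arr IsAlgCurv ev area2 idA)
open H30K (gb KB Cyc)
open H21C (Ty)

private theorem g2_q6 (P : M6) (e : ℝ) (x : Fin 6 → ℝ) :
    q6 (P + e • 1) x = q6 P x + e * (x ⬝ᵥ x) := by
  simp only [q6, Matrix.add_mulVec, Matrix.smul_mulVec, Matrix.one_mulVec, dotProduct_add,
    dotProduct_smul, smul_eq_mul]

private theorem g2_MM (A B C : M4) (e : ℝ) (x y : Fin 4 → ℝ) :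
    MM (A + e • 1) B (C + e • 1) x y = MM A B C x y + e * (x ⬝ᵥ x + y ⬝ᵥ y) := by
  simp only [MM, Matrix.add_mulVec, Matrix.smul_mulVec, Matrix.one_mulVec, dotProduct_add,
    dotProduct_smul, smul_eq_mul]
  ring

private theorem g2_nn {n : ℕ} (x : Fin n → ℝ) : 0 ≤ x ⬝ᵥ x := by
  simp only [dotProduct]
  exact Finset.sum_nonneg fun i _ => mul_self_nonneg _

theorem dat_eps {k : ℝ} {P : M6} {A B C : M4} (h : Dat k P A B C) {e : ℝ} (he : 0 < e) :
    Dat (k + e) (P + e • 1) (A + e • 1) B (C + e • 1) := by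
  refine ⟨?_, ?_, h.sB, ?_, ?_⟩
  · rw [Matrix.transpose_add, h.sP, Matrix.transpose_smul, Matrix.transpose_one]
  · rw [Matrix.transpose_add, h.sA, Matrix.transpose_smul, Matrix.transpose_one]
  · rw [Matrix.transpose_add, h.sC, Matrix.transpose_smul, Matrix.transpose_one]
  · intro x y c
    rw [g2_q6, g2_MM]
    have h1 := h.K x y c
    have h2 : 0 ≤ e * (g6 x y ⬝ᵥ g6 x y) := mul_nonneg he.le (g2_nn _)
    have h3 : 0 ≤ c ^ 2 * (e * (x ⬝ᵥ x + y ⬝ᵥ y)) :=
      mul_nonneg (sq_nonneg c) (mul_nonneg he.le (add_nonneg (g2_nn x) (g2_nn y)))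
    have h4 : 0 ≤ c ^ 4 * e := mul_nonneg (by positivity) he.le
    nlinarith [h1, h2, h3, h4]

theorem eps_pos1s {k : ℝ} {P : M6} {A B C : M4} (h : Dat k P A B C) {e : ℝ} (he : 0 < e) : Pos1s e (A + e • 1) B (C + e • 1) := by
  intro x s t
  have h1 := dat_pos1 h x s t
  rw [g2_MM]
  have h2 : (s • x) ⬝ᵥ (s • x) = s ^ 2 * (x ⬝ᵥ x) := by
    simp only [dotProduct_smul, smul_dotProduct, smul_eq_mul]; ring
  have h3 : (t • x) ⬝ᵥ (t • x) = t ^ 2 * (x ⬝ᵥ x) := by
    simp only [dotProduct_smul, smul_dotProduct, smul_eq_mul]; ring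
  rw [h2, h3]
  nlinarith [h1]

private theorem g2_cont (k : ℝ) (P : M6) (A B C : M4) :
    Continuous fun e : ℝ => TT (k + e) (P + e • 1) (A + e • 1) B (C + e • 1) := by
  have hP : Continuous fun e : ℝ => P + e • (1 : M6) := by fun_prop
  have hPab : ∀ a b, Continuous fun e : ℝ => (P + e • (1 : M6)) a b := fun a b =>
    (continuous_apply_apply a b).comp hP
  have hW : ∀ a b, Continuous fun e : ℝ => Wm (A + e • 1) B (C + e • 1) a b := by
    intro a b
    simp only [Wm, Matrix.of_apply, WW]
    have hA : Continuous fun e : ℝ => A + e • (1 : M4) := by fun_prop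
    have hC : Continuous fun e : ℝ => C + e • (1 : M4) := by fun_prop
    have h1 : Continuous fun e : ℝ =>
        ((A + e • (1 : M4)) * JJ a * (C + e • (1 : M4)) * JJ b).trace :=
      (((hA.matrix_mul continuous_const).matrix_mul hC).matrix_mul continuous_const).matrix_trace
    have h2 : Continuous fun e : ℝ =>
        ((C + e • (1 : M4)) * JJ a * (A + e • (1 : M4)) * JJ b).trace :=
      (((hC.matrix_mul continuous_const).matrix_mul hA).matrix_mul continuous_const).matrix_trace
    exact continuous_const.mul (continuous_const.sub (continuous_const.mul (h1.add h2)))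
  have h0 : Continuous fun e : ℝ => T0 (P + e • (1 : M6)) := by
    simp only [T0]
    refine continuous_const.mul (Continuous.sub ?_ (continuous_const.mul (Continuous.pow ?_ 2)))
    · refine continuous_finsetSum _ fun a _ => continuous_finsetSum _ fun b _ => ?_
      exact continuous_const.mul ((hPab a b).pow 2)
    · refine continuous_finsetSum _ fun a _ => ?_
      exact continuous_const.mul (hPab a a)
  have h1 : Continuous fun e : ℝ => pr (P + e • (1 : M6)) (Wm (A + e • 1) B (C + e • 1)) := by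
    simp only [pr]
    refine continuous_finsetSum _ fun a _ => continuous_finsetSum _ fun b _ => ?_
    exact (continuous_const.mul (hPab a b)).mul (hW a b)
  simp only [TT]
  exact ((continuous_const.add continuous_id).mul h0).add h1

theorem eps_lim {k : ℝ} {P : M6} {A B C : M4} (h : ∀ e : ℝ, 0 < e → 0 ≤ TT (k + e) (P + e • 1) (A + e • 1) B (C + e • 1)) :
    0 ≤ TT k P A B C := by
  have hc := (g2_cont k P A B C).tendsto 0
  have h0 : TT (k + 0) (P + (0 : ℝ) • 1) (A + (0 : ℝ) • 1) B (C + (0 : ℝ) • 1) = TT k P A B C := by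
    simp only [zero_smul, add_zero]
  rw [h0] at hc
  have hw : Filter.Tendsto (fun e : ℝ => TT (k + e) (P + e • 1) (A + e • 1) B (C + e • 1))
      (nhdsWithin 0 (Set.Ioi 0)) (nhds (TT k P A B C)) := hc.mono_left nhdsWithin_le_nhds
  refine ge_of_tendsto hw ?_
  filter_upwards [self_mem_nhdsWithin] with e he
  exact h e he

end H79T
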