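import Pool.Agent.Lib.H79T.Core
import Pool.Agent.Lib.H79T.A1
import Pool.Agent.Lib.H79T.A3
import Pool.Agent.Lib.H79T.N1

/-!
# Chunk G3 (M)
The action of `g` on the coordinates. `exL`: `L a b` = the `a`-th coordinate of `g * JJ b * gᵀ` (`g * JJ b * gᵀ` is skew, `skew_sk`; or explicitly `(1/4) ∑ i j, (g * JJ b * gᵀ) i j * JJ a i j`);
`sk` is linear. `stf_L`: `pf_sk`, `pf_conj`, `sk_skew`. `LSL`: polarisation of `stf_L`: `stf x = q6 (diagonal sg) x`, two symmetric matrices with the same quadratic form are equal: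
`Lᵀ * diagonal sg * L = g.det • diagonal sg`. `LSL'`: multiply: with `S = diagonal sg`, `S * S = 1`, `d = g.det`, `d² = 1`: `(d • S * Lᵀ * S) * L = 1`, so `L * (d • S Lᵀ S) = 1`
(`Matrix.mul_eq_one_comm`), i.e. `L * S * Lᵀ = d • S`. `L_g6`: `sk (g6 u v / 2) = u vᵀ - v uᵀ` (`sk_g6`), `g (u vᵀ - v uᵀ) gᵀ = (gu)(gv)ᵀ - (gv)(gu)ᵀ`, injectivity `sk_inj`.
-/

set_option autoImplicit false

open Matrix Finset

namespace H79T

open Pool.Agent.H69Hopf (Arr IsAlgCurv ev area2 idA)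
open H30K (gb KB Cyc)
open H21C (Ty)

theorem g3_sk_single (b : Fin 6) : sk (Pi.single b 1) = JJ b := by
  rw [sk, Finset.sum_eq_single b]
  · simp
  · intro a _ h; simp [h]
  · simp

theorem g3_JJ_skew (b : Fin 6) : (JJ b)ᵀ = -JJ b := by
  rw [← g3_sk_single, sk_skew]

theorem g3_conj_skew (g X : M4) (hX : Xᵀ = -X) : (g * X * gᵀ)ᵀ = -(g * X * gᵀ) := by
  rw [Matrix.transpose_mul, Matrix.transpose_mul, Matrix.transpose_transpose, hX]
  simp [Matrix.mul_assoc]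

theorem exL (g : M4) : ∃ L : M6, ∀ x, sk (L *ᵥ x) = g * sk x * gᵀ := by
  have h : ∀ b, ∃ y : Fin 6 → ℝ, sk y = g * JJ b * gᵀ := fun b =>
    skew_sk _ (g3_conj_skew g _ (g3_JJ_skew b))
  choose y hy using h
  refine ⟨Matrix.of fun a b => y b a, fun x => ?_⟩
  have h1 : sk ((Matrix.of fun a b => y b a) *ᵥ x) = ∑ b, x b • sk (y b) := by
    simp only [sk, Matrix.mulVec, dotProduct, Matrix.of_apply, Finset.sum_smul, Finset.smul_sum, smul_smul]
    rw [Finset.sum_comm]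
    exact Finset.sum_congr rfl fun b _ => Finset.sum_congr rfl fun a _ => by rw [mul_comm]
  rw [h1]
  simp only [hy]
  rw [sk, Finset.mul_sum, Finset.sum_mul]
  exact Finset.sum_congr rfl fun b _ => by rw [Matrix.mul_smul, Matrix.smul_mul]

theorem stf_L {g : M4} {L : M6} (hL : ∀ x, sk (L *ᵥ x) = g * sk x * gᵀ) (x : Fin 6 → ℝ) : stf (L *ᵥ x) = g.det * stf x := by
  rw [← pf_sk, hL, pf_conj g _ (sk_skew x), pf_sk]

theorem g3_stf (x : Fin 6 → ℝ) : stf x = x ⬝ᵥ (Matrix.diagonal sg *ᵥ x) := by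
  rw [stf, dotProduct]
  refine Finset.sum_congr rfl fun a _ => ?_
  rw [Matrix.mulVec_diagonal]
  ring

theorem g3_zero {M : M6} (hM : Mᵀ = M) (h : ∀ x : Fin 6 → ℝ, x ⬝ᵥ (M *ᵥ x) = 0) : M = 0 := by
  have hb : ∀ x y : Fin 6 → ℝ, x ⬝ᵥ (M *ᵥ y) = 0 := by
    intro x y
    have h1 := h (x + y)
    rw [Matrix.mulVec_add, dotProduct_add, add_dotProduct, add_dotProduct, h x, h y] at h1
    have h2 : y ⬝ᵥ (M *ᵥ x) = x ⬝ᵥ (M *ᵥ y) := by
      rw [dotProduct_comm, Matrix.dotProduct_mulVec, ← Matrix.mulVec_transpose, hM, dotProduct_comm]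
    rw [h2] at h1
    linarith
  ext i j
  have := hb (Pi.single i 1) (Pi.single j 1)
  simpa using this

theorem LSL {g : M4} {L : M6} (hL : ∀ x, sk (L *ᵥ x) = g * sk x * gᵀ) :
    Lᵀ * Matrix.diagonal sg * L = g.det • Matrix.diagonal sg := by
  rw [← sub_eq_zero]
  apply g3_zero
  · rw [Matrix.transpose_sub, Matrix.transpose_mul, Matrix.transpose_mul, Matrix.transpose_transpose,
      Matrix.transpose_smul, Matrix.diagonal_transpose, Matrix.mul_assoc]
  · intro x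
    have h := stf_L hL x
    rw [g3_stf, g3_stf] at h
    rw [Matrix.sub_mulVec, dotProduct_sub, Matrix.smul_mulVec, dotProduct_smul, smul_eq_mul, ← h, sub_eq_zero,
      ← Matrix.mulVec_mulVec, ← Matrix.mulVec_mulVec, Matrix.dotProduct_mulVec x Lᵀ, Matrix.vecMul_transpose]

theorem g3_S2 : Matrix.diagonal sg * Matrix.diagonal sg = (1 : M6) := by
  rw [Matrix.diagonal_mul_diagonal, ← Matrix.diagonal_one]
  congr 1
  ext a
  fin_cases a <;> simp [sg]

theorem LSL' {g : M4} {L : M6} (hL : ∀ x, sk (L *ᵥ x) = g * sk x * gᵀ) (hd : g.det ^ 2 = 1) :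
    L * Matrix.diagonal sg * Lᵀ = g.det • Matrix.diagonal sg := by
  have h := LSL hL
  set S : M6 := Matrix.diagonal sg with hS
  have hSS : S * S = 1 := g3_S2
  have h1 : (g.det • (S * Lᵀ * S)) * L = 1 := by
    rw [Matrix.smul_mul, Matrix.mul_assoc (S * Lᵀ), Matrix.mul_assoc S, ← Matrix.mul_assoc Lᵀ, h,
      Matrix.mul_smul, smul_smul, hSS, ← sq, hd, one_smul]
  have h2 : L * (g.det • (S * Lᵀ * S)) = 1 := mul_eq_one_comm.mp h1
  have h3 : g.det • (L * S * Lᵀ) = S := by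
    calc g.det • (L * S * Lᵀ) = g.det • (L * S * Lᵀ * (S * S)) := by rw [hSS, Matrix.mul_one]
      _ = (L * (g.det • (S * Lᵀ * S))) * S := by
          rw [Matrix.mul_smul, Matrix.smul_mul]
          simp only [Matrix.mul_assoc]
      _ = S := by rw [h2, Matrix.one_mul]
  calc L * S * Lᵀ = (g.det * g.det) • (L * S * Lᵀ) := by rw [← sq, hd, one_smul]
    _ = g.det • S := by rw [← smul_smul, h3]

theorem L_g6 {g : M4} {L : M6} (hL : ∀ x, sk (L *ᵥ x) = g * sk x * gᵀ) (x y : Fin 4 → ℝ) : L *ᵥ g6 x y = g6 (g *ᵥ x) (g *ᵥ y) := by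
  have h1 : sk (L *ᵥ (fun a => g6 x y a / 2)) = sk (fun a => g6 (g *ᵥ x) (g *ᵥ y) a / 2) := by
    rw [hL, sk_g6, sk_g6, Matrix.mul_sub, Matrix.sub_mul]
    congr 1
    · rw [Matrix.mul_vecMulVec, Matrix.vecMulVec_mul, Matrix.vecMul_transpose]
    · rw [Matrix.mul_vecMulVec, Matrix.vecMulVec_mul, Matrix.vecMul_transpose]
  have h2 := sk_inj h1
  have h3 : (fun a => g6 x y a / 2) = (1 / 2 : ℝ) • g6 x y := by
    ext a; simp [div_eq_inv_mul]
  rw [h3, Matrix.mulVec_smul] at h2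
  ext a
  have := congrFun h2 a
  simp only [Pi.smul_apply, smul_eq_mul] at this
  linarith

end H79T
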