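import Pool.Agent.Lib.H79T.G3
import Pool.Agent.Lib.H79T.A6

/-!
# Chunk G4 (M)
Invariance of the data. `MM_act`: expand `aA, aB, aC` (bilinearity of `dotProduct`, `mulVec`; `x ⬝ᵥ (Sᵀ * A * S) *ᵥ y = (S x) ⬝ᵥ (A *ᵥ (S y))`; `A, B, C` symmetric). `g6_m`: `g6` is bilinear and
alternating: `g6 (a x + b y) (c x + d y) = (a d - b c) g6 x y`. `dat_act`: symmetry of the new matrices by `transpose`; `K`: `g6 (gx, gy) = L g6 x y`, `q6 (Lᵀ P L) z = q6 P (L z)`,
and the pair `(m00 gx + m01 gy, m10 gx + m11 gy)` has the same `g6` (`det m = 1`). `ps_act`: `q6 (Lᵀ P L) x = q6 P (L x)`. `Wm_act`: `WW_act`, `WW_sum` with `sk (L e_a) = g JJ a gᵀ`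
(`sk (Pi.single a 1) = JJ a`): `Wm (aA..) = Lᵀ * Wm A B C * L`. `TT_act`: `T0 P = ½ ((S P S P).trace - (1/6) ((S P).trace)²)` with `S = diagonal sg` and `P` symmetric
(`∑ sg a sg b P a b ^ 2 = (S P S P).trace`), `pr P W = (S P S W).trace` for `W` symmetric (or `pr P W = (S P S Wᵀ).trace` in general); insert `P' = Lᵀ P L`, use `L S Lᵀ = d S`, `d² = 1` (the trace
`(S P').trace = (S Lᵀ P L).trace = (L S Lᵀ P).trace = d (S P).trace`).
-/

set_option autoImplicit false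

open Matrix Finset

namespace H79T

open Pool.Agent.H69Hopf (Arr IsAlgCurv ev area2 idA)
open H30K (gb KB Cyc)
open H21C (Ty)

private theorem g4_sand (g A : M4) (x y : Fin 4 → ℝ) :
    x ⬝ᵥ ((gᵀ * A * g) *ᵥ y) = (g *ᵥ x) ⬝ᵥ (A *ᵥ (g *ᵥ y)) := by
  rw [← Matrix.mulVec_mulVec, ← Matrix.mulVec_mulVec, Matrix.dotProduct_mulVec, Matrix.vecMul_transpose]

private theorem g4_symm {A : M4} (hA : Aᵀ = A) (u v : Fin 4 → ℝ) : u ⬝ᵥ (A *ᵥ v) = v ⬝ᵥ (A *ᵥ u) := by
  rw [Matrix.dotProduct_mulVec, ← Matrix.mulVec_transpose, hA, dotProduct_comm]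

theorem MM_act (g : M4) (m : M2) {A B C : M4} (hA : Aᵀ = A) (hB : Bᵀ = B) (hC : Cᵀ = C) (x y : Fin 4 → ℝ) :
    MM (aA g m A B C) (aB g m A B C) (aC g m A B C) x y =
      MM A B C (m 0 0 • (g *ᵥ x) + m 0 1 • (g *ᵥ y)) (m 1 0 • (g *ᵥ x) + m 1 1 • (g *ᵥ y)) := by
  unfold MM aA aB aC
  rw [g4_sand, g4_sand, g4_sand]
  generalize g *ᵥ x = u
  generalize g *ᵥ y = v
  simp only [Matrix.add_mulVec, Matrix.smul_mulVec, Matrix.mulVec_add, Matrix.mulVec_smul, dotProduct_add,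
    add_dotProduct, smul_dotProduct, dotProduct_smul, smul_eq_mul]
  rw [g4_symm hA v u, g4_symm hB v u, g4_symm hC v u]
  ring

private theorem g4_JJ (a : Fin 6) : (JJ a)ᵀ = - JJ a := by
  fin_cases a <;> ext i j <;> fin_cases i <;> fin_cases j <;> simp [JJ, JL, JR]

private theorem g4_alt (a : Fin 6) (x y : Fin 4 → ℝ) : x ⬝ᵥ (JJ a *ᵥ y) = - (y ⬝ᵥ (JJ a *ᵥ x)) := by
  rw [Matrix.dotProduct_mulVec, ← Matrix.mulVec_transpose, g4_JJ, Matrix.neg_mulVec, neg_dotProduct,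
    dotProduct_comm]

private theorem g4_self (a : Fin 6) (x : Fin 4 → ℝ) : x ⬝ᵥ (JJ a *ᵥ x) = 0 := by
  have h := g4_alt a x x
  linarith

theorem g6_m (m : M2) (x y : Fin 4 → ℝ) : g6 (m 0 0 • x + m 0 1 • y) (m 1 0 • x + m 1 1 • y) = m.det • g6 x y := by
  funext a
  simp only [g6, Matrix.mulVec_add, Matrix.mulVec_smul, dotProduct_add, add_dotProduct, smul_dotProduct,
    dotProduct_smul, smul_eq_mul, Pi.smul_apply]
  rw [g4_self, g4_self, g4_alt a y x, Matrix.det_fin_two]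
  ring

private theorem g4_q6 (P L : M6) (x : Fin 6 → ℝ) : q6 (Lᵀ * P * L) x = q6 P (L *ᵥ x) := by
  unfold q6
  rw [← Matrix.mulVec_mulVec, ← Matrix.mulVec_mulVec, Matrix.dotProduct_mulVec, Matrix.vecMul_transpose]

private theorem g4_sP {P : M6} (hP : Pᵀ = P) (L : M6) : (Lᵀ * P * L)ᵀ = Lᵀ * P * L := by
  rw [Matrix.transpose_mul, Matrix.transpose_mul, Matrix.transpose_transpose, hP, Matrix.mul_assoc]

private theorem g4_sA {A : M4} (hA : Aᵀ = A) (g : M4) : (gᵀ * A * g)ᵀ = gᵀ * A * g := by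
  rw [Matrix.transpose_mul, Matrix.transpose_mul, Matrix.transpose_transpose, hA, Matrix.mul_assoc]

theorem dat_act {k : ℝ} {P : M6} {A B C : M4} (h : Dat k P A B C) {g : M4} {L : M6} (hL : ∀ x, sk (L *ᵥ x) = g * sk x * gᵀ)
    {m : M2} (hm : m.det = 1) : Dat k (Lᵀ * P * L) (aA g m A B C) (aB g m A B C) (aC g m A B C) := by
  refine ⟨g4_sP h.sP L, g4_sA ?_ g, g4_sA ?_ g, g4_sA ?_ g, fun x y c => ?_⟩
  · simp only [Matrix.transpose_add, Matrix.transpose_smul, h.sA, h.sB, h.sC]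
  · simp only [Matrix.transpose_add, Matrix.transpose_smul, h.sA, h.sB, h.sC]
  · simp only [Matrix.transpose_add, Matrix.transpose_smul, h.sA, h.sB, h.sC]
  · rw [MM_act g m h.sA h.sB h.sC, g4_q6, L_g6 hL]
    have h1 := g6_m m (g *ᵥ x) (g *ᵥ y)
    rw [hm, one_smul] at h1
    rw [← h1]
    exact h.K _ _ c

theorem ps_act {P : M6} (hP : Ps P) (L : M6) : Ps (Lᵀ * P * L) := by
  refine ⟨g4_sP hP.1 L, fun x => ?_⟩
  rw [g4_q6]
  exact hP.2 _

private theorem g4_single (a : Fin 6) : sk (Pi.single a 1) = JJ a := by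
  unfold sk
  rw [Finset.sum_eq_single a]
  · rw [Pi.single_eq_same, one_smul]
  · intro b _ hb
    rw [Pi.single_eq_of_ne hb, zero_smul]
  · intro h
    exact absurd (Finset.mem_univ a) h

theorem Wm_act {A B C : M4} {g : M4} {L : M6} (hL : ∀ x, sk (L *ᵥ x) = g * sk x * gᵀ)
    {m : M2} (hm : m.det = 1) : Wm (aA g m A B C) (aB g m A B C) (aC g m A B C) = Lᵀ * Wm A B C * L := by
  ext a b
  have h1 : Wm (aA g m A B C) (aB g m A B C) (aC g m A B C) a b =
      WW (aA g m A B C) (aB g m A B C) (aC g m A B C) (JJ a) (JJ b) := rfl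
  rw [h1, WW_act g m A B C (JJ a) (JJ b) hm, ← g4_single a, ← g4_single b, ← hL, ← hL, WW_sum]
  have h2 : ∀ c d : Fin 6, (L *ᵥ Pi.single c (1 : ℝ)) d = L d c := by
    intro c d
    rw [Matrix.mulVec_single_one]
    rfl
  simp only [h2]
  rw [Matrix.mul_apply]
  simp only [Matrix.mul_apply, Matrix.transpose_apply, Finset.sum_mul]
  rw [Finset.sum_comm]
  refine Finset.sum_congr rfl fun d _ => Finset.sum_congr rfl fun c _ => ?_
  ring

private theorem g4_pr (P W : M6) :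
    pr P W = (Matrix.diagonal sg * P * Matrix.diagonal sg * Wᵀ).trace := by
  unfold pr Matrix.trace
  refine Finset.sum_congr rfl fun a _ => ?_
  rw [Matrix.diag_apply, Matrix.mul_apply]
  refine Finset.sum_congr rfl fun b _ => ?_
  rw [Matrix.mul_diagonal, Matrix.diagonal_mul, Matrix.transpose_apply]
  ring

private theorem g4_tr (P : M6) : ∑ a, sg a * P a a = (Matrix.diagonal sg * P).trace := by
  unfold Matrix.trace
  refine Finset.sum_congr rfl fun a _ => ?_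
  rw [Matrix.diag_apply, Matrix.diagonal_mul]

private theorem g4_T0 (P : M6) :
    T0 P = (1 / 2) * (pr P P - (1 / 6) * ((Matrix.diagonal sg * P).trace) ^ 2) := by
  unfold T0
  rw [g4_tr]
  have h : ∑ a, ∑ b, sg a * sg b * P a b ^ 2 = pr P P := by
    unfold pr
    refine Finset.sum_congr rfl fun a _ => Finset.sum_congr rfl fun b _ => ?_
    ring
  rw [h]

private theorem g4_pr_act {P W L : M6} {d : ℝ} (hd : d ^ 2 = 1)
    (hL : L * Matrix.diagonal sg * Lᵀ = d • Matrix.diagonal sg) : pr (Lᵀ * P * L) (Lᵀ * W * L) = pr P W := by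
  rw [g4_pr, g4_pr, Matrix.transpose_mul, Matrix.transpose_mul, Matrix.transpose_transpose]
  have h1 : Matrix.diagonal sg * (Lᵀ * P * L) * Matrix.diagonal sg * (Lᵀ * (Wᵀ * L)) =
      (Matrix.diagonal sg * Lᵀ * P * (L * Matrix.diagonal sg * Lᵀ) * Wᵀ) * L := by
    simp only [Matrix.mul_assoc]
  rw [h1, Matrix.trace_mul_comm]
  have h2 : L * (Matrix.diagonal sg * Lᵀ * P * (L * Matrix.diagonal sg * Lᵀ) * Wᵀ) =
      (L * Matrix.diagonal sg * Lᵀ) * P * (L * Matrix.diagonal sg * Lᵀ) * Wᵀ := by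
    simp only [Matrix.mul_assoc]
  rw [h2, hL]
  simp only [Matrix.smul_mul, Matrix.mul_smul, Matrix.trace_smul, smul_eq_mul]
  rw [← mul_assoc, ← pow_two, hd, one_mul]

private theorem g4_tr_act {P L : M6} {d : ℝ} (hL : L * Matrix.diagonal sg * Lᵀ = d • Matrix.diagonal sg) :
    (Matrix.diagonal sg * (Lᵀ * P * L)).trace = d * (Matrix.diagonal sg * P).trace := by
  have h1 : Matrix.diagonal sg * (Lᵀ * P * L) = (Matrix.diagonal sg * Lᵀ * P) * L := by
    simp only [Matrix.mul_assoc]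
  rw [h1, Matrix.trace_mul_comm]
  have h2 : L * (Matrix.diagonal sg * Lᵀ * P) = (L * Matrix.diagonal sg * Lᵀ) * P := by
    simp only [Matrix.mul_assoc]
  rw [h2, hL, Matrix.smul_mul, Matrix.trace_smul, smul_eq_mul]

theorem TT_act {k : ℝ} {P : M6} {A B C : M4} (hP : Pᵀ = P) {g : M4} {L : M6} (hL : ∀ x, sk (L *ᵥ x) = g * sk x * gᵀ)
    (hd : g.det ^ 2 = 1) {m : M2} (hm : m.det = 1) :
    TT k (Lᵀ * P * L) (aA g m A B C) (aB g m A B C) (aC g m A B C) = TT k P A B C := by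
  have hS := LSL' hL hd
  unfold TT
  rw [Wm_act hL hm, g4_pr_act hd hS, g4_T0, g4_T0, g4_pr_act hd hS, g4_tr_act hS, mul_pow, hd, one_mul]

end H79T
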