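import Pool.Agent.Lib.H79T.Defs

/-!
# Chunk N3 (M)
The S-lemma for the signature form. `Q x = q6 P x`, `S x = stf x`. If `S x > 0`, `S y < 0` then `Q x * (- S y) + Q y * S x ≥ 0`: the quadratic
polynomial `S (x + s y) = S x + 2 s S(x,y) + s² S y` has two roots `s1 > 0 > s2` with `s1 s2 = S x / S y` (discriminant
`S(x,y)² - S x S y > 0`); `Q (x + s_i y) = Q x + 2 s_i Q(x,y) + s_i² Q y ≥ 0`; multiply the first by `-s2`, the second by `s1`, add:
`(s1 - s2) (Q x - s1 s2 Q y) ≥ 0`. Hence with `t1 = sup {- Q x / S x | S x > 0}` (bounded above by `Q y / (- S y)` for any `y` with `S y < 0`, nonempty):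
`Q x + t1 S x ≥ 0` for `S x > 0`, and `Q y + t1 S y ≥ 0` for `S y < 0` because `t1 ≤ Q y / (- S y)`; for `S x = 0` it is the hypothesis.
The conclusion in the form `q6 (P + t • diagonal sg) x ≥ 0`: `q6 (P + t D) x = q6 P x + t * stf x`.
-/

set_option autoImplicit false

open Matrix Finset

namespace H79T

open Pool.Agent.H69Hopf (Arr IsAlgCurv ev area2 idA)
open H30K (gb KB Cyc)
open H21C (Ty)

theorem q6_shift (P : M6) (t : ℝ) (x : Fin 6 → ℝ) : q6 (P + t • Matrix.diagonal sg) x = q6 P x + t * stf x := by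
  unfold q6 stf
  rw [Matrix.add_mulVec, dotProduct_add, Matrix.smul_mulVec, dotProduct_smul, smul_eq_mul]
  congr 2
  unfold dotProduct
  refine Finset.sum_congr rfl fun a _ => ?_
  rw [Matrix.mulVec_diagonal]
  ring

private theorem n3_polar (P : M6) (hP : Pᵀ = P) (x y : Fin 6 → ℝ) (s : ℝ) :
    q6 P (x + s • y) = q6 P x + 2 * s * (x ⬝ᵥ (P *ᵥ y)) + s ^ 2 * q6 P y := by
  have hsym : y ⬝ᵥ (P *ᵥ x) = x ⬝ᵥ (P *ᵥ y) := by
    rw [dotProduct_comm, ← Matrix.vecMul_transpose, hP, ← Matrix.dotProduct_mulVec]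
  unfold q6
  rw [Matrix.mulVec_add, Matrix.mulVec_smul, dotProduct_add, add_dotProduct, add_dotProduct,
    smul_dotProduct, smul_dotProduct, dotProduct_smul, dotProduct_smul, hsym]
  simp only [smul_eq_mul]
  ring

private theorem n3_polarS (x y : Fin 6 → ℝ) (s : ℝ) :
    stf (x + s • y) = stf x + 2 * s * (∑ a, sg a * x a * y a) + s ^ 2 * stf y := by
  unfold stf
  rw [Finset.mul_sum, Finset.mul_sum, ← Finset.sum_add_distrib, ← Finset.sum_add_distrib]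
  refine Finset.sum_congr rfl fun a _ => ?_
  simp only [Pi.add_apply, Pi.smul_apply, smul_eq_mul]
  ring

private theorem n3_cross (P : M6) (hP : Pᵀ = P) (h : ∀ x, stf x = 0 → 0 ≤ q6 P x) (x y : Fin 6 → ℝ)
    (hx : 0 < stf x) (hy : stf y < 0) : 0 ≤ q6 P x * (- stf y) + q6 P y * stf x := by
  obtain ⟨b, hb⟩ : ∃ b : ℝ, b = ∑ a, sg a * x a * y a := ⟨_, rfl⟩
  obtain ⟨c, hc⟩ : ∃ c : ℝ, c = x ⬝ᵥ (P *ᵥ y) := ⟨_, rfl⟩
  obtain ⟨D, hD⟩ : ∃ D : ℝ, D = Real.sqrt (b ^ 2 - stf x * stf y) := ⟨_, rfl⟩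
  have hpos : 0 < - (stf x * stf y) := by nlinarith
  have hDsq : D ^ 2 = b ^ 2 - stf x * stf y := by
    rw [hD, Real.sq_sqrt]
    nlinarith [sq_nonneg b]
  have hD0 : 0 ≤ D := by rw [hD]; exact Real.sqrt_nonneg _
  have hDb : |b| < D := by
    apply lt_of_pow_lt_pow_left₀ 2 hD0
    rw [sq_abs, hDsq]
    linarith
  have hb1 := (abs_lt.1 hDb).1
  have hb2 := (abs_lt.1 hDb).2
  have hy0 : stf y ≠ 0 := hy.ne
  have root : ∀ e : ℝ, e ^ 2 = D ^ 2 → 0 ≤ q6 P x + 2 * ((-b + e) / stf y) * c + ((-b + e) / stf y) ^ 2 * q6 P y := by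
    intro e he
    have h1 := h (x + ((-b + e) / stf y) • y) (by
      rw [n3_polarS, ← hb]
      field_simp
      nlinarith)
    rw [n3_polar P hP, ← hc] at h1
    exact h1
  have h1 := root D rfl
  have h2 := root (-D) (by ring)
  obtain ⟨u, hu⟩ : ∃ u : ℝ, u = (-b + D) / stf y := ⟨_, rfl⟩
  obtain ⟨v, hv⟩ : ∃ v : ℝ, v = (-b + -D) / stf y := ⟨_, rfl⟩
  rw [← hu] at h1
  rw [← hv] at h2
  have hu0 : u < 0 := by rw [hu]; exact div_neg_of_pos_of_neg (by linarith) hy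
  have hv0 : 0 < v := by rw [hv]; exact div_pos_of_neg_of_neg (by linarith) hy
  have huv : u * v * stf y = stf x := by
    rw [hu, hv]
    field_simp
    nlinarith
  have h3 : 0 ≤ (v - u) * (q6 P x - u * v * q6 P y) := by
    have e1 : (v - u) * (q6 P x - u * v * q6 P y)
        = (-u) * (q6 P x + 2 * v * c + v ^ 2 * q6 P y) + v * (q6 P x + 2 * u * c + u ^ 2 * q6 P y) := by
      ring
    rw [e1]
    exact add_nonneg (mul_nonneg (by linarith) h2) (mul_nonneg hv0.le h1)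
  have h4 : 0 ≤ q6 P x - u * v * q6 P y := nonneg_of_mul_nonneg_right h3 (by linarith)
  have h5 := mul_nonneg (neg_pos.2 hy).le h4
  have e2 : -stf y * (q6 P x - u * v * q6 P y) = q6 P x * (- stf y) + q6 P y * (u * v * stf y) := by ring
  rw [e2, huv] at h5
  exact h5

theorem slemma (P : M6) (hP : Pᵀ = P) (h : ∀ x, stf x = 0 → 0 ≤ q6 P x) :
    ∃ t : ℝ, ∀ x, 0 ≤ q6 (P + t • Matrix.diagonal sg) x := by
  obtain ⟨y1, hy1⟩ : ∃ y : Fin 6 → ℝ, stf y < 0 :=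
    ⟨fun a => if a = 3 then 1 else 0, by unfold stf; simp [sg, Fin.sum_univ_six]⟩
  obtain ⟨x1, hx1⟩ : ∃ x : Fin 6 → ℝ, 0 < stf x :=
    ⟨fun a => if a = 0 then 1 else 0, by unfold stf; simp [sg, Fin.sum_univ_six]⟩
  have hle : ∀ x y : Fin 6 → ℝ, 0 < stf x → stf y < 0 → - q6 P x / stf x ≤ q6 P y / (- stf y) := by
    intro x y hx hy
    have h1 := n3_cross P hP h x y hx hy
    rw [div_le_div_iff₀ hx (neg_pos.2 hy)]
    linarith
  have hne : {z : ℝ | ∃ x : Fin 6 → ℝ, 0 < stf x ∧ z = - q6 P x / stf x}.Nonempty := ⟨_, x1, hx1, rfl⟩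
  have hbd : BddAbove {z : ℝ | ∃ x : Fin 6 → ℝ, 0 < stf x ∧ z = - q6 P x / stf x} := by
    refine ⟨q6 P y1 / (- stf y1), ?_⟩
    rintro z ⟨x, hx, rfl⟩
    exact hle x y1 hx hy1
  refine ⟨sSup {z : ℝ | ∃ x : Fin 6 → ℝ, 0 < stf x ∧ z = - q6 P x / stf x}, fun x => ?_⟩
  rw [q6_shift]
  rcases lt_trichotomy (stf x) 0 with hx | hx | hx
  · have h1 : sSup {z : ℝ | ∃ x : Fin 6 → ℝ, 0 < stf x ∧ z = - q6 P x / stf x} ≤ q6 P x / (- stf x) := by
      apply csSup_le hne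
      rintro z ⟨w, hw, rfl⟩
      exact hle w x hw hx
    rw [le_div_iff₀ (neg_pos.2 hx)] at h1
    linarith
  · rw [hx, mul_zero, add_zero]
    exact h x hx
  · have h1 : - q6 P x / stf x ≤ sSup {z : ℝ | ∃ x : Fin 6 → ℝ, 0 < stf x ∧ z = - q6 P x / stf x} :=
      le_csSup hbd ⟨x, hx, rfl⟩
    rw [div_le_iff₀ hx] at h1
    linarith

end H79T
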