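import Pool.Agent.Lib.H79T.Defs

/-!
# Chunk N4 (M)
`exists_min`: `Q x = q6 W x` is continuous, positive on `{x ≠ 0, stf x = 0}`. `K = {x | stf x = 1, Q x ≤ 0}` is nonempty (scale the given `x`
by `1/√(stf x)`), closed, and bounded: on the compact set `L = {y | ‖y‖ = 1 (any norm), Q y ≤ 0}` the function `|stf y|` is positive, hence `≥ c > 0`;
for `x ∈ K` with `‖x‖ = r`, `y = x / r ∈ L`, `1 = stf x = r² stf y`, so `r² ≤ 1/c`. A minimum `x0` of `Q` on `K` is a minimum on `{stf x = 1}`: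
if `Q x > 0` then `Q x > 0 ≥ Q x0`. `Q x0 ≤ Q (given, scaled) < 0`.
-/

set_option autoImplicit false

open Matrix Finset

namespace H79T

open Pool.Agent.H69Hopf (Arr IsAlgCurv ev area2 idA)
open H30K (gb KB Cyc)
open H21C (Ty)

theorem n4_stf_smul (r : ℝ) (x : Fin 6 → ℝ) : stf (r • x) = r ^ 2 * stf x := by
  simp only [stf, Pi.smul_apply, smul_eq_mul, Finset.mul_sum]
  apply Finset.sum_congr rfl
  intro a _
  ring

theorem n4_q6_smul (W : M6) (r : ℝ) (x : Fin 6 → ℝ) : q6 W (r • x) = r ^ 2 * q6 W x := by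
  simp only [q6, Matrix.mulVec_smul, smul_dotProduct, dotProduct_smul, smul_eq_mul]
  ring

theorem n4_cont_stf : Continuous stf := by
  unfold stf
  fun_prop

theorem n4_cont_q6 (W : M6) : Continuous (q6 W) := by
  unfold q6 dotProduct Matrix.mulVec dotProduct
  fun_prop

theorem exists_min (W : M6) (h0 : ∀ x, x ≠ 0 → stf x = 0 → 0 < q6 W x) (h1 : ∃ x, 0 < stf x ∧ q6 W x < 0) :
    ∃ x0, stf x0 = 1 ∧ q6 W x0 < 0 ∧ ∀ x, stf x = 1 → q6 W x0 ≤ q6 W x := by
  classical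
  set K : Set (Fin 6 → ℝ) := {x | stf x = 1 ∧ q6 W x ≤ 0} with hK
  set L : Set (Fin 6 → ℝ) := Metric.sphere 0 1 ∩ {y | q6 W y ≤ 0} with hL
  obtain ⟨x, hx1, hx2⟩ := h1
  have hx0 : x ≠ 0 := by
    rintro rfl
    have h := n4_stf_smul 0 (0 : Fin 6 → ℝ)
    rw [smul_zero] at h
    rw [h] at hx1
    norm_num at hx1
  have key : ∀ v : Fin 6 → ℝ, v ≠ 0 → q6 W v ≤ 0 → (‖v‖⁻¹ • v) ∈ L := by
    intro v hv hq
    have hn : 0 < ‖v‖ := norm_pos_iff.mpr hv
    refine ⟨?_, ?_⟩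
    · rw [mem_sphere_zero_iff_norm, norm_smul, norm_inv, norm_norm, inv_mul_cancel₀ hn.ne']
    · show q6 W (‖v‖⁻¹ • v) ≤ 0
      rw [n4_q6_smul]
      exact mul_nonpos_of_nonneg_of_nonpos (sq_nonneg _) hq
  have hLc : IsCompact L := (isCompact_sphere 0 1).inter_right (isClosed_le (n4_cont_q6 W) continuous_const)
  have hLn : L.Nonempty := ⟨_, key x hx0 hx2.le⟩
  obtain ⟨y0, hy0, hmin⟩ := hLc.exists_isMinOn hLn (n4_cont_stf.abs.continuousOn)
  have hc : 0 < |stf y0| := by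
    rw [abs_pos]
    intro h
    have hne : y0 ≠ 0 := by
      rintro rfl
      have := hy0.1
      rw [mem_sphere_zero_iff_norm, norm_zero] at this
      norm_num at this
    exact absurd (h0 y0 hne h) (not_lt.mpr hy0.2)
  set c := |stf y0| with hcd
  have hKb : ∀ v ∈ K, ‖v‖ ≤ 1 + 1 / c := by
    intro v hv
    have hv0 : v ≠ 0 := by
      rintro rfl
      have h := n4_stf_smul 0 (0 : Fin 6 → ℝ)
      rw [smul_zero] at h
      have h2 := hv.1
      rw [h] at h2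
      norm_num at h2
    have hn : 0 < ‖v‖ := norm_pos_iff.mpr hv0
    have h2 := hmin (key v hv0 hv.2)
    have h2' : c ≤ |stf (‖v‖⁻¹ • v)| := h2
    rw [n4_stf_smul, hv.1, mul_one, abs_of_nonneg (sq_nonneg _)] at h2'
    by_contra hcon
    push Not at hcon
    have hcinv : 0 < 1 / c := by positivity
    have h3 : c * ‖v‖ ^ 2 ≤ 1 := by
      have : ‖v‖⁻¹ ^ 2 * ‖v‖ ^ 2 = 1 := by
        field_simp
      nlinarith [sq_nonneg ‖v‖, mul_le_mul_of_nonneg_right h2' (sq_nonneg ‖v‖)]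
    have h4 : ‖v‖ ^ 2 ≤ 1 / c := by
      rw [le_div_iff₀ hc]
      linarith
    nlinarith
  have hKc : IsCompact K := by
    apply Metric.isCompact_of_isClosed_isBounded
    · exact (isClosed_eq n4_cont_stf continuous_const).inter (isClosed_le (n4_cont_q6 W) continuous_const)
    · rw [isBounded_iff_forall_norm_le]
      exact ⟨_, hKb⟩
  have hz : (Real.sqrt (stf x))⁻¹ ^ 2 * stf x = 1 := by
    rw [inv_pow, Real.sq_sqrt hx1.le, inv_mul_cancel₀ hx1.ne']
  have hzK : ((Real.sqrt (stf x))⁻¹ • x) ∈ K := by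
    refine ⟨?_, ?_⟩
    · rw [n4_stf_smul, hz]
    · rw [n4_q6_smul]
      exact mul_nonpos_of_nonneg_of_nonpos (sq_nonneg _) hx2.le
  have hzneg : q6 W ((Real.sqrt (stf x))⁻¹ • x) < 0 := by
    rw [n4_q6_smul]
    have : 0 < (Real.sqrt (stf x))⁻¹ ^ 2 := by positivity
    exact mul_neg_of_pos_of_neg this hx2
  obtain ⟨x0, hx0K, hx0min⟩ := hKc.exists_isMinOn ⟨_, hzK⟩ ((n4_cont_q6 W).continuousOn)
  have hx0neg : q6 W x0 < 0 := lt_of_le_of_lt (hx0min hzK) hzneg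
  refine ⟨x0, hx0K.1, hx0neg, ?_⟩
  intro v hv
  by_cases hq : q6 W v ≤ 0
  · exact hx0min ⟨hv, hq⟩
  · push Not at hq
    linarith

end H79T
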