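import Pool.Agent.Lib.H79T.A1
import Pool.Agent.Lib.H79T.A3

/-!
# Chunk N2 (M)
`symp`: `X = sk x` skew, `pf X = 1`. `JL 0 = e1 e0ᵀ - e0 e1ᵀ + e3 e2ᵀ - e2 e3ᵀ`, so `g * JL 0 * gᵀ = g1 ∧ g0 + g3 ∧ g2` for the columns `g_i` of
`g` (`u ∧ v = u vᵀ - v uᵀ`). Some entry `X i j ≠ 0`. Case `X 0 1 = a ≠ 0`: `X = u ∧ v + (1/a) e2 ∧ e3` with `u = (1, 0, -X 1 2/a, -X 1 3/a)`,
`v = (0, a, X 0 2, X 0 3)` (entry `2 3`: `(X 0 2 X 1 3 - X 0 3 X 1 2)/a + 1/a = X 2 3` by `pf X = 1`). So take `g1 = u`, `g0 = v`, `g3 = e2 / a`,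
`g2 = e3`. The other five cases are similar (the second summand is `± (1/a) e_k ∧ e_l`, `{i,j,k,l} = {0,1,2,3}`); or use a permutation
matrix. `det_of`: `pf (g * JL 0 * gᵀ) = det g * pf (JL 0) = det g` (`pf_conj`).
-/

set_option autoImplicit false

open Matrix Finset

namespace H79T

open Pool.Agent.H69Hopf (Arr IsAlgCurv ev area2 idA)
open H30K (gb KB Cyc)
open H21C (Ty)

theorem n2_cols (g : M4) : g * JL 0 * gᵀ = Matrix.of fun r c =>
    g r 1 * g c 0 - g r 0 * g c 1 + g r 3 * g c 2 - g r 2 * g c 3 := by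
  ext r c
  simp only [Matrix.mul_apply, Matrix.transpose_apply, Fin.sum_univ_four, JL, Matrix.of_apply,
    Matrix.cons_val]
  ring

theorem symp (X : M4) (hX : Xᵀ = -X) (h1 : pf X = 1) : ∃ g : M4, g * JL 0 * gᵀ = X := by
  have h : ∀ i j, X j i = - X i j := fun i j => congrFun (congrFun hX i) j
  have h00 : X 0 0 = 0 := by have := h 0 0; linarith
  have h11 : X 1 1 = 0 := by have := h 1 1; linarith
  have h22 : X 2 2 = 0 := by have := h 2 2; linarith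
  have h33 : X 3 3 = 0 := by have := h 3 3; linarith
  have h10 := h 0 1
  have h20 := h 0 2
  have h30 := h 0 3
  have h21 := h 1 2
  have h31 := h 1 3
  have h32 := h 2 3
  have hp : X 0 1 * X 2 3 - X 0 2 * X 1 3 + X 0 3 * X 1 2 = 1 := h1
  have key : ∀ g : M4,
      (g 0 1 * g 1 0 - g 0 0 * g 1 1 + g 0 3 * g 1 2 - g 0 2 * g 1 3 = X 0 1) →
      (g 0 1 * g 2 0 - g 0 0 * g 2 1 + g 0 3 * g 2 2 - g 0 2 * g 2 3 = X 0 2) →
      (g 0 1 * g 3 0 - g 0 0 * g 3 1 + g 0 3 * g 3 2 - g 0 2 * g 3 3 = X 0 3) →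
      (g 1 1 * g 2 0 - g 1 0 * g 2 1 + g 1 3 * g 2 2 - g 1 2 * g 2 3 = X 1 2) →
      (g 1 1 * g 3 0 - g 1 0 * g 3 1 + g 1 3 * g 3 2 - g 1 2 * g 3 3 = X 1 3) →
      (g 2 1 * g 3 0 - g 2 0 * g 3 1 + g 2 3 * g 3 2 - g 2 2 * g 3 3 = X 2 3) →
      g * JL 0 * gᵀ = X := by
    intro g e01 e02 e03 e12 e13 e23
    rw [n2_cols]
    ext r c
    fin_cases r <;> fin_cases c <;> simp only [Matrix.of_apply, Fin.zero_eta, Fin.mk_one,
      Fin.reduceFinMk, h00, h11, h22, h33, h10, h20, h30, h21, h31, h32] <;> linarith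
  by_cases a01 : X 0 1 = 0
  · by_cases a02 : X 0 2 = 0
    · have a03 : X 0 3 ≠ 0 := by
        intro a03
        rw [a01, a02, a03] at hp
        norm_num at hp
      refine ⟨!![0, 1, 0, 0; X 0 1, X 1 3 / X 0 3, 0, 1 / X 0 3;
        X 0 2, X 2 3 / X 0 3, 1, 0; X 0 3, 0, 0, 0], ?_⟩
      apply key <;> simp only [Matrix.of_apply, Matrix.cons_val] <;> field_simp <;> linarith
    · refine ⟨!![0, 1, 0, 0; X 0 1, X 1 2 / X 0 2, 0, -1 / X 0 2;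
        X 0 2, 0, 0, 0; X 0 3, -X 2 3 / X 0 2, 1, 0], ?_⟩
      apply key <;> simp only [Matrix.of_apply, Matrix.cons_val] <;> field_simp <;> linarith
  · refine ⟨!![0, 1, 0, 0; X 0 1, 0, 0, 0; X 0 2, -X 1 2 / X 0 1, 0, 1 / X 0 1;
      X 0 3, -X 1 3 / X 0 1, 1, 0], ?_⟩
    apply key <;> simp only [Matrix.of_apply, Matrix.cons_val] <;> field_simp <;> linarith

theorem det_of (g : M4) : pf (g * JL 0 * gᵀ) = g.det := by
  have hs : (JL 0)ᵀ = -JL 0 := by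
    ext i j
    fin_cases i <;> fin_cases j <;> simp [JL]
  rw [pf_conj g (JL 0) hs]
  have h1 : pf (JL 0) = 1 := by
    simp [pf, JL]
  rw [h1, mul_one]

end H79T
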