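import Pool.Agent.Lib.H79T.A6
import Pool.Agent.Lib.H79T.N2

/-!
# Chunk O1 (L)
Existence of the optimum. `E = {(g, m) : M4 × M2 | g * JL 0 * gᵀ = X0 ∧ m.det = 1}` is closed and nonempty (`symp`, `m = 1`).
`F (g, m) = ff (aA g m ..) ..` is continuous (polynomial). With the columns `g_i` of `g` and `m_j` of `m`:
`F (g, m) = ∑ i, ∑ j, MM A B C (m 0 j • g_i) (m 1 j • g_i) ≥ d * (∑ g i k ^ 2) * (∑ m i j ^ 2)` (`Pos1s`). `∑ m i j ^ 2 ≥ 2 m.det = 2`, and
`∑ g i k ^ 2 ≥ c0 > 0` on `E` (`X0 ≠ 0`: `|X0 i j| ≤ ∑ k l |g i k| |g j l| ≤ 16 ∑ g²`, or: `det g = pf X0 = 1`, so `g ≠ 0` and .. ; simplest: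
an entry `X0 i j ≠ 0` satisfies `|X0 i j| ≤ 4 ∑ g i k ^ 2`). So `{F ≤ const} ∩ E` is bounded (sup norm of `g` and of `m`) and closed, hence compact
(finite-dimensional, `IsCompact` of closed and bounded sets in `M4 × M2 = (Fin 4 → Fin 4 → ℝ) × ..`, a proper space). Let `μ` be the minimum of `F` on `E`;
the set `E ∩ {F = μ}` is compact and nonempty; let `(g, m)` be a maximum of `ph (aA g m ..) ..` on it. Conclusion: for `S * JL 0 * Sᵀ = JL 0` and `det m' = 1`
the pair `(g * S, m * m')` is in `E`, and `aA (g * S) (m * m') A B C = aA S m' (aA g m A B C) (aB g m ..) (aC g m ..)` etc. (`act_comp`: expand,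
`Matrix.mul_apply`, `Fin.sum_univ_two`, `transpose_mul`). State `act_comp` first.
-/

set_option autoImplicit false

open Matrix Finset

namespace H79T

open Pool.Agent.H69Hopf (Arr IsAlgCurv ev area2 idA)
open H30K (gb KB Cyc)
open H21C (Ty)

private theorem o1_pull (S S' X Y Z : M4) (a b c : ℝ) :
    S'ᵀ * (a • (Sᵀ * X * S) + b • (Sᵀ * Y * S) + c • (Sᵀ * Z * S)) * S' =
      (S * S')ᵀ * (a • X + b • Y + c • Z) * (S * S') := by
  simp only [transpose_mul, Matrix.mul_add, Matrix.add_mul, Matrix.mul_smul, Matrix.smul_mul, Matrix.mul_assoc]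

theorem act_compA (S S' : M4) (m m' : M2) (A B C : M4) :
    aA S' m' (aA S m A B C) (aB S m A B C) (aC S m A B C) = aA (S * S') (m * m') A B C := by
  unfold aA aB aC
  rw [o1_pull]
  congr 2
  simp only [Matrix.mul_apply, Fin.sum_univ_two]
  module

theorem act_compB (S S' : M4) (m m' : M2) (A B C : M4) :
    aB S' m' (aA S m A B C) (aB S m A B C) (aC S m A B C) = aB (S * S') (m * m') A B C := by
  unfold aA aB aC
  rw [o1_pull]
  congr 2
  simp only [Matrix.mul_apply, Fin.sum_univ_two]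
  module

theorem act_compC (S S' : M4) (m m' : M2) (A B C : M4) :
    aC S' m' (aA S m A B C) (aB S m A B C) (aC S m A B C) = aC (S * S') (m * m') A B C := by
  unfold aA aB aC
  rw [o1_pull]
  congr 2
  simp only [Matrix.mul_apply, Fin.sum_univ_two]
  module

private theorem o1_MM (A B C : M4) (x : Fin 4 → ℝ) (s t : ℝ) :
    MM A B C (s • x) (t • x) = x ⬝ᵥ ((s ^ 2 • A + (2 * s * t) • B + t ^ 2 • C) *ᵥ x) := by
  unfold MM
  simp only [add_mulVec, smul_mulVec, mulVec_smul, dotProduct_add, dotProduct_smul, smul_dotProduct, smul_eq_mul]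
  ring

private theorem o1_tr (g Q : M4) :
    (gᵀ * Q * g).trace = ∑ i, (fun k => g k i) ⬝ᵥ (Q *ᵥ (fun k => g k i)) := by
  rw [Matrix.mul_assoc]
  simp only [Matrix.trace, Matrix.diag_apply, Matrix.mul_apply, dotProduct, mulVec, transpose_apply]

theorem ff_act (g : M4) (m : M2) (A B C : M4) : ff (aA g m A B C) (aB g m A B C) (aC g m A B C) =
    ∑ i, ∑ j, MM A B C (m 0 j • fun k => g k i) (m 1 j • fun k => g k i) := by
  simp only [Fin.sum_univ_two, o1_MM, Finset.sum_add_distrib]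
  unfold ff aA aC
  rw [Matrix.trace_add, o1_tr, o1_tr]

private theorem o1_cA (A B C : M4) : Continuous fun p : M4 × M2 => aA p.1 p.2 A B C := by
  unfold aA
  fun_prop

private theorem o1_cB (A B C : M4) : Continuous fun p : M4 × M2 => aB p.1 p.2 A B C := by
  unfold aB
  fun_prop

private theorem o1_cC (A B C : M4) : Continuous fun p : M4 × M2 => aC p.1 p.2 A B C := by
  unfold aC
  fun_prop

private theorem o1_cF (A B C : M4) : Continuous fun p : M4 × M2 =>
    ff (aA p.1 p.2 A B C) (aB p.1 p.2 A B C) (aC p.1 p.2 A B C) := by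
  have h1 := o1_cA A B C
  have h2 := o1_cC A B C
  unfold ff
  exact (h1.add h2).matrix_trace

private theorem o1_cP (A B C : M4) : Continuous fun p : M4 × M2 =>
    ph (aA p.1 p.2 A B C) (aB p.1 p.2 A B C) (aC p.1 p.2 A B C) := by
  have h1 := o1_cA A B C
  have h2 := o1_cC A B C
  have h3 := o1_cB A B C
  unfold ph r1 r2
  have e1 : Continuous fun p : M4 × M2 => ((aA p.1 p.2 A B C - aC p.1 p.2 A B C) * (JL 0 * JR 0)).trace :=
    ((h1.sub h2).matrix_mul continuous_const).matrix_trace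
  have e2 : Continuous fun p : M4 × M2 => (aB p.1 p.2 A B C * (JL 0 * JR 1)).trace :=
    (h3.matrix_mul continuous_const).matrix_trace
  exact ((e1.div_const 8).const_mul 2).add (e2.div_const 4)

/-- the constraint set -/
private def o1_E (X0 : M4) : Set (M4 × M2) := {p | p.1 * JL 0 * p.1ᵀ = X0 ∧ p.2.det = 1}

private theorem o1_closed (X0 : M4) : IsClosed (o1_E X0) := by
  have h1 : Continuous fun p : M4 × M2 => p.1 * JL 0 * p.1ᵀ :=
    (continuous_fst.matrix_mul continuous_const).matrix_mul continuous_fst.matrix_transpose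
  have h2 : Continuous fun p : M4 × M2 => p.2.det := continuous_snd.matrix_det
  exact (isClosed_eq h1 continuous_const).inter (isClosed_eq h2 continuous_const)

/-- squared norms -/
private def o1_G (g : M4) : ℝ := ∑ i, ∑ k, g k i ^ 2

private def o1_N (m : M2) : ℝ := ∑ j, (m 0 j ^ 2 + m 1 j ^ 2)

private theorem o1_Fge {d : ℝ} {A B C : M4} (hp : Pos1s d A B C) (g : M4) (m : M2) :
    d * (o1_G g * o1_N m) ≤ ff (aA g m A B C) (aB g m A B C) (aC g m A B C) := by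
  rw [ff_act]
  have e : d * (o1_G g * o1_N m) =
      ∑ i, ∑ j, d * (((fun k => g k i) ⬝ᵥ (fun k => g k i)) * (m 0 j ^ 2 + m 1 j ^ 2)) := by
    unfold o1_G o1_N
    rw [Finset.sum_mul_sum, Finset.mul_sum]
    refine Finset.sum_congr rfl fun i _ => ?_
    rw [Finset.mul_sum]
    refine Finset.sum_congr rfl fun j _ => ?_
    simp only [dotProduct, pow_two]
  rw [e]
  exact Finset.sum_le_sum fun i _ => Finset.sum_le_sum fun j _ => hp _ _ _

private theorem o1_N2 (m : M2) (h : m.det = 1) : 2 ≤ o1_N m := by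
  rw [Matrix.det_fin_two] at h
  unfold o1_N
  rw [Fin.sum_univ_two]
  nlinarith [sq_nonneg (m 0 0 - m 1 1), sq_nonneg (m 0 1 + m 1 0)]

private theorem o1_Gentry (g : M4) (i j : Fin 4) : g i j ^ 2 ≤ o1_G g := by
  unfold o1_G
  have h1 : g i j ^ 2 ≤ ∑ k, g k j ^ 2 :=
    Finset.single_le_sum (f := fun k => g k j ^ 2) (fun k _ => sq_nonneg _) (Finset.mem_univ i)
  have h2 : ∑ k, g k j ^ 2 ≤ ∑ i, ∑ k, g k i ^ 2 :=
    Finset.single_le_sum (f := fun i => ∑ k, g k i ^ 2) (fun i _ => Finset.sum_nonneg fun k _ => sq_nonneg _) (Finset.mem_univ j)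
  exact h1.trans h2

private theorem o1_Nentry (m : M2) (i j : Fin 2) : m i j ^ 2 ≤ o1_N m := by
  unfold o1_N
  rw [Fin.sum_univ_two]
  fin_cases i <;> fin_cases j <;> simp <;>
    nlinarith [sq_nonneg (m 0 0), sq_nonneg (m 0 1), sq_nonneg (m 1 0), sq_nonneg (m 1 1)]

private theorem o1_X (g : M4) (i j : Fin 4) : |(g * JL 0 * gᵀ) i j| ≤ o1_G g := by
  have e : (g * JL 0 * gᵀ) i j = g i 1 * g j 0 - g i 0 * g j 1 + g i 3 * g j 2 - g i 2 * g j 3 := by
    simp [Matrix.mul_apply, Fin.sum_univ_four, JL]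
    ring
  have hG : o1_G g = ∑ k, ∑ l, g k l ^ 2 := by
    unfold o1_G
    exact Finset.sum_comm
  have hi : ∑ l, g i l ^ 2 ≤ o1_G g := by
    rw [hG]
    exact Finset.single_le_sum (f := fun k => ∑ l, g k l ^ 2) (fun i _ => Finset.sum_nonneg fun k _ => sq_nonneg _) (Finset.mem_univ i)
  have hj : ∑ l, g j l ^ 2 ≤ o1_G g := by
    rw [hG]
    exact Finset.single_le_sum (f := fun k => ∑ l, g k l ^ 2) (fun i _ => Finset.sum_nonneg fun k _ => sq_nonneg _) (Finset.mem_univ j)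
  rw [Fin.sum_univ_four] at hi hj
  rw [e, abs_le]
  constructor
  · nlinarith [sq_nonneg (g i 1 + g j 0), sq_nonneg (g i 0 - g j 1), sq_nonneg (g i 3 + g j 2), sq_nonneg (g i 2 - g j 3)]
  · nlinarith [sq_nonneg (g i 1 - g j 0), sq_nonneg (g i 0 + g j 1), sq_nonneg (g i 3 - g j 2), sq_nonneg (g i 2 + g j 3)]

private theorem o1_Gge (g X0 : M4) (h : g * JL 0 * gᵀ = X0) (h1 : pf X0 = 1) : 1 / 2 ≤ o1_G g := by
  have hb : ∀ i j, |X0 i j| ≤ o1_G g := fun i j => h ▸ o1_X g i j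
  have hG0 : 0 ≤ o1_G g := (abs_nonneg _).trans (hb 0 0)
  by_contra hc
  push Not at hc
  have hm : ∀ i j k l : Fin 4, |X0 i j * X0 k l| ≤ 1 / 4 := by
    intro i j k l
    rw [abs_mul]
    have a := hb i j
    have b := hb k l
    have a0 := abs_nonneg (X0 i j)
    have b0 := abs_nonneg (X0 k l)
    nlinarith
  have k1 := abs_le.1 (hm 0 1 2 3)
  have k2 := abs_le.1 (hm 0 2 1 3)
  have k3 := abs_le.1 (hm 0 3 1 2)
  unfold pf at h1
  linarith [k1.2, k2.1, k3.2]

private theorem o1_box (R : ℝ) : IsCompact {p : M4 × M2 | (∀ i j, p.1 i j ∈ Set.Icc (-R) R) ∧ ∀ i j, p.2 i j ∈ Set.Icc (-R) R} := by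
  have h1 : IsCompact (Set.pi Set.univ fun _ : Fin 4 => Set.pi Set.univ fun _ : Fin 4 => Set.Icc (-R) R) :=
    isCompact_univ_pi fun _ => isCompact_univ_pi fun _ => isCompact_Icc
  have h2 : IsCompact (Set.pi Set.univ fun _ : Fin 2 => Set.pi Set.univ fun _ : Fin 2 => Set.Icc (-R) R) :=
    isCompact_univ_pi fun _ => isCompact_univ_pi fun _ => isCompact_Icc
  have h3 := h1.prod h2
  have e : {p : M4 × M2 | (∀ i j, p.1 i j ∈ Set.Icc (-R) R) ∧ ∀ i j, p.2 i j ∈ Set.Icc (-R) R} =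
      (Set.pi Set.univ fun _ : Fin 4 => Set.pi Set.univ fun _ : Fin 4 => Set.Icc (-R) R) ×ˢ
      (Set.pi Set.univ fun _ : Fin 2 => Set.pi Set.univ fun _ : Fin 2 => Set.Icc (-R) R) := by
    ext p
    exact ⟨fun h => ⟨fun i _ j _ => h.1 i j, fun i _ j _ => h.2 i j⟩,
      fun h => ⟨fun i j => h.1 i trivial j trivial, fun i j => h.2 i trivial j trivial⟩⟩
  rw [e]
  exact h3

private theorem o1_sub {d : ℝ} (hd : 0 < d) {A B C : M4} (hp : Pos1s d A B C) (X0 : M4) (h1 : pf X0 = 1) (c : ℝ) :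
    IsCompact (o1_E X0 ∩ {p | ff (aA p.1 p.2 A B C) (aB p.1 p.2 A B C) (aC p.1 p.2 A B C) ≤ c}) := by
  refine IsCompact.of_isClosed_subset (o1_box (1 + 2 * |c| / d)) ?_ ?_
  · exact (o1_closed X0).inter (isClosed_le (o1_cF A B C) continuous_const)
  · rintro ⟨g, m⟩ ⟨⟨hg, hm⟩, hF⟩
    replace hF : ff (aA g m A B C) (aB g m A B C) (aC g m A B C) ≤ c := hF
    replace hg : g * JL 0 * gᵀ = X0 := hg
    replace hm : m.det = 1 := hm
    have hG := o1_Gge g X0 hg h1
    have hN := o1_N2 m hm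
    have hle := (o1_Fge hp g m).trans (hF.trans (le_abs_self c))
    have hprod : o1_G g * o1_N m ≤ |c| / d := by
      rw [le_div_iff₀ hd]
      linarith
    have hcd : 0 ≤ |c| / d := div_nonneg (abs_nonneg _) hd.le
    have hG1 : o1_G g ≤ 2 * |c| / d := by
      have : 2 * |c| / d = 2 * (|c| / d) := by ring
      rw [this]
      nlinarith
    have hN1 : o1_N m ≤ 2 * |c| / d := by
      have : 2 * |c| / d = 2 * (|c| / d) := by ring
      rw [this]
      nlinarith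
    have hx : ∀ x t : ℝ, x ^ 2 ≤ t → x ∈ Set.Icc (-(1 + t)) (1 + t) := by
      intro x t h
      constructor <;> nlinarith [sq_nonneg (x - 1), sq_nonneg (x + 1)]
    exact ⟨fun i j => hx _ _ ((o1_Gentry g i j).trans hG1), fun i j => hx _ _ ((o1_Nentry m i j).trans hN1)⟩

private theorem o1_abs {T : Type} [TopologicalSpace T] (E : Set T) (F P : T → ℝ) (hF : Continuous F) (hP : Continuous P)
    (hc : ∀ c, IsCompact (E ∩ {p | F p ≤ c})) (x0 : T) (hx0 : x0 ∈ E) :
    ∃ x ∈ E, (∀ y ∈ E, F x ≤ F y) ∧ ∀ y ∈ E, F y = F x → P y ≤ P x := by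
  obtain ⟨p1, hp1, hmin⟩ := (hc (F x0)).exists_isMinOn ⟨x0, hx0, le_refl (F x0)⟩ hF.continuousOn
  have hminE : ∀ p ∈ E, F p1 ≤ F p := by
    intro p hpE
    by_cases h : F p ≤ F x0
    · exact hmin ⟨hpE, h⟩
    · push Not at h
      exact (hp1.2 : F p1 ≤ F x0).trans h.le
  obtain ⟨p2, hp2, hmax⟩ := (hc (F p1)).exists_isMaxOn ⟨p1, hp1.1, le_refl (F p1)⟩ hP.continuousOn
  have hF2 : F p2 ≤ F p1 := hp2.2
  refine ⟨p2, hp2.1, fun y hy => hF2.trans (hminE y hy), fun y hy he => hmax ⟨hy, ?_⟩⟩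
  exact he.le.trans hF2

private theorem o1_move {X0 : M4} {g : M4} {m : M2} (hg : g * JL 0 * gᵀ = X0) (hm : m.det = 1) (S : M4) (m' : M2)
    (hS : S * JL 0 * Sᵀ = JL 0) (hm' : m'.det = 1) : ((g * S, m * m') : M4 × M2) ∈ o1_E X0 := by
  refine ⟨?_, ?_⟩
  · change g * S * JL 0 * (g * S)ᵀ = X0
    rw [transpose_mul]
    calc g * S * JL 0 * (Sᵀ * gᵀ) = g * (S * JL 0 * Sᵀ) * gᵀ := by simp only [Matrix.mul_assoc]
      _ = X0 := by rw [hS, hg]
  · change (m * m').det = 1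
    rw [Matrix.det_mul, hm, hm', one_mul]

theorem exists_opt {d : ℝ} (hd : 0 < d) {A B C : M4} (hp : Pos1s d A B C) (X0 : M4) (hX : X0ᵀ = -X0) (h1 : pf X0 = 1) :
    ∃ (g : M4) (m : M2), g * JL 0 * gᵀ = X0 ∧ m.det = 1 ∧ Opt (aA g m A B C) (aB g m A B C) (aC g m A B C) := by
  obtain ⟨g0, hg0⟩ := symp X0 hX h1
  have hmem0 : ((g0, (1 : M2)) : M4 × M2) ∈ o1_E X0 := ⟨hg0, Matrix.det_one⟩
  obtain ⟨⟨g, m⟩, hE, hmn, hmx⟩ := o1_abs (o1_E X0) _ _ (o1_cF A B C) (o1_cP A B C) (o1_sub hd hp X0 h1) _ hmem0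
  obtain ⟨hg, hm⟩ := hE
  replace hg : g * JL 0 * gᵀ = X0 := hg
  replace hm : m.det = 1 := hm
  have hmn' : ∀ (S : M4) (m' : M2), S * JL 0 * Sᵀ = JL 0 → m'.det = 1 →
      ff (aA g m A B C) (aB g m A B C) (aC g m A B C) ≤
        ff (aA (g * S) (m * m') A B C) (aB (g * S) (m * m') A B C) (aC (g * S) (m * m') A B C) :=
    fun S m' hS hm' => hmn (g * S, m * m') (o1_move hg hm S m' hS hm')
  have hmx' : ∀ (S : M4) (m' : M2), S * JL 0 * Sᵀ = JL 0 → m'.det = 1 →
      ff (aA (g * S) (m * m') A B C) (aB (g * S) (m * m') A B C) (aC (g * S) (m * m') A B C) =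
        ff (aA g m A B C) (aB g m A B C) (aC g m A B C) →
      ph (aA (g * S) (m * m') A B C) (aB (g * S) (m * m') A B C) (aC (g * S) (m * m') A B C) ≤
        ph (aA g m A B C) (aB g m A B C) (aC g m A B C) :=
    fun S m' hS hm' => hmx (g * S, m * m') (o1_move hg hm S m' hS hm')
  refine ⟨g, m, hg, hm, ⟨fun S m' hS hm' => ?_, fun S m' hS hm' heq => ?_⟩⟩
  · rw [act_compA, act_compB, act_compC]
    exact hmn' S m' hS hm'
  · rw [act_compA, act_compB, act_compC] at heq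
    rw [act_compA, act_compB, act_compC]
    exact hmx' S m' hS hm' heq

end H79T
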