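import Pool.Agent.Lib.H79T.A6
import Pool.Agent.Lib.H79T.A5

/-!
# Chunk O2 (M)
First order conditions from `Opt.mn`. `cosh_lem`: if `a * cosh s + b * sinh s ≥ a` for all `s` then `b = 0` (derivative at 0, or: for `s` and `-s`,
`cosh s - 1 ≤ s²` for `|s| ≤ 1`, `|b| |sinh s| ≤ a (cosh s - 1)`; you may also use the rational parametrisation
`c = (1+t²)/(1-t²)`, `s = 2t/(1-t²)`). `off`: `S = c • 1 + s • (JL a * JR b)`, `a ≠ 0`, `c² - s² = 1`: `Sᵀ = S`, `S * JL 0 * S = JL 0`
(`(JL a * JR b) * JL 0 = - JL 0 * (JL a * JR b)`, `(JL a JR b)² = 1`), `m = 1`: `ff = ((A + C) S Sᵀ).trace = ((A+C)(C2 • 1 + S2 • JL a JR b)).trace`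
with `C2 = c² + s² = cosh 2t`, `S2 = 2cs = sinh 2t`. `tr`: `S = 1`, `m = diag(c + s, c - s)` (det = 1): `ff = (c+s)² tr A + (c-s)² tr C`
`= C2 tr(A + C) + S2 tr(A - C)`. `tB`: `m = !![c, s; s, c]`: `ff = (c² + s²) tr (A + C) + 4 c s tr B`.
-/

set_option autoImplicit false

open Matrix Finset

namespace H79T

open Pool.Agent.H69Hopf (Arr IsAlgCurv ev area2 idA)
open H30K (gb KB Cyc)
open H21C (Ty)

theorem cosh_lem {a b : ℝ} (h : ∀ c s : ℝ, c ^ 2 - s ^ 2 = 1 → a ≤ (c ^ 2 + s ^ 2) * a + (2 * c * s) * b) : b = 0 := by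
  by_contra hb
  have hb' : 0 < |b| := abs_pos.mpr hb
  have key : ∀ t : ℝ, 0 < t → |b| ≤ t * a := by
    intro t ht
    have hsq : √(1 + t ^ 2) ^ 2 = 1 + t ^ 2 := Real.sq_sqrt (by positivity)
    have hc1 : 1 ≤ √(1 + t ^ 2) := by
      rw [Real.one_le_sqrt]
      nlinarith [sq_nonneg t]
    have h1 := h (√(1 + t ^ 2)) t (by rw [hsq]; ring)
    have h2 := h (√(1 + t ^ 2)) (-t) (by rw [hsq]; ring)
    rw [hsq] at h1 h2
    have h3 : 0 ≤ (2 * t) * (t * a + √(1 + t ^ 2) * b) := by nlinarith [h1]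
    have h4 : 0 ≤ (2 * t) * (t * a - √(1 + t ^ 2) * b) := by nlinarith [h2]
    have h5 : 0 ≤ t * a + √(1 + t ^ 2) * b := nonneg_of_mul_nonneg_right h3 (by positivity)
    have h6 : 0 ≤ t * a - √(1 + t ^ 2) * b := nonneg_of_mul_nonneg_right h4 (by positivity)
    have h7 : |√(1 + t ^ 2) * b| ≤ t * a := abs_le.mpr ⟨by linarith, by linarith⟩
    rw [abs_mul, abs_of_pos (by linarith : (0:ℝ) < √(1 + t ^ 2))] at h7
    nlinarith [abs_nonneg b]
  have h8 := key (|b| / (2 * (|a| + 1))) (by positivity)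
  have h9 : |b| / (2 * (|a| + 1)) * a ≤ |b| / (2 * (|a| + 1)) * (|a| + 1) :=
    mul_le_mul_of_nonneg_left (by linarith [le_abs_self a]) (by positivity)
  have h10 : |b| / (2 * (|a| + 1)) * (|a| + 1) = |b| / 2 := by
    have : |a| + 1 ≠ 0 := by positivity
    field_simp
  linarith

private theorem o2_comm (a b : Fin 3) (ha : a ≠ 0) : (JL a * JR b) * JL 0 = - (JL 0 * (JL a * JR b)) := by
  fin_cases a
  · exact absurd rfl ha
  all_goals
    fin_cases b <;>
    · ext i j
      fin_cases i <;> fin_cases j <;> simp [JL, JR, Matrix.mul_apply, Fin.sum_univ_four]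

private theorem o2_sq (a b : Fin 3) : (JL a * JR b) * (JL a * JR b) = 1 := by
  fin_cases a <;> fin_cases b <;>
  · ext i j
    fin_cases i <;> fin_cases j <;> simp [JL, JR, Matrix.mul_apply, Fin.sum_univ_four]

private theorem o2_tr (a b : Fin 3) : (JL a * JR b)ᵀ = JL a * JR b := by
  fin_cases a <;> fin_cases b <;>
  · ext i j
    fin_cases i <;> fin_cases j <;> simp [JL, JR, Matrix.mul_apply, Fin.sum_univ_four]

theorem opt_off {A B C : M4} (h : Opt A B C) (a b : Fin 3) (ha : a ≠ 0) : ((A + C) * (JL a * JR b)).trace = 0 := by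
  have hX := o2_comm a b ha
  have hX2 := o2_sq a b
  have hXt := o2_tr a b
  generalize JL a * JR b = X at hX hX2 hXt
  apply cosh_lem (a := (A + C).trace)
  intro c s hcs
  have hSt : (c • (1 : M4) + s • X)ᵀ = c • (1 : M4) + s • X := by
    rw [transpose_add, transpose_smul, transpose_smul, transpose_one, hXt]
  have hS : (c • (1 : M4) + s • X) * JL 0 * (c • (1 : M4) + s • X)ᵀ = JL 0 := by
    rw [hSt]
    have e1 : (c • (1 : M4) + s • X) * JL 0 = JL 0 * (c • (1 : M4) - s • X) := by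
      rw [add_mul, mul_sub, smul_mul_assoc, one_mul, smul_mul_assoc, hX, mul_smul_comm, mul_one,
        mul_smul_comm, smul_neg, sub_eq_add_neg]
    have e2 : (c • (1 : M4) - s • X) * (c • (1 : M4) + s • X) = (c ^ 2 - s ^ 2) • (1 : M4) := by
      simp only [sub_mul, mul_add, smul_mul_assoc, mul_smul_comm, one_mul, mul_one, hX2]
      module
    rw [e1, mul_assoc, e2, hcs, one_smul, mul_one]
  have h1 := h.mn (c • (1 : M4) + s • X) 1 hS (by simp)
  have e3 : ff (aA (c • (1 : M4) + s • X) 1 A B C) (aB (c • (1 : M4) + s • X) 1 A B C)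
      (aC (c • (1 : M4) + s • X) 1 A B C) = (c ^ 2 + s ^ 2) * (A + C).trace + (2 * c * s) * ((A + C) * X).trace := by
    have e4 : (c • (1 : M4) + s • X) * (c • (1 : M4) + s • X) = (c ^ 2 + s ^ 2) • (1 : M4) + (2 * c * s) • X := by
      simp only [add_mul, mul_add, smul_mul_assoc, mul_smul_comm, one_mul, mul_one, hX2]
      module
    have e5 : aA (c • (1 : M4) + s • X) 1 A B C + aC (c • (1 : M4) + s • X) 1 A B C
        = (c • (1 : M4) + s • X) * (A + C) * (c • (1 : M4) + s • X) := by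
      have e6 : (1 : M2) 0 0 = 1 := rfl
      have e7 : (1 : M2) 0 1 = 0 := rfl
      have e8 : (1 : M2) 1 0 = 0 := rfl
      have e9 : (1 : M2) 1 1 = 1 := rfl
      unfold aA aC
      rw [hSt, e6, e7, e8, e9]
      simp only [one_pow, one_smul, mul_zero, zero_smul, add_zero, ne_eq, OfNat.ofNat_ne_zero,
        not_false_eq_true, zero_pow, mul_one, zero_add]
      generalize c • (1 : M4) + s • X = S
      rw [mul_add, add_mul]
    unfold ff
    rw [e5, mul_assoc, trace_mul_comm, mul_assoc, e4, mul_add, trace_add, mul_smul_comm, mul_smul_comm,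
      mul_one, trace_smul, trace_smul, smul_eq_mul, smul_eq_mul]
  rw [e3] at h1
  exact h1

theorem opt_tr {A B C : M4} (h : Opt A B C) : A.trace = C.trace := by
  have hb : A.trace - C.trace = 0 := by
    apply cosh_lem (a := (A + C).trace)
    intro c s hcs
    have h1 := h.mn 1 !![c + s, 0; 0, c - s] (by simp) (by
      rw [det_fin_two_of]
      linarith)
    have e3 : ff (aA 1 !![c + s, 0; 0, c - s] A B C) (aB 1 !![c + s, 0; 0, c - s] A B C)
        (aC 1 !![c + s, 0; 0, c - s] A B C)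
        = (c ^ 2 + s ^ 2) * (A + C).trace + (2 * c * s) * (A.trace - C.trace) := by
      unfold ff aA aC
      simp [trace_add, trace_smul]
      ring
    rw [e3] at h1
    exact h1
  linarith

theorem opt_tB {A B C : M4} (h : Opt A B C) : B.trace = 0 := by
  have hb : 2 * B.trace = 0 := by
    apply cosh_lem (a := (A + C).trace)
    intro c s hcs
    have h1 := h.mn 1 !![c, s; s, c] (by simp) (by
      rw [det_fin_two_of]
      linarith)
    have e3 : ff (aA 1 !![c, s; s, c] A B C) (aB 1 !![c, s; s, c] A B C)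
        (aC 1 !![c, s; s, c] A B C)
        = (c ^ 2 + s ^ 2) * (A + C).trace + (2 * c * s) * (2 * B.trace) := by
      unfold ff aA aC
      simp [trace_add, trace_smul]
      ring
    rw [e3] at h1
    exact h1
  linarith

end H79T
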