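import Pool.Agent.Lib.H79T.A6
import Pool.Agent.Lib.H79T.A5

/-!
# Chunk O3 (M)
First order conditions from `Opt.mx`. `cos_lem`: if `(c² - s²) a + 2 c s b ≤ a` for all `c² + s² = 1` then `b = 0`.
Right rotations: `S = c • 1 + s • JR b`, `c² + s² = 1`: `S * Sᵀ = 1`, `S * JL 0 * Sᵀ = JL 0` (`JR b` commutes with `JL 0`), `m = 1`: `ff` does not change
(trace of `Sᵀ (A+C) S`). `r1 (SᵀAS) (SᵀCS) 0 = ((A - C) * (JL 0 * (S * JR 0 * Sᵀ))).trace / 8`. `S * JR 0 * Sᵀ` for `b = 1`: `(c²-s²) JR 0 + 2cs JR 1 JR 0`, and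
`JR 1 * JR 0 = ± JR 2` (compute the signs with the explicit matrices; they do not matter), `S * JR 1 * Sᵀ = JR 1`. So `b = 1` gives
`2 ((c²-s²) r1_0 ± 2cs r1_2) + r2_1 ≤ 2 r1_0 + r2_1`: `r1 2 = 0`. `b = 0`: `r1_0` unchanged, `JR 1 → (c²-s²) JR 1 ± 2cs JR 2`: `r2 2 = 0`. `b = 2`: `2 r1_1 ∓ r2_0 = 0`, i.e.
`JR 0 → C JR 0 + ε Σ JR 1`, `JR 1 → C JR 1 - ε Σ JR 0`: `2 r1_1 - r2_0 = 0`. Phase: `S = 1`, `m = !![c, -s; s, c]`:
`A' = c² A + 2cs B + s² C`, `C' = s² A - 2cs B + c² C`, `B' = -cs A + (c²-s²) B + cs C`: `ff` unchanged, `r1' = (c²-s²) r1 + 2cs r2`, `r2' = (c²-s²) r2 - 2cs r1`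
(`r1 = tr((A-C)..)/8`, `r2 = tr(B ..)/4`: `A' - C' = (c²-s²)(A-C) + 4cs B`, `B' = (c²-s²) B - cs (A-C)`): gives `2 r2_0 - r1_1 = 0`. Hence `r1_1 = r2_0 = 0`.
`h5`: `S = JR 0` (`JR 0 * JR 1 * JR 0ᵀ = - JR 1`): `r2_1 ≥ 0`. `h6`: `S = (1/√2)(1 + JR 2)` composed with the phase `c = s = 1/√2` (`c² - s² = 0`, `2cs = 1`; maybe with the
other sign of `JR 2`): `r1_0' = ± r2_1`, `r2_1' = ± r1_0` with the same sign, choose the sign `+`: `2 r2_1 + r1_0 ≤ 2 r1_0 + r2_1`.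
-/

set_option autoImplicit false

open Matrix Finset

namespace H79T

open Pool.Agent.H69Hopf (Arr IsAlgCurv ev area2 idA)
open H30K (gb KB Cyc)
open H21C (Ty)

theorem cos_lem {a b : ℝ} (h : ∀ c s : ℝ, c ^ 2 + s ^ 2 = 1 → (c ^ 2 - s ^ 2) * a + (2 * c * s) * b ≤ a) : b = 0 := by
  have key : ∀ t : ℝ, t * b ≤ t ^ 2 * a := by
    intro t
    have hp : (0 : ℝ) < 1 + t ^ 2 := by positivity
    have hs : (√(1 + t ^ 2)) ^ 2 = 1 + t ^ 2 := Real.sq_sqrt hp.le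
    have hs0 : √(1 + t ^ 2) ≠ 0 := (Real.sqrt_pos.2 hp).ne'
    have e1 : (1 / √(1 + t ^ 2)) ^ 2 = 1 / (1 + t ^ 2) := by rw [div_pow, hs, one_pow]
    have e2 : (t / √(1 + t ^ 2)) ^ 2 = t ^ 2 / (1 + t ^ 2) := by rw [div_pow, hs]
    have e3 : 2 * (1 / √(1 + t ^ 2)) * (t / √(1 + t ^ 2)) = 2 * t / (1 + t ^ 2) := by
      have e4 : 2 * (1 / √(1 + t ^ 2)) * (t / √(1 + t ^ 2)) = 2 * t / (√(1 + t ^ 2)) ^ 2 := by
        ring
      rw [e4, hs]
    have h1 := h (1 / √(1 + t ^ 2)) (t / √(1 + t ^ 2)) (by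
      rw [e1, e2, ← add_div, div_self hp.ne'])
    rw [e1, e2, e3] at h1
    have h2 : (1 / (1 + t ^ 2) - t ^ 2 / (1 + t ^ 2)) * a + 2 * t / (1 + t ^ 2) * b
        = ((1 - t ^ 2) * a + 2 * t * b) / (1 + t ^ 2) := by ring
    rw [h2, div_le_iff₀ hp] at h1
    nlinarith [h1]
  by_contra hb
  have h1 := key (b / (|a| + 1))
  have hp : (0 : ℝ) < |a| + 1 := by positivity
  have hb2 : 0 < b ^ 2 := by positivity
  have h2 : b / (|a| + 1) * b = b ^ 2 / (|a| + 1) := by ring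
  have h3 : (b / (|a| + 1)) ^ 2 * a = (b ^ 2 * a / (|a| + 1)) / (|a| + 1) := by
    field_simp
  rw [h2, h3, div_le_div_iff_of_pos_right hp, le_div_iff₀ hp] at h1
  have h4 : |a| + 1 ≤ a := le_of_mul_le_mul_left h1 hb2
  have h5 := le_abs_self a
  linarith

private noncomputable def o3al (A C N : M4) : ℝ := ((A - C) * N).trace / 8
private noncomputable def o3be (B N : M4) : ℝ := (B * N).trace / 4

private theorem o3al_add (A C N N' : M4) (x y : ℝ) :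
    o3al A C (x • N + y • N') = x * o3al A C N + y * o3al A C N' := by
  unfold o3al
  rw [Matrix.mul_add, Matrix.mul_smul, Matrix.mul_smul, Matrix.trace_add, Matrix.trace_smul, Matrix.trace_smul,
    smul_eq_mul, smul_eq_mul]
  ring

private theorem o3be_add (B N N' : M4) (x y : ℝ) :
    o3be B (x • N + y • N') = x * o3be B N + y * o3be B N' := by
  unfold o3be
  rw [Matrix.mul_add, Matrix.mul_smul, Matrix.mul_smul, Matrix.trace_add, Matrix.trace_smul, Matrix.trace_smul,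
    smul_eq_mul, smul_eq_mul]
  ring

private theorem o3_cyc (S M N : M4) : (Sᵀ * M * S * N).trace = (M * (S * N * Sᵀ)).trace := by
  have h := Matrix.trace_mul_comm Sᵀ (M * S * N)
  simpa only [Matrix.mul_assoc] using h

/-- the inequality for a rotation `S` and a phase `c, s` -/
private theorem o3_main {A B C : M4} (h : Opt A B C) {S : M4} (hS : S * Sᵀ = 1) (hJ : S * JL 0 * Sᵀ = JL 0)
    {c s : ℝ} (hcs : c ^ 2 + s ^ 2 = 1) :
    2 * ((c ^ 2 - s ^ 2) * o3al A C (S * (JL 0 * JR 0) * Sᵀ) + 2 * c * s * o3be B (S * (JL 0 * JR 0) * Sᵀ))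
      + ((c ^ 2 - s ^ 2) * o3be B (S * (JL 0 * JR 1) * Sᵀ) - 2 * c * s * o3al A C (S * (JL 0 * JR 1) * Sᵀ))
      ≤ 2 * r1 A C 0 + r2 B 1 := by
  have hdet : (!![c, -s; s, c] : M2).det = 1 := by
    rw [Matrix.det_fin_two_of]
    linarith [hcs]
  have hA : aA S !![c, -s; s, c] A B C = Sᵀ * (c ^ 2 • A + (2 * c * s) • B + s ^ 2 • C) * S := rfl
  have hB : aB S !![c, -s; s, c] A B C = Sᵀ * ((c * -s) • A + (c * c + -s * s) • B + (s * c) • C) * S := rfl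
  have hC : aC S !![c, -s; s, c] A B C = Sᵀ * ((-s) ^ 2 • A + (2 * (-s) * c) • B + c ^ 2 • C) * S := rfl
  have hff : ff (aA S !![c, -s; s, c] A B C) (aB S !![c, -s; s, c] A B C) (aC S !![c, -s; s, c] A B C) = ff A B C := by
    unfold ff
    rw [hA, hC, ← Matrix.add_mul, ← Matrix.mul_add]
    have e1 : c ^ 2 • A + (2 * c * s) • B + s ^ 2 • C + ((-s) ^ 2 • A + (2 * (-s) * c) • B + c ^ 2 • C) = A + C := by
      have e2 : c ^ 2 • A + (2 * c * s) • B + s ^ 2 • C + ((-s) ^ 2 • A + (2 * (-s) * c) • B + c ^ 2 • C)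
          = (c ^ 2 + s ^ 2) • (A + C) := by
        ext i j
        simp only [Matrix.add_apply, Matrix.smul_apply, smul_eq_mul]
        ring
      rw [e2, hcs, one_smul]
    rw [e1]
    have e3 := o3_cyc S (A + C) 1
    rw [Matrix.mul_one, Matrix.mul_one, hS, Matrix.mul_one] at e3
    exact e3
  have h1 := h.mx S !![c, -s; s, c] hJ hdet hff
  have h2 : ph (aA S !![c, -s; s, c] A B C) (aB S !![c, -s; s, c] A B C) (aC S !![c, -s; s, c] A B C)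
      = 2 * ((c ^ 2 - s ^ 2) * o3al A C (S * (JL 0 * JR 0) * Sᵀ) + 2 * c * s * o3be B (S * (JL 0 * JR 0) * Sᵀ))
      + ((c ^ 2 - s ^ 2) * o3be B (S * (JL 0 * JR 1) * Sᵀ) - 2 * c * s * o3al A C (S * (JL 0 * JR 1) * Sᵀ)) := by
    unfold ph r1 r2
    rw [hA, hB, hC]
    have e1 : Sᵀ * (c ^ 2 • A + (2 * c * s) • B + s ^ 2 • C) * S
        - Sᵀ * ((-s) ^ 2 • A + (2 * (-s) * c) • B + c ^ 2 • C) * S
        = Sᵀ * ((c ^ 2 - s ^ 2) • (A - C) + (4 * c * s) • B) * S := by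
      rw [← Matrix.sub_mul, ← Matrix.mul_sub]
      congr 2
      ext i j
      simp only [Matrix.add_apply, Matrix.sub_apply, Matrix.smul_apply, smul_eq_mul]
      ring
    have e2 : (c * -s) • A + (c * c + -s * s) • B + (s * c) • C
        = (c ^ 2 - s ^ 2) • B + (-(c * s)) • (A - C) := by
      ext i j
      simp only [Matrix.add_apply, Matrix.sub_apply, Matrix.smul_apply, smul_eq_mul]
      ring
    rw [e1, e2, o3_cyc, o3_cyc]
    unfold o3al o3be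
    simp only [Matrix.add_mul, Matrix.smul_mul, Matrix.trace_add, Matrix.trace_smul, smul_eq_mul]
    ring
  rw [h2] at h1
  exact h1

private theorem o3_one {A B C : M4} (h : Opt A B C) {c s : ℝ} (hcs : c ^ 2 + s ^ 2 = 1) :
    2 * ((c ^ 2 - s ^ 2) * r1 A C 0 + 2 * c * s * r2 B 0)
      + ((c ^ 2 - s ^ 2) * r2 B 1 - 2 * c * s * r1 A C 1) ≤ 2 * r1 A C 0 + r2 B 1 := by
  have h1 := o3_main h (S := 1) (by rw [Matrix.transpose_one, Matrix.mul_one])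
    (by rw [Matrix.transpose_one, Matrix.mul_one, Matrix.one_mul]) hcs
  rw [Matrix.transpose_one, Matrix.mul_one, Matrix.one_mul, Matrix.mul_one, Matrix.one_mul] at h1
  exact h1

private theorem o3_rot {A B C : M4} (h : Opt A B C) (b : Fin 3) {x y : ℝ} (hxy : x ^ 2 + y ^ 2 = 1)
    {c s : ℝ} (hcs : c ^ 2 + s ^ 2 = 1) {u v : Fin 3 → ℝ}
    (hu : (x • (1 : M4) + y • JR b) * (JL 0 * JR 0) * (x • (1 : M4) + y • JR b)ᵀ
      = u 0 • (JL 0 * JR 0) + (u 1 • (JL 0 * JR 1) + u 2 • (JL 0 * JR 2)))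
    (hv : (x • (1 : M4) + y • JR b) * (JL 0 * JR 1) * (x • (1 : M4) + y • JR b)ᵀ
      = v 0 • (JL 0 * JR 0) + (v 1 • (JL 0 * JR 1) + v 2 • (JL 0 * JR 2))) :
    2 * ((c ^ 2 - s ^ 2) * (u 0 * r1 A C 0 + u 1 * r1 A C 1 + u 2 * r1 A C 2)
      + 2 * c * s * (u 0 * r2 B 0 + u 1 * r2 B 1 + u 2 * r2 B 2))
      + ((c ^ 2 - s ^ 2) * (v 0 * r2 B 0 + v 1 * r2 B 1 + v 2 * r2 B 2)
      - 2 * c * s * (v 0 * r1 A C 0 + v 1 * r1 A C 1 + v 2 * r1 A C 2)) ≤ 2 * r1 A C 0 + r2 B 1 := by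
  have hS : (x • (1 : M4) + y • JR b) * (x • (1 : M4) + y • JR b)ᵀ = 1 := by
    have e : (x • (1 : M4) + y • JR b) * (x • (1 : M4) + y • JR b)ᵀ = (x ^ 2 + y ^ 2) • (1 : M4) := by
      fin_cases b <;>
      · ext i j
        fin_cases i <;> fin_cases j <;>
        · simp [JR, Matrix.mul_apply, Fin.sum_univ_four, Matrix.one_apply, Matrix.transpose_apply]
          try ring
    rw [e, hxy, one_smul]
  have hJ : (x • (1 : M4) + y • JR b) * JL 0 * (x • (1 : M4) + y • JR b)ᵀ = JL 0 := by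
    have e : (x • (1 : M4) + y • JR b) * JL 0 * (x • (1 : M4) + y • JR b)ᵀ = (x ^ 2 + y ^ 2) • JL 0 := by
      fin_cases b <;>
      · ext i j
        fin_cases i <;> fin_cases j <;>
        · simp [JR, JL, Matrix.mul_apply, Fin.sum_univ_four, Matrix.one_apply, Matrix.transpose_apply]
          try ring
    rw [e, hxy, one_smul]
  have h1 := o3_main h hS hJ hcs
  rw [hu, hv] at h1
  have ea : ∀ w : Fin 3 → ℝ, o3al A C (w 0 • (JL 0 * JR 0) + (w 1 • (JL 0 * JR 1) + w 2 • (JL 0 * JR 2)))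
      = w 0 * r1 A C 0 + w 1 * r1 A C 1 + w 2 * r1 A C 2 := by
    intro w
    unfold o3al r1
    simp only [Matrix.mul_add, Matrix.mul_smul, Matrix.trace_add, Matrix.trace_smul, smul_eq_mul]
    ring
  have eb : ∀ w : Fin 3 → ℝ, o3be B (w 0 • (JL 0 * JR 0) + (w 1 • (JL 0 * JR 1) + w 2 • (JL 0 * JR 2)))
      = w 0 * r2 B 0 + w 1 * r2 B 1 + w 2 * r2 B 2 := by
    intro w
    unfold o3be r2
    simp only [Matrix.mul_add, Matrix.mul_smul, Matrix.trace_add, Matrix.trace_smul, smul_eq_mul]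
    ring
  rw [ea, ea, eb, eb] at h1
  exact h1

private theorem o3_b0 (x y : ℝ) :
    ((x • (1 : M4) + y • JR 0) * (JL 0 * JR 0) * (x • (1 : M4) + y • JR 0)ᵀ
      = (![x ^ 2 + y ^ 2, 0, 0] : Fin 3 → ℝ) 0 • (JL 0 * JR 0) + ((![x ^ 2 + y ^ 2, 0, 0] : Fin 3 → ℝ) 1 • (JL 0 * JR 1)
        + (![x ^ 2 + y ^ 2, 0, 0] : Fin 3 → ℝ) 2 • (JL 0 * JR 2))) ∧
    ((x • (1 : M4) + y • JR 0) * (JL 0 * JR 1) * (x • (1 : M4) + y • JR 0)ᵀ
      = (![0, x ^ 2 - y ^ 2, -(2 * x * y)] : Fin 3 → ℝ) 0 • (JL 0 * JR 0)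
        + ((![0, x ^ 2 - y ^ 2, -(2 * x * y)] : Fin 3 → ℝ) 1 • (JL 0 * JR 1)
        + (![0, x ^ 2 - y ^ 2, -(2 * x * y)] : Fin 3 → ℝ) 2 • (JL 0 * JR 2))) := by
  constructor <;>
  · ext i j
    fin_cases i <;> fin_cases j <;>
    · simp [JR, JL, Matrix.mul_apply, Fin.sum_univ_four, Matrix.one_apply, Matrix.transpose_apply]
      try ring

private theorem o3_b1 (x y : ℝ) :
    ((x • (1 : M4) + y • JR 1) * (JL 0 * JR 0) * (x • (1 : M4) + y • JR 1)ᵀ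
      = (![x ^ 2 - y ^ 2, 0, 2 * x * y] : Fin 3 → ℝ) 0 • (JL 0 * JR 0)
        + ((![x ^ 2 - y ^ 2, 0, 2 * x * y] : Fin 3 → ℝ) 1 • (JL 0 * JR 1)
        + (![x ^ 2 - y ^ 2, 0, 2 * x * y] : Fin 3 → ℝ) 2 • (JL 0 * JR 2))) ∧
    ((x • (1 : M4) + y • JR 1) * (JL 0 * JR 1) * (x • (1 : M4) + y • JR 1)ᵀ
      = (![0, x ^ 2 + y ^ 2, 0] : Fin 3 → ℝ) 0 • (JL 0 * JR 0) + ((![0, x ^ 2 + y ^ 2, 0] : Fin 3 → ℝ) 1 • (JL 0 * JR 1)
        + (![0, x ^ 2 + y ^ 2, 0] : Fin 3 → ℝ) 2 • (JL 0 * JR 2))) := by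
  constructor <;>
  · ext i j
    fin_cases i <;> fin_cases j <;>
    · simp [JR, JL, Matrix.mul_apply, Fin.sum_univ_four, Matrix.one_apply, Matrix.transpose_apply]
      try ring

private theorem o3_b2 (x y : ℝ) :
    ((x • (1 : M4) + y • JR 2) * (JL 0 * JR 0) * (x • (1 : M4) + y • JR 2)ᵀ
      = (![x ^ 2 - y ^ 2, -(2 * x * y), 0] : Fin 3 → ℝ) 0 • (JL 0 * JR 0)
        + ((![x ^ 2 - y ^ 2, -(2 * x * y), 0] : Fin 3 → ℝ) 1 • (JL 0 * JR 1)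
        + (![x ^ 2 - y ^ 2, -(2 * x * y), 0] : Fin 3 → ℝ) 2 • (JL 0 * JR 2))) ∧
    ((x • (1 : M4) + y • JR 2) * (JL 0 * JR 1) * (x • (1 : M4) + y • JR 2)ᵀ
      = (![2 * x * y, x ^ 2 - y ^ 2, 0] : Fin 3 → ℝ) 0 • (JL 0 * JR 0)
        + ((![2 * x * y, x ^ 2 - y ^ 2, 0] : Fin 3 → ℝ) 1 • (JL 0 * JR 1)
        + (![2 * x * y, x ^ 2 - y ^ 2, 0] : Fin 3 → ℝ) 2 • (JL 0 * JR 2))) := by
  constructor <;>
  · ext i j
    fin_cases i <;> fin_cases j <;>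
    · simp [JR, JL, Matrix.mul_apply, Fin.sum_univ_four, Matrix.one_apply, Matrix.transpose_apply]
      try ring

private theorem o3_pair {A B C : M4} (h : Opt A B C) : r1 A C 1 = 0 ∧ r2 B 0 = 0 := by
  have h1 : 2 * r2 B 0 - r1 A C 1 = 0 := by
    refine cos_lem (a := 2 * r1 A C 0 + r2 B 1) fun c s hcs => ?_
    have e := o3_one h hcs
    linarith [e]
  have h2 : r2 B 0 - 2 * r1 A C 1 = 0 := by
    refine cos_lem (a := 2 * r1 A C 0 + r2 B 1) fun x y hxy => ?_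
    have e := o3_rot h 2 hxy (c := 1) (s := 0) (by norm_num) (o3_b2 x y).1 (o3_b2 x y).2
    simp only [Matrix.cons_val_zero, Matrix.cons_val_one, Matrix.cons_val] at e
    linarith [e]
  constructor <;> linarith

theorem opt_h1 {A B C : M4} (h : Opt A B C) : r1 A C 1 = 0 := by
  exact (o3_pair h).1

theorem opt_h2 {A B C : M4} (h : Opt A B C) : r1 A C 2 = 0 := by
  refine cos_lem (a := r1 A C 0) fun x y hxy => ?_
  have e := o3_rot h 1 hxy (c := 1) (s := 0) (by norm_num) (o3_b1 x y).1 (o3_b1 x y).2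
  simp only [Matrix.cons_val_zero, Matrix.cons_val_one, Matrix.cons_val] at e
  rw [hxy] at e
  linarith [e]

theorem opt_h3 {A B C : M4} (h : Opt A B C) : r2 B 0 = 0 := by
  exact (o3_pair h).2

theorem opt_h4 {A B C : M4} (h : Opt A B C) : r2 B 2 = 0 := by
  have h1 : -(r2 B 2) = 0 := by
    refine cos_lem (a := r2 B 1) fun x y hxy => ?_
    have e := o3_rot h 0 hxy (c := 1) (s := 0) (by norm_num) (o3_b0 x y).1 (o3_b0 x y).2
    simp only [Matrix.cons_val_zero, Matrix.cons_val_one, Matrix.cons_val] at e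
    rw [hxy] at e
    linarith [e]
  linarith

theorem opt_h5 {A B C : M4} (h : Opt A B C) : 0 ≤ r2 B 1 := by
  have e := o3_rot h 0 (x := 0) (y := 1) (by norm_num) (c := 1) (s := 0) (by norm_num) (o3_b0 0 1).1 (o3_b0 0 1).2
  simp only [Matrix.cons_val_zero, Matrix.cons_val_one, Matrix.cons_val] at e
  linarith [e]

theorem opt_h6 {A B C : M4} (h : Opt A B C) : r2 B 1 ≤ r1 A C 0 := by
  have h2 : (√(1 / 2 : ℝ)) ^ 2 = 1 / 2 := Real.sq_sqrt (by norm_num)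
  have e := o3_rot h 2 (x := √(1 / 2)) (y := √(1 / 2)) (by rw [h2]; norm_num) (c := √(1 / 2)) (s := -√(1 / 2))
    (by rw [neg_sq, h2]; norm_num) (o3_b2 _ _).1 (o3_b2 _ _).2
  simp only [Matrix.cons_val_zero, Matrix.cons_val_one, Matrix.cons_val] at e
  have h3 : 2 * √(1 / 2 : ℝ) * √(1 / 2) = 1 := by rw [mul_assoc, ← pow_two, h2]; norm_num
  have h4 : 2 * √(1 / 2 : ℝ) * -√(1 / 2) = -1 := by rw [mul_neg, h3]
  rw [neg_sq, h2, h3, h4] at e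
  linarith [e]

end H79T
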