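import Pool.Agent.Lib.H79T.A6
import Pool.Agent.Lib.H79T.N4
import Pool.Agent.Lib.H79T.O1
import Pool.Agent.Lib.H79T.O2
import Pool.Agent.Lib.H79T.O3

/-!
# Chunk O4 (M)
Normal form. `x0` from `exists_min` for `Wm A B C` (`W_null` gives the hypothesis; here it is the hypothesis `hmin`), `X0 = sk x0`, `(g, m)` from `exists_opt`;
`A' = aA g m ..`, `WW A' B' C' X Y = WW A B C (g X gᵀ) (g Y gᵀ)` (`WW_act`). `det g = pf X0 = 1` (`det_of`). For every skew `X` with `pf X = 1`:
`g X gᵀ` is skew with `pf = det g * pf X = 1` (`pf_conj`), `= sk x`, `stf x = 1` (`skew_sk`, `pf_sk`), so `WW A' B' C' X X ≥ WW A' B' C' (JL 0) (JL 0)` (`WW_sum`: `q6 (Wm ..) x = WW (sk x)(sk x)`).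
`W0`: apply this to `X = c JL 0 + s JJ b`: for `b = 1, 2` `pf X = c² + s² = 1`; for `b = 3, 4, 5` `pf X = c² - s² = 1`; first order in the parameter
(`cos_lem`, `cosh_lem` style: `c² w00 + 2cs w0b + s² wbb ≥ w00`; use `c = (1-t²)/(1+t²)`, `s = 2t/(1+t²)` resp. `c = (1+t²)/(1-t²)`, `s = 2t/(1-t²)`: `4t(1∓..)w0b + 4t²(..) ≥ 0` for small `t` of
both signs). Symmetry of `A', B', C'`: transpose of `Sᵀ (..) S`.
-/

set_option autoImplicit false

open Matrix Finset

namespace H79T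

open Pool.Agent.H69Hopf (Arr IsAlgCurv ev area2 idA)
open H30K (gb KB Cyc)
open H21C (Ty)

theorem o4_q6 (A B C : M4) (x : Fin 6 → ℝ) : q6 (Wm A B C) x = WW A B C (sk x) (sk x) := by
  rw [WW_sum]
  unfold q6 dotProduct Matrix.mulVec dotProduct
  refine Finset.sum_congr rfl fun a _ => ?_
  rw [Finset.mul_sum]
  refine Finset.sum_congr rfl fun b _ => ?_
  ring

theorem o4_comb (A B C X Y : M4) (c s : ℝ) :
    WW A B C (c • X + s • Y) (c • X + s • Y) =
      c ^ 2 * WW A B C X X + 2 * c * s * WW A B C X Y + s ^ 2 * WW A B C Y Y := by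
  have hs : WW A B C Y X = WW A B C X Y := WW_symm A B C Y X
  have he : WW A B C (c • X + s • Y) (c • X + s • Y) =
      c ^ 2 * WW A B C X X + c * s * WW A B C X Y + c * s * WW A B C Y X + s ^ 2 * WW A B C Y Y := by
    unfold WW
    simp only [mul_add, add_mul, Matrix.smul_mul, Matrix.mul_smul, smul_smul, Matrix.trace_add, Matrix.trace_smul,
      smul_eq_mul]
    ring
  rw [he, hs]
  ring

theorem o4_first {e w K : ℝ} (he : e = 1 ∨ e = -1)
    (h : ∀ c s : ℝ, c ^ 2 + e * s ^ 2 = 1 → 0 ≤ 2 * c * s * w + s ^ 2 * K) : w = 0 := by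
  by_contra hw
  have hw' : 0 < |w| := abs_pos.mpr hw
  have key : ∀ t : ℝ, |t| ≤ 1 / 2 → 0 ≤ t * ((1 - e * t ^ 2) * w + t * K) := by
    intro t ht
    have ht2 : t ^ 2 ≤ 1 / 4 := by
      have := sq_abs t
      nlinarith [abs_nonneg t]
    have hp : 0 < 1 + e * t ^ 2 := by
      rcases he with he | he <;> rw [he] <;> nlinarith [sq_nonneg t]
    have h1 := h ((1 - e * t ^ 2) / (1 + e * t ^ 2)) (2 * t / (1 + e * t ^ 2)) (by
      field_simp
      ring)
    have h2 : 2 * ((1 - e * t ^ 2) / (1 + e * t ^ 2)) * (2 * t / (1 + e * t ^ 2)) * w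
        + (2 * t / (1 + e * t ^ 2)) ^ 2 * K
        = (4 / (1 + e * t ^ 2) ^ 2) * (t * ((1 - e * t ^ 2) * w + t * K)) := by
      field_simp
      ring
    rw [h2] at h1
    exact nonneg_of_mul_nonneg_right h1 (by positivity)
  have key2 : ∀ t : ℝ, 0 < t → t ≤ 1 / 2 → (3 / 4) * |w| ≤ t * |K| := by
    intro t ht ht1
    have h1 := key t (by rw [abs_of_pos ht]; exact ht1)
    have h2 := key (-t) (by rw [abs_neg, abs_of_pos ht]; exact ht1)
    have h3 : 0 ≤ (1 - e * t ^ 2) * w + t * K := nonneg_of_mul_nonneg_right h1 ht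
    have h4 : 0 ≤ -((1 - e * t ^ 2) * w) + t * K := by
      have h5 : 0 ≤ t * (-((1 - e * t ^ 2) * w) + t * K) := by nlinarith [h2]
      exact nonneg_of_mul_nonneg_right h5 ht
    have h6 : |(1 - e * t ^ 2) * w| ≤ t * K := abs_le.mpr ⟨by linarith, by linarith⟩
    have h7 : (3 : ℝ) / 4 ≤ 1 - e * t ^ 2 := by
      rcases he with he | he <;> rw [he] <;> nlinarith [sq_nonneg t]
    rw [abs_mul, abs_of_nonneg (by linarith : (0 : ℝ) ≤ 1 - e * t ^ 2)] at h6
    have h8 : t * K ≤ t * |K| := mul_le_mul_of_nonneg_left (le_abs_self K) ht.le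
    nlinarith [abs_nonneg w]
  have hK : 0 < |K| + |w| + 1 := by positivity
  have h8 := key2 (|w| / (2 * (|K| + |w| + 1))) (by positivity) (by
    rw [div_le_div_iff₀ (by positivity) (by norm_num)]
    nlinarith [abs_nonneg K, abs_nonneg w])
  have h9 : |w| / (2 * (|K| + |w| + 1)) * |K| ≤ |w| / (2 * (|K| + |w| + 1)) * (|K| + |w| + 1) :=
    mul_le_mul_of_nonneg_left (by linarith) (by positivity)
  have h10 : |w| / (2 * (|K| + |w| + 1)) * (|K| + |w| + 1) = |w| / 2 := by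
    field_simp
  linarith

theorem o4_pf (b : Fin 6) (hb : b ≠ 0) (c s : ℝ) :
    (c • JL 0 + s • JJ b)ᵀ = -(c • JL 0 + s • JJ b) ∧ pf (c • JL 0 + s • JJ b) = c ^ 2 + sg b * s ^ 2 := by
  have e : sk (Function.update (Function.update (0 : Fin 6 → ℝ) 0 c) b s) = c • JL 0 + s • JJ b := by
    fin_cases b
    · exact absurd rfl hb
    all_goals
      simp [sk, Fin.sum_univ_succ, JJ, Function.update]
  rw [← e]
  refine ⟨sk_skew _, ?_⟩
  rw [pf_sk]
  fin_cases b
  · exact absurd rfl hb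
  all_goals
    simp [stf, sg, Fin.sum_univ_succ, Function.update]

theorem exists_NF {d : ℝ} (hd : 0 < d) {A B C : M4} (hA : Aᵀ = A) (hB : Bᵀ = B) (hC : Cᵀ = C) (hp : Pos1s d A B C)
    (x0 : Fin 6 → ℝ) (h1 : stf x0 = 1) (hneg : q6 (Wm A B C) x0 < 0) (hmin : ∀ x, stf x = 1 → q6 (Wm A B C) x0 ≤ q6 (Wm A B C) x) :
    ∃ (g : M4) (m : M2), g.det = 1 ∧ m.det = 1 ∧ NF (aA g m A B C) (aB g m A B C) (aC g m A B C) := by
  obtain ⟨g, m, hg, hm, ho⟩ := exists_opt hd hp (sk x0) (sk_skew x0) (by rw [pf_sk, h1])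
  have hgd : g.det = 1 := by
    rw [← det_of g, hg, pf_sk, h1]
  have h00 : WW (aA g m A B C) (aB g m A B C) (aC g m A B C) (JL 0) (JL 0) = q6 (Wm A B C) x0 := by
    rw [WW_act _ _ _ _ _ _ _ hm, hg, o4_q6]
  have key : ∀ X : M4, Xᵀ = -X → pf X = 1 →
      WW (aA g m A B C) (aB g m A B C) (aC g m A B C) (JL 0) (JL 0) ≤
        WW (aA g m A B C) (aB g m A B C) (aC g m A B C) X X := by
    intro X hX hpX
    have hs : (g * X * gᵀ)ᵀ = -(g * X * gᵀ) := by
      rw [transpose_mul, transpose_mul, transpose_transpose, hX, Matrix.neg_mul, Matrix.mul_neg,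
        Matrix.mul_assoc]
    obtain ⟨x, hx⟩ := skew_sk _ hs
    have hst : stf x = 1 := by
      rw [← pf_sk, hx, pf_conj g X hX, hgd, hpX, one_mul]
    have h2 := hmin x hst
    rw [h00, WW_act _ _ _ _ _ _ _ hm, ← hx, ← o4_q6]
    exact h2
  refine ⟨g, m, hgd, hm, ?_⟩
  refine
    { sA := ?_
      sB := ?_
      sC := ?_
      tr := opt_tr ho
      tB := opt_tB ho
      off := fun a b ha => opt_off ho a b ha
      W0 := ?_
      ng := ?_
      h1 := opt_h1 ho
      h2 := opt_h2 ho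
      h3 := opt_h3 ho
      h4 := opt_h4 ho
      h5 := opt_h5 ho
      h6 := opt_h6 ho }
  · unfold aA
    simp only [transpose_mul, transpose_add, transpose_smul, transpose_transpose, hA, hB, hC, Matrix.mul_assoc]
  · unfold aB
    simp only [transpose_mul, transpose_add, transpose_smul, transpose_transpose, hA, hB, hC, Matrix.mul_assoc]
  · unfold aC
    simp only [transpose_mul, transpose_add, transpose_smul, transpose_transpose, hA, hB, hC, Matrix.mul_assoc]
  · intro b hb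
    have hsg : sg b = 1 ∨ sg b = -1 := by
      fin_cases b <;> simp [sg]
    apply o4_first hsg (K := WW (aA g m A B C) (aB g m A B C) (aC g m A B C) (JJ b) (JJ b)
      - sg b * WW (aA g m A B C) (aB g m A B C) (aC g m A B C) (JL 0) (JL 0))
    intro c s hcs
    obtain ⟨p1, p2⟩ := o4_pf b hb c s
    have h3 := key _ p1 (by rw [p2, hcs])
    rw [o4_comb] at h3
    have hc2 : c ^ 2 = 1 - sg b * s ^ 2 := by linarith
    rw [hc2] at h3
    linarith
  · rw [h00]
    exact hneg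

end H79T
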