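import Pool.Agent.Lib.H79T.W1
import Pool.Agent.Lib.H79T.N1
import Pool.Agent.Lib.H79T.A6

/-!
# Chunk W2 (M)
`W_null`: `x ≠ 0`, `stf x = 0`: `x = g6 u v` (`null_dec`), `sk x = 2 (u ∧ v)` (`sk_g6`), `q6 (Wm A B C) x = WW A B C (sk x) (sk x) = 4 WW (u∧v)(u∧v)`
(`WW_sum`, linearity). `u, v` are linearly independent because `x ≠ 0` (`g6 u v = 0` if they are dependent: `sk` injective). In the plane of
`u, v` choose an orthonormal basis (Gram-Schmidt: `u' = u/|u|`, `v' = (v - <v,u'>u')/|..|`, `u ∧ v = c u' ∧ v'`, `c ≠ 0`), so that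
`|s u' + t v'|² = s² + t²`, and apply `two_two` to `a1 = u'Au'` etc.: the hypothesis is `Pos1s` at `x = s u' + t v'`
(`MM A B C (e • x) (f • x) = e² xAx + 2 e f xBx + f² xCx`), `WW_wd` for the value.
-/

set_option autoImplicit false

open Matrix Finset

namespace H79T

open Pool.Agent.H69Hopf (Arr IsAlgCurv ev area2 idA)
open H30K (gb KB Cyc)
open H21C (Ty)

theorem w2_norm (u v : Fin 4 → ℝ) :
    ∑ a, (g6 u v a) ^ 2 = 2 * ((u ⬝ᵥ u) * (v ⬝ᵥ v) - (u ⬝ᵥ v) ^ 2) := by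
  simp only [g6, JJ, JL, JR, dotProduct, mulVec, Fin.sum_univ_four, Fin.sum_univ_succ, Matrix.cons_val_zero,
    Matrix.cons_val_succ, Matrix.of_apply, Matrix.cons_val', Matrix.cons_val_one, Matrix.cons_val, Fin.sum_univ_zero,
    Fin.succ_zero_eq_one, Fin.succ_one_eq_two, Fin.isValue]
  ring

theorem w2_pos (u v : Fin 4 → ℝ) (h : g6 u v ≠ 0) : 0 < (u ⬝ᵥ u) * (v ⬝ᵥ v) - (u ⬝ᵥ v) ^ 2 := by
  have h1 := w2_norm u v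
  have h2 : 0 < ∑ a, (g6 u v a) ^ 2 := by
    obtain ⟨a, ha⟩ := Function.ne_iff.mp h
    refine Finset.sum_pos' (fun i _ => sq_nonneg _) ⟨a, Finset.mem_univ a, ?_⟩
    exact lt_of_le_of_ne (sq_nonneg _) (Ne.symm (pow_ne_zero 2 ha))
  linarith

theorem w2_gram (u v : Fin 4 → ℝ) (h : g6 u v ≠ 0) :
    ∃ c : ℝ, 0 < c ∧ ∀ s t : ℝ, c * (s ^ 2 + t ^ 2) ≤ (s • u + t • v) ⬝ᵥ (s • u + t • v) := by
  have hD := w2_pos u v h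
  have ha : 0 ≤ u ⬝ᵥ u := by
    simp only [dotProduct]; exact Finset.sum_nonneg fun i _ => mul_self_nonneg _
  have hg : 0 ≤ v ⬝ᵥ v := by
    simp only [dotProduct]; exact Finset.sum_nonneg fun i _ => mul_self_nonneg _
  have hc : v ⬝ᵥ u = u ⬝ᵥ v := dotProduct_comm v u
  have hs : 0 < u ⬝ᵥ u + v ⬝ᵥ v := by
    rcases ha.eq_or_lt with h0 | h0
    · exfalso
      rw [← h0] at hD
      nlinarith [sq_nonneg (u ⬝ᵥ v)]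
    · linarith
  refine ⟨((u ⬝ᵥ u) * (v ⬝ᵥ v) - (u ⬝ᵥ v) ^ 2) / (u ⬝ᵥ u + v ⬝ᵥ v), div_pos hD hs, fun s t => ?_⟩
  have he : (s • u + t • v) ⬝ᵥ (s • u + t • v) = s ^ 2 * (u ⬝ᵥ u) + 2 * s * t * (u ⬝ᵥ v) + t ^ 2 * (v ⬝ᵥ v) := by
    simp only [add_dotProduct, dotProduct_add, smul_dotProduct, dotProduct_smul, smul_eq_mul, hc]
    ring
  rw [he, div_mul_eq_mul_div, div_le_iff₀ hs]
  nlinarith [sq_nonneg ((u ⬝ᵥ u) * s + (u ⬝ᵥ v) * t), sq_nonneg ((u ⬝ᵥ v) * s + (v ⬝ᵥ v) * t)]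

theorem w2_sym {A : M4} (hA : Aᵀ = A) (u v : Fin 4 → ℝ) : v ⬝ᵥ (A *ᵥ u) = u ⬝ᵥ (A *ᵥ v) := by
  calc v ⬝ᵥ (A *ᵥ u) = (v ᵥ* A) ⬝ᵥ u := by rw [dotProduct_mulVec]
    _ = (Aᵀ *ᵥ v) ⬝ᵥ u := by rw [mulVec_transpose]
    _ = u ⬝ᵥ (A *ᵥ v) := by rw [hA, dotProduct_comm]

theorem w2_quad {A : M4} (hA : Aᵀ = A) (u v : Fin 4 → ℝ) (s t : ℝ) :
    (s • u + t • v) ⬝ᵥ (A *ᵥ (s • u + t • v)) =
      (u ⬝ᵥ (A *ᵥ u)) * s ^ 2 + 2 * (u ⬝ᵥ (A *ᵥ v)) * s * t + (v ⬝ᵥ (A *ᵥ v)) * t ^ 2 := by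
  simp only [mulVec_add, mulVec_smul, add_dotProduct, dotProduct_add, smul_dotProduct, dotProduct_smul, smul_eq_mul,
    w2_sym hA u v]
  ring

theorem w2_MM (A B C : M4) (x : Fin 4 → ℝ) (e f : ℝ) :
    MM A B C (e • x) (f • x) = e ^ 2 * (x ⬝ᵥ (A *ᵥ x)) + 2 * e * f * (x ⬝ᵥ (B *ᵥ x)) + f ^ 2 * (x ⬝ᵥ (C *ᵥ x)) := by
  simp only [MM, mulVec_smul, smul_dotProduct, dotProduct_smul, smul_eq_mul]
  ring

theorem w2_smul (x : Fin 6 → ℝ) (u v : Fin 4 → ℝ) (hx : x = g6 u v) :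
    sk x = (2 : ℝ) • (vecMulVec u v - vecMulVec v u) := by
  rw [← sk_g6, hx]
  simp only [sk, Finset.smul_sum, smul_smul]
  refine Finset.sum_congr rfl fun a _ => ?_
  congr 1
  ring

theorem w2_WW (A B C X : M4) : WW A B C ((2 : ℝ) • X) ((2 : ℝ) • X) = 4 * WW A B C X X := by
  simp only [WW, mul_smul_comm, smul_mul_assoc, trace_smul, smul_eq_mul]
  ring

theorem w2_q6 (A B C : M4) (x : Fin 6 → ℝ) : q6 (Wm A B C) x = WW A B C (sk x) (sk x) := by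
  rw [WW_sum]
  simp only [q6, dotProduct, mulVec, Finset.mul_sum]
  refine Finset.sum_congr rfl fun a _ => Finset.sum_congr rfl fun b _ => ?_
  ring

theorem W_null {d : ℝ} (hd : 0 < d) {A B C : M4} (hA : Aᵀ = A) (hB : Bᵀ = B) (hC : Cᵀ = C) (hp : Pos1s d A B C)
    (x : Fin 6 → ℝ) (hx : x ≠ 0) (h0 : stf x = 0) : 0 < q6 (Wm A B C) x := by
  obtain ⟨u, v, huv⟩ := null_dec x h0
  rw [w2_q6, w2_smul x u v huv, w2_WW, WW_wd A B C hA hB hC u v]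
  obtain ⟨c, hc, hcs⟩ := w2_gram u v (huv ▸ hx)
  have h2 := two_two (d * c) (u ⬝ᵥ (A *ᵥ u)) (u ⬝ᵥ (A *ᵥ v)) (v ⬝ᵥ (A *ᵥ v)) (u ⬝ᵥ (B *ᵥ u)) (u ⬝ᵥ (B *ᵥ v))
    (v ⬝ᵥ (B *ᵥ v)) (u ⬝ᵥ (C *ᵥ u)) (u ⬝ᵥ (C *ᵥ v)) (v ⬝ᵥ (C *ᵥ v)) (mul_pos hd hc) (by
      intro s t e f
      have h3 := hp (s • u + t • v) e f
      rw [w2_MM, w2_quad hA, w2_quad hB, w2_quad hC] at h3
      refine le_trans ?_ h3
      have h4 := hcs s t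
      have h5 : 0 ≤ e ^ 2 + f ^ 2 := by positivity
      have h6 := mul_le_mul_of_nonneg_right h4 h5
      have h7 := mul_le_mul_of_nonneg_left h6 hd.le
      calc d * c * ((s ^ 2 + t ^ 2) * (e ^ 2 + f ^ 2)) = d * (c * (s ^ 2 + t ^ 2) * (e ^ 2 + f ^ 2)) := by ring
        _ ≤ _ := h7)
  linarith

end H79T
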