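import Pool.Agent.Lib.H79T.B8
import Pool.Agent.Lib.H79T.G2
import Pool.Agent.Lib.H79T.G4
import Pool.Agent.Lib.H79T.O4
import Pool.Agent.Lib.H79T.W2
import Pool.Agent.Lib.H79T.N3
import Pool.Agent.Lib.H79T.A7

/-!
# Chunk M1 (M)
Assembly (abstract). `strict_nonneg`: `Dat k P A B C`, `Pos1s d A B C`, `0 < k`. `slemma` (hypothesis from `dat_null`): `t` with `P + t S` positive; `TT_shift`; the shifted data satisfies `Dat` (`q6_shift`, `stf (g6 x y) = 0`:
from `pf_sk`, `sk_g6`, `pf (u ∧ v) = 0`), so we may assume `Ps P`. If `q6 (Wm A B C) x ≥ 0` for all `x`: `TT = k T0 P + pr P Wm ≥ 0` (`T0_nonneg`, `pr_nonneg`). Otherwise `q6 (Wm) x < 0` for some `x`, `stf x ≠ 0`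
by `W_null`. If `stf x < 0`: `g = diagonal ![1, 1, 1, -1]`, `det g = -1`, `g * g = 1`; `L` from `exL`; replace the data by `dat_act` (`m = 1`), `Ps` by `ps_act`, `TT_act`, `Wm_act`; `Pos1s d` is preserved (`MM_act`, `g` orthogonal); the vector `x' = L x`:
`L L x = x` (`sk_inj`, `g g = 1`), `q6 (Wm') x' = q6 Wm (L x') = q6 Wm x < 0`, `stf x' = - stf x > 0`. If `stf x > 0`: `exists_min` (`W_null`), `exists_NF`, then `exL g`, `dat_act`, `ps_act`, `TT_act`, `core_scaled`.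
`dat_nonneg`: `eps_lim`, `dat_eps`, `eps_pos1s`, `dat_k`.
-/

set_option autoImplicit false

open Matrix Finset

namespace H79T

open Pool.Agent.H69Hopf (Arr IsAlgCurv ev area2 idA)
open H30K (gb KB Cyc)
open H21C (Ty)

private theorem m1_q6 (P L : M6) (x : Fin 6 → ℝ) : q6 (Lᵀ * P * L) x = q6 P (L *ᵥ x) := by
  unfold q6
  rw [← Matrix.mulVec_mulVec, ← Matrix.mulVec_mulVec, Matrix.dotProduct_mulVec, Matrix.vecMul_transpose]

private theorem m1_stf (x y : Fin 4 → ℝ) : stf (g6 x y) = 0 := by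
  simp only [stf, g6, dotProduct, mulVec, Fin.sum_univ_succ, Fin.sum_univ_zero, sg, JJ, JL, JR]
  simp
  ring

theorem strict_pos {k : ℝ} (hk : 0 < k) {P : M6} {A B C : M4} (hD : Dat k P A B C) {d : ℝ} (hd : 0 < d) (hp : Pos1s d A B C)
    (hP : Ps P) {x : Fin 6 → ℝ} (hx : 0 < stf x) (hW : q6 (Wm A B C) x < 0) : 0 ≤ TT k P A B C := by
  obtain ⟨x0, h1, hneg, hmin⟩ := exists_min (Wm A B C)
    (fun y hy h0 => W_null hd hD.sA hD.sB hD.sC hp y hy h0) ⟨x, hx, hW⟩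
  obtain ⟨g, m, hg, hm, hN⟩ := exists_NF hd hD.sA hD.sB hD.sC hp x0 h1 hneg hmin
  obtain ⟨L, hL⟩ := exL g
  have hD' := dat_act hD hL hm
  have hg2 : g.det ^ 2 = 1 := by rw [hg]; norm_num
  have hT := TT_act (k := k) (A := A) (B := B) (C := C) hD.sP hL hg2 hm
  rw [← hT]
  exact core_scaled hk hN hD' (ps_act hP L)

/-- the reflection -/
private def rf : M4 := Matrix.diagonal ![1, 1, 1, -1]

private theorem rf_sq : rf * rf = 1 := by
  unfold rf
  rw [Matrix.diagonal_mul_diagonal, ← Matrix.diagonal_one]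
  congr 1
  funext i
  fin_cases i <;> simp

private theorem rf_tr : rfᵀ = rf := Matrix.diagonal_transpose _

private theorem rf_det : rf.det = -1 := by
  unfold rf
  rw [Matrix.det_diagonal]
  simp [Fin.prod_univ_succ]

private theorem rf_dot (x : Fin 4 → ℝ) : (rf *ᵥ x) ⬝ᵥ (rf *ᵥ x) = x ⬝ᵥ x := by
  rw [Matrix.dotProduct_mulVec, ← Matrix.mulVec_transpose, rf_tr, Matrix.mulVec_mulVec, rf_sq, Matrix.one_mulVec]

private theorem m1_refl {k : ℝ} (hk : 0 < k) {P : M6} {A B C : M4} (hD : Dat k P A B C) {d : ℝ} (hd : 0 < d)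
    (hp : Pos1s d A B C) (hP : Ps P) {x : Fin 6 → ℝ} (hx : stf x < 0) (hW : q6 (Wm A B C) x < 0) :
    0 ≤ TT k P A B C := by
  obtain ⟨L, hL⟩ := exL rf
  have hm : (1 : M2).det = 1 := Matrix.det_one
  have hD' := dat_act hD hL hm
  have hd2 : rf.det ^ 2 = 1 := by rw [rf_det]; norm_num
  have hT := TT_act (k := k) (A := A) (B := B) (C := C) hD.sP hL hd2 hm
  have hp' : Pos1s d (aA rf 1 A B C) (aB rf 1 A B C) (aC rf 1 A B C) := by
    intro y s t
    rw [MM_act rf 1 hD.sA hD.sB hD.sC]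
    have h1 := hp (rf *ᵥ y) s t
    rw [rf_dot] at h1
    have e1 : (1 : M2) 0 0 • (rf *ᵥ (s • y)) + (1 : M2) 0 1 • (rf *ᵥ (t • y)) = s • (rf *ᵥ y) := by
      simp [Matrix.mulVec_smul]
    have e2 : (1 : M2) 1 0 • (rf *ᵥ (s • y)) + (1 : M2) 1 1 • (rf *ᵥ (t • y)) = t • (rf *ᵥ y) := by
      simp [Matrix.mulVec_smul]
    rw [e1, e2]
    exact h1
  have hLL : L *ᵥ (L *ᵥ x) = x := by
    apply sk_inj
    rw [hL, hL, rf_tr]
    have h2 : rf * (rf * sk x * rf) * rf = (rf * rf) * sk x * (rf * rf) := by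
      simp only [Matrix.mul_assoc]
    rw [h2, rf_sq, Matrix.one_mul, Matrix.mul_one]
  have hW' : q6 (Wm (aA rf 1 A B C) (aB rf 1 A B C) (aC rf 1 A B C)) (L *ᵥ x) < 0 := by
    rw [Wm_act hL hm, m1_q6, hLL]
    exact hW
  have hx' : 0 < stf (L *ᵥ x) := by
    rw [stf_L hL, rf_det]
    linarith
  rw [← hT]
  exact strict_pos hk hD' hd hp' (ps_act hP L) hx' hW'

theorem strict_nonneg {k : ℝ} (hk : 0 < k) {P : M6} {A B C : M4} (hD : Dat k P A B C) {d : ℝ} (hd : 0 < d) (hp : Pos1s d A B C) :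
    0 ≤ TT k P A B C := by
  obtain ⟨t, ht⟩ := slemma P hD.sP (dat_null hD)
  have hsP : (P + t • Matrix.diagonal sg)ᵀ = P + t • Matrix.diagonal sg := by
    rw [Matrix.transpose_add, Matrix.transpose_smul, Matrix.diagonal_transpose, hD.sP]
  have hD' : Dat k (P + t • Matrix.diagonal sg) A B C := by
    refine ⟨hsP, hD.sA, hD.sB, hD.sC, fun x y c => ?_⟩
    rw [q6_shift, m1_stf, mul_zero, add_zero]
    exact hD.K x y c
  have hP' : Ps (P + t • Matrix.diagonal sg) := ⟨hsP, ht⟩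
  rw [← TT_shift k P t A B C hD.sA hD.sB hD.sC]
  by_cases hW : ∀ x, 0 ≤ q6 (Wm A B C) x
  · unfold TT
    exact add_nonneg (mul_nonneg hk.le (T0_nonneg hP')) (pr_nonneg hP' hW)
  · push Not at hW
    obtain ⟨x, hx⟩ := hW
    rcases lt_trichotomy (stf x) 0 with h | h | h
    · exact m1_refl hk hD' hd hp hP' h hx
    · exfalso
      by_cases hx0 : x = 0
      · rw [hx0] at hx
        unfold q6 at hx
        rw [zero_dotProduct] at hx
        exact lt_irrefl _ hx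
      · exact lt_asymm hx (W_null hd hD.sA hD.sB hD.sC hp x hx0 h)
    · exact strict_pos hk hD' hd hp hP' h hx

theorem dat_nonneg {k : ℝ} {P : M6} {A B C : M4} (hD : Dat k P A B C) : 0 ≤ TT k P A B C := by
  refine eps_lim (fun e he => ?_)
  have h1 := dat_k hD
  exact strict_nonneg (by linarith) (dat_eps hD he) he (eps_pos1s hD he)

end H79T
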