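import Pool.Agent.Lib.H79T.A1

/-!
# Chunk W1 (M)
Positivity of `W` on decomposable skew matrices. `X = u ∧ v = u vᵀ - v uᵀ`. `WW_wd`: for symmetric `A, B, C`
`WW A B C X X = (1/2) (2 (uBv)² - 2 (uBu)(vBv) - 2 (uAv)(uCv) + (uAu)(vCv) + (uCu)(vAv))` (`trace (A u vᵀ C u vᵀ) = (vᵀ C u)(vᵀ A u)` etc.,
`Matrix.trace_mul_comm`, `vecMulVec`). `two_two`: numbers `a1 = uAu, a2 = uAv, a3 = vAv`, `b1, b2, b3`, `c1, c2, c3`; hypothesis (rank one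
positivity at `x = s u + t v`): for all `s t` and `e f`: `d (s²+t²)(e²+f²) ≤ e² (a1 s² + 2 a2 s t + a3 t²) + 2 e f (b..) + f² (c..)`, `d > 0`. Claim
`0 < a1 c3 + a3 c1 - 2 a2 c2 - 2 (b1 b3 - b2²)`. Proof: the discriminant in `(e, f)`: with `α = a - d`, `γ = c - d` (i.e. `α1 = a1 - d`, `α2 = a2`,
`α3 = a3 - d`): `α(s,t) ≥ 0`, `γ(s,t) ≥ 0`, `β(s,t)² ≤ α(s,t) γ(s,t)` for all `s t`. First `G := α1 γ3 + α3 γ1 - 2 α2 γ2 - 2 (β1 β3 - β2²) ≥ 0`: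
rotate `(s, t)` so that `α2 = 0` (orthogonal diagonalisation of a symmetric 2 x 2 matrix; `G` is invariant under rotations; or: `G` is
invariant under `s → s + r t` if ..): if `α2 = 0`: `β1² ≤ α1 γ1`, `β3² ≤ α3 γ3`, so `α1 γ3 + α3 γ1 ≥ 2 sqrt(α1 γ1 α3 γ3) ≥ 2 |β1 β3|` (AM-GM). Then
`a1 c3 + a3 c1 - 2 a2 c2 - 2(b1 b3 - b2²) = G + d (α1 + α3 + γ1 + γ3) + 2 d²`, positive. (Instead of the rotation: `β² ≤ α γ` at `(s,t)` and a direct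
argument if `α1 = 0` (then `α2 = 0`), and for `α1 > 0` the shear `t → t`, `s → s - (α2/α1) t` makes `α2 = 0` and does not change `G` (determinant 1).)
-/

set_option autoImplicit false

open Matrix Finset

namespace H79T

open Pool.Agent.H69Hopf (Arr IsAlgCurv ev area2 idA)
open H30K (gb KB Cyc)
open H21C (Ty)

theorem w1_tr (M N : M4) (a b c d : Fin 4 → ℝ) :
    (M * vecMulVec a b * N * vecMulVec c d).trace = (b ⬝ᵥ (N *ᵥ c)) * (d ⬝ᵥ (M *ᵥ a)) := by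
  rw [Matrix.mul_vecMulVec, Matrix.trace_vecMulVec, ← Matrix.mulVec_mulVec,
    ← Matrix.mulVec_mulVec, Matrix.vecMulVec_mulVec, op_smul_eq_smul, Matrix.mulVec_smul,
    smul_dotProduct, smul_eq_mul, dotProduct_comm (M *ᵥ a) d]

theorem w1_symm (M : M4) (hM : Mᵀ = M) (u v : Fin 4 → ℝ) : v ⬝ᵥ (M *ᵥ u) = u ⬝ᵥ (M *ᵥ v) := by
  rw [dotProduct_comm, ← Matrix.vecMul_transpose, hM, ← Matrix.dotProduct_mulVec]

theorem w1_trX (M N : M4) (hM : Mᵀ = M) (hN : Nᵀ = N) (u v : Fin 4 → ℝ) :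
    (M * (vecMulVec u v - vecMulVec v u) * N * (vecMulVec u v - vecMulVec v u)).trace =
      2 * (u ⬝ᵥ (M *ᵥ v)) * (u ⬝ᵥ (N *ᵥ v)) - (v ⬝ᵥ (N *ᵥ v)) * (u ⬝ᵥ (M *ᵥ u))
        - (u ⬝ᵥ (N *ᵥ u)) * (v ⬝ᵥ (M *ᵥ v)) := by
  have h : M * (vecMulVec u v - vecMulVec v u) * N * (vecMulVec u v - vecMulVec v u) =
      M * vecMulVec u v * N * vecMulVec u v - M * vecMulVec u v * N * vecMulVec v u
        - M * vecMulVec v u * N * vecMulVec u v + M * vecMulVec v u * N * vecMulVec v u := by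
    noncomm_ring
  rw [h, Matrix.trace_add, Matrix.trace_sub, Matrix.trace_sub, w1_tr, w1_tr, w1_tr, w1_tr,
    w1_symm M hM u v, w1_symm N hN u v]
  ring

theorem w1_disc (A B C : ℝ) (h : ∀ e f : ℝ, 0 ≤ e ^ 2 * A + 2 * e * f * B + f ^ 2 * C) :
    0 ≤ A ∧ 0 ≤ C ∧ B ^ 2 ≤ A * C := by
  have hA : 0 ≤ A := by
    have := h 1 0
    linarith
  have hC : 0 ≤ C := by
    have := h 0 1
    linarith
  refine ⟨hA, hC, ?_⟩
  rcases eq_or_lt_of_le hA with hA0 | hA0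
  · by_cases hB : B = 0
    · rw [hB, ← hA0]
      simp
    · exfalso
      have h1 := h (-(C + 1) / (2 * B)) 1
      have e : 2 * (-(C + 1) / (2 * B)) * 1 * B = -(C + 1) := by
        field_simp
      rw [e, ← hA0] at h1
      linarith
  · have h1 := h B (-A)
    have h2 : 0 ≤ A * (A * C - B ^ 2) := by
      have e : B ^ 2 * A + 2 * B * (-A) * B + (-A) ^ 2 * C = A * (A * C - B ^ 2) := by ring
      rwa [e] at h1
    have h3 := nonneg_of_mul_nonneg_right h2 hA0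
    linarith

theorem w1_amgm (x y z w : ℝ) (hx : 0 ≤ x) (hy : 0 ≤ y) (h : (z * w) ^ 2 ≤ x * y) :
    2 * (z * w) ≤ x + y := by
  refine le_of_sq_le_sq ?_ (by linarith)
  nlinarith [sq_nonneg (x - y)]

theorem w1_G (a1 a2 a3 b1 b2 b3 c1 c2 c3 : ℝ)
    (h : ∀ s t e f : ℝ, 0 ≤ e ^ 2 * (a1 * s ^ 2 + 2 * a2 * s * t + a3 * t ^ 2) +
      2 * e * f * (b1 * s ^ 2 + 2 * b2 * s * t + b3 * t ^ 2) + f ^ 2 * (c1 * s ^ 2 + 2 * c2 * s * t + c3 * t ^ 2)) :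
    0 ≤ a1 * c3 + a3 * c1 - 2 * a2 * c2 - 2 * (b1 * b3 - b2 ^ 2) := by
  have hd : ∀ s t : ℝ, 0 ≤ a1 * s ^ 2 + 2 * a2 * s * t + a3 * t ^ 2 ∧ 0 ≤ c1 * s ^ 2 + 2 * c2 * s * t + c3 * t ^ 2 ∧
      (b1 * s ^ 2 + 2 * b2 * s * t + b3 * t ^ 2) ^ 2 ≤
        (a1 * s ^ 2 + 2 * a2 * s * t + a3 * t ^ 2) * (c1 * s ^ 2 + 2 * c2 * s * t + c3 * t ^ 2) :=
    fun s t => w1_disc _ _ _ (h s t)
  obtain ⟨h10a, h10c, h10b⟩ := hd 1 0
  have ha1 : 0 ≤ a1 := by linarith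
  have hc1 : 0 ≤ c1 := by linarith
  have hb1 : b1 ^ 2 ≤ a1 * c1 := by
    have e1 : (b1 * 1 ^ 2 + 2 * b2 * 1 * 0 + b3 * 0 ^ 2) = b1 := by ring
    have e2 : (a1 * 1 ^ 2 + 2 * a2 * 1 * 0 + a3 * 0 ^ 2) = a1 := by ring
    have e3 : (c1 * 1 ^ 2 + 2 * c2 * 1 * 0 + c3 * 0 ^ 2) = c1 := by ring
    rwa [e1, e2, e3] at h10b
  rcases eq_or_lt_of_le ha1 with h0 | h0
  · have ha2 : a2 = 0 := by
      have hq := w1_disc a1 a2 a3 (fun e f => by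
        have := (hd e f).1
        have e1 : e ^ 2 * a1 + 2 * e * f * a2 + f ^ 2 * a3 = a1 * e ^ 2 + 2 * a2 * e * f + a3 * f ^ 2 := by ring
        rwa [e1])
      have h1 := hq.2.2
      rw [← h0, zero_mul] at h1
      exact pow_eq_zero_iff (two_ne_zero) |>.1 (le_antisymm h1 (sq_nonneg _))
    have hb : b1 = 0 := by
      rw [← h0, zero_mul] at hb1
      exact pow_eq_zero_iff (two_ne_zero) |>.1 (le_antisymm hb1 (sq_nonneg _))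
    have ha3 : 0 ≤ a3 := by
      have := (hd 0 1).1
      linarith
    rw [ha2, hb, ← h0]
    have := mul_nonneg ha3 hc1
    nlinarith [sq_nonneg b2]
  · set r : ℝ := a2 / a1 with hr
    have hra : r * a1 = a2 := by rw [hr]; field_simp
    obtain ⟨hA, hC, hB⟩ := hd (-r) 1
    set A : ℝ := a1 * (-r) ^ 2 + 2 * a2 * (-r) * 1 + a3 * 1 ^ 2 with hAd
    set C : ℝ := c1 * (-r) ^ 2 + 2 * c2 * (-r) * 1 + c3 * 1 ^ 2 with hCd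
    set B : ℝ := b1 * (-r) ^ 2 + 2 * b2 * (-r) * 1 + b3 * 1 ^ 2 with hBd
    have h1 : 2 * (b1 * B) ≤ a1 * C + A * c1 := by
      refine w1_amgm _ _ _ _ (mul_nonneg ha1 hC) (mul_nonneg hA hc1) ?_
      calc (b1 * B) ^ 2 = b1 ^ 2 * B ^ 2 := by ring
        _ ≤ (a1 * c1) * (A * C) := mul_le_mul hb1 hB (sq_nonneg _) (mul_nonneg ha1 hc1)
        _ = a1 * C * (A * c1) := by ring
    have e : a1 * c3 + a3 * c1 - 2 * a2 * c2 - 2 * (b1 * b3 - b2 ^ 2) =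
        (a1 * C + A * c1 - 2 * (b1 * B)) + 2 * (b2 - r * b1) ^ 2 := by
      rw [hAd, hCd, hBd, ← hra]
      ring
    rw [e]
    nlinarith [sq_nonneg (b2 - r * b1)]

theorem WW_wd (A B C : M4) (hA : Aᵀ = A) (hB : Bᵀ = B) (hC : Cᵀ = C) (u v : Fin 4 → ℝ) :
    WW A B C (vecMulVec u v - vecMulVec v u) (vecMulVec u v - vecMulVec v u) =
      (1 / 2) * (2 * (u ⬝ᵥ (B *ᵥ v)) ^ 2 - 2 * (u ⬝ᵥ (B *ᵥ u)) * (v ⬝ᵥ (B *ᵥ v)) - 2 * (u ⬝ᵥ (A *ᵥ v)) * (u ⬝ᵥ (C *ᵥ v))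
        + (u ⬝ᵥ (A *ᵥ u)) * (v ⬝ᵥ (C *ᵥ v)) + (u ⬝ᵥ (C *ᵥ u)) * (v ⬝ᵥ (A *ᵥ v))) := by
  unfold WW
  rw [w1_trX B B hB hB, w1_trX A C hA hC, w1_trX C A hC hA]
  ring

theorem two_two (d a1 a2 a3 b1 b2 b3 c1 c2 c3 : ℝ) (hd : 0 < d)
    (h : ∀ s t e f : ℝ, d * ((s ^ 2 + t ^ 2) * (e ^ 2 + f ^ 2)) ≤ e ^ 2 * (a1 * s ^ 2 + 2 * a2 * s * t + a3 * t ^ 2) +
      2 * e * f * (b1 * s ^ 2 + 2 * b2 * s * t + b3 * t ^ 2) + f ^ 2 * (c1 * s ^ 2 + 2 * c2 * s * t + c3 * t ^ 2)) :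
    0 < a1 * c3 + a3 * c1 - 2 * a2 * c2 - 2 * (b1 * b3 - b2 ^ 2) := by
  have hG := w1_G (a1 - d) a2 (a3 - d) b1 b2 b3 (c1 - d) c2 (c3 - d) (fun s t e f => by
    have h1 := h s t e f
    have e1 : e ^ 2 * ((a1 - d) * s ^ 2 + 2 * a2 * s * t + (a3 - d) * t ^ 2) +
        2 * e * f * (b1 * s ^ 2 + 2 * b2 * s * t + b3 * t ^ 2) +
        f ^ 2 * ((c1 - d) * s ^ 2 + 2 * c2 * s * t + (c3 - d) * t ^ 2) =
        (e ^ 2 * (a1 * s ^ 2 + 2 * a2 * s * t + a3 * t ^ 2) +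
        2 * e * f * (b1 * s ^ 2 + 2 * b2 * s * t + b3 * t ^ 2) +
        f ^ 2 * (c1 * s ^ 2 + 2 * c2 * s * t + c3 * t ^ 2)) -
        d * ((s ^ 2 + t ^ 2) * (e ^ 2 + f ^ 2)) := by ring
    rw [e1]
    linarith)
  have ha1 := h 1 0 1 0
  have ha3 := h 0 1 1 0
  have hc1 := h 1 0 0 1
  have hc3 := h 0 1 0 1
  have ga1 : 0 ≤ a1 - d := by linarith
  have ga3 : 0 ≤ a3 - d := by linarith
  have gc1 : 0 ≤ c1 - d := by linarith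
  have gc3 : 0 ≤ c3 - d := by linarith
  have e : a1 * c3 + a3 * c1 - 2 * a2 * c2 - 2 * (b1 * b3 - b2 ^ 2) =
      ((a1 - d) * (c3 - d) + (a3 - d) * (c1 - d) - 2 * a2 * c2 - 2 * (b1 * b3 - b2 ^ 2)) +
        d * ((a1 - d) + (a3 - d) + (c1 - d) + (c3 - d)) + 2 * d ^ 2 := by ring
  rw [e]
  have h5 : 0 ≤ d * ((a1 - d) + (a3 - d) + (c1 - d) + (c3 - d)) :=
    mul_nonneg hd.le (by linarith)
  have h6 : 0 < 2 * d ^ 2 := by positivity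
  linarith

end H79T
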